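import Pool.Graph.R_pool_sql_team_seeded_3997aac3.Q151.FAL.T12

/-!
# The strict tangent inequality for three and for four corners
-/

set_option autoImplicit false

namespace Pool.Agent.H760.TC

open Finset Filter Topology
open Pool.Agent.W719.BS (D LL er PP PP_mid PP_unif D_pos er_tendsto LL_exp LL_cont)
open Pool.Agent.W358.BSTay (gg gg_deriv)
open Pool.Agent.Q151.FW (quad tan)
open Pool.Agent.Q99.FAL.T12 (cot_near quad')

/-- positivity of the form of three cotangents -/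
lemma form3 {A B C : ℝ} (hA : 0 < A) (hB : 0 < B) (hC : 0 < C) (hs : A + B + C = 1) :
    ∃ κ : ℝ, 0 < κ ∧ ∀ x y : ℝ, κ * (x ^ 2 + y ^ 2 + (x + y) ^ 2) ≤
      Real.cos (Real.pi * A) / Real.sin (Real.pi * A) * x ^ 2 +
      Real.cos (Real.pi * B) / Real.sin (Real.pi * B) * y ^ 2 +
      Real.cos (Real.pi * C) / Real.sin (Real.pi * C) * (x + y) ^ 2 := by
  have hpi := Real.pi_pos
  have sA : 0 < Real.sin (Real.pi * A) :=
    Real.sin_pos_of_pos_of_lt_pi (by positivity) (by nlinarith)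
  have sB : 0 < Real.sin (Real.pi * B) :=
    Real.sin_pos_of_pos_of_lt_pi (by positivity) (by nlinarith)
  have sC : 0 < Real.sin (Real.pi * C) :=
    Real.sin_pos_of_pos_of_lt_pi (by positivity) (by nlinarith)
  have e0 : Real.pi * C = Real.pi - (Real.pi * A + Real.pi * B) := by
    have : C = 1 - A - B := by linarith
    rw [this]
    ring
  have e1 : Real.sin (Real.pi * C) = Real.sin (Real.pi * A) * Real.cos (Real.pi * B) +
      Real.cos (Real.pi * A) * Real.sin (Real.pi * B) := by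
    rw [e0, Real.sin_pi_sub, Real.sin_add]
  have e2 : Real.cos (Real.pi * C) = Real.sin (Real.pi * A) * Real.sin (Real.pi * B) -
      Real.cos (Real.pi * A) * Real.cos (Real.pi * B) := by
    rw [e0, Real.cos_pi_sub, Real.cos_add]
    ring
  obtain ⟨p, hp⟩ : ∃ p, p = Real.cos (Real.pi * A) / Real.sin (Real.pi * A) := ⟨_, rfl⟩
  obtain ⟨q, hq⟩ : ∃ q, q = Real.cos (Real.pi * B) / Real.sin (Real.pi * B) := ⟨_, rfl⟩
  obtain ⟨s, hs'⟩ : ∃ s, s = Real.cos (Real.pi * C) / Real.sin (Real.pi * C) := ⟨_, rfl⟩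
  have hpq : p + q = Real.sin (Real.pi * C) / (Real.sin (Real.pi * A) * Real.sin (Real.pi * B)) := by
    rw [hp, hq, e1]
    field_simp
    ring
  have hpos : 0 < p + q := by rw [hpq]; positivity
  have hsv : s * (p + q) = 1 - p * q := by
    rw [hs', hpq, hp, hq, e2]
    field_simp
  rw [← hp, ← hq, ← hs']
  obtain ⟨M, hM⟩ : ∃ M, M = (4 + 2 * p ^ 2 + 2 * q ^ 2) / (p + q) ^ 2 + 1 := ⟨_, rfl⟩
  have hM0 : 0 < M := by rw [hM]; positivity
  refine ⟨1 / ((p + q) * M), by positivity, fun x y => ?_⟩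
  obtain ⟨T, hT⟩ : ∃ T, T = (p * x - q * y) ^ 2 + (x + y) ^ 2 := ⟨_, rfl⟩
  have h1 : (p * x ^ 2 + q * y ^ 2 + s * (x + y) ^ 2) * (p + q) = T := by
    rw [hT]
    linear_combination (x + y) ^ 2 * hsv
  have h2 : (p + q) ^ 2 * (x ^ 2 + y ^ 2) ≤ (4 + 2 * p ^ 2 + 2 * q ^ 2) * T := by
    obtain ⟨u, hu⟩ : ∃ u, u = p * x - q * y := ⟨_, rfl⟩
    obtain ⟨v, hv⟩ : ∃ v, v = x + y := ⟨_, rfl⟩
    have h3 : (p + q) ^ 2 * (x ^ 2 + y ^ 2) = (u + q * v) ^ 2 + (p * v - u) ^ 2 := by
      rw [hu, hv]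
      ring
    rw [h3, hT, ← hu, ← hv]
    nlinarith [sq_nonneg (u - q * v), sq_nonneg (p * v + u), sq_nonneg u, sq_nonneg v,
      mul_nonneg (sq_nonneg p) (sq_nonneg u), mul_nonneg (sq_nonneg q) (sq_nonneg u)]
  have h4 : x ^ 2 + y ^ 2 + (x + y) ^ 2 ≤ M * T := by
    have h5 : x ^ 2 + y ^ 2 ≤ (4 + 2 * p ^ 2 + 2 * q ^ 2) / (p + q) ^ 2 * T := by
      rw [div_mul_eq_mul_div, le_div_iff₀ (by positivity)]
      linarith
    have h6 : (x + y) ^ 2 ≤ T := by
      rw [hT]
      nlinarith [sq_nonneg (p * x - q * y)]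
    rw [hM]
    linarith
  rw [div_mul_eq_mul_div, one_mul, div_le_iff₀ (by positivity)]
  calc x ^ 2 + y ^ 2 + (x + y) ^ 2 ≤ M * T := h4
    _ = _ := by rw [← h1]; ring

/-- the local form of the strict inequality -/
lemma loc3 {A B C : ℝ} (hA : 0 < A) (hB : 0 < B) (hC : 0 < C) (hs : A + B + C = 1) :
    ∃ r κ : ℝ, 0 < r ∧ 0 < κ ∧ ∀ a b c : ℝ, a + b + c = 1 → |a - A| < r → |b - B| < r →
      |c - C| < r →
      LL A + LL B + LL C + gg A * (a - A) + gg B * (b - B) + gg C * (c - C) +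
        κ * ((a - A) ^ 2 + (b - B) ^ 2 + (c - C) ^ 2) ≤ LL a + LL b + LL c := by
  have hpi := Real.pi_pos
  obtain ⟨κ, hκ, hform⟩ := form3 hA hB hC hs
  have near : ∀ x : ℝ, 0 < x → x < 1 → ∃ r : ℝ, 0 < r ∧ ∀ t : ℝ, |t - x| < r →
      (Real.cos (Real.pi * x) / Real.sin (Real.pi * x) - κ / 2) * Real.sin (Real.pi * t) ≤
        Real.cos (Real.pi * t) := by
    intro x h0 h1
    have sx : 0 < Real.sin (Real.pi * x) :=
      Real.sin_pos_of_pos_of_lt_pi (by positivity) (by nlinarith)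
    apply cot_near
    have : (Real.cos (Real.pi * x) / Real.sin (Real.pi * x) - κ / 2) * Real.sin (Real.pi * x) =
        Real.cos (Real.pi * x) - κ / 2 * Real.sin (Real.pi * x) := by
      field_simp
    rw [this]
    have := mul_pos (half_pos hκ) sx
    linarith
  obtain ⟨r1, hr1, c1⟩ := near A hA (by linarith)
  obtain ⟨r2, hr2, c2⟩ := near B hB (by linarith)
  obtain ⟨r3, hr3, c3⟩ := near C hC (by linarith)
  obtain ⟨m, hm, m1, m2, m3⟩ : ∃ m : ℝ, 0 < m ∧ m < A ∧ m < B ∧ m < C := by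
    refine ⟨min A (min B C) / 2, by positivity, ?_, ?_, ?_⟩
    · have := min_le_left A (min B C)
      linarith
    · have := (min_le_right A (min B C)).trans (min_le_left B C)
      linarith
    · have := (min_le_right A (min B C)).trans (min_le_right B C)
      linarith
  obtain ⟨r, hr, l1, l2, l3, l4⟩ : ∃ r : ℝ, 0 < r ∧ r ≤ r1 ∧ r ≤ r2 ∧ r ≤ r3 ∧ r ≤ m := by
    refine ⟨min (min r1 r2) (min r3 m), by positivity, ?_, ?_, ?_, ?_⟩
    · exact (min_le_left _ _).trans (min_le_left _ _)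
    · exact (min_le_left _ _).trans (min_le_right _ _)
    · exact (min_le_right _ _).trans (min_le_left _ _)
    · exact (min_le_right _ _).trans (min_le_right _ _)
  refine ⟨r, Real.pi / 4 * κ, hr, by positivity, fun a b c hsum ha hb hc => ?_⟩
  have q1 := quad' (A := A) (r := r) (by linarith) (by linarith) hr
    (fun t ht => c1 t (ht.trans_le l1)) ha
  have q2 := quad' (A := B) (r := r) (by linarith) (by linarith) hr
    (fun t ht => c2 t (ht.trans_le l2)) hb
  have q3 := quad' (A := C) (r := r) (by linarith) (by linarith) hr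
    (fun t ht => c3 t (ht.trans_le l3)) hc
  have hf := hform (a - A) (b - B)
  have e : a - A + (b - B) = -(c - C) := by linarith
  rw [e, neg_sq] at hf
  have hf2 := mul_le_mul_of_nonneg_left hf (by positivity : 0 ≤ Real.pi / 2)
  nlinarith

/-- **the strict tangent inequality for a triangle** -/
lemma glob3 {A B C : ℝ} (hA : 0 < A) (hB : 0 < B) (hC : 0 < C) (hs : A + B + C = 1) :
    ∃ κ : ℝ, 0 < κ ∧ ∀ a b c : ℝ, 0 ≤ a → 0 ≤ b → 0 ≤ c → a + b + c = 1 →
      LL A + LL B + LL C + gg A * (a - A) + gg B * (b - B) + gg C * (c - C) +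
        κ * ((a - A) ^ 2 + (b - B) ^ 2 + (c - C) ^ 2) ≤ LL a + LL b + LL c := by
  obtain ⟨r, κ, hr, hκ, hloc⟩ := loc3 hA hB hC hs
  obtain ⟨t, ht0, htr, ht1⟩ : ∃ t : ℝ, 0 < t ∧ t < r ∧ t < 1 :=
    ⟨min r 1 / 2, by positivity, by have := min_le_left r 1; linarith,
      by have := min_le_right r 1; linarith⟩
  refine ⟨t * κ, by positivity, fun a b c ha hb hc hsum => ?_⟩
  have ea : a * t + A * (1 - t) - A = t * (a - A) := by ring
  have eb : b * t + B * (1 - t) - B = t * (b - B) := by ring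
  have ec : c * t + C * (1 - t) - C = t * (c - C) := by ring
  have habs : ∀ u : ℝ, -1 ≤ u → u ≤ 1 → |t * u| < r := by
    intro u h1 h2
    rw [abs_mul, abs_of_pos ht0]
    have : |u| ≤ 1 := abs_le.2 ⟨h1, h2⟩
    nlinarith [abs_nonneg u]
  have p1 := hloc (a * t + A * (1 - t)) (b * t + B * (1 - t))
    (c * t + C * (1 - t)) (by linear_combination t * hsum + (1 - t) * hs)
    (by rw [ea]; exact habs _ (by linarith) (by linarith))
    (by rw [eb]; exact habs _ (by linarith) (by linarith))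
    (by rw [ec]; exact habs _ (by linarith) (by linarith))
  have ht1' : 0 < 1 - t := by linarith
  have g1 : 0 < a * t + A * (1 - t) := by positivity
  have g2 : 0 < b * t + B * (1 - t) := by positivity
  have g3 : 0 < c * t + C * (1 - t) := by positivity
  have gs : a * t + A * (1 - t) + (b * t + B * (1 - t)) + (c * t + C * (1 - t)) = 1 := by
    linear_combination t * hsum + (1 - t) * hs
  have p2 := tan (x' := a) (y' := b) (z' := c) g1 g2 g3 gs ha hb hc hsum
  have p3 := tan (x' := A) (y' := B) (z' := C) g1 g2 g3 gs hA.le hB.le hC.le hs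
  rw [ea, eb, ec] at p1
  have h4 : LL (a * t + A * (1 - t)) + LL (b * t + B * (1 - t)) + LL (c * t + C * (1 - t)) ≤
      t * (LL a + LL b + LL c) + (1 - t) * (LL A + LL B + LL C) := by
    have h5 := mul_le_mul_of_nonneg_left p2 ht0.le
    have h6 := mul_le_mul_of_nonneg_left p3 ht1'.le
    have h7 := add_le_add h5 h6
    have e7 : t * (-(LL (a * t + A * (1 - t)) + LL (b * t + B * (1 - t)) + LL (c * t + C * (1 - t))) -
        (a - (a * t + A * (1 - t))) * gg (a * t + A * (1 - t)) -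
        (b - (b * t + B * (1 - t))) * gg (b * t + B * (1 - t)) -
        (c - (c * t + C * (1 - t))) * gg (c * t + C * (1 - t))) +
      (1 - t) * (-(LL (a * t + A * (1 - t)) + LL (b * t + B * (1 - t)) + LL (c * t + C * (1 - t))) -
        (A - (a * t + A * (1 - t))) * gg (a * t + A * (1 - t)) -
        (B - (b * t + B * (1 - t))) * gg (b * t + B * (1 - t)) -
        (C - (c * t + C * (1 - t))) * gg (c * t + C * (1 - t))) =
      -(LL (a * t + A * (1 - t)) + LL (b * t + B * (1 - t)) + LL (c * t + C * (1 - t))) := by ring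
    rw [e7] at h7
    linarith
  have h8 : t * (LL A + LL B + LL C + gg A * (a - A) + gg B * (b - B) + gg C * (c - C) +
      t * κ * ((a - A) ^ 2 + (b - B) ^ 2 + (c - C) ^ 2)) ≤ t * (LL a + LL b + LL c) := by
    have h9 : κ * ((t * (a - A)) ^ 2 + (t * (b - B)) ^ 2 + (t * (c - C)) ^ 2)
        = t * (t * κ * ((a - A) ^ 2 + (b - B) ^ 2 + (c - C) ^ 2)) := by
      ring
    rw [h9] at p1
    linarith
  exact le_of_mul_le_mul_left h8 ht0

/-- **the strict tangent inequality for four corners** -/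
theorem glob4 (a : Fin 4 → ℝ) (ha : ∀ i, 0 < a i) (hs : a 0 + a 1 + a 2 + a 3 = 1) :
    ∃ κ : ℝ, 0 < κ ∧ ∀ y : Fin 4 → ℝ, (∀ i, 0 ≤ y i) → y 0 + y 1 + y 2 + y 3 = 1 →
      ∑ i, LL (a i) + ∑ i, gg (a i) * (y i - a i) + κ * ∑ i, (y i - a i) ^ 2 ≤ ∑ i, LL (y i) := by
  have h0 := ha 0
  have h1 := ha 1
  have h2 := ha 2
  have h3 := ha 3
  obtain ⟨k1, hk1, g1⟩ := glob3 (A := a 0) (B := a 1) (C := a 2 + a 3) h0 h1 (by linarith)
    (by linarith)
  obtain ⟨k2, hk2, g2⟩ := glob3 (A := a 2) (B := a 3) (C := a 0 + a 1) h2 h3 (by linarith)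
    (by linarith)
  refine ⟨min k1 k2, lt_min hk1 hk2, fun y hy hys => ?_⟩
  have y0 := hy 0
  have y1 := hy 1
  have y2 := hy 2
  have y3 := hy 3
  have p1 := g1 (y 0) (y 1) (y 2 + y 3) y0 y1 (by linarith) (by linarith)
  have p2 := g2 (y 2) (y 3) (y 0 + y 1) y2 y3 (by linarith) (by linarith)
  have s1 : LL (a 0 + a 1) = -LL (a 2 + a 3) := by
    have := Pool.Agent.W51.BS.LL_symm (a 2 + a 3)
    have e : (1 : ℝ) - (a 2 + a 3) = a 0 + a 1 := by linarith
    rw [e] at this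
    linarith
  have s2 : LL (y 0 + y 1) = -LL (y 2 + y 3) := by
    have := Pool.Agent.W51.BS.LL_symm (y 2 + y 3)
    have e : (1 : ℝ) - (y 2 + y 3) = y 0 + y 1 := by linarith
    rw [e] at this
    linarith
  have s3 : gg (a 0 + a 1) = gg (a 2 + a 3) := by
    unfold gg
    have e : Real.pi * (a 0 + a 1) = Real.pi - Real.pi * (a 2 + a 3) := by
      have : a 0 + a 1 = 1 - (a 2 + a 3) := by linarith
      rw [this]
      ring
    rw [e, Real.sin_pi_sub]
  rw [s1, s2, s3] at p2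
  have e4 : y 0 + y 1 - (a 0 + a 1) = -(y 2 + y 3 - (a 2 + a 3)) := by linarith
  rw [e4] at p2
  simp only [Fin.sum_univ_four]
  have m1 := min_le_left k1 k2
  have m2 := min_le_right k1 k2
  have q1 : min k1 k2 * ((y 0 - a 0) ^ 2 + (y 1 - a 1) ^ 2) ≤
      k1 * ((y 0 - a 0) ^ 2 + (y 1 - a 1) ^ 2) := mul_le_mul_of_nonneg_right m1 (by positivity)
  have q2 : min k1 k2 * ((y 2 - a 2) ^ 2 + (y 3 - a 3) ^ 2) ≤
      k2 * ((y 2 - a 2) ^ 2 + (y 3 - a 3) ^ 2) := mul_le_mul_of_nonneg_right m2 (by positivity)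
  have q3 : 0 ≤ k1 * (y 2 + y 3 - (a 2 + a 3)) ^ 2 := by positivity
  have q4 : 0 ≤ k2 * (-(y 2 + y 3 - (a 2 + a 3))) ^ 2 := by positivity
  linarith

/-- the loss by a shift -/
lemma pp_bound' {η a : ℝ} (hη : 0 < η) (h0 : 0 < a) (h1 : a < 1) : ∃ K : ℝ, ∀ N c : ℕ, c < N →
    PP N c ≤ η * (N * ((c : ℝ) / N - a) ^ 2) + K := by
  have hpi := Real.pi_pos
  -- a neighbourhood where the derivative is bounded
  obtain ⟨r, hr, hr0, hr1⟩ : ∃ r : ℝ, 0 < r ∧ 2 * r < a ∧ a + 2 * r < 1 := by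
    refine ⟨min a (1 - a) / 4, ?_, ?_, ?_⟩
    · have : 0 < 1 - a := by linarith
      positivity
    · have := min_le_left a (1 - a); linarith
    · have := min_le_right a (1 - a); linarith
  have hcont : ContinuousOn gg (Set.Icc (a - 2 * r) (a + 2 * r)) := by
    intro t ht
    exact (gg_deriv t (by linarith [ht.1]) (by linarith [ht.2])).continuousAt.continuousWithinAt
  obtain ⟨G, hG⟩ := isCompact_Icc.exists_bound_of_continuousOn hcont
  have hG0 : 0 ≤ G := (norm_nonneg _).trans (hG a ⟨by linarith, by linarith⟩)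
  obtain ⟨N₀, hN₀⟩ := PP_unif (η * r ^ 2) (by positivity)
  obtain ⟨N₁, hN₁⟩ := exists_nat_gt (1 / r)
  obtain ⟨B, hB⟩ := (isCompact_Icc : IsCompact (Set.Icc (0 : ℝ) 1)).exists_bound_of_continuousOn
    LL_cont.continuousOn
  have hB0 : 0 ≤ B := (norm_nonneg _).trans (hB 0 ⟨le_rfl, zero_le_one⟩)
  refine ⟨(N₀ + N₁ : ℝ) * (2 * B) + G, fun N c hc => ?_⟩
  have hN0 : (0 : ℝ) < N := by exact_mod_cast (by omega : 0 < N)
  have hq : 0 ≤ η * (N * ((c : ℝ) / N - a) ^ 2) := by positivity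
  have hK : 0 ≤ ((N₀ : ℝ) + N₁) * (2 * B) := by positivity
  have hcN : (c : ℝ) + 1 ≤ N := by exact_mod_cast hc
  by_cases hN : N₀ + N₁ ≤ N
  · by_cases hmid : |(c : ℝ) / N - a| < r
    · have hN1r : 1 / (N : ℝ) < r := by
        have h2 : (N₁ : ℝ) ≤ N := by exact_mod_cast (by omega : N₁ ≤ N)
        rw [div_lt_iff₀ hN0]
        rw [div_lt_iff₀ hr] at hN₁
        nlinarith
      rw [abs_lt] at hmid
      have hx : (c : ℝ) / N < ((c : ℝ) + 1 / 2) / N := by
        gcongr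
        linarith
      have hx2 : ((c : ℝ) + 1 / 2) / N = c / N + 1 / 2 * (1 / N) := by ring
      obtain ⟨t, ht, e⟩ := exists_hasDerivAt_eq_slope LL gg hx
        LL_cont.continuousOn
        (fun t ht => Pool.Agent.Q151.FW.LL_der (by linarith [ht.1]) (by linarith [ht.2]))
      rw [eq_div_iff (by linarith), hx2] at e
      have hgt := (abs_le.1 (hG t ⟨by linarith [ht.1], by linarith [ht.2]⟩)).1
      have h5 : PP N c = -gg t / 2 := by
        unfold PP
        rw [hx2]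
        have h6 : LL (c / N) - LL (c / N + 1 / 2 * (1 / N)) = -gg t * (1 / 2 * (1 / N)) := by
          linarith
        rw [h6]
        field_simp
      rw [h5]
      linarith
    · have h1 := hN₀ N (by omega) c hc
      have hfar : r ^ 2 ≤ ((c : ℝ) / N - a) ^ 2 := by
        rw [not_lt] at hmid
        rw [← sq_abs ((c : ℝ) / N - a)]
        gcongr
      have h2 : η * r ^ 2 * N ≤ η * (N * ((c : ℝ) / N - a) ^ 2) := by
        calc η * r ^ 2 * N = η * (N * r ^ 2) := by ring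
          _ ≤ _ := by gcongr
      linarith
  · have hN' : (N : ℝ) ≤ N₀ + N₁ := by
      have : N ≤ N₀ + N₁ := by omega
      exact_mod_cast this
    have h3 : (c : ℝ) / N ∈ Set.Icc (0 : ℝ) 1 :=
      ⟨by positivity, by rw [div_le_one hN0]; linarith⟩
    have h4 : ((c : ℝ) + 1 / 2) / N ∈ Set.Icc (0 : ℝ) 1 :=
      ⟨by positivity, by rw [div_le_one hN0]; linarith⟩
    have h5 := (abs_le.1 (hB _ h3)).2
    have h6 := (abs_le.1 (hB _ h4)).1
    have h7 : PP N c ≤ N * (2 * B) := by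
      unfold PP
      gcongr
      linarith
    have h8 : (N : ℝ) * (2 * B) ≤ (N₀ + N₁) * (2 * B) := by gcongr
    linarith

end Pool.Agent.H760.TC
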