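import Pool.Agent.H760.TC.Geo5

/-!
# Alternating links in the thickened torus: the asymptotics of the trace
-/

set_option autoImplicit false

namespace Pool.Agent.H760.TC

open Finset Filter Topology
open Pool.Agent.W719.BS (LL)
open Pool.Agent.W358.BSTay (gg)
open Pool.Agent.Q191.TW (cs dl)
open Pool.Agent.Q99.FAL
open Pool.Agent.Q237.FAL (mid ccl dec stp_eq cls_eq mid_len)
open Pool.Agent.H760.TT

variable {D : List Vx} {k m : ℕ}

/-! ### labels of the regions in an arbitrary type -/

section lab
variable {X : Type} [Inhabited X]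

/-- a rotation of the labels -/
def rotX (b : Bool) (c : List X) : List X :=
  if b then c.tail ++ [c.tail.headD default] else (c.dropLast.getLastD default) :: c.dropLast

/-- the first and the last label are the same -/
def PerX (c : List X) : Prop := ∃ x M, c = x :: (M ++ [x])

/-- labels of the regions -/
def LK : (D : List Vx) → (Fin D.length → Fin 4 → X) → List X → List X → Prop
  | [], _, c, c' => c = c'
  | V :: D, κ, c, c' => PerX c ∧ ∃ A B, A.length = V.P.p ∧
      (rotX V.b)^[V.r] c = A ++ κ 0 (lc V.P.ty) :: (low V.P.ty (κ 0) ++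
        κ 0 (Pool.Agent.Q99.FAL.rc V.P.ty) :: B) ∧
      LK D (fun k => κ k.succ) (A ++ κ 0 (lc V.P.ty) :: (mid V.P.ty (κ 0) ++
        κ 0 (Pool.Agent.Q99.FAL.rc V.P.ty) :: B)) c'

omit [Inhabited X] in
lemma PerX.map {c : List X} (h : PerX c) (F : X → ℝ) : Per (c.map F) := by
  obtain ⟨x, M, rfl⟩ := h
  exact ⟨F x, M.map F, by simp⟩

lemma rotX_per (b : Bool) (c : List X) (h : PerX c) : PerX (rotX b c) := by
  obtain ⟨x, M, rfl⟩ := h
  cases b
  · have e : rotX false (x :: (M ++ [x])) = ((x :: M).getLastD default) :: (x :: M) := by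
      unfold rotX
      rw [if_neg (by simp), ← List.cons_append, List.dropLast_concat]
    rw [e]
    rcases List.eq_nil_or_concat (x :: M) with h | ⟨K, l, h⟩
    · simp at h
    · rw [List.concat_eq_append] at h
      rw [h, List.getLastD_concat]
      exact ⟨l, K, rfl⟩
  · have e : rotX true (x :: (M ++ [x])) = (M ++ [x]) ++ [(M ++ [x]).headD default] := by
      simp [rotX]
    rw [e]
    rcases M with _ | ⟨y, M⟩
    · exact ⟨x, [], by simp⟩
    · exact ⟨y, M ++ [x], by simp⟩

lemma rotX_map (F : X → ℝ) (b : Bool) (c : List X) (h : PerX c) :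
    (rotX b c).map F = rotc b (c.map F) := by
  obtain ⟨x, M, rfl⟩ := h
  cases b
  · have e : rotX false (x :: (M ++ [x])) = ((x :: M).getLastD default) :: (x :: M) := by
      unfold rotX
      rw [if_neg (by simp), ← List.cons_append, List.dropLast_concat]
    have e2 : (x :: (M ++ [x])).map F = F x :: (M.map F ++ [F x]) := by simp
    rw [e, e2, rotc_false]
    rcases List.eq_nil_or_concat (x :: M) with h | ⟨K, l, h⟩
    · simp at h
    · rw [List.concat_eq_append] at h
      have h3 : F x :: M.map F = K.map F ++ [F l] := by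
        have := congrArg (List.map F) h
        simpa using this
      rw [h, List.getLastD_concat, h3, List.getLastD_concat]
      simp
  · have e : rotX true (x :: (M ++ [x])) = (M ++ [x]) ++ [(M ++ [x]).headD default] := by
      simp [rotX]
    have e2 : (x :: (M ++ [x])).map F = F x :: (M.map F ++ [F x]) := by simp
    rw [e, e2, rotc_true]
    rcases M with _ | ⟨y, M⟩
    · simp
    · simp

lemma rotXs_map (F : X → ℝ) (b : Bool) (r : ℕ) (c : List X) (h : PerX c) :
    PerX ((rotX b)^[r] c) ∧ ((rotX b)^[r] c).map F = (rotc b)^[r] (c.map F) := by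
  induction r with
  | zero => exact ⟨h, rfl⟩
  | succ r ih =>
    rw [Function.iterate_succ_apply', Function.iterate_succ_apply']
    exact ⟨rotX_per b _ ih.1, by rw [rotX_map F b _ ih.1, ih.2]⟩

lemma low_map {Y : Type} (F : X → Y) (T : Ty) (q : Fin 4 → X) :
    (low T q).map F = low T fun j => F (q j) := by
  cases T <;> rfl

lemma mid_map {Y : Type} (F : X → Y) (T : Ty) (q : Fin 4 → X) :
    (mid T q).map F = mid T fun j => F (q j) := by
  cases T <;> rfl

/-- labels under a map -/
lemma LK_map (F : X → ℝ) : ∀ (D : List Vx) (κ : Fin D.length → Fin 4 → X) (c c' : List X),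
    LK D κ c c' → CK D (fun b q => F (κ b q)) (c.map F) (c'.map F)
  | [], κ, c, c', h => by
    have : c = c' := h
    subst this
    exact rfl
  | V :: D, κ, c, c', h => by
    obtain ⟨hP, A, B, hA, hr, hL⟩ := h
    have ih := LK_map F D (fun k => κ k.succ) _ c' hL
    refine ⟨hP.map F, A.map F, B.map F, by rw [List.length_map, hA], ?_, ?_⟩
    · rw [← (rotXs_map F V.b V.r c hP).2, hr]
      simp only [List.map_append, List.map_cons, low_map]
    · simp only [List.map_append, List.map_cons, mid_map] at ih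
      exact ih

end lab

/-- six angles from four corners -/
def x6 {R : Type} [Zero R] (q : Fin 4 → R) : Fin 6 → R := ![q 0, q 1, q 3, q 2, 0, 0]

lemma cor_x6 {R : Type} [AddCommGroup R] (q : Fin 4 → R) : cor (x6 q) = q := by
  funext j
  fin_cases j <;> simp [cor, x6]

lemma n_x6 {R : Type} [AddCommGroup R] (q : Fin 4 → R) :
    n1 (x6 q) + n2 (x6 q) = q 0 + q 1 + q 2 + q 3 := by
  rw [← cor_sum, cor_x6]

/-- the colour of a corner -/
def typ (σ : Bool) (q : Fin 4) : Bool := if q = 0 ∨ q = 2 then σ else !σ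

lemma typ_ep (σ : Bool) (q : Fin 4) : (if typ σ q then (1 : ℝ) else -1) = ep σ q := by
  cases σ <;> fin_cases q <;> simp [typ, ep]

/-- **asymptotics of the trace** for a semi-regular alternating diagram -/
theorem asymS {X : Type} [Inhabited X] (h : Val D (m + 1) (m + 1)) (hC : Cell D m k)
    (lab : Fin D.length → Fin 4 → X) (fa : X → ℝ) (fb : X → Bool)
    (hpos : ∀ b q, 0 < fa (lab b q)) (hle : ∀ b q, fa (lab b q) ≤ 1 / 2)
    (hty : ∀ b q, fb (lab b q) = typ (D.get b).P.σ q)
    (hTS : TS k m D (fun b => x6 fun q => fa (lab b q)) 1)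
    (c : List X) (hcl : c.length = m + 1 + 1) (hP : PerX c) (hLK : LK D lab c c) :
    ∃ (j l : ℤ) (z : ℂ), z ≠ 0 ∧
    Tendsto (fun N : ℕ => (ph4 D m (fun b => x6 fun q => fa (lab b q)) j l N)⁻¹ *
      (∑ t : Fin (m + 1) → Fin N, FDG (rgc N) D (dl (List.ofFn t)) (List.ofFn t)) /
      ((√N * Real.exp (-(N * ∑ b, ∑ q, LL (fa (lab b q)))) : ℝ) : ℂ)) atTop (𝓝 z) := by
  have hck := fun F : X → ℝ => LK_map F D _ c c hLK
  have hlF : ∀ F : X → ℝ, (c.map F).length = m + 1 + 1 := fun F => by
    rw [List.length_map, hcl]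
  have hcor : ∀ b, cor (x6 fun q => fa (lab b q)) = fun q => fa (lab b q) := fun b => cor_x6 _
  have hcrit : CritD k m D (fun b => x6 fun q => fa (lab b q)) := by
    refine ⟨hTS, fun b => ⟨rfl, rfl⟩, fun b q => ?_, fun x hx => ?_, fun x hx => ?_⟩
    · rw [hcor]
      exact hpos b q
    · have := pf_zero h hC _ _ (hlF fun y => gg (fa y)) (hP.map _) (hck fun y => gg (fa y)) x hx
      simp only [hcor]
      exact this
    · have := pf_zero h hC _ _ (hlF fun y => (if fb y then (1 : ℝ) else -1) * fa y) (hP.map _)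
        (hck fun y => (if fb y then (1 : ℝ) else -1) * fa y) x hx
      simp only [hty, typ_ep] at this
      simp only [hcor]
      exact this
  have hG4 : ∀ b, G4 (x6 fun q => fa (lab b q)) (fun q => ct (fa (lab b q))) := by
    intro b
    refine ⟨fun q => ?_, hTS.1 b, fun q => ?_, fun q => ?_⟩
    · rw [hcor]; exact hpos b q
    · rw [hcor]; exact hle b q
    · rw [hcor]
  obtain ⟨j, l, hfl⟩ := flat4 h hC (fun b => x6 fun q => fa (lab b q)) hTS
    (fun b q => ct (fa (lab b q))) (c.map fun y => ct (fa y)) (hlF _) (hP.map _)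
    (hck fun y => ct (fa y)) hG4
  obtain ⟨z, hz, hlim⟩ := asym4 h hC _ hcrit j l hfl
  refine ⟨j, l, z, hz, ?_⟩
  have hV : Vp (fun b => x6 fun q => fa (lab b q)) = ∑ b, ∑ q, LL (fa (lab b q)) := by
    unfold Vp
    simp only [hcor]
  rw [hV] at hlim
  exact hlim

/-- **the absolute value of the trace** -/
theorem asymSN {X : Type} [Inhabited X] (h : Val D (m + 1) (m + 1)) (hC : Cell D m k)
    (lab : Fin D.length → Fin 4 → X) (fa : X → ℝ) (fb : X → Bool)
    (hpos : ∀ b q, 0 < fa (lab b q)) (hle : ∀ b q, fa (lab b q) ≤ 1 / 2)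
    (hty : ∀ b q, fb (lab b q) = typ (D.get b).P.σ q)
    (hTS : TS k m D (fun b => x6 fun q => fa (lab b q)) 1)
    (c : List X) (hcl : c.length = m + 1 + 1) (hP : PerX c) (hLK : LK D lab c c) :
    ∃ z : ℝ, 0 < z ∧
    Tendsto (fun N : ℕ =>
      ‖∑ t : Fin (m + 1) → Fin N, FDG (rgc N) D (dl (List.ofFn t)) (List.ofFn t)‖ /
      (√N * Real.exp (-(N * ∑ b, ∑ q, LL (fa (lab b q)))))) atTop (𝓝 z) := by
  obtain ⟨j, l, z, hz, hlim⟩ := asymS h hC lab fa fb hpos hle hty hTS c hcl hP hLK
  refine ⟨‖z‖, norm_pos_iff.2 hz, (hlim.norm).congr' ?_⟩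
  filter_upwards [eventually_ge_atTop 1] with N hN
  have hN0 : (0 : ℝ) < N := by exact_mod_cast hN
  rw [norm_div, norm_mul, norm_inv, ph4_norm (by omega) h, inv_one, one_mul, Complex.norm_real,
    Real.norm_of_nonneg (by positivity)]

/-! ### two systems of labels -/

section zip
variable {X Y : Type} [Inhabited X] [Inhabited Y]

lemma rotX_zip (b : Bool) (c : List X) (d : List Y) (hc : PerX c) (hd : PerX d)
    (h : c.length = d.length) : rotX b (c.zip d) = (rotX b c).zip (rotX b d) ∧
      (rotX b c).length = (rotX b d).length := by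
  obtain ⟨x, M, rfl⟩ := hc
  obtain ⟨y, L, rfl⟩ := hd
  have hl : M.length = L.length := by simpa using h
  have hz : (x :: (M ++ [x])).zip (y :: (L ++ [y])) = (x, y) :: (M.zip L ++ [(x, y)]) := by
    rw [List.zip_cons_cons, List.zip_append hl]
    rfl
  cases b
  · have e : ∀ {Z : Type} [Inhabited Z] (x : Z) (M : List Z),
        rotX false (x :: (M ++ [x])) = ((x :: M).getLastD default) :: (x :: M) := by
      intro Z _ x M
      unfold rotX
      rw [if_neg (by simp), ← List.cons_append, List.dropLast_concat]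
    rw [hz, e, e, e]
    refine ⟨?_, by simp [hl]⟩
    rw [List.zip_cons_cons, List.zip_cons_cons]
    congr 1
    rcases List.eq_nil_or_concat M with rfl | ⟨K, l, rfl⟩
    · have : L = [] := List.length_eq_zero_iff.1 (by simpa using hl.symm)
      subst this
      rfl
    · rcases List.eq_nil_or_concat L with rfl | ⟨K', l', rfl⟩
      · simp at hl
      · have hK : K.length = K'.length := by simpa using hl
        rw [List.concat_eq_append, List.concat_eq_append, List.zip_append hK]
        have e1 : (x, y) :: (K.zip K' ++ [l].zip [l']) = ((x, y) :: K.zip K') ++ [(l, l')] := rfl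
        have e2 : x :: (K ++ [l]) = (x :: K) ++ [l] := rfl
        have e3 : y :: (K' ++ [l']) = (y :: K') ++ [l'] := rfl
        rw [e1, e2, e3, List.getLastD_concat, List.getLastD_concat, List.getLastD_concat]
  · have e : ∀ {Z : Type} [Inhabited Z] (x : Z) (M : List Z),
        rotX true (x :: (M ++ [x])) = (M ++ [x]) ++ [(M ++ [x]).headD default] := by
      intro Z _ x M
      simp [rotX]
    rw [hz, e, e, e]
    refine ⟨?_, by simp [hl]⟩
    rw [List.zip_append (by simp [hl]), List.zip_append hl]
    congr 1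
    rcases M with _ | ⟨a, M⟩
    · have : L = [] := List.length_eq_zero_iff.1 (by simpa using hl.symm)
      subst this
      rfl
    · rcases L with _ | ⟨a', L⟩
      · simp at hl
      · rfl

lemma rotXs_zip (b : Bool) (r : ℕ) (c : List X) (d : List Y) (hc : PerX c) (hd : PerX d)
    (h : c.length = d.length) : (rotX b)^[r] (c.zip d) = ((rotX b)^[r] c).zip ((rotX b)^[r] d) ∧
      ((rotX b)^[r] c).length = ((rotX b)^[r] d).length ∧ PerX ((rotX b)^[r] c) ∧
      PerX ((rotX b)^[r] d) := by
  induction r with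
  | zero => exact ⟨rfl, h, hc, hd⟩
  | succ r ih =>
    obtain ⟨h1, h2, h3, h4⟩ := ih
    rw [Function.iterate_succ_apply', Function.iterate_succ_apply', Function.iterate_succ_apply',
      h1]
    exact ⟨(rotX_zip b _ _ h3 h4 h2).1, (rotX_zip b _ _ h3 h4 h2).2, rotX_per b _ h3,
      rotX_per b _ h4⟩

omit [Inhabited X] [Inhabited Y] in
lemma PerX.zip {c : List X} {d : List Y} (hc : PerX c) (hd : PerX d)
    (h : c.length = d.length) : PerX (c.zip d) := by
  obtain ⟨x, M, rfl⟩ := hc
  obtain ⟨y, L, rfl⟩ := hd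
  have hl : M.length = L.length := by simpa using h
  refine ⟨(x, y), M.zip L, ?_⟩
  rw [List.zip_cons_cons, List.zip_append hl]
  rfl

omit [Inhabited X] [Inhabited Y] in
lemma low_zip (T : Ty) (q : Fin 4 → X) (q' : Fin 4 → Y) :
    (low T q).zip (low T q') = low T (fun j => (q j, q' j)) ∧
      (low T q).length = (low T q').length := by
  cases T <;> exact ⟨rfl, rfl⟩

omit [Inhabited X] [Inhabited Y] in
lemma mid_zip (T : Ty) (q : Fin 4 → X) (q' : Fin 4 → Y) :
    (mid T q).zip (mid T q') = mid T (fun j => (q j, q' j)) ∧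
      (mid T q).length = (mid T q').length := by
  cases T <;> exact ⟨rfl, rfl⟩

/-- two systems of labels together -/
lemma LK_zip : ∀ (D : List Vx) (κ : Fin D.length → Fin 4 → X) (τ : Fin D.length → Fin 4 → Y)
    (c c' : List X) (d d' : List Y), LK D κ c c' → LK D τ d d' → c.length = d.length →
    LK D (fun b q => (κ b q, τ b q)) (c.zip d) (c'.zip d')
  | [], κ, τ, c, c', d, d', h, h', hl => by
    have e1 : c = c' := h
    have e2 : d = d' := h'
    subst e1 e2
    exact rfl
  | V :: D, κ, τ, c, c', d, d', h, h', hl => by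
    obtain ⟨hP, A, B, hA, hr, hL⟩ := h
    obtain ⟨hP', A', B', hA', hr', hL'⟩ := h'
    obtain ⟨g1, g2, -, -⟩ := rotXs_zip V.b V.r c d hP hP' hl
    have hAA : A.length = A'.length := hA.trans hA'.symm
    obtain ⟨l1, l2⟩ := low_zip V.P.ty (κ 0) (τ 0)
    obtain ⟨m1, m2⟩ := mid_zip V.P.ty (κ 0) (τ 0)
    rw [hr, hr'] at g1 g2
    have hBB : B.length = B'.length := by
      simp only [List.length_append, List.length_cons] at g2
      omega
    have ih := LK_zip D (fun k => κ k.succ) (fun k => τ k.succ) _ c' _ d' hL hL' (by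
      simp only [List.length_append, List.length_cons]
      omega)
    rw [List.zip_append hAA, List.zip_cons_cons, List.zip_append m2, List.zip_cons_cons, m1] at ih
    rw [List.zip_append hAA, List.zip_cons_cons, List.zip_append l2, List.zip_cons_cons, l1] at g1
    exact ⟨hP.zip hP' hl, A.zip A', B.zip B', by
      rw [List.length_zip, hAA, min_self, hA'], g1, ih⟩

end zip

end Pool.Agent.H760.TC
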