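import Pool.Agent.H760.TC.La

/-!
# Alternating links in the thickened torus: asymptotics of the trace
-/

set_option autoImplicit false

namespace Pool.Agent.H760.TC

open Finset Filter Topology
open Pool.Agent.W719.BS (LL)
open Pool.Agent.W358.BSTay (gg)
open Pool.Agent.Q191.TW (cs cs_add cs_zero cs_ne cs_neg cs_norm dl)
open Pool.Agent.Q191.LB (sg)
open Pool.Agent.Q99.FAL
open Pool.Agent.Q98.FAL (nu_ne nu_add nu_norm)
open Pool.Agent.Q99.FP2 (nu_cs)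
open Pool.Agent.Q99.KN (Rgn)
open Pool.Agent.Q99.UB (sw sw_ok sw_ne Wc)
open Pool.Agent.H760.TT

variable {N : ℕ} {D : List Vx} {k m : ℕ}

open Classical in
/-- **the trace is a sum over the points of the net** -/
theorem trace_net4 (hN : 0 < N) (h : Val D (m + 1) (m + 1)) (hC : Cell D m k)
    (a0 : Fin D.length → Fin 6 → ℤ) (h0 : TS k m D a0 1) (a : Fin D.length → Fin 6 → ℝ)
    (j l : ℤ) (hF : Flat k m D a j l) :
    ∑ t : Fin (m + 1) → Fin N, FDG (rgc N) D (dl (List.ofFn t)) (List.ofFn t) =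
      (N : ℂ) ^ D.length * (TDG (rgc N) D (m + 1) 0 *
        cs N (((m + 1 : ℕ) : ℝ) * wr D * ((N : ℝ) - 1) ^ 2 / 2) *
        cs N (N * ((N : ℝ) - 1) * (j * wr D - l * ((m + 1 : ℕ) : ℤ)))) *
      ∑ v : Fin D.length → Fin 6 → Fin N,
        if (fun b => zz (v b)) - ((N : ℤ) - 1) • (X4 k m D a0).a0 ∈ (X4 k m D a0).L then
          t4 (sgD D) N (fun b => zz (v b)) *
          cs N (2 * ((lw (gS k m D) (dv N a fun b => zz (v b)) - j) *
            (lw (gK k m D) (dv N a fun b => zz (v b)) - l))) else 0 := by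
  have hex : exD D = D.length := by
    have := exD_len D _ _ h
    omega
  have hρ : ∀ P, (rgc N P).Ok := fun P => sw_ok hN P.σ
  rw [trace_stateG (rgc N) hρ hN D m h, hex, mul_assoc]
  congr 1
  obtain ⟨F, hFd⟩ : ∃ F : (Fin D.length → Fin 6 → Fin N) → List ℤ → ℂ, F = fun v G =>
      TDG (rgc N) D (m + 1) G.sum * (wtG (rgc N) D (fun b => zz (v b)) *
            (nu N ((m + 1) * Kf D (fun b => zz (v b)) G) *
              cs N (2 * (Kf D (fun b => zz (v b)) G) * (G.sum + (m + 1))))) := ⟨_, rfl⟩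
  have e1 : sL m (fun M : List (Fin N) => ∑ y : Fin N,
        TDG (rgc N) D (m + 1) (Gp M y).sum * ∑ v : Fin D.length → Fin 6 → Fin N,
          if Exa N D (fun b => zz (v b)) (Gp M y) then wtG (rgc N) D (fun b => zz (v b)) *
            (nu N ((m + 1) * Kf D (fun b => zz (v b)) (Gp M y)) *
              cs N (2 * (Kf D (fun b => zz (v b)) (Gp M y)) * ((Gp M y).sum + (m + 1)))) else 0) =
      sL m (fun M : List (Fin N) => ∑ y : Fin N, ∑ v : Fin D.length → Fin 6 → Fin N,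
          if Exa N D (fun b => zz (v b)) (Gp M y) then F v (Gp M y) else 0) := by
    refine sL_congr _ _ _ fun M _ => ?_
    refine Finset.sum_congr rfl fun y _ => ?_
    rw [Finset.mul_sum]
    refine Finset.sum_congr rfl fun v _ => ?_
    rw [mul_ite, mul_zero, hFd]
  refine Eq.trans e1 ?_
  rw [state_swap hN h hC F, Finset.mul_sum]
  refine Finset.sum_congr rfl fun v _ => ?_
  have hwt : ∀ b, n1 (zz (v b)) + n2 (zz (v b)) = (N : ℤ) - 1 → (rgc N (D.get b).P).wt (zz (v b)) =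
      if zz (v b) 4 = 0 ∧ zz (v b) 5 = 0 then w4 N (sgD D b) (cor (zz (v b))) else 0 :=
    fun b hb => sw_w4 hN _ _ (fun i => zz_nn _ i) hb
  have hiff : TS k m D (fun b => zz (v b)) ((N : ℤ) - 1) ↔
      (fun b => zz (v b)) - ((N : ℤ) - 1) • a0 ∈ LT k m D :=
    TS_mem (k := k) a0 h0 (fun b => zz (v b)) ((N : ℤ) - 1)
  have hLm : (X4 k m D a0).a0 = fun b => mrg (a0 b) := rfl
  by_cases hs : TS k m D (fun b => zz (v b)) ((N : ℤ) - 1)
  swap
  · rw [if_neg hs]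
    by_cases hL : (fun b => zz (v b)) - ((N : ℤ) - 1) • (X4 k m D a0).a0 ∈ (X4 k m D a0).L
    swap
    · rw [if_neg hL, mul_zero]
    · exfalso
      apply hs
      refine (TS_mem (k := k) (fun b => mrg (a0 b)) (TS_mrg a0 1 h0) _ _).2 hL.1
  rw [if_pos hs]
  by_cases hz : ∀ b, zz (v b) 4 = 0 ∧ zz (v b) 5 = 0
  swap
  · have hw0 : wtG (rgc N) D (fun b => zz (v b)) = 0 := by
      push Not at hz
      obtain ⟨b, hb⟩ := hz
      refine Finset.prod_eq_zero (mem_univ b) ?_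
      rw [hwt b (hs.1 b), if_neg]
      rintro ⟨h4, h5⟩
      exact hb h4 h5
    have ht0 : t4 (sgD D) N (fun b => zz (v b)) = 0 := by
      push Not at hz
      obtain ⟨b, hb⟩ := hz
      refine Finset.prod_eq_zero (mem_univ b) (if_neg ?_)
      rintro ⟨h4, h5⟩
      exact hb h4 h5
    rw [hFd]
    dsimp only
    rw [hw0, ht0]
    simp
  have hs' : (fun b => zz (v b)) - ((N : ℤ) - 1) • (X4 k m D a0).a0 ∈ (X4 k m D a0).L := by
    refine ⟨(TS_mem (k := k) (fun b => mrg (a0 b)) (TS_mrg a0 1 h0) _ _).1 hs, fun b => ?_⟩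
    simp only [Pi.sub_apply, Pi.smul_apply, hLm, (hz b).1, (hz b).2, (mrg_four (a0 b)).1,
      (mrg_four (a0 b)).2, smul_zero, sub_zero, and_self]
  rw [if_pos hs', hFd]
  dsimp only
  obtain ⟨S, hS⟩ : ∃ S : ℤ, S = (Gof k m D (fun b => zz (v b))).sum := ⟨_, rfl⟩
  obtain ⟨K, hK⟩ : ∃ K : ℤ, K = Kf D (fun b => zz (v b)) (Gof k m D (fun b => zz (v b))) := ⟨_, rfl⟩
  rw [← hS, ← hK]
  have hph := phaseG (rgc N) hN D (m + 1) S K
  have q1 : (S : ℝ) - ((m + 1 : ℕ) : ℤ) * ((N : ℝ) - 1) / 2 =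
      lw (gS k m D) (dv N a fun b => zz (v b)) + ((N : ℝ) - 1) * j := by
    have e : dv N a (fun b => zz (v b)) = (fun b i => ((zz (v b) i : ℤ) : ℝ)) -
        ((N : ℝ) - 1) • a := by
      funext b i
      rfl
    rw [e, map_sub, map_smul, lw_evxZ (gS k m D) (fun b => zz (v b)), lw_evx, ← gS_eq, ← gS_eq,
      ← hS, hF.1, smul_eq_mul]
    push_cast
    ring
  have q2 : (K : ℝ) + wr D * ((N : ℝ) - 1) / 2 =
      lw (gK k m D) (dv N a fun b => zz (v b)) + ((N : ℝ) - 1) * l := by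
    have e : dv N a (fun b => zz (v b)) = (fun b i => ((zz (v b) i : ℤ) : ℝ)) -
        ((N : ℝ) - 1) • a := by
      funext b i
      rfl
    rw [e, map_sub, map_smul, lw_evxZ (gK k m D) (fun b => zz (v b)), lw_evx, ← gK_eq, ← gK_eq,
      ← hK, hF.2, smul_eq_mul]
    ring
  have hwt' : wtG (rgc N) D (fun b => zz (v b)) = t4 (sgD D) N (fun b => zz (v b)) :=
    Finset.prod_congr rfl fun b _ => hwt b (hs.1 b)
  have hsp := cs_split hN ((m + 1 : ℕ) : ℤ) (wr D) j l S K _ _ q1 q2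
  rw [hwt']
  have e4 : TDG (rgc N) D (m + 1) S * (t4 (sgD D) N (fun b => zz (v b)) *
      (nu N ((m + 1) * K) * cs N (2 * K * (S + (m + 1))))) =
      t4 (sgD D) N (fun b => zz (v b)) *
      (TDG (rgc N) D (m + 1) S * (nu N (((m + 1 : ℕ) : ℤ) * K) *
        cs N (2 * K * (S + ((m + 1 : ℕ) : ℝ))))) := by
    push_cast
    ring
  rw [e4, hph]
  have e5 : (((m + 1 : ℕ) : ℤ) : ℝ) = ((m + 1 : ℕ) : ℝ) := by norm_cast
  rw [e5] at hsp
  rw [hsp, e5]
  ring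

/-- the data of a critical point of a diagram -/
structure CritD (k m : ℕ) (D : List Vx) (a : Fin D.length → Fin 6 → ℝ) : Prop where
  ts : TS k m D a 1
  z : ∀ b, a b 4 = 0 ∧ a b 5 = 0
  pos : ∀ b q, 0 < cor (a b) q
  c1 : ∀ x : Fin D.length → Fin 6 → ℝ, TS k m D x 0 → pf (fun b q => gg (cor (a b) q)) x = 0
  c2 : ∀ x : Fin D.length → Fin 6 → ℝ, TS k m D x 0 →
    pf (fun b q => ep (sgD D b) q * cor (a b) q) x = 0

lemma CritD.crit {a : Fin D.length → Fin 6 → ℝ} (ha : CritD k m D a)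
    (a0 : Fin D.length → Fin 6 → ℤ) (h0 : TS k m D a0 1) : Crit (X4 k m D a0) (sgD D) a where
  z := fun δ hδ b => hδ.2 b
  z0 := fun b => mrg_four (a0 b)
  s := fun δ hδ b => hδ.1.1 b
  s0 := fun b => (n_mrg (a0 b)).trans (h0.1 b)
  mem := by
    rw [LR4]
    have h0' : TS k m D (toR fun b => mrg (a0 b)) 1 := by
      have := (TS_castR k (fun b => mrg (a0 b)) 1).2 (TS_mrg a0 1 h0)
      rw [Int.cast_one] at this
      exact this
    have h1 := TS_sub k _ _ _ _ ha.ts h0'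
    rw [sub_self] at h1
    refine ⟨h1, fun b => ?_⟩
    obtain ⟨z4, z5⟩ := ha.z b
    have e4 : (X4 k m D a0).a0 b 4 = 0 := (mrg_four (a0 b)).1
    have e5 : (X4 k m D a0).a0 b 5 = 0 := (mrg_four (a0 b)).2
    constructor
    · show a b 4 - (((X4 k m D a0).a0 b 4 : ℤ) : ℝ) = 0
      rw [z4, e4]
      simp
    · show a b 5 - (((X4 k m D a0).a0 b 5 : ℤ) : ℝ) = 0
      rw [z5, e5]
      simp
  pos := ha.pos
  c1 := fun x hx => ha.c1 x ((LR4 a0 x).1 hx).1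
  c2 := fun x hx => ha.c2 x ((LR4 a0 x).1 hx).1

/-- the phase of the trace -/
noncomputable def ph4 (D : List Vx) (m : ℕ) (a : Fin D.length → Fin 6 → ℝ) (j l : ℤ) (N : ℕ) : ℂ :=
  TDG (rgc N) D (m + 1) 0 *
        cs N (((m + 1 : ℕ) : ℝ) * wr D * ((N : ℝ) - 1) ^ 2 / 2) *
        cs N (N * ((N : ℝ) - 1) * (j * wr D - l * ((m + 1 : ℕ) : ℤ))) * P4 (sgD D) a N

lemma ph4_norm (hN : 0 < N) (h : Val D (m + 1) (m + 1)) (a : Fin D.length → Fin 6 → ℝ)
    (j l : ℤ) : ‖ph4 D m a j l N‖ = 1 := by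
  rw [ph4, norm_mul, norm_mul, norm_mul, P4, cs_norm, cs_norm, cs_norm,
    TDG_norm (rgc N) (fun P => sw_ok hN P.σ) hN D _ _ 0 h, one_mul, one_mul, one_mul]

/-- **asymptotics of the trace** -/
theorem asym4 (h : Val D (m + 1) (m + 1)) (hC : Cell D m k) (a : Fin D.length → Fin 6 → ℝ)
    (ha : CritD k m D a) (j l : ℤ) (hfl : Flat k m D a j l) : ∃ z : ℂ, z ≠ 0 ∧
    Tendsto (fun N : ℕ => (ph4 D m a j l N)⁻¹ *
      (∑ t : Fin (m + 1) → Fin N, FDG (rgc N) D (dl (List.ofFn t)) (List.ofFn t)) /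
      ((√N * Real.exp (-(N * Vp a)) : ℝ) : ℂ)) atTop (𝓝 z) := by
  classical
  have hnn : ∀ b i, 0 ≤ a b i := by
    intro b i
    have h1 := fun q => (ha.pos b q).le
    obtain ⟨z4, z5⟩ := ha.z b
    have p0 := h1 0
    have p1 := h1 1
    have p2 := h1 2
    have p3 := h1 3
    simp only [cor, Matrix.cons_val, z4, z5, add_zero] at p0 p1 p2 p3
    fin_cases i <;> simp only [Fin.zero_eta, Fin.mk_one, Fin.reduceFinMk] <;> linarith
  obtain ⟨a0, -, h0⟩ := exists_a0 h hC a hnn ha.ts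
  obtain ⟨z, hz, hlim⟩ := netq4 (X4 k m D a0) (sgD D) a (ha.crit a0 h0) (lw (gS k m D))
    (lw (gK k m D)) j l
  refine ⟨z, hz, hlim.congr' ?_⟩
  have hfr : Module.finrank ℤ (X4 k m D a0).L = 2 * D.length + 1 := rank_L4 h hC a ha.ts
  filter_upwards [eventually_ge_atTop 1] with N hN
  have hN0 : (N : ℂ) ≠ 0 := by exact_mod_cast (by omega : N ≠ 0)
  have hNr : (0 : ℝ) < N := by exact_mod_cast hN
  rw [trace_net4 hN h hC a0 h0 a j l hfl, hfr]
  have hX : TDG (rgc N) D (m + 1) 0 * cs N (((m + 1 : ℕ) : ℝ) * wr D * ((N : ℝ) - 1) ^ 2 / 2) *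
      cs N (N * ((N : ℝ) - 1) * (j * wr D - l * ((m + 1 : ℕ) : ℤ))) ≠ 0 :=
    mul_ne_zero (mul_ne_zero (TDG_ne (rgc N) (fun P => sw_ok hN P.σ) hN D _ _ 0 h) (cs_ne _ _))
      (cs_ne _ _)
  have hP : P4 (sgD D) a N ≠ 0 := cs_ne _ _
  unfold ph4
  obtain ⟨X, hXd⟩ : ∃ X, X = TDG (rgc N) D (m + 1) 0 *
    cs N (((m + 1 : ℕ) : ℝ) * wr D * ((N : ℝ) - 1) ^ 2 / 2) *
      cs N (N * ((N : ℝ) - 1) * (j * wr D - l * ((m + 1 : ℕ) : ℤ))) := ⟨_, rfl⟩
  rw [← hXd] at hX ⊢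
  have hs : 0 < √(N : ℝ) := Real.sqrt_pos.2 hNr
  have hsq : (N : ℝ) = √(N : ℝ) ^ 2 := (Real.sq_sqrt hNr.le).symm
  have e1 : √(N : ℝ) ^ (4 * D.length) / √(N : ℝ) ^ (2 * D.length + 1) * Real.exp (N * Vp a) =
      (N : ℝ) ^ D.length * (√(N : ℝ) * Real.exp (-(N * Vp a)))⁻¹ := by
    have e2 : (N : ℝ) ^ D.length = √(N : ℝ) ^ (2 * D.length) := by
      rw [pow_mul, ← hsq]
    rw [e2, Real.exp_neg, mul_inv, inv_inv]
    have e3 : 4 * D.length = 2 * D.length + 2 * D.length := by ring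
    rw [e3, pow_add, pow_succ]
    have hsn := hs.ne'
    field_simp
  rw [e1]
  push_cast
  have gen : ∀ A B S : ℂ, X ≠ 0 → P4 (sgD D) a N ≠ 0 → A * B⁻¹ * (P4 (sgD D) a N)⁻¹ * S =
      (X * P4 (sgD D) a N)⁻¹ * (A * X * S) / B := by
    intro A B S hX hP
    field_simp
  exact gen _ _ _ hX hP

end Pool.Agent.H760.TC
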