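import Pool.Agent.H760.TT.Geo5
import Pool.Agent.H760.TC.Vc

/-!
# Alternating links in the thickened torus: the developing map with given radii

An adaptation of `TT/Geo.lean`: the colours are the radii.
-/

set_option autoImplicit false

namespace Pool.Agent.H760.TC

open Finset
open Pool.Agent.Q99.FAL
open Pool.Agent.Q237.FAL (mid ccl dec stp_eq cls_eq mid_len)
open Pool.Agent.H760.TT

/-- the radius of a colour -/
noncomputable def rd (c : ℝ) : ℝ := c

/-- the vectors of a path: `e` is the direction before the first gap -/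
noncomputable def vl : ℂ → List ℝ → List ℝ → List ℂ
  | e, c :: c' :: cs, g :: gs =>
    ((rd c + rd c' : ℝ) : ℂ) * (-(e * ev (-g))) :: vl (-(e * ev (-g))) (c' :: cs) gs
  | _, _, _ => []

/-! ### paths -/

lemma vl_smul (u : ℂ) : ∀ (G c : List ℝ) (e : ℂ), vl (u * e) c G = (vl e c G).map (u * ·)
  | [], c, e => by
    rcases c with _ | ⟨a, _ | ⟨b, c⟩⟩ <;> simp [vl]
  | g :: G, [], e => by simp [vl]
  | g :: G, [a], e => by simp [vl]
  | g :: G, a :: b :: c, e => by
    have h : -(u * e * ev (-g)) = u * (-(e * ev (-g))) := by ring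
    rw [vl, vl, h, vl_smul u G (b :: c), List.map_cons]
    congr 1
    ring

lemma vl_head (e e' : ℂ) (c g g' : ℝ) (cs gs : List ℝ) (h : e * ev (-g) = e' * ev (-g')) :
    vl e (c :: cs) (g :: gs) = vl e' (c :: cs) (g' :: gs) := by
  rcases cs with _ | ⟨c', cs⟩
  · simp [vl]
  · rw [vl, vl, h]

lemma vl_split : ∀ (A A' : List ℝ), A.length = A'.length → ∀ (e : ℂ) (x : ℝ),
    ∃ (va : List ℂ) (e' : ℂ), ‖e'‖ = ‖e‖ ∧ ∀ (r : List ℝ) (x' : ℝ) (r' : List ℝ),
      vl e (A ++ x :: r) (A' ++ x' :: r') = va ++ vl e' (x :: r) (x' :: r')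
  | [], [], _, e, x => ⟨[], e, rfl, fun r x' r' => rfl⟩
  | [], _ :: _, h, _, _ => by simp at h
  | _ :: _, [], h, _, _ => by simp at h
  | a :: A, a' :: A', h, e, x => by
    have hl : A.length = A'.length := by simpa using h
    obtain ⟨va, e', he', hv⟩ := vl_split A A' hl (-(e * ev (-a'))) x
    have hn : ‖e'‖ = ‖e‖ := by rw [he', norm_neg, norm_mul, ev_norm, mul_one]
    rcases A with _ | ⟨b, A⟩
    · have hA' : A' = [] := List.length_eq_zero_iff.1 (by simpa using hl.symm)
      subst hA'
      refine ⟨((rd a + rd x : ℝ) : ℂ) * (-(e * ev (-a'))) :: va, e', hn, fun r x' r' => ?_⟩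
      have := hv r x' r'
      simp only [List.nil_append, List.cons_append] at this ⊢
      rw [vl, this]
    · refine ⟨((rd a + rd b : ℝ) : ℂ) * (-(e * ev (-a'))) :: va, e', hn, fun r x' r' => ?_⟩
      have := hv r x' r'
      simp only [List.cons_append] at this ⊢
      rw [vl, this]

lemma vl_last : ∀ (M L : List ℝ), L.length = M.length + 1 → ∀ (e : ℂ) (y y' : ℝ),
    vl e L (M ++ [y]) = vl e L (M ++ [y'])
  | [], L, h, e, y, y' => by
    obtain ⟨a, rfl⟩ := List.length_eq_one_iff.1 (by simpa using h)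
    simp [vl]
  | g :: M, L, h, e, y, y' => by
    rcases L with _ | ⟨a, _ | ⟨b, L⟩⟩
    · simp at h
    · simp at h
    · rw [List.cons_append, List.cons_append, vl, vl,
        vl_last M (b :: L) (by simpa using h) _ y y']

lemma vl_snoc : ∀ (G L : List ℝ) (cl : ℝ), L.length + 1 = G.length → ∀ (e : ℂ) (c1 g0 : ℝ),
    vl e (L ++ [cl] ++ [c1]) (G ++ [g0]) = vl e (L ++ [cl]) G ++
      [((rd cl + rd c1 : ℝ) : ℂ) * (e * (-1) ^ G.length * ev (-G.sum))]
  | [], L, cl, h, e, c1, g0 => by simp at h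
  | g :: G, [], cl, h, e, c1, g0 => by
    have hG : G = [] := List.length_eq_zero_iff.1 (by simpa using h.symm)
    subst hG
    simp [vl]
  | g :: G, a :: L, cl, h, e, c1, g0 => by
    have ih := vl_snoc G L cl (by simpa using h) (-(e * ev (-g))) c1 g0
    have key : ((rd cl + rd c1 : ℝ) : ℂ) * (-(e * ev (-g)) * (-1) ^ G.length * ev (-G.sum)) =
        ((rd cl + rd c1 : ℝ) : ℂ) * (e * (-1) ^ (g :: G).length * ev (-(g :: G).sum)) := by
      have e1 : ev (-(g :: G).sum) = ev (-g) * ev (-G.sum) := by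
        rw [← ev_add, List.sum_cons]
        congr 1
        ring
      rw [e1, List.length_cons, pow_succ]
      ring
    rw [key] at ih
    rcases L with _ | ⟨b, L⟩
    · simp only [List.nil_append, List.cons_append] at ih ⊢
      rw [vl, vl, ih]
      rfl
    · simp only [List.cons_append] at ih ⊢
      rw [vl, vl, ih]
      rfl

/-! ### rotations -/

/-- the path of a state -/
noncomputable def vp (z : ℝ × List ℝ) (c : List ℝ) : List ℂ := vl (-ev z.1) c z.2

lemma rot_true_geo (s x y c0 : ℝ) (C M : List ℝ) (h : C.length = M.length) :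
    ∃ (v0 : ℂ) (vt : List ℂ), vp (s, x :: (M ++ [y])) (c0 :: (C ++ [c0])) = v0 :: vt ∧
      vp (s - x, M ++ [y + x, 0]) (rotc true (c0 :: (C ++ [c0]))) =
        (vt ++ [hh' (x :: (M ++ [y])) * v0]).map (-1 * ·) := by
  obtain ⟨l1, L1, hL⟩ : ∃ l1 L1, C ++ [c0] = l1 :: L1 := by
    rcases C with _ | ⟨a, C⟩
    · exact ⟨c0, [], rfl⟩
    · exact ⟨a, C ++ [c0], rfl⟩
  have hLl : (l1 :: L1).length = M.length + 1 := by rw [← hL]; simp [h]
  refine ⟨((rd c0 + rd l1 : ℝ) : ℂ) * (-(-ev s * ev (-x))),
    vl (-(-ev s * ev (-x))) (l1 :: L1) (M ++ [y]), ?_, ?_⟩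
  · unfold vp
    simp only
    rw [hL, vl]
  · unfold vp
    rw [rotc_true, hL]
    simp only
    have e0 : M ++ [y + x, 0] = (M ++ [y + x]) ++ [0] := by simp
    have e1 : ([l1].headD 0) = l1 := rfl
    have e2 : (l1 :: L1).headD 0 = l1 := rfl
    rw [e0, e2, ← hL, vl_snoc (M ++ [y + x]) C c0 (by simp [h]), hL,
      vl_last M (l1 :: L1) hLl _ (y + x) y]
    have e3 : -ev (s - x) = -1 * (-(-ev s * ev (-x))) := by
      rw [sub_eq_add_neg, ev_add]
      ring
    rw [e3, vl_smul, List.map_append]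
    congr 1
    simp only [List.map_cons, List.map_nil, List.cons.injEq, and_true]
    unfold hh'
    have e4 : (x :: (M ++ [y])).sum = (M ++ [y + x]).sum := by
      simp
      ring
    rw [e4]
    simp only [List.length_append, List.length_cons, List.length_nil]
    ring

lemma rot_false_geo (s x y c0 : ℝ) (C M : List ℝ) (h : C.length = M.length) :
    ∃ (v0 : ℂ) (vt : List ℂ), vp (s, x :: (M ++ [y])) (c0 :: (C ++ [c0])) =
        vt ++ [hh' (x :: (M ++ [y])) * v0] ∧
      vp (s + y, 0 :: (y + x) :: M) (rotc false (c0 :: (C ++ [c0]))) =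
        (v0 :: vt).map (-1 * ·) := by
  obtain ⟨L, cl, hL⟩ : ∃ L cl, c0 :: C = L ++ [cl] := by
    rcases List.eq_nil_or_concat (c0 :: C) with h | ⟨K, l, h⟩
    · simp at h
    · exact ⟨K, l, by rw [h, List.concat_eq_append]⟩
  have hLl : L.length + 1 = (x :: M).length := by
    have := congrArg List.length hL
    simp at this
    simp
    omega
  refine ⟨((rd cl + rd c0 : ℝ) : ℂ) * (-(ev (s + y))), vl (-ev s) (c0 :: C) (x :: M), ?_, ?_⟩
  · unfold vp
    simp only
    have e1 : c0 :: (C ++ [c0]) = L ++ [cl] ++ [c0] := by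
      rw [← hL]
      rfl
    have e2 : x :: (M ++ [y]) = (x :: M) ++ [y] := rfl
    rw [e1, e2, vl_snoc (x :: M) L cl hLl, ← hL]
    congr 1
    simp only [List.cons.injEq, and_true]
    unfold hh'
    have e3 : ev (-((x :: M) ++ [y]).sum) * ev (s + y) = ev s * ev (-(x :: M).sum) := by
      rw [← ev_add, ← ev_add]
      congr 1
      simp
      ring
    have e4 : (-1 : ℂ) ^ (((x :: M) ++ [y]).length + 1) = (-1) ^ (x :: M).length := by
      rw [List.length_append, List.length_singleton, pow_add, pow_add]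
      norm_num
    rw [e4]
    linear_combination ((rd cl + rd c0 : ℝ) : ℂ) * (-1) ^ (x :: M).length * e3
  · unfold vp
    rw [rotc_false]
    simp only
    have e0 : (c0 :: C).getLastD 0 = cl := by rw [hL, List.getLastD_concat]
    rw [e0, vl, List.map_cons, neg_zero, ev_zero]
    congr 1
    · rw [add_comm (rd cl)]
      ring
    · have e1 : vl (-(-ev (s + y) * 1)) (c0 :: C) ((y + x) :: M) =
          vl (-1 * (-ev s)) (c0 :: C) (x :: M) := by
        apply vl_head
        have : ev (s + y) * ev (-(y + x)) = ev s * ev (-x) := by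
          rw [← ev_add, ← ev_add]
          congr 1
          ring
        linear_combination this
      rw [e1, vl_smul]

/-- the invariants of a rotation -/
lemma rot_geo (b : Bool) (z : ℝ × List ℝ) (c : List ℝ) (hc : Per c)
    (hz : z.2.length = c.length) :
    (∀ Z, Z + (vp z c).sum = hh' z.2 * Z → ∃ Z', Z' + (vp (rot b z) (rotc b c)).sum =
      hh' z.2 * Z' ∧ Om Z' (vp (rot b z) (rotc b c)) = Om Z (vp z c)) ∧
    (hh' z.2 = 1 → (vp (rot b z) (rotc b c)).sum = -(vp z c).sum) := by
  obtain ⟨c0, C, rfl⟩ := hc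
  obtain ⟨s, G⟩ := z
  obtain ⟨x, M, y, rfl, hM⟩ := exists_ends (n := C.length) (by simpa using hz)
  obtain ⟨H, hH⟩ : ∃ H, H = hh' (x :: (M ++ [y])) := ⟨_, rfl⟩
  have hHn : (starRingEnd ℂ) H * H = 1 := by
    rw [← Complex.normSq_eq_conj_mul_self, Complex.normSq_eq_norm_sq, hH, hh_norm]
    norm_num
  have hself : ∀ a : ℂ, ((starRingEnd ℂ) a * a).im = 0 := by
    intro a
    rw [← Complex.normSq_eq_conj_mul_self]
    exact Complex.ofReal_im _
  have hsum : ∀ v : List ℂ, (v.map (-1 * ·)).sum = -v.sum := by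
    intro v
    induction v with
    | nil => simp
    | cons a v ih => rw [List.map_cons, List.sum_cons, List.sum_cons, ih]; ring
  have hn1 : ‖(-1 : ℂ)‖ = 1 := by norm_num
  cases b
  · obtain ⟨v0, vt, h1, h2⟩ := rot_false_geo s x y c0 C M hM.symm
    rw [rot_false]
    simp only at h1 h2 ⊢
    rw [← hH] at h1 ⊢
    rw [h1, h2, hsum, List.sum_append, List.sum_singleton, List.sum_cons]
    constructor
    · intro Z hZ
      refine ⟨-1 * (Z - v0), ?_, ?_⟩
      · linear_combination (-1 : ℂ) * hZ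
      · rw [Om_smul (-1) hn1, Om, Om_append, Om, Om]
        have e1 : Z - v0 + v0 = Z := by ring
        have e2 : Z + vt.sum = H * Z - H * v0 := by linear_combination hZ
        rw [e1, e2, add_zero]
        have e3 : (starRingEnd ℂ) (H * Z - H * v0) * (H * v0) =
            ((starRingEnd ℂ) H * H) * ((starRingEnd ℂ) (Z - v0) * v0) := by
          rw [map_sub, map_sub, map_mul, map_mul]
          ring
        rw [e3, hHn, one_mul]
        ring
    · intro h
      rw [h]
      ring
  · obtain ⟨v0, vt, h1, h2⟩ := rot_true_geo s x y c0 C M hM.symm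
    rw [rot_true]
    simp only at h1 h2 ⊢
    rw [← hH] at h2 ⊢
    rw [h1, h2, hsum, List.sum_append, List.sum_singleton, List.sum_cons]
    constructor
    · intro Z hZ
      refine ⟨-1 * (Z + v0), ?_, ?_⟩
      · linear_combination (-1 : ℂ) * hZ
      · rw [Om_smul (-1) hn1, Om, Om_append, Om, Om, add_zero]
        have e2 : Z + v0 + vt.sum = H * Z := by linear_combination hZ
        rw [e2]
        have e3 : (starRingEnd ℂ) (H * Z) * (H * v0) =
            ((starRingEnd ℂ) H * H) * ((starRingEnd ℂ) Z * v0) := by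
          rw [map_mul]
          ring
        rw [e3, hHn, one_mul]
        ring
    · intro h
      rw [h]
      ring

end Pool.Agent.H760.TC
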