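import Pool.Agent.H760.TC.Geo

/-!
# Alternating links in the thickened torus: the quadrilateral of a crossing
-/

set_option autoImplicit false

namespace Pool.Agent.H760.TC

open Finset
open Pool.Agent.Q99.FAL
open Pool.Agent.Q237.FAL (mid ccl dec stp_eq cls_eq mid_len)
open Pool.Agent.H760.TT

/-- the angles of a crossing and the radii of the inscribed circles of its regions -/
def G4 (x : Fin 6 → ℝ) (κ : Fin 4 → ℝ) : Prop :=
  (∀ q, 0 < cor x q) ∧ n1 x + n2 x = 1 ∧ (∀ q, cor x q ≤ 1 / 2) ∧ ∀ q, κ q = ct (cor x q)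

lemma ct_ev {y : ℝ} (h0 : 0 < y) (h1 : y < 1) :
    ((ct y : ℝ) : ℂ) * (1 - ev y) = -Complex.I * (1 + ev y) := by
  have hpi := Real.pi_pos
  have hs : 0 < Real.sin (Real.pi * y) :=
    Real.sin_pos_of_pos_of_lt_pi (by positivity) (by nlinarith)
  have e1 : Real.cos (2 * Real.pi * y) = 2 * Real.cos (Real.pi * y) ^ 2 - 1 := by
    rw [show 2 * Real.pi * y = 2 * (Real.pi * y) by ring, Real.cos_two_mul]
  have e2 : Real.sin (2 * Real.pi * y) = 2 * Real.sin (Real.pi * y) * Real.cos (Real.pi * y) := by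
    rw [show 2 * Real.pi * y = 2 * (Real.pi * y) by ring, Real.sin_two_mul]
  have e3 := Real.sin_sq_add_cos_sq (Real.pi * y)
  unfold ct
  generalize Real.sin (Real.pi * y) = s at *
  generalize Real.cos (Real.pi * y) = c at *
  apply Complex.ext
  · rw [Complex.re_ofReal_mul, Complex.sub_re, Complex.one_re, ev_re, e1]
    simp only [neg_mul, Complex.neg_re, Complex.mul_re, Complex.I_re, zero_mul, Complex.I_im,
      one_mul, zero_sub, neg_neg, Complex.add_im, Complex.one_im, zero_add, ev_im, e2]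
    field_simp
    linear_combination (-2 * c) * e3
  · rw [Complex.im_ofReal_mul, Complex.sub_im, Complex.one_im, ev_im, e2]
    simp only [neg_mul, Complex.neg_im, Complex.mul_im, Complex.I_re, zero_mul, Complex.I_im,
      one_mul, zero_add, Complex.add_re, Complex.one_re, ev_re, e1]
    field_simp
    ring

/-- the edges of the quadrilateral of a vertex -/
noncomputable def qd (x : Fin 6 → ℝ) (κ : Fin 4 → ℝ) (e : ℂ) : Fin 4 → ℂ :=
  ![-(((rd (κ 0) + rd (κ 1) : ℝ) : ℂ) * (e * ev (x 0))),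
    ((rd (κ 1) + rd (κ 2) : ℝ) : ℂ) * (e * ev (x 0 + (x 1 + x 4))),
    -(((rd (κ 2) + rd (κ 3) : ℝ) : ℂ) * (e * ev (x 0 + (x 1 + x 4) + x 3))),
    ((rd (κ 3) + rd (κ 0) : ℝ) : ℂ) * e]

lemma G4.lt {x : Fin 6 → ℝ} {κ : Fin 4 → ℝ} (h : G4 x κ) (q : Fin 4) : cor x q < 1 := by
  have := h.2.2.1 q
  linarith

lemma qd_sum {x : Fin 6 → ℝ} {κ : Fin 4 → ℝ} (h : G4 x κ) (e : ℂ) :
    qd x κ e 3 = -(qd x κ e 0 + qd x κ e 1 + qd x κ e 2) := by
  have hlt := h.lt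
  obtain ⟨hp, hs, -, hκ⟩ := h
  have k0 := ct_ev (hp 0) (hlt 0)
  have k1 := ct_ev (hp 1) (hlt 1)
  have k2 := ct_ev (hp 2) (hlt 2)
  have k3 := ct_ev (hp 3) (hlt 3)
  rw [← hκ 0] at k0
  rw [← hκ 1] at k1
  rw [← hκ 2] at k2
  rw [← hκ 3] at k3
  have c0 : cor x 0 = x 0 := rfl
  have c1 : cor x 1 = x 1 + x 4 := rfl
  have c2 : cor x 2 = x 3 := rfl
  have c3 : cor x 3 = x 2 + x 5 := rfl
  rw [c0] at k0
  rw [c1] at k1
  rw [c2] at k2
  rw [c3] at k3
  have hprod : ev (x 0) * ev (x 1 + x 4) * ev (x 3) * ev (x 2 + x 5) = 1 := by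
    rw [← ev_add, ← ev_add, ← ev_add]
    have : x 0 + (x 1 + x 4) + x 3 + (x 2 + x 5) = 1 := by
      unfold n1 n2 at hs
      linarith
    rw [this, ev_one]
  have e1 : ev (x 0 + (x 1 + x 4)) = ev (x 0) * ev (x 1 + x 4) := ev_add _ _
  have e2 : ev (x 0 + (x 1 + x 4) + x 3) = ev (x 0) * ev (x 1 + x 4) * ev (x 3) := by
    rw [ev_add _ (x 3), e1]
  show ((rd (κ 3) + rd (κ 0) : ℝ) : ℂ) * e = -(-(((rd (κ 0) + rd (κ 1) : ℝ) : ℂ) *
    (e * ev (x 0))) + ((rd (κ 1) + rd (κ 2) : ℝ) : ℂ) * (e * ev (x 0 + (x 1 + x 4))) +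
    -(((rd (κ 2) + rd (κ 3) : ℝ) : ℂ) * (e * ev (x 0 + (x 1 + x 4) + x 3))))
  rw [e1, e2]
  unfold rd
  generalize ev (x 0) = P at *
  generalize ev (x 1 + x 4) = Q at *
  generalize ev (x 3) = R at *
  generalize ev (x 2 + x 5) = S at *
  push_cast
  generalize ((κ 0 : ℝ) : ℂ) = a at *
  generalize ((κ 1 : ℝ) : ℂ) = b at *
  generalize ((κ 2 : ℝ) : ℂ) = c at *
  generalize ((κ 3 : ℝ) : ℂ) = d at *
  have key : a * (1 - P) - P * (b * (1 - Q)) + P * Q * (c * (1 - R)) -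
      P * Q * R * (d * (1 - S)) = -Complex.I * (1 - P * Q * R * S) := by
    rw [k0, k1, k2, k3]
    ring
  rw [hprod, sub_self, mul_zero] at key
  linear_combination e * key - e * d * hprod

lemma ct_nn {y : ℝ} (h0 : 0 < y) (h1 : y ≤ 1 / 2) : 0 ≤ ct y := by
  have hpi := Real.pi_pos
  have hs : 0 < Real.sin (Real.pi * y) :=
    Real.sin_pos_of_pos_of_lt_pi (by positivity) (by nlinarith)
  have hc : 0 ≤ Real.cos (Real.pi * y) :=
    Real.cos_nonneg_of_mem_Icc ⟨by nlinarith, by nlinarith⟩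
  unfold ct
  positivity

lemma ct_pos' {y : ℝ} (h0 : 0 < y) (h1 : y < 1 / 2) : 0 < ct y := by
  obtain ⟨hs, hc⟩ := sc_pos h0 h1
  unfold ct
  positivity

lemma qd_area {x : Fin 6 → ℝ} {κ : Fin 4 → ℝ} (h : G4 x κ) (e : ℂ) (he : ‖e‖ = 1) :
    ((starRingEnd ℂ) (qd x κ e 3) * qd x κ e 0).im +
      ((starRingEnd ℂ) (qd x κ e 1) * qd x κ e 2).im < 0 := by
  obtain ⟨hp, hs, hle, hκ⟩ := h
  have hee : (starRingEnd ℂ) e * e = 1 := by
    rw [← Complex.normSq_eq_conj_mul_self, Complex.normSq_eq_norm_sq, he]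
    norm_num
  have hvv : ∀ s, (starRingEnd ℂ) (ev s) * ev s = 1 := by
    intro s
    rw [← Complex.normSq_eq_conj_mul_self, Complex.normSq_eq_norm_sq, ev_norm]
    norm_num
  have key : ∀ (u v s : ℝ) (E : ℂ), (starRingEnd ℂ) E * E = 1 →
      ((starRingEnd ℂ) ((u : ℂ) * E) * (-((v : ℂ) * (E * ev s)))).im =
      -(u * v * Real.sin (2 * Real.pi * s)) := by
    intro u v s E hE
    have : (starRingEnd ℂ) ((u : ℂ) * E) * (-((v : ℂ) * (E * ev s))) =
        -(((u * v : ℝ) : ℂ) * (((starRingEnd ℂ) E * E) * ev s)) := by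
      rw [map_mul, Complex.conj_ofReal]
      push_cast
      ring
    rw [this, hE, one_mul, Complex.neg_im, Complex.im_ofReal_mul, ev_im]
  have e2 : e * ev (x 0 + (x 1 + x 4) + x 3) = (e * ev (x 0 + (x 1 + x 4))) * ev (x 3) := by
    rw [ev_add _ (x 3), mul_assoc]
  have g1 : ((starRingEnd ℂ) (qd x κ e 3) * qd x κ e 0).im =
      -((rd (κ 3) + rd (κ 0)) * (rd (κ 0) + rd (κ 1)) * Real.sin (2 * Real.pi * x 0)) :=
    key _ _ _ e hee
  have g2 : ((starRingEnd ℂ) (qd x κ e 1) * qd x κ e 2).im =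
      -((rd (κ 1) + rd (κ 2)) * (rd (κ 2) + rd (κ 3)) * Real.sin (2 * Real.pi * x 3)) := by
    show ((starRingEnd ℂ) (((rd (κ 1) + rd (κ 2) : ℝ) : ℂ) * (e * ev (x 0 + (x 1 + x 4)))) *
      (-(((rd (κ 2) + rd (κ 3) : ℝ) : ℂ) * (e * ev (x 0 + (x 1 + x 4) + x 3))))).im = _
    rw [e2]
    refine key _ _ _ _ ?_
    rw [map_mul]
    linear_combination (starRingEnd ℂ) e * e * hvv (x 0 + (x 1 + x 4)) + hee
  rw [g1, g2]
  have hpi := Real.pi_pos
  have p0 : 0 < x 0 := hp 0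
  have p1 := hp 1
  have p2 : 0 < x 3 := hp 2
  have p3 := hp 3
  have l0 : x 0 ≤ 1 / 2 := hle 0
  have l2 : x 3 ≤ 1 / 2 := hle 2
  have hr : ∀ q, 0 ≤ rd (κ q) := fun q => by
    unfold rd
    rw [hκ]
    exact ct_nn (hp q) (hle q)
  have q0 := hr 0
  have q1 := hr 1
  have q2 := hr 2
  have q3 := hr 3
  have s0 : 0 ≤ Real.sin (2 * Real.pi * x 0) :=
    Real.sin_nonneg_of_nonneg_of_le_pi (by positivity) (by nlinarith)
  have s3 : 0 ≤ Real.sin (2 * Real.pi * x 3) :=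
    Real.sin_nonneg_of_nonneg_of_le_pi (by positivity) (by nlinarith)
  have t0 : 0 ≤ (rd (κ 3) + rd (κ 0)) * (rd (κ 0) + rd (κ 1)) * Real.sin (2 * Real.pi * x 0) := by
    positivity
  have t3 : 0 ≤ (rd (κ 1) + rd (κ 2)) * (rd (κ 2) + rd (κ 3)) * Real.sin (2 * Real.pi * x 3) := by
    positivity
  have hsum : x 0 + cor x 1 + x 3 + cor x 3 = 1 := by
    rw [← hs, ← cor_sum]
    rfl
  by_cases hx : x 0 < 1 / 2
  · have s0' : 0 < Real.sin (2 * Real.pi * x 0) :=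
      Real.sin_pos_of_pos_of_lt_pi (by positivity) (by nlinarith)
    have r0 : 0 < rd (κ 0) := by
      unfold rd
      rw [hκ 0]
      exact ct_pos' p0 hx
    have : 0 < (rd (κ 3) + rd (κ 0)) * (rd (κ 0) + rd (κ 1)) * Real.sin (2 * Real.pi * x 0) := by
      positivity
    linarith
  · have hx3 : x 3 < 1 / 2 := by linarith
    have s3' : 0 < Real.sin (2 * Real.pi * x 3) :=
      Real.sin_pos_of_pos_of_lt_pi (by positivity) (by nlinarith)
    have r2 : 0 < rd (κ 2) := by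
      unfold rd
      rw [hκ 2]
      exact ct_pos' p2 hx3
    have : 0 < (rd (κ 1) + rd (κ 2)) * (rd (κ 2) + rd (κ 3)) * Real.sin (2 * Real.pi * x 3) := by
      positivity
    linarith

end Pool.Agent.H760.TC
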