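import Pool.Agent.H760.TC.Geo2

/-!
# Alternating links in the thickened torus: the developing map at the six types of vertices

An adaptation of `TT/Geo3.lean`.
-/

set_option autoImplicit false

namespace Pool.Agent.H760.TC

open Finset
open Pool.Agent.Q99.FAL
open Pool.Agent.Q237.FAL (mid ccl dec stp_eq cls_eq mid_len)
open Pool.Agent.H760.TT

/-- the quadrilateral in terms of the four rotations -/
lemma qd_eq (x : Fin 6 → ℝ) (κ : Fin 4 → ℝ) (f P Q R : ℂ) (hP : ev (x 0) = P)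
    (hQ : ev (x 1 + x 4) = Q) (hR : ev (x 3) = R) :
    qd x κ f 0 = -(((rd (κ 0) + rd (κ 1) : ℝ) : ℂ) * (f * P)) ∧
    qd x κ f 1 = ((rd (κ 1) + rd (κ 2) : ℝ) : ℂ) * (f * (P * Q)) ∧
    qd x κ f 2 = -(((rd (κ 2) + rd (κ 3) : ℝ) : ℂ) * (f * (P * Q * R))) ∧
    qd x κ f 3 = ((rd (κ 3) + rd (κ 0) : ℝ) : ℂ) * f := by
  refine ⟨?_, ?_, ?_, rfl⟩
  · show -(((rd (κ 0) + rd (κ 1) : ℝ) : ℂ) * (f * ev (x 0))) = _
    rw [hP]
  · show ((rd (κ 1) + rd (κ 2) : ℝ) : ℂ) * (f * ev (x 0 + (x 1 + x 4))) = _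
    rw [ev_add, hP, hQ]
  · show -(((rd (κ 2) + rd (κ 3) : ℝ) : ℂ) * (f * ev (x 0 + (x 1 + x 4) + x 3))) = _
    rw [ev_add _ (x 3), ev_add, hP, hQ, hR]

/-- **the developing map at a vertex** -/
lemma vx_geo (T : Ty) (x : Fin 6 → ℝ) (κ : Fin 4 → ℝ) (h : G4 x κ) (e : ℂ) (he : ‖e‖ = 1)
    (xg yg : ℝ) (m' : List ℝ) (hm : m'.length + 1 = wd T)
    (hcl : ∀ c ∈ ccl T (cor x) m', c = 1) (B B' : List ℝ) :
    ∃ lo u rest : List ℂ,
      vl e (κ (lc T) :: (low T κ ++ κ (Pool.Agent.Q99.FAL.rc T) :: B))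
        (xg :: (m' ++ yg :: B')) = lo ++ rest ∧
      vl e (κ (lc T) :: (mid T κ ++ κ (Pool.Agent.Q99.FAL.rc T) :: B))
        ((xg + cor x (lc T)) :: (mid T (cor x) ++
          (yg + cor x (Pool.Agent.Q99.FAL.rc T)) :: B')) = u ++ rest ∧
      lo.sum = u.sum ∧ ∀ Z, Om Z lo < Om Z u := by
  have hs1 := h.2.1
  unfold n1 n2 at hs1
  have hsum : x 0 + (x 1 + x 4) + x 3 + (x 2 + x 5) = 1 := by linarith
  obtain ⟨P, hP⟩ : ∃ P, ev (x 0) = P := ⟨_, rfl⟩
  obtain ⟨Q, hQ⟩ : ∃ Q, ev (x 1 + x 4) = Q := ⟨_, rfl⟩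
  obtain ⟨R, hR⟩ : ∃ R, ev (x 3) = R := ⟨_, rfl⟩
  obtain ⟨S, hS⟩ : ∃ S, ev (x 2 + x 5) = S := ⟨_, rfl⟩
  have hpq : P * Q * R * S = 1 := by
    rw [← hP, ← hQ, ← hR, ← hS, ← ev_add, ← ev_add, ← ev_add, hsum, ev_one]
  have hP' : ev (-(x 0)) = Q * R * S := by
    have := ev_neg (x 0)
    rw [hP] at this
    linear_combination (Q * R * S) * this - ev (-(x 0)) * hpq
  have hQ' : ev (-(x 1 + x 4)) = P * R * S := by
    have := ev_neg (x 1 + x 4)
    rw [hQ] at this
    linear_combination (P * R * S) * this - ev (-(x 1 + x 4)) * hpq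
  have hR' : ev (-(x 3)) = P * Q * S := by
    have := ev_neg (x 3)
    rw [hR] at this
    linear_combination (P * Q * S) * this - ev (-(x 3)) * hpq
  have hS' : ev (-(x 2 + x 5)) = P * Q * R := by
    have := ev_neg (x 2 + x 5)
    rw [hS] at this
    linear_combination (P * Q * R) * this - ev (-(x 2 + x 5)) * hpq
  obtain ⟨d, hd⟩ : ∃ d, d = -(e * ev (-xg)) := ⟨_, rfl⟩
  have hdn : ‖d‖ = 1 := by rw [hd, norm_neg, norm_mul, ev_norm, mul_one, he]
  have hneg : ∀ a b : ℝ, ev (-(a + b)) = ev (-a) * ev (-b) := fun a b => by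
    rw [← ev_add]; congr 1; ring
  have c0 : cor x 0 = x 0 := rfl
  have c1 : cor x 1 = x 1 + x 4 := rfl
  have c2 : cor x 2 = x 3 := rfl
  have c3 : cor x 3 = x 2 + x 5 := rfl
  have hup : ∀ s : ℝ, -(e * ev (-(xg + s))) = d * ev (-s) := by
    intro s
    rw [hd, hneg]
    ring
  cases T <;> simp only [wd] at hm <;> rcases m' with _ | ⟨g, _ | ⟨g', _ | ⟨g'', m'⟩⟩⟩ <;>
    simp only [List.length_cons, List.length_nil] at hm <;> try omega
  · -- V
    simp only [ccl, List.mem_singleton, forall_eq, c0] at hcl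
    have hg : ev (-g) = P := by
      rw [← hP, ← ev_sub_one (x 0)]; congr 1; linarith
    obtain ⟨w0, w1, w2, w3⟩ := qd_eq x κ d P Q R hP hQ hR
    have hs := qd_sum h d
    have ha := qd_area h d hdn
    refine ⟨[qd x κ d 3, qd x κ d 0], [-qd x κ d 2, -qd x κ d 1],
      vl (-(d * P)) (κ 1 :: B) (yg :: B'), ?_, ?_, ?_, ?_⟩
    · show vl e (κ 3 :: κ 0 :: κ 1 :: B) (xg :: g :: yg :: B') = _
      rw [vl, vl, ← hd, hg, w3, w0]
      simp only [List.cons_append, List.nil_append, List.cons.injEq, and_true, true_and]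
      ring
    · show vl e (κ 3 :: κ 2 :: κ 1 :: B) ((xg + cor x 3) :: cor x 2 :: (yg + cor x 1) :: B') = _
      rw [vl, vl, c1, c2, c3, hup, hR', hS', w1, w2, vl_head _ (-(d * P)) (κ 1) _ yg]
      · simp only [List.cons_append, List.nil_append, List.cons.injEq, and_true]
        push_cast
        constructor
        · ring
        · linear_combination (-(((rd (κ 1) : ℝ) : ℂ) + ((rd (κ 2) : ℝ) : ℂ)) * d * P * Q) * hpq
      · rw [hneg, hQ']
        linear_combination (-(d * P * ev (-yg)) * (P * Q * R * S + 1)) * hpq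
    · simp only [List.sum_cons, List.sum_nil]
      rw [hs]
      ring
    · intro Z
      have := omV _ _ _ _ Z hs
      linarith
  · -- H
    simp only [ccl, List.mem_singleton, forall_eq, c3] at hcl
    have hg : ev (-g) = S := by
      rw [← hS, ← ev_sub_one (x 2 + x 5)]; congr 1; linarith
    have hfn : ‖-(d * S)‖ = 1 := by
      rw [norm_neg, norm_mul, hdn, ← hS, ev_norm, mul_one]
    obtain ⟨w0, w1, w2, w3⟩ := qd_eq x κ (-(d * S)) P Q R hP hQ hR
    have hs := qd_sum h (-(d * S))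
    have ha := qd_area h (-(d * S)) hfn
    refine ⟨[qd x κ (-(d * S)) 2, qd x κ (-(d * S)) 3], [-qd x κ (-(d * S)) 1,
      -qd x κ (-(d * S)) 0], vl (-(d * S)) (κ 0 :: B) (yg :: B'), ?_, ?_, ?_, ?_⟩
    · show vl e (κ 2 :: κ 3 :: κ 0 :: B) (xg :: g :: yg :: B') = _
      rw [vl, vl, ← hd, hg, w2, w3]
      simp only [List.cons_append, List.nil_append, List.cons.injEq, and_true]
      push_cast
      linear_combination (-(((rd (κ 2) : ℝ) : ℂ) + ((rd (κ 3) : ℝ) : ℂ)) * d) * hpq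
    · show vl e (κ 2 :: κ 1 :: κ 0 :: B) ((xg + cor x 2) :: cor x 1 :: (yg + cor x 0) :: B') = _
      rw [vl, vl, c1, c2, c0, hup, hR', hQ', w1, w0, vl_head _ (-(d * S)) (κ 0) _ yg]
      · simp only [List.cons_append, List.nil_append, List.cons.injEq, and_true]
        push_cast
        constructor
        · ring
        · linear_combination (-(((rd (κ 1) : ℝ) : ℂ) + ((rd (κ 0) : ℝ) : ℂ)) * d * P * S) * hpq
      · rw [hneg, hP']
        linear_combination (-(d * S * ev (-yg)) * (P * Q * R * S + 1)) * hpq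
    · simp only [List.sum_cons, List.sum_nil]
      rw [hs]
      ring
    · intro Z
      have := omH _ _ _ _ Z hs
      linarith
  · -- YL
    obtain ⟨w0, w1, w2, w3⟩ := qd_eq x κ d P Q R hP hQ hR
    have hs := qd_sum h d
    have ha := qd_area h d hdn
    refine ⟨[qd x κ d 3], [-qd x κ d 2, -qd x κ d 1, -qd x κ d 0],
      vl d (κ 0 :: B) (yg :: B'), ?_, ?_, ?_, ?_⟩
    · show vl e (κ 3 :: κ 0 :: B) (xg :: yg :: B') = _
      rw [vl, ← hd, w3]
      rfl
    · show vl e (κ 3 :: κ 2 :: κ 1 :: κ 0 :: B) ((xg + cor x 3) :: cor x 2 :: cor x 1 ::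
        (yg + cor x 0) :: B') = _
      rw [vl, vl, vl, c1, c2, c3, c0, hup, hR', hS', hQ', w1, w2, w0, vl_head _ d (κ 0) _ yg]
      · simp only [List.cons_append, List.nil_append, List.cons.injEq, and_true]
        push_cast
        refine ⟨?_, ?_, ?_⟩
        · ring
        · linear_combination (-(((rd (κ 1) : ℝ) : ℂ) + ((rd (κ 2) : ℝ) : ℂ)) * d * P * Q) * hpq
        · linear_combination ((((rd (κ 1) : ℝ) : ℂ) + ((rd (κ 0) : ℝ) : ℂ)) * d * P) *
            (P * Q * R * S + 1) * hpq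
      · rw [hneg, hP']
        linear_combination (d * ev (-yg) * ((P * Q * R * S) ^ 2 + P * Q * R * S + 1)) * hpq
    · simp only [List.sum_cons, List.sum_nil]
      rw [hs]
      ring
    · intro Z
      have := omYL _ _ _ _ Z hs
      linarith
  · -- YR
    have hfn : ‖-(d * (Q * R * S))‖ = 1 := by
      rw [norm_neg, norm_mul, hdn, ← hP', ev_norm, mul_one]
    obtain ⟨w0, w1, w2, w3⟩ := qd_eq x κ (-(d * (Q * R * S))) P Q R hP hQ hR
    have hs := qd_sum h (-(d * (Q * R * S)))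
    have ha := qd_area h (-(d * (Q * R * S))) hfn
    refine ⟨[qd x κ (-(d * (Q * R * S))) 0], [-qd x κ (-(d * (Q * R * S))) 3,
      -qd x κ (-(d * (Q * R * S))) 2, -qd x κ (-(d * (Q * R * S))) 1],
      vl d (κ 1 :: B) (yg :: B'), ?_, ?_, ?_, ?_⟩
    · show vl e (κ 0 :: κ 1 :: B) (xg :: yg :: B') = _
      rw [vl, ← hd, w0]
      simp only [List.cons_append, List.nil_append, List.cons.injEq, and_true]
      push_cast
      linear_combination (-(((rd (κ 0) : ℝ) : ℂ) + ((rd (κ 1) : ℝ) : ℂ)) * d) * hpq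
    · show vl e (κ 0 :: κ 3 :: κ 2 :: κ 1 :: B) ((xg + cor x 0) :: cor x 3 :: cor x 2 ::
        (yg + cor x 1) :: B') = _
      rw [vl, vl, vl, c1, c2, c3, c0, hup, hR', hS', hP', w1, w2, w3, vl_head _ d (κ 1) _ yg]
      · simp only [List.cons_append, List.nil_append, List.cons.injEq, and_true]
        push_cast
        refine ⟨?_, ?_, ?_⟩
        · ring
        · ring
        · linear_combination ((((rd (κ 1) : ℝ) : ℂ) + ((rd (κ 2) : ℝ) : ℂ)) * d *
            (P * Q * R * S) * Q) * hpq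
      · rw [hneg, hQ']
        linear_combination (d * ev (-yg) * ((P * Q * R * S) ^ 2 + P * Q * R * S + 1)) * hpq
    · simp only [List.sum_cons, List.sum_nil]
      rw [hs]
      ring
    · intro Z
      have := omYR _ _ _ _ Z hs
      linarith
  · -- LL
    simp only [ccl, List.mem_cons, List.not_mem_nil, or_false, forall_eq_or_imp, forall_eq, c0,
      c1] at hcl
    obtain ⟨hc1, hc2⟩ := hcl
    have hg : ev (-g) = P := by
      rw [← hP, ← ev_sub_one (x 0)]; congr 1; linarith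
    have hg' : ev (-g') = Q := by
      rw [← hQ, ← ev_sub_one (x 1 + x 4)]; congr 1; linarith
    obtain ⟨w0, w1, w2, w3⟩ := qd_eq x κ d P Q R hP hQ hR
    have hs := qd_sum h d
    have ha := qd_area h d hdn
    refine ⟨[qd x κ d 3, qd x κ d 0, qd x κ d 1], [-qd x κ d 2],
      vl (d * P * Q) (κ 2 :: B) (yg :: B'), ?_, ?_, ?_, ?_⟩
    · show vl e (κ 3 :: κ 0 :: κ 1 :: κ 2 :: B) (xg :: g :: g' :: yg :: B') = _
      rw [vl, vl, vl, ← hd, hg, hg', w3, w0, w1]
      have e1 : -(-(d * P) * Q) = d * P * Q := by ring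
      rw [e1]
      simp only [List.cons_append, List.nil_append, List.cons.injEq, and_true, true_and]
      constructor <;> ring
    · show vl e (κ 3 :: κ 2 :: B) ((xg + cor x 3) :: (yg + cor x 2) :: B') = _
      rw [vl, c2, c3, hup, hS', w2, vl_head _ (d * P * Q) (κ 2) _ yg]
      · simp only [List.cons_append, List.nil_append, List.cons.injEq, and_true]
        push_cast
        ring
      · rw [hneg, hR']
        linear_combination (d * ev (-yg) * P * Q) * hpq
    · simp only [List.sum_cons, List.sum_nil]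
      rw [hs]
      ring
    · intro Z
      have := omLL _ _ _ _ Z hs
      linarith
  · -- LR
    simp only [ccl, List.mem_cons, List.not_mem_nil, or_false, forall_eq_or_imp, forall_eq, c0,
      c3] at hcl
    obtain ⟨hc1, hc2⟩ := hcl
    have hg : ev (-g) = S := by
      rw [← hS, ← ev_sub_one (x 2 + x 5)]; congr 1; linarith
    have hg' : ev (-g') = P := by
      rw [← hP, ← ev_sub_one (x 0)]; congr 1; linarith
    have hfn : ‖-(d * S)‖ = 1 := by
      rw [norm_neg, norm_mul, hdn, ← hS, ev_norm, mul_one]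
    obtain ⟨w0, w1, w2, w3⟩ := qd_eq x κ (-(d * S)) P Q R hP hQ hR
    have hs := qd_sum h (-(d * S))
    have ha := qd_area h (-(d * S)) hfn
    refine ⟨[qd x κ (-(d * S)) 2, qd x κ (-(d * S)) 3, qd x κ (-(d * S)) 0],
      [-qd x κ (-(d * S)) 1], vl (d * S * P) (κ 1 :: B) (yg :: B'), ?_, ?_, ?_, ?_⟩
    · show vl e (κ 2 :: κ 3 :: κ 0 :: κ 1 :: B) (xg :: g :: g' :: yg :: B') = _
      rw [vl, vl, vl, ← hd, hg, hg', w2, w3, w0]
      have e1 : -(-(d * S) * P) = d * S * P := by ring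
      rw [e1]
      simp only [List.cons_append, List.nil_append, List.cons.injEq, and_true, true_and]
      push_cast
      refine ⟨?_, ?_⟩
      · linear_combination (-(((rd (κ 2) : ℝ) : ℂ) + ((rd (κ 3) : ℝ) : ℂ)) * d) * hpq
      · ring
    · show vl e (κ 2 :: κ 1 :: B) ((xg + cor x 2) :: (yg + cor x 1) :: B') = _
      rw [vl, c2, c1, hup, hR', w1, vl_head _ (d * S * P) (κ 1) _ yg]
      · simp only [List.cons_append, List.nil_append, List.cons.injEq, and_true]
        push_cast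
        ring
      · rw [hneg, hQ']
        linear_combination (d * ev (-yg) * S * P) * hpq
    · simp only [List.sum_cons, List.sum_nil]
      rw [hs]
      ring
    · intro Z
      have := omLR _ _ _ _ Z hs
      linarith

end Pool.Agent.H760.TC
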