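import Pool.Agent.H760.TC.Geo3

/-!
# Alternating links in the thickened torus: the developing map along a diagram

An adaptation of `TT/Geo4.lean`.
-/

set_option autoImplicit false

namespace Pool.Agent.H760.TC

open Finset
open Pool.Agent.Q99.FAL
open Pool.Agent.Q237.FAL (mid ccl dec stp_eq cls_eq mid_len)
open Pool.Agent.H760.TT

/-- the invariants of the rotations -/
lemma rots_geo (b : Bool) (r : ℕ) (z : ℝ × List ℝ) (c : List ℝ) (hc : Per c)
    (hz : z.2.length = c.length) :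
    (∀ Z, Z + (vp z c).sum = hh' z.2 * Z → ∃ Z', Z' +
      (vp ((rot b)^[r] z) ((rotc b)^[r] c)).sum = hh' z.2 * Z' ∧
      Om Z' (vp ((rot b)^[r] z) ((rotc b)^[r] c)) = Om Z (vp z c)) ∧
    (hh' z.2 = 1 → (vp ((rot b)^[r] z) ((rotc b)^[r] c)).sum = (-1) ^ r * (vp z c).sum) := by
  obtain ⟨n, hn⟩ := hc.two
  induction r with
  | zero =>
    refine ⟨fun Z hZ => ⟨Z, hZ, rfl⟩, fun _ => ?_⟩
    rw [pow_zero, one_mul]
    rfl
  | succ r ih =>
    obtain ⟨h1, h2⟩ := ih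
    have hl : ((rot b)^[r] z).2.length = ((rotc b)^[r] c).length := by
      rw [rots_len b r z n (hz.trans hn), rotcs_len b r c hc, hn]
    have hh := hh_rots b r z n (hz.trans hn)
    obtain ⟨g1, g2⟩ := rot_geo b ((rot b)^[r] z) ((rotc b)^[r] c) (rotcs_per b r c hc) hl
    rw [hh] at g1 g2
    rw [Function.iterate_succ_apply', Function.iterate_succ_apply']
    refine ⟨fun Z hZ => ?_, fun h => ?_⟩
    · obtain ⟨Z1, hZ1, hO1⟩ := h1 Z hZ
      obtain ⟨Z2, hZ2, hO2⟩ := g1 Z1 hZ1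
      exact ⟨Z2, hZ2, hO2.trans hO1⟩
    · rw [g2 h, h2 h, pow_succ]
      ring

/-- a vertex: the path moves up -/
lemma vst_geo (V : Vx) (n : ℕ) (hV : V.P.p + wd V.P.ty ≤ n) (x : Fin 6 → ℝ) (κ : Fin 4 → ℝ)
    (h : G4 x κ) (c A B : List ℝ) (hA : A.length = V.P.p) (hc : Per c) (hcl : c.length = n + 1)
    (hr : (rotc V.b)^[V.r] c = A ++ κ (lc V.P.ty) :: (low V.P.ty κ ++
        κ (Pool.Agent.Q99.FAL.rc V.P.ty) :: B))
    (z : ℝ × List ℝ) (hz : z.2.length = n + 1) (hone : ∀ v ∈ vcl V x z, v = 1) :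
    hh' (vst V x z).2 = hh' z.2 ∧
    (∀ Z, Z + (vp z c).sum = hh' z.2 * Z → ∃ Z', Z' + (vp (vst V x z) (A ++ κ (lc V.P.ty) ::
        (mid V.P.ty κ ++ κ (Pool.Agent.Q99.FAL.rc V.P.ty) :: B))).sum = hh' z.2 * Z' ∧
      Om Z (vp z c) < Om Z' (vp (vst V x z) (A ++ κ (lc V.P.ty) ::
        (mid V.P.ty κ ++ κ (Pool.Agent.Q99.FAL.rc V.P.ty) :: B)))) ∧
    (hh' z.2 = 1 → (vp (vst V x z) (A ++ κ (lc V.P.ty) ::
        (mid V.P.ty κ ++ κ (Pool.Agent.Q99.FAL.rc V.P.ty) :: B))).sum =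
      (-1) ^ V.r * (vp z c).sum) := by
  have hwp := wd_pos V.P.ty
  obtain ⟨j, rfl⟩ : ∃ j, n = j + 1 := ⟨n - 1, by omega⟩
  obtain ⟨g1, g2⟩ := rots_geo V.b V.r z c hc (hz.trans hcl.symm)
  have hrl := rots_len V.b V.r z j hz
  obtain ⟨A', x', m', y', r', hG, hA', hm⟩ := dec V.P.ty V.P.p ((rot V.b)^[V.r] z).2 (by omega)
  have hv1 : (vst V x z).1 = ((rot V.b)^[V.r] z).1 := rfl
  have hv2 : (vst V x z).2 = A' ++ (x' + cor x (lc V.P.ty)) :: (mid V.P.ty (cor x) ++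
      (y' + cor x (Pool.Agent.Q99.FAL.rc V.P.ty)) :: r') := by
    show stp V.P.ty V.P.p (cor x) ((rot V.b)^[V.r] z).2 = _
    rw [hG, ← hA', stp_eq V.P.ty _ A' x' m' y' r' hm]
  have hv3 : vcl V x z = ccl V.P.ty (cor x) m' := by
    show cls V.P.ty V.P.p (cor x) ((rot V.b)^[V.r] z).2 = _
    rw [hG, ← hA', cls_eq V.P.ty _ A' x' m' y' r' hm]
  rw [hv3] at hone
  obtain ⟨va, e', he', hsp⟩ := vl_split A A' (hA.trans hA'.symm) (-ev ((rot V.b)^[V.r] z).1)
    (κ (lc V.P.ty))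
  have hen : ‖e'‖ = 1 := by rw [he', norm_neg, ev_norm]
  obtain ⟨lo, u, rest, hlo, hu, hsum, hO⟩ := vx_geo V.P.ty x κ h e' hen x' y' m' hm hone B r'
  have hbelow : vp ((rot V.b)^[V.r] z) ((rotc V.b)^[V.r] c) = va ++ (lo ++ rest) := by
    unfold vp
    rw [hr, hG, hsp, hlo]
  have habove : vp (vst V x z) (A ++ κ (lc V.P.ty) :: (mid V.P.ty κ ++
      κ (Pool.Agent.Q99.FAL.rc V.P.ty) :: B)) = va ++ (u ++ rest) := by
    unfold vp
    rw [hv1, hv2, hsp, hu]
  have hsums : (vp (vst V x z) (A ++ κ (lc V.P.ty) :: (mid V.P.ty κ ++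
      κ (Pool.Agent.Q99.FAL.rc V.P.ty) :: B))).sum =
      (vp ((rot V.b)^[V.r] z) ((rotc V.b)^[V.r] c)).sum := by
    rw [hbelow, habove]
    simp only [List.sum_append]
    rw [hsum]
  refine ⟨?_, ?_, ?_⟩
  · -- the horizontal holonomy
    have hs := vst_sum V x z (j + 1) hV hz
    have hl := vst_len V x z (j + 1) hV hz
    have hvl := vcl_len V x z (j + 1) hV hz
    have hn : n1 x + n2 x = 1 := h.2.1
    have hcs : (vcl V x z).sum = (ncl V.P.ty : ℝ) := by
      rw [← hvl]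
      rw [hv3]
      generalize ccl V.P.ty (cor x) m' = l at hone
      induction l with
      | nil => simp
      | cons a l ih =>
        rw [List.sum_cons, List.length_cons, ih fun v hv => hone v (List.mem_cons_of_mem _ hv),
          hone a List.mem_cons_self]
        push_cast
        ring
    rw [hn, hcs] at hs
    unfold hh'
    rw [hl, hz]
    obtain ⟨T, hT⟩ : ∃ T, V.P.ty = T := ⟨_, rfl⟩
    rw [hT] at hs ⊢ hV
    have hval : (vst V x z).2.sum = z.2.sum + 1 - (ncl T : ℝ) := by linarith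
    have hev2 : ev 1 = 1 := ev_one
    cases T <;> simp only [ncl, up, wd] at hval hV ⊢
    · have : -(vst V x z).2.sum = -z.2.sum := by rw [hval]; push_cast; ring
      rw [this]
    · have : -(vst V x z).2.sum = -z.2.sum := by rw [hval]; push_cast; ring
      rw [this]
    · have : -(vst V x z).2.sum = -z.2.sum - 1 := by rw [hval]; push_cast; ring
      rw [this, ev_sub_one]
      ring
    · have : -(vst V x z).2.sum = -z.2.sum - 1 := by rw [hval]; push_cast; ring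
      rw [this, ev_sub_one]
      ring
    · have : -(vst V x z).2.sum = -z.2.sum + 1 := by rw [hval]; push_cast; ring
      obtain ⟨i, rfl⟩ : ∃ i, j = i + 2 := ⟨j - 2, by omega⟩
      rw [this, ev_add, ev_one]
      have : i + 2 + 1 - 2 = i + 1 := by omega
      rw [this]
      ring
    · have : -(vst V x z).2.sum = -z.2.sum + 1 := by rw [hval]; push_cast; ring
      obtain ⟨i, rfl⟩ : ∃ i, j = i + 2 := ⟨j - 2, by omega⟩
      rw [this, ev_add, ev_one]
      have : i + 2 + 1 - 2 = i + 1 := by omega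
      rw [this]
      ring
  · intro Z hZ
    obtain ⟨Z', hZ', hOm⟩ := g1 Z hZ
    refine ⟨Z', by rw [hsums]; exact hZ', ?_⟩
    rw [← hOm, hbelow, habove, Om_append, Om_append, Om_append, Om_append, hsum]
    have := hO (Z' + va.sum)
    linarith
  · intro hh
    rw [hsums, g2 hh]

/-- **the developing map along a diagram** -/
theorem chain : ∀ (D : List Vx) (n n' : ℕ), Val D n n' → ∀ (x : Fin D.length → Fin 6 → ℝ)
    (κ : Fin D.length → Fin 4 → ℝ) (c c' : List ℝ), CK D κ c c' → c.length = n + 1 →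
    (∀ b, G4 (x b) (κ b)) → ∀ z : ℝ × List ℝ, z.2.length = n + 1 → (∀ v ∈ clo D x z, v = 1) →
    (∀ Z, Z + (vp z c).sum = hh' z.2 * Z → ∃ Z', Z' + (vp (fin D x z) c').sum = hh' z.2 * Z' ∧
      Om Z (vp z c) ≤ Om Z' (vp (fin D x z) c') ∧
      (D ≠ [] → Om Z (vp z c) < Om Z' (vp (fin D x z) c'))) ∧
    (hh' z.2 = 1 → (vp (fin D x z) c').sum = ev ((wr D : ℝ) / 2) * (vp z c).sum)
  | [], n, n', h, x, κ, c, c', hCK, hc, hG, z, hz, ho => by
    have hcc : c = c' := hCK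
    subst hcc
    refine ⟨fun Z hZ => ⟨Z, hZ, le_rfl, fun hh => absurd rfl hh⟩, fun _ => ?_⟩
    have : ((wr ([] : List Vx) : ℤ) : ℝ) / 2 = 0 := by simp [wr]
    rw [this, ev_zero, one_mul]
    rfl
  | V :: D, n, n', h, x, κ, c, c', hCK, hc, hG, z, hz, ho => by
    obtain ⟨hPc, A, B, hA, hr, hCK'⟩ := hCK
    have ho1 : ∀ v ∈ vcl V (x 0) z, v = 1 := fun v hv =>
      ho v (List.mem_append_left _ hv)
    have ho2 : ∀ v ∈ clo D (fun k => x k.succ) (vst V (x 0) z), v = 1 := fun v hv =>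
      ho v (List.mem_append_right _ hv)
    obtain ⟨q1, q2, q3⟩ := vst_geo V n h.1 (x 0) (κ 0) (hG 0) c A B hA hPc hc hr z hz ho1
    have hl := vst_len V (x 0) z n h.1 hz
    have hcl1 : (A ++ κ 0 (lc V.P.ty) :: (mid V.P.ty (κ 0) ++
        κ 0 (Pool.Agent.Q99.FAL.rc V.P.ty) :: B)).length = up V.P.ty n + 1 := by
      have e1 := congrArg List.length hr
      rw [rotcs_len _ _ _ hPc, hc] at e1
      have e2 := mid_ud V.P.ty (κ 0)
      have e3 := up_ud V.P.ty n (by have := h.1; omega)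
      have e4 : (low V.P.ty (κ 0)).length + 1 = wd V.P.ty := by cases V.P.ty <;> rfl
      simp only [List.length_append, List.length_cons] at e1 ⊢
      omega
    obtain ⟨p1, p2⟩ := chain D _ n' h.2 (fun k => x k.succ) (fun k => κ k.succ) _ c' hCK' hcl1
      (fun b => hG b.succ) (vst V (x 0) z) hl ho2
    rw [q1] at p1 p2
    refine ⟨fun Z hZ => ?_, fun hh => ?_⟩
    · obtain ⟨Z1, hZ1, hO1⟩ := q2 Z hZ
      obtain ⟨Z2, hZ2, hO2, -⟩ := p1 Z1 hZ1
      exact ⟨Z2, hZ2, (hO1.trans_le hO2).le, fun _ => hO1.trans_le hO2⟩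
    · show (vp (fin D (fun k => x k.succ) (vst V (x 0) z)) c').sum = _
      rw [p2 hh, q3 hh, neg_one_ev V.b V.r]
      have e : ((wr (V :: D) : ℤ) : ℝ) / 2 =
          (wr D : ℝ) / 2 + (((if V.b then (V.r : ℤ) else -V.r) : ℤ) : ℝ) / 2 := by
        rw [wr]
        push_cast
        ring
      rw [e, ev_add]
      ring

end Pool.Agent.H760.TC
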