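import Pool.Agent.H760.TC.Geo4

/-!
# Alternating links in the thickened torus: integral holonomies, and the pairing of corners

An adaptation of `TT/Geo5.lean`.
-/

set_option autoImplicit false

namespace Pool.Agent.H760.TC

open Finset
open Pool.Agent.Q99.FAL
open Pool.Agent.Q237.FAL (mid ccl dec stp_eq cls_eq mid_len)
open Pool.Agent.H760.TT

variable {D : List Vx} {k m : ℕ}

/-- the path above is a rotation of the path below -/
lemma top_eq (K x y c0 : ℝ) (M C : List ℝ) (h : C.length = M.length) :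
    vp (K, x :: (M ++ [y])) (c0 :: (C ++ [c0])) =
      (vp (0, 0 :: (M ++ [y + x])) (c0 :: (C ++ [c0]))).map (ev (K - x) * ·) := by
  unfold vp
  simp only
  rw [← vl_smul]
  have e1 : vl (-ev K) (c0 :: (C ++ [c0])) (x :: (M ++ [y])) =
      vl (ev (K - x) * -ev 0) (c0 :: (C ++ [c0])) (0 :: (M ++ [y])) := by
    apply vl_head
    rw [neg_zero, ev_zero, sub_eq_add_neg, ev_add]
    ring
  have e2 := vl_last (0 :: M) (c0 :: (C ++ [c0])) (by simp [h]) (ev (K - x) * -ev 0) y (y + x)
  rw [List.cons_append, List.cons_append] at e2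
  rw [e1, e2]

/-- **the holonomies are integral** -/
theorem flat4 (h : Val D (m + 1) (m + 1)) (hC : Cell D m k)
    (a : Fin D.length → Fin 6 → ℝ) (hTS : TS k m D a 1) (κ : Fin D.length → Fin 4 → ℝ)
    (c : List ℝ) (hcl : c.length = m + 1 + 1) (hP : Per c) (hCK : CK D κ c c)
    (hG4 : ∀ b, G4 (a b) (κ b)) : ∃ j l : ℤ, Flat k m D a j l := by
  unfold Flat
  have hfix := fixR h hC a
  have hGl : (Gof k m D a).length = m + 2 := Gof_len h k a
  have hone : ∀ v ∈ clo D a (0, Gof k m D a), v = 1 := hTS.2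
  obtain ⟨G, hG⟩ : ∃ G, G = Gof k m D a := ⟨_, rfl⟩
  rw [← hG] at hfix hGl hone ⊢
  obtain ⟨p1, p2⟩ := chain D (m + 1) (m + 1) h a _ c c hCK hcl hG4 (0, G) hGl hone
  have hfl := fin_len D _ _ h a (0, G) hGl
  obtain ⟨c0, C, rfl⟩ := hP
  obtain ⟨x, M, y, hf2, hM⟩ := exists_ends (n := m) hfl
  obtain ⟨K, hK⟩ : ∃ K, K = (fin D a (0, G)).1 := ⟨_, rfl⟩
  have hfin : fin D a (0, G) = (K, x :: (M ++ [y])) := by
    rw [hK, ← hf2]
  have hG0 : G = 0 :: (M ++ [y + x]) := by
    unfold turn at hfix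
    rw [hf2, nrm_eq] at hfix
    exact hfix.symm
  have hCM : C.length = M.length := by
    simp at hcl
    omega
  have hKf : Kf D a G = K - x := by
    unfold Kf
    rw [hfin]
    rfl
  have htop := top_eq K x y c0 M C hCM
  rw [← hG0, ← hfin] at htop
  obtain ⟨u, hu⟩ : ∃ u, u = ev (K - x) := ⟨_, rfl⟩
  have hun : ‖u‖ = 1 := by rw [hu, ev_norm]
  have hu0 : u ≠ 0 := by rw [hu]; exact ev_ne _
  rw [← hu] at htop
  have hsum : ∀ v : List ℂ, (v.map (u * ·)).sum = u * v.sum := by
    intro v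
    induction v with
    | nil => simp
    | cons a v ih => rw [List.map_cons, List.sum_cons, List.sum_cons, ih]; ring
  rw [htop] at p1 p2
  rw [hsum] at p1 p2
  obtain ⟨bot, hbot⟩ : ∃ bot, bot = vp (0, G) (c0 :: (C ++ [c0])) := ⟨_, rfl⟩
  rw [← hbot] at p1 p2
  obtain ⟨H, hH⟩ : ∃ H, H = hh' G := ⟨_, rfl⟩
  simp only at p1 p2
  rw [← hH] at p1 p2
  have hDne := D_ne hC
  -- the horizontal holonomy
  have hH1 : H = 1 := by
    by_contra hne
    have hH0 : H - 1 ≠ 0 := sub_ne_zero.2 hne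
    obtain ⟨Z', hZ', -, hO⟩ := p1 (bot.sum / (H - 1)) (by field_simp; ring)
    have e : Z' = u * (bot.sum / (H - 1)) := by
      rw [mul_div_assoc', eq_div_iff hH0]
      linear_combination -hZ'
    have := hO hDne
    rw [e, Om_smul u hun] at this
    exact lt_irrefl _ this
  have hW : bot.sum ≠ 0 := by
    intro hW
    obtain ⟨Z', -, -, hO⟩ := p1 0 (by rw [hW]; ring)
    have h1 := hO hDne
    have e : Z' = u * (0 + u⁻¹ * Z') := by
      rw [zero_add, ← mul_assoc, mul_inv_cancel₀ hu0, one_mul]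
    rw [e, Om_smul u hun, Om_shift, hW, mul_zero, Complex.zero_im, add_zero] at h1
    exact lt_irrefl _ h1
  have hv := mul_right_cancel₀ hW (p2 hH1)
  rw [hu] at hv
  -- conclusion
  obtain ⟨l, hl⟩ := ev_eq_one (s := (K - x) - (wr D : ℝ) / 2) (by
    have h1 := ev_neg ((wr D : ℝ) / 2)
    rw [sub_eq_add_neg, ev_add, hv, mul_comm]
    exact h1)
  obtain ⟨j, hj⟩ := ev_eq_one (s := ((m : ℝ) + 1) / 2 - G.sum) (by
    have h1 := neg_one_ev true (m + 1)
    rw [if_pos rfl] at h1
    have h2 : (((((m + 1 : ℕ) : ℤ)) : ℝ)) / 2 = ((m : ℝ) + 1) / 2 := by push_cast; ring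
    rw [h2] at h1
    have h3 : H = (-1) ^ (m + 2 + 1) * ev (-G.sum) := by
      rw [hH]
      unfold hh'
      rw [hGl]
    rw [hH1] at h3
    rw [sub_eq_add_neg, ev_add, ← h1]
    linear_combination -h3)
  refine ⟨-j, l + wr D, ?_, ?_⟩
  · push_cast
    linarith
  · rw [hKf]
    push_cast
    linarith

/-! ### the pairing of a colouring with the corners -/

/-- a vertex -/
lemma pvx (T : Ty) (A B : List ℝ) (κ q : Fin 4 → ℝ) (G : List ℝ)
    (hG : G.length = A.length + wd T + B.length + 1) :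
    dot (A ++ κ (lc T) :: (mid T κ ++ κ (Pool.Agent.Q99.FAL.rc T) :: B)) (stp T A.length q G) +
      dot (low T κ) (cls T A.length q G) =
    dot (A ++ κ (lc T) :: (low T κ ++ κ (Pool.Agent.Q99.FAL.rc T) :: B)) G + ∑ j, κ j * q j := by
  obtain ⟨A', x', m', y', r', rfl, hA, hm⟩ := dec T A.length G (by omega)
  rw [← hA, stp_eq T _ A' x' m' y' r' hm, cls_eq T _ A' x' m' y' r' hm,
    dot_append hA.symm, dot_append hA.symm, Fin.sum_univ_four]
  cases T <;> simp only [wd] at hm <;> rcases m' with _ | ⟨g, _ | ⟨g', _ | ⟨g'', m'⟩⟩⟩ <;>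
    simp only [List.length_cons, List.length_nil] at hm <;> try omega
  all_goals
    simp only [lc, Pool.Agent.Q99.FAL.rc, mid, low, ccl, List.cons_append, List.nil_append,
      dot_cons, dot_nil]
    ring

lemma dot_nil' (c : List ℝ) : ∀ l : List ℝ, (∀ v ∈ l, v = 0) → dot c l = 0 := by
  induction c with
  | nil => intro l _; exact dot_nil l
  | cons a c ih =>
    intro l hl
    rcases l with _ | ⟨b, l⟩
    · simp [dot]
    · rw [dot_cons, ih l fun v hv => hl v (List.mem_cons_of_mem _ hv), hl b List.mem_cons_self]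
      ring

/-- **the pairing along a diagram** -/
lemma pair : ∀ (D : List Vx) (n n' : ℕ), Val D n n' → ∀ (κ : Fin D.length → Fin 4 → ℝ)
    (c c' : List ℝ), CK D κ c c' → c.length = n + 1 → ∀ (x : Fin D.length → Fin 6 → ℝ)
    (z : ℝ × List ℝ), z.2.length = n + 1 → (∀ v ∈ clo D x z, v = 0) →
    dot c' (fin D x z).2 = dot c z.2 + ∑ b, ∑ q, κ b q * cor (x b) q
  | [], n, n', h, κ, c, c', hCK, hc, x, z, hz, h0 => by
    have hcc : c = c' := hCK
    subst hcc
    have : ∑ b : Fin ([] : List Vx).length, ∑ q, κ b q * cor (x b) q = 0 :=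
      Finset.sum_eq_zero fun b _ => b.elim0
    rw [this, add_zero]
    rfl
  | V :: D, n, n', h, κ, c, c', hCK, hc, x, z, hz, h0 => by
    obtain ⟨hPc, A, B, hA, hr, hCK'⟩ := hCK
    have ho1 : ∀ v ∈ vcl V (x 0) z, v = 0 := fun v hv =>
      h0 v (List.mem_append_left _ hv)
    have ho2 : ∀ v ∈ clo D (fun k => x k.succ) (vst V (x 0) z), v = 0 := fun v hv =>
      h0 v (List.mem_append_right _ hv)
    have hl := vst_len V (x 0) z n h.1 hz
    have e1 := congrArg List.length hr
    rw [rotcs_len _ _ _ hPc, hc] at e1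
    have e4 : (low V.P.ty (κ 0)).length + 1 = wd V.P.ty := by cases V.P.ty <;> rfl
    have hcl1 : (A ++ κ 0 (lc V.P.ty) :: (mid V.P.ty (κ 0) ++
        κ 0 (Pool.Agent.Q99.FAL.rc V.P.ty) :: B)).length = up V.P.ty n + 1 := by
      have e2 := mid_ud V.P.ty (κ 0)
      have e3 := up_ud V.P.ty n (by have := h.1; omega)
      simp only [List.length_append, List.length_cons] at e1 ⊢
      omega
    have ih := pair D _ n' h.2 (fun k => κ k.succ) _ c' hCK' hcl1 (fun k => x k.succ)
      (vst V (x 0) z) hl ho2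
    have hwp := wd_pos V.P.ty
    obtain ⟨i, rfl⟩ : ∃ i, n = i + 1 := ⟨n - 1, by have := h.1; omega⟩
    have hG : ((rot V.b)^[V.r] z).2.length = A.length + wd V.P.ty + B.length + 1 := by
      rw [rots_len V.b V.r z i hz]
      simp only [List.length_append, List.length_cons] at e1
      omega
    have hv := pvx V.P.ty A B (κ 0) (cor (x 0)) ((rot V.b)^[V.r] z).2 hG
    have hd := rotcs_dot V.b V.r c hPc z (hz.trans hc.symm)
    rw [hr] at hd
    have hv1 : (vst V (x 0) z).2 = stp V.P.ty A.length (cor (x 0)) ((rot V.b)^[V.r] z).2 := by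
      rw [hA]
      rfl
    have hv2 : vcl V (x 0) z = cls V.P.ty A.length (cor (x 0)) ((rot V.b)^[V.r] z).2 := by
      rw [hA]
      rfl
    rw [← hv1, ← hv2, dot_nil' _ _ ho1, add_zero, hd] at hv
    rw [hv] at ih
    have es : ∑ b : Fin (V :: D).length, ∑ q, κ b q * cor (x b) q = ∑ q, κ 0 q * cor (x 0) q +
        ∑ b : Fin D.length, ∑ q, κ b.succ q * cor (x b.succ) q := Fin.sum_univ_succ _
    rw [es, ← add_assoc]
    exact ih

/-- a functional which is constant on the regions vanishes on the homogeneous solutions -/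
theorem pf_zero (h : Val D (m + 1) (m + 1)) (hC : Cell D m k) (κ : Fin D.length → Fin 4 → ℝ)
    (c : List ℝ) (hcl : c.length = m + 1 + 1) (hP : Per c) (hCK : CK D κ c c)
    (x : Fin D.length → Fin 6 → ℝ) (hx : TS k m D x 0) : pf κ x = 0 := by
  have hGl : (Gof k m D x).length = m + 2 := Gof_len h k x
  have h1 := pair D _ _ h κ c c hCK hcl x (0, Gof k m D x) hGl hx.2
  have hfix := fixR h hC x
  have hfl := fin_len D _ _ h x (0, Gof k m D x) hGl
  have h2 := nrm_dot c (fin D x (0, Gof k m D x)).2 hP (hfl.trans hcl.symm)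
  have h3 : nrm (fin D x (0, Gof k m D x)).2 = Gof k m D x := hfix
  rw [h3] at h2
  rw [pf_apply]
  linarith

end Pool.Agent.H760.TC
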