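import Pool.Agent.H760.TC.N5
import Pool.Agent.H760.TT.VC
import Pool.Agent.H760.TT.Rank

/-!
# Alternating links in the thickened torus: the lattice of a diagram with single crossings
-/

set_option autoImplicit false

namespace Pool.Agent.H760.TC

open Finset Filter Topology
open Pool.Agent.W715.VC (rt rt_ne)
open Pool.Agent.W719.BS (D D_pos)
open Pool.Agent.W358.BSTay (gg)
open Pool.Agent.Q191.TW (cs cs_add cs_zero cs_ne cs_neg cs_norm dl)
open Pool.Agent.Q99.FAL
open Pool.Agent.Q98.FAL (nu_ne nu_add nu_norm)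
open Pool.Agent.Q99.FP2 (nu_cs)
open Pool.Agent.Q99.KN (Rgn)
open Pool.Agent.Q99.UB (sw sw_ok sw_ne Wc)
open Pool.Agent.H760.TT

variable {N : ℕ} {D : List Vx} {k m : ℕ}

/-! ### merging -/

section mrg
variable {R : Type} [AddCommGroup R]

/-- the two triangles of a vertex are merged -/
def mrg (x : Fin 6 → R) : Fin 6 → R := ![x 0, x 1 + x 4, x 2 + x 5, x 3, 0, 0]

lemma cor_mrg (x : Fin 6 → R) : cor (mrg x) = cor x := by
  funext q
  fin_cases q <;> simp [cor, mrg]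

lemma n_mrg (x : Fin 6 → R) : n1 (mrg x) + n2 (mrg x) = n1 x + n2 x := by
  rw [← cor_sum, ← cor_sum, cor_mrg]

lemma mrg_id (x : Fin 6 → R) (h4 : x 4 = 0) (h5 : x 5 = 0) : mrg x = x := by
  funext i
  fin_cases i <;> simp [mrg, h4, h5]

lemma mrg_four (x : Fin 6 → R) : mrg x 4 = 0 ∧ mrg x 5 = 0 := ⟨rfl, rfl⟩

lemma TS_mrg (a : Fin D.length → Fin 6 → R) (u : R) (h : TS k m D a u) :
    TS k m D (fun b => mrg (a b)) u :=
  TS_cor a _ u (fun b => (cor_mrg (a b)).symm) (fun b => (n_mrg (a b)).symm) h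

end mrg

/-- the homogeneous integer solutions for single crossings -/
def L4 (k m : ℕ) (D : List Vx) : Submodule ℤ (Fin D.length → Fin 6 → ℤ) where
  carrier := {δ | TS k m D δ 0 ∧ ∀ b, δ b 4 = 0 ∧ δ b 5 = 0}
  add_mem' := by
    rintro a b ⟨h1, h2⟩ ⟨h3, h4⟩
    refine ⟨(LT k m D).add_mem h1 h3, fun b' => ?_⟩
    simp [h2 b', h4 b']
  zero_mem' := ⟨(LT k m D).zero_mem, fun b => by simp⟩
  smul_mem' := by
    rintro n δ ⟨h1, h2⟩
    refine ⟨(LT k m D).smul_mem n h1, fun b' => ?_⟩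
    simp [h2 b']

/-- the net of a diagram with single crossings -/
def X4 (k m : ℕ) (D : List Vx) (a0 : Fin D.length → Fin 6 → ℤ) : Net D.length :=
  ⟨L4 k m D, fun b => mrg (a0 b)⟩

/-- merging as a linear map -/
def mrgL (c : ℕ) : (Fin c → Fin 6 → ℝ) →ₗ[ℝ] (Fin c → Fin 6 → ℝ) where
  toFun x b := mrg (x b)
  map_add' x y := by
    funext b i
    fin_cases i <;> simp [mrg] <;> ring
  map_smul' r x := by
    funext b i
    fin_cases i <;> simp [mrg] <;> ring

lemma mrg_toR {c : ℕ} (δ : Fin c → Fin 6 → ℤ) : mrgL c (toR δ) = toR fun b => mrg (δ b) := by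
  funext b i
  show mrg (toR δ b) i = _
  fin_cases i <;> simp [mrg, toR]

/-- the real span of the lattice -/
lemma LR4 (a0 : Fin D.length → Fin 6 → ℤ) (x : Fin D.length → Fin 6 → ℝ) :
    x ∈ (X4 k m D a0).LR ↔ TS k m D x 0 ∧ ∀ b, x b 4 = 0 ∧ x b 5 = 0 := by
  constructor
  · intro hx
    unfold Net.LR at hx
    refine Submodule.span_induction (p := fun x _ => TS k m D x 0 ∧ ∀ b, x b 4 = 0 ∧ x b 5 = 0)
      ?_ ?_ ?_ ?_ hx
    · rintro _ ⟨δ, ⟨hδ, h2⟩, rfl⟩
      have := (TS_castR k δ 0).2 hδ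
      rw [Int.cast_zero] at this
      exact ⟨this, fun b => by simp [toR, h2 b]⟩
    · exact ⟨TS_zero k, fun b => by simp⟩
    · rintro a b _ _ ⟨ha, ha'⟩ ⟨hb, hb'⟩
      have := TS_add k a b 0 0 ha hb
      rw [add_zero] at this
      exact ⟨this, fun b' => by simp [ha' b', hb' b']⟩
    · rintro r a _ ⟨ha, ha'⟩
      have := TS_smulR a 0 r ha
      rw [mul_zero] at this
      exact ⟨this, fun b' => by simp [ha' b']⟩
  · rintro ⟨hx, hz⟩
    have h1 := span_LT x hx
    have h2 : mrgL D.length x ∈ Submodule.map (mrgL D.length)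
        (Submodule.span ℝ (toR '' (LT k m D : Set (Fin D.length → Fin 6 → ℤ)))) :=
      Submodule.mem_map_of_mem h1
    have h3 : mrgL D.length x = x := by
      funext b
      exact mrg_id (x b) (hz b).1 (hz b).2
    rw [h3, Submodule.map_span] at h2
    refine Submodule.span_mono ?_ h2
    rintro _ ⟨_, ⟨δ, hδ, rfl⟩, rfl⟩
    refine ⟨fun b => mrg (δ b), ⟨TS_mrg δ 0 hδ, fun b => mrg_four _⟩, ?_⟩
    rw [mrg_toR]

/-- the vector of the two hidden coordinates -/
def hid (e : Fin 2 → ℝ) : Fin 6 → ℝ := ![0, -e 0, -e 1, 0, e 0, e 1]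

lemma cor_hid (x : Fin 6 → ℝ) (e : Fin 2 → ℝ) : cor (x + hid e) = cor x := by
  funext q
  fin_cases q <;> simp [cor, hid] <;> ring

lemma n_hid (x : Fin 6 → ℝ) (e : Fin 2 → ℝ) :
    n1 (x + hid e) + n2 (x + hid e) = n1 x + n2 x := by
  rw [← cor_sum, ← cor_sum, cor_hid]

/-- the solutions are the merged solutions and the hidden coordinates -/
def eqv (k m : ℕ) (D : List Vx) : (XT k m D 0).LR ≃ₗ[ℝ] (X4 k m D 0).LR × (Fin D.length → Fin 2 → ℝ) where
  toFun x := (⟨fun b => mrg (x.1 b), (LR4 0 _).2 ⟨TS_mrg x.1 0 ((LR_TS 0 x.1).1 x.2),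
    fun b => mrg_four _⟩⟩, fun b => ![x.1 b 4, x.1 b 5])
  map_add' x y := by
    refine Prod.ext (Subtype.ext ?_) ?_
    · exact (mrgL D.length).map_add x.1 y.1
    · funext b i
      fin_cases i <;> simp
  map_smul' r x := by
    refine Prod.ext (Subtype.ext ?_) ?_
    · exact (mrgL D.length).map_smul r x.1
    · funext b i
      fin_cases i <;> simp
  invFun y := ⟨fun b => y.1.1 b + hid (y.2 b), (LR_TS 0 _).2
    (TS_cor y.1.1 _ 0 (fun b => (cor_hid _ _).symm) (fun b => (n_hid _ _).symm)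
      ((LR4 0 y.1.1).1 y.1.2).1)⟩
  left_inv x := by
    refine Subtype.ext ?_
    funext b i
    show mrg (x.1 b) i + hid ![x.1 b 4, x.1 b 5] i = x.1 b i
    fin_cases i <;> simp [mrg, hid]
  right_inv y := by
    obtain ⟨h1, h2⟩ := (LR4 0 y.1.1).1 y.1.2
    refine Prod.ext (Subtype.ext ?_) ?_
    · funext b i
      show mrg (y.1.1 b + hid (y.2 b)) i = y.1.1 b i
      obtain ⟨z4, z5⟩ := h2 b
      fin_cases i <;> simp [mrg, hid, z4, z5]
    · funext b i
      show ![(y.1.1 b + hid (y.2 b)) 4, (y.1.1 b + hid (y.2 b)) 5] i = y.2 b i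
      obtain ⟨z4, z5⟩ := h2 b
      fin_cases i <;> simp [hid, z4, z5]

/-- **the rank of the lattice** -/
theorem rank_L4 (h : Val D (m + 1) (m + 1)) (hC : Cell D m k)
    (a : Fin D.length → Fin 6 → ℝ) (ha : TS k m D a 1) :
    Module.finrank ℤ (L4 k m D) = 2 * D.length + 1 := by
  have h1 := rank_LT h hC a ha
  have h2 : Module.finrank ℝ (XT k m D 0).LR = Module.finrank ℤ (LT k m D) := rank_LR (XT k m D 0)
  have h3 : Module.finrank ℝ (X4 k m D 0).LR = Module.finrank ℤ (L4 k m D) := rank_LR (X4 k m D 0)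
  have h4 := (eqv k m D).finrank_eq
  rw [Module.finrank_prod] at h4
  have h5 : Module.finrank ℝ (Fin D.length → Fin 2 → ℝ) = 2 * D.length := by
    rw [Module.finrank_pi_fintype]
    simp
    ring
  omega

/-! ### the weights -/

/-- the regions: single crossings -/
noncomputable def rgc (N : ℕ) (P : Pc) : Rgn N := sw N P.σ

/-- the signs of the crossings -/
def sgD (D : List Vx) : Fin D.length → Bool := fun b => (D.get b).P.σ

lemma sw_w4 (hN : 0 < N) (σ : Bool) (x : Fin 6 → ℤ) (h0 : ∀ i, 0 ≤ x i)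
    (hs : n1 x + n2 x = (N : ℤ) - 1) :
    (sw N σ).wt x = if x 4 = 0 ∧ x 5 = 0 then w4 N σ (cor x) else 0 := by
  by_cases hz : x 4 = 0 ∧ x 5 = 0
  swap
  · rw [if_neg hz]
    by_contra hne
    exact hz (sw_ne hne)
  rw [if_pos hz]
  obtain ⟨z4, z5⟩ := hz
  have h1 : (sw N σ).wt x = Wc N σ (x 0).toNat (x 1).toNat (x 3).toNat (x 2).toNat :=
    if_pos ⟨z4, z5⟩
  have p0 := h0 0
  have p1 := h0 1
  have p2 := h0 2
  have p3 := h0 3
  have hsum : x 0 + x 1 + x 3 + x 2 = (N : ℤ) - 1 := by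
    simp only [n1, n2, z4, z5] at hs
    linarith
  have hcast : ∀ i, (((x i).toNat : ℕ) : ℝ) = (x i : ℝ) := by
    intro i
    have : (((x i).toNat : ℤ) : ℝ) = (x i : ℝ) := by rw [Int.toNat_of_nonneg (h0 i)]
    rwa [Int.cast_natCast] at this
  rw [h1, Wc_val hN σ _ _ _ _ (by omega)]
  have c0 : cor x 0 = x 0 := rfl
  have c1 : cor x 1 = x 1 := by show x 1 + x 4 = x 1; rw [z4, add_zero]
  have c2 : cor x 2 = x 3 := rfl
  have c3 : cor x 3 = x 2 := by show x 2 + x 5 = x 2; rw [z5, add_zero]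
  have hok : ok4 N (cor x) := by
    refine ⟨fun q => ?_, ?_⟩
    · fin_cases q
      · show 0 ≤ cor x 0; rw [c0]; exact p0
      · show 0 ≤ cor x 1; rw [c1]; exact p1
      · show 0 ≤ cor x 2; rw [c2]; exact p3
      · show 0 ≤ cor x 3; rw [c3]; exact p2
    · rw [c0, c1, c2, c3]
      exact hsum
  unfold w4 v4
  rw [if_pos hok, Fin.prod_univ_four, Fin.sum_univ_four, c0, c1, c2, c3, Complex.ofReal_inv]
  congr 1
  · congr 1
    simp only [ep, Matrix.cons_val, hcast]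
    ring

end Pool.Agent.H760.TC
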