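import Pool.Agent.H760.TC.V4
import Pool.Agent.H760.TT.NETQ

/-!
# A state sum with four corners at every vertex: asymptotics
-/

set_option autoImplicit false

namespace Pool.Agent.H760.TC

open Finset Filter Topology MeasureTheory
open Pool.Agent.W719.BS (LL D)
open Pool.Agent.W358.BSTay (gg)
open Pool.Agent.Q191.TW (cs cs_norm cs_add cs_zero cs_ne)
open Pool.Agent.Q99.FAL
open Pool.Agent.Q299.FAL
open Pool.Agent.H760.TT (sum_ZF dv)

variable {c : ℕ}

/-- the corners as linear functionals -/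
def cl (b : Fin c) (q : Fin 4) : (Fin c → Fin 6 → ℝ) →ₗ[ℝ] ℝ where
  toFun x := cor (x b) q
  map_add' x y := by fin_cases q <;> simp [cor] <;> ring
  map_smul' r x := by fin_cases q <;> simp [cor] <;> ring

/-- a functional on the corners -/
def pf (φ : Fin c → Fin 4 → ℝ) : (Fin c → Fin 6 → ℝ) →ₗ[ℝ] ℝ := ∑ b, ∑ q, φ b q • cl b q

lemma pf_apply (φ : Fin c → Fin 4 → ℝ) (x : Fin c → Fin 6 → ℝ) :
    pf φ x = ∑ b, ∑ q, φ b q * cor (x b) q := by
  simp only [pf, LinearMap.coe_sum, Finset.sum_apply, LinearMap.smul_apply, smul_eq_mul]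
  rfl

/-- the weight of a crossing -/
noncomputable def w4 (N : ℕ) (σ : Bool) (X : Fin 4 → ℤ) : ℂ :=
  cs N ((∑ q, ep σ q * (X q : ℝ) ^ 2) / 2 - (if σ then 1 else -1) * ((N : ℝ) ^ 2 - 1) / 2) *
    (v4 N X : ℝ)

open Classical in
/-- the weights of a net -/
noncomputable def t4 (σ : Fin c → Bool) (N : ℕ) (v : Fin c → Fin 6 → ℤ) : ℂ :=
  ∏ b, if v b 4 = 0 ∧ v b 5 = 0 then w4 N (σ b) (cor (v b)) else 0

/-- the point `a` is critical -/
structure Crit (X : Net c) (σ : Fin c → Bool) (a : Fin c → Fin 6 → ℝ) : Prop where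
  z : ∀ δ ∈ X.L, ∀ b, δ b 4 = 0 ∧ δ b 5 = 0
  z0 : ∀ b, X.a0 b 4 = 0 ∧ X.a0 b 5 = 0
  s : ∀ δ ∈ X.L, ∀ b, n1 (δ b) + n2 (δ b) = 0
  s0 : ∀ b, n1 (X.a0 b) + n2 (X.a0 b) = 1
  mem : a - toR X.a0 ∈ X.LR
  pos : ∀ b q, 0 < cor (a b) q
  c1 : ∀ x ∈ X.LR, pf (fun b q => gg (cor (a b) q)) x = 0
  c2 : ∀ x ∈ X.LR, pf (fun b q => ep (σ b) q * cor (a b) q) x = 0

lemma cor_sum {R : Type} [AddCommGroup R] (x : Fin 6 → R) :
    cor x 0 + cor x 1 + cor x 2 + cor x 3 = n1 x + n2 x := by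
  simp only [cor, n1, n2, Matrix.cons_val]
  abel

lemma cor_cast (x : Fin 6 → ℤ) (q : Fin 4) : ((cor x q : ℤ) : ℝ) = cor (fun i => (x i : ℝ)) q := by
  fin_cases q <;> simp [cor]

lemma cs_sum {ι : Type} (s : Finset ι) (N : ℕ) (f : ι → ℝ) :
    ∏ b ∈ s, cs N (f b) = cs N (∑ b ∈ s, f b) := by
  classical
  induction s using Finset.induction_on with
  | empty => simp [cs_zero]
  | insert b s hb ih => rw [prod_insert hb, sum_insert hb, cs_add, ih]

lemma v4_nn (N : ℕ) (X : Fin 4 → ℤ) : 0 ≤ v4 N X := by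
  unfold v4
  split_ifs with h
  · exact inv_nonneg.2 (prod_nonneg fun q _ => (Pool.Agent.W719.BS.D_pos N _ (ok4_lt h q)).le)
  · exact le_rfl

lemma LR_z {X : Net c} {σ : Fin c → Bool} {a : Fin c → Fin 6 → ℝ} (h : Crit X σ a)
    (x : Fin c → Fin 6 → ℝ) (hx : x ∈ X.LR) (b : Fin c) :
    x b 4 = 0 ∧ x b 5 = 0 ∧ n1 (x b) + n2 (x b) = 0 := by
  unfold Net.LR at hx
  refine Submodule.span_induction (p := fun x _ => x b 4 = 0 ∧ x b 5 = 0 ∧
    n1 (x b) + n2 (x b) = 0) ?_ ?_ ?_ ?_ hx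
  · rintro _ ⟨δ, hδ, rfl⟩
    obtain ⟨h1, h2⟩ := h.z δ hδ b
    have h3 := h.s δ hδ b
    refine ⟨by simp [toR, h1], by simp [toR, h2], ?_⟩
    have h4 : ((n1 (δ b) + n2 (δ b) : ℤ) : ℝ) = 0 := by rw [h3]; simp
    simp only [n1, n2, toR] at h4 ⊢
    push_cast at h4
    exact h4
  · simp [n1, n2]
  · rintro x y _ _ ⟨h1, h2, h3⟩ ⟨h4, h5, h6⟩
    refine ⟨by simp [h1, h4], by simp [h2, h5], ?_⟩
    simp only [n1, n2, Pi.add_apply] at h3 h6 ⊢
    linarith
  · rintro r x _ ⟨h1, h2, h3⟩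
    refine ⟨by simp [h1], by simp [h2], ?_⟩
    simp only [n1, n2, Pi.smul_apply, smul_eq_mul] at h3 ⊢
    linear_combination r * h3

section crit
variable {X : Net c} {σ : Fin c → Bool} {a : Fin c → Fin 6 → ℝ} (h : Crit X σ a)
include h

lemma a_z (b : Fin c) : a b 4 = 0 ∧ a b 5 = 0 ∧
    cor (a b) 0 + cor (a b) 1 + cor (a b) 2 + cor (a b) 3 = 1 := by
  obtain ⟨h1, h2, h3⟩ := LR_z h _ h.mem b
  obtain ⟨z1, z2⟩ := h.z0 b
  have z3 : ((n1 (X.a0 b) + n2 (X.a0 b) : ℤ) : ℝ) = 1 := by rw [h.s0 b]; simp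
  simp only [Pi.sub_apply, toR, z1, z2, Int.cast_zero, sub_zero] at h1 h2
  refine ⟨h1, h2, ?_⟩
  rw [cor_sum]
  simp only [n1, n2, Pi.sub_apply, toR] at h3 z3 ⊢
  push_cast at z3
  linarith

/-- a functional which vanishes on the lattice -/
lemma pf_val (φ : Fin c → Fin 4 → ℝ) (hφ : ∀ x ∈ X.LR, pf φ x = 0) (y : Fin c → Fin 6 → ℝ)
    (hy : y + toR X.a0 ∈ X.LR) : pf φ y = -pf φ a := by
  have h1 := hφ _ hy
  have h2 := hφ _ h.mem
  rw [map_add] at h1
  rw [map_sub] at h2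
  linarith

end crit

/-- the value of the function -/
noncomputable def Vp (a : Fin c → Fin 6 → ℝ) : ℝ := ∑ b, ∑ q, LL (cor (a b) q)

/-- the sum of the squares of the angles with signs -/
noncomputable def Aq (σ : Fin c → Bool) (a : Fin c → Fin 6 → ℝ) : ℝ :=
  ∑ b, ∑ q, ep (σ b) q * cor (a b) q ^ 2

/-- the sum of the signs -/
noncomputable def wS (σ : Fin c → Bool) : ℝ := ∑ b, if σ b then 1 else -1

/-- the phase of the state sum -/
noncomputable def P4 (σ : Fin c → Bool) (a : Fin c → Fin 6 → ℝ) (N : ℕ) : ℂ :=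
  cs N ((N : ℝ) ^ 2 * Aq σ a / 2 - N * Aq σ a - wS σ * ((N : ℝ) ^ 2 - 1) / 2)

/-- the value of a term -/
lemma t4_val {X : Net c} {σ : Fin c → Bool} {a : Fin c → Fin 6 → ℝ} (h : Crit X σ a) (N : ℕ)
    (v : Fin c → Fin 6 → ℤ) (hv : ∀ b, v b 4 = 0 ∧ v b 5 = 0) (y : Fin c → Fin 6 → ℝ)
    (hy : ∀ b i, y b i = (v b i : ℝ) - N * a b i) (hyL : y + toR X.a0 ∈ X.LR) :
    t4 σ N v = P4 σ a N * cs N ((∑ b, ∑ q, ep (σ b) q * cor (y b) q ^ 2) / 2) *
      ((∏ b, v4 N (cor (v b)) : ℝ) : ℂ) := by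
  unfold t4
  rw [prod_congr rfl fun b _ => if_pos (hv b)]
  unfold w4
  rw [prod_mul_distrib, cs_sum, Complex.ofReal_prod, P4, ← cs_add]
  congr 2
  have h1 := pf_val h _ h.c2 y hyL
  rw [pf_apply, pf_apply] at h1
  have hA : ∑ b, ∑ q, ep (σ b) q * cor (a b) q * cor (a b) q = Aq σ a := by
    unfold Aq
    refine sum_congr rfl fun b _ => sum_congr rfl fun q _ => by ring
  rw [hA] at h1
  have hc : ∀ b q, ((cor (v b) q : ℤ) : ℝ) = N * cor (a b) q + cor (y b) q := by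
    intro b q
    rw [cor_cast]
    have := hy b
    fin_cases q <;> simp only [cor, this, Fin.zero_eta, Fin.mk_one, Fin.reduceFinMk,
      Matrix.cons_val] <;> ring
  have e : ∀ b, (∑ q, ep (σ b) q * ((cor (v b) q : ℤ) : ℝ) ^ 2) / 2 -
      (if σ b then 1 else -1) * ((N : ℝ) ^ 2 - 1) / 2 =
      (N : ℝ) ^ 2 / 2 * (∑ q, ep (σ b) q * cor (a b) q ^ 2) +
      N * (∑ q, ep (σ b) q * cor (a b) q * cor (y b) q) +
      (∑ q, ep (σ b) q * cor (y b) q ^ 2) / 2 -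
      ((N : ℝ) ^ 2 - 1) / 2 * (if σ b then 1 else -1) := by
    intro b
    simp only [hc, Fin.sum_univ_four]
    ring
  rw [sum_congr rfl fun b _ => e b, sum_sub_distrib, sum_add_distrib, sum_add_distrib, ← mul_sum,
    ← mul_sum, ← mul_sum, h1, ← sum_div]
  unfold Aq wS
  ring

/-- a common constant -/
lemma exists_min {ι : Type} [Fintype ι] (κ : ι → ℝ) (h : ∀ i, 0 < κ i) :
    ∃ k : ℝ, 0 < k ∧ ∀ i, k ≤ κ i := by
  have h0 : 0 ≤ ∑ i, 1 / κ i := sum_nonneg fun i _ => by have := h i; positivity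
  refine ⟨1 / (1 + ∑ i, 1 / κ i), by positivity, fun i => ?_⟩
  have h1 : 1 / κ i ≤ ∑ j, 1 / κ j := single_le_sum (f := fun j => 1 / κ j)
    (fun j _ => by have := h j; positivity) (mem_univ i)
  have h2 := h i
  rw [div_le_iff₀ (by positivity)]
  have h3 : κ i * (1 / κ i) = 1 := by field_simp
  nlinarith

lemma six_four (x : Fin 6 → ℝ) (h4 : x 4 = 0) (h5 : x 5 = 0) :
    ∑ q, cor x q ^ 2 = ∑ i, x i ^ 2 := by
  rw [Fin.sum_univ_four, Fin.sum_univ_six]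
  simp only [cor, Matrix.cons_val, h4, h5]
  ring

/-- **the Gaussian bound of a term** -/
lemma t4_bound {X : Net c} {σ : Fin c → Bool} {a : Fin c → Fin 6 → ℝ} (h : Crit X σ a) :
    ∃ C κ : ℝ, 0 ≤ C ∧ 0 < κ ∧ ∀ N : ℕ, 1 ≤ N → ∀ (v : Fin c → Fin 6 → ℤ)
      (y : Fin c → Fin 6 → ℝ), (∀ b, v b 4 = 0 ∧ v b 5 = 0) →
      (∀ b i, y b i = (v b i : ℝ) - N * a b i) → y + toR X.a0 ∈ X.LR →
      √N ^ (4 * c) * Real.exp (N * Vp a) * ‖t4 σ N v‖ ≤
        C * Real.exp (-κ * ((∑ b, ∑ i, y b i ^ 2) / N)) := by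
  have hb := fun b => v4_bound (cor (a b)) (h.pos b) (a_z h b).2.2
  choose C κ hC hκ hB using hb
  obtain ⟨k, hk, hkb⟩ := exists_min κ hκ
  refine ⟨(∏ b, C b) * Real.exp (pf (fun b q => gg (cor (a b) q)) a), k,
    mul_nonneg (prod_nonneg fun b _ => hC b) (Real.exp_pos _).le, hk, ?_⟩
  intro N hN v y hv hy hyL
  have hN0 : (0 : ℝ) < N := by exact_mod_cast hN
  have hcy : ∀ b q, ((cor (v b) q : ℤ) : ℝ) - N * cor (a b) q = cor (y b) q := by
    intro b q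
    rw [cor_cast]
    have := hy b
    fin_cases q <;> simp only [cor, this, Fin.zero_eta, Fin.mk_one, Fin.reduceFinMk,
      Matrix.cons_val] <;> ring
  rw [t4_val h N v hv y hy hyL, norm_mul, norm_mul, cs_norm, P4, cs_norm, one_mul, one_mul,
    Complex.norm_real, Real.norm_of_nonneg (prod_nonneg fun b _ => v4_nn _ _)]
  have e1 : √(N : ℝ) ^ (4 * c) = ∏ _b : Fin c, (N : ℝ) ^ 2 := by
    rw [prod_const, card_univ, Fintype.card_fin, pow_mul]
    congr 1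
    have : √(N : ℝ) ^ 4 = (√(N : ℝ) ^ 2) ^ 2 := by ring
    rw [this, Real.sq_sqrt hN0.le]
  have e2 : Real.exp (N * Vp a) = ∏ b, Real.exp (N * ∑ q, LL (cor (a b) q)) := by
    rw [← Real.exp_sum, Vp, mul_sum]
  rw [e1, e2, ← prod_mul_distrib, ← prod_mul_distrib]
  have h1 : ∏ b, (N : ℝ) ^ 2 * Real.exp (N * ∑ q, LL (cor (a b) q)) * v4 N (cor (v b)) ≤
      ∏ b, C b * Real.exp (-(∑ q, gg (cor (a b) q) * cor (y b) q) -
        κ b * ((∑ q, cor (y b) q ^ 2) / N)) := by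
    refine prod_le_prod (fun b _ => ?_) fun b _ => ?_
    · have := v4_nn N (cor (v b))
      positivity
    · have := hB b N hN (cor (v b))
      simp only [hcy] at this
      calc _ = (N : ℝ) ^ 2 * v4 N (cor (v b)) * Real.exp (N * ∑ q, LL (cor (a b) q)) := by ring
        _ ≤ _ := this
  refine h1.trans ?_
  rw [prod_mul_distrib, ← Real.exp_sum, sum_sub_distrib, mul_assoc, ← Real.exp_add]
  refine mul_le_mul_of_nonneg_left (Real.exp_le_exp.2 ?_) (prod_nonneg fun b _ => hC b)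
  have h2 := pf_val h _ h.c1 y hyL
  rw [pf_apply] at h2
  rw [sum_neg_distrib, h2, neg_neg]
  have h3 : k * ((∑ b, ∑ i, y b i ^ 2) / N) ≤ ∑ b, κ b * ((∑ q, cor (y b) q ^ 2) / N) := by
    rw [sum_div, mul_sum]
    refine sum_le_sum fun b _ => ?_
    have z : y b 4 = 0 ∧ y b 5 = 0 := by
      rw [hy, hy, (hv b).1, (hv b).2, (a_z h b).1, (a_z h b).2.1]
      simp
    rw [six_four (y b) z.1 z.2]
    have : 0 ≤ (∑ i, y b i ^ 2) / N := by positivity
    exact mul_le_mul_of_nonneg_right (hkb b) this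
  linarith

/-- the Gaussian of the real part -/
noncomputable def ga (a : Fin c → Fin 6 → ℝ) (x : Fin c → Fin 6 → ℝ) : ℝ :=
  Real.pi / 2 * ∑ b, ∑ q, Real.cos (Real.pi * cor (a b) q) / Real.sin (Real.pi * cor (a b) q) *
    cor (x b) q ^ 2

/-- the constant of the limit -/
noncomputable def k4 (a : Fin c → Fin 6 → ℝ) : ℝ :=
  Real.exp (pf (fun b q => gg (cor (a b) q)) a) * ∏ b, Real.exp (-(∑ q, gg (cor (a b) q)) / 2)

/-- **the limit of a term** -/
lemma t4_lim {X : Net c} {σ : Fin c → Bool} {a : Fin c → Fin 6 → ℝ} (h : Crit X σ a)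
    (v : ℕ → Fin c → Fin 6 → ℤ) (y : ℕ → Fin c → Fin 6 → ℝ) (u : Fin c → Fin 6 → ℝ)
    (hv : ∀ N b, v N b 4 = 0 ∧ v N b 5 = 0)
    (hsum : ∀ N b, n1 (v N b) + n2 (v N b) = (N : ℤ) - 1)
    (hy : ∀ N b i, y N b i = (v N b i : ℝ) - N * a b i) (hyL : ∀ N, y N + toR X.a0 ∈ X.LR)
    (hu : ∀ b i, Tendsto (fun N : ℕ => y N b i / √N) atTop (𝓝 (u b i))) :
    Tendsto (fun N : ℕ => ((√N ^ (4 * c) * Real.exp (N * Vp a) : ℝ) : ℂ) * (P4 σ a N)⁻¹ *
      t4 σ N (v N)) atTop (𝓝 ((k4 a : ℂ) * Complex.exp ((-(ga a u) : ℝ) +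
        (∑ b, ∑ q, Real.pi / 2 * ep (σ b) q * cor (u b) q ^ 2 : ℝ) * Complex.I))) := by
  have hcy : ∀ N b q, ((cor (v N b) q : ℤ) : ℝ) - N * cor (a b) q = cor (y N b) q := by
    intro N b q
    rw [cor_cast]
    have := hy N b
    fin_cases q <;> simp only [cor, this, Fin.zero_eta, Fin.mk_one, Fin.reduceFinMk,
      Matrix.cons_val] <;> ring
  have hcu : ∀ b q, Tendsto (fun N : ℕ => cor (y N b) q / √N) atTop (𝓝 (cor (u b) q)) := by
    intro b q
    fin_cases q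
    · exact hu b 0
    · refine ((hu b 1).add (hu b 4)).congr fun N => ?_
      show _ = (y N b 1 + y N b 4) / √N
      ring
    · exact hu b 3
    · refine ((hu b 2).add (hu b 5)).congr fun N => ?_
      show _ = (y N b 2 + y N b 5) / √N
      ring
  have hlim := fun b => v4_lim (cor (a b)) (h.pos b) (a_z h b).2.2 (fun N => cor (v N b))
    (cor (u b)) (fun q => (hcu b q).congr fun N => by rw [hcy])
    (fun N => by rw [cor_sum, hsum])
  have hprod := tendsto_finsetProd univ fun b _ => hlim b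
  have hprod2 := hprod.const_mul (Real.exp (pf (fun b q => gg (cor (a b) q)) a))
  have hph : Tendsto (fun N : ℕ => cs N ((∑ b, ∑ q, ep (σ b) q * cor (y N b) q ^ 2) / 2)) atTop
      (𝓝 (Complex.exp (((∑ b, ∑ q, Real.pi / 2 * ep (σ b) q * cor (u b) q ^ 2 : ℝ) : ℂ) *
        Complex.I))) := by
    have h1 : Tendsto (fun N : ℕ => ∑ b, ∑ q, Real.pi / 2 * ep (σ b) q *
        (cor (y N b) q / √N) ^ 2) atTop
        (𝓝 (∑ b, ∑ q, Real.pi / 2 * ep (σ b) q * cor (u b) q ^ 2)) :=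
      tendsto_finsetSum _ fun b _ => tendsto_finsetSum _ fun q _ => ((hcu b q).pow 2).const_mul _
    have hexp : Continuous fun s : ℝ => Complex.exp ((s : ℂ) * Complex.I) := by fun_prop
    refine ((hexp.tendsto _).comp h1).congr' ?_
    filter_upwards [eventually_ge_atTop 1] with N hN
    have hN0 : (0 : ℝ) < N := by exact_mod_cast hN
    rw [Function.comp_apply, cs]
    congr 3
    have e : ∀ b q, Real.pi / 2 * ep (σ b) q * (cor (y N b) q / √N) ^ 2 =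
        Real.pi / (2 * N) * (ep (σ b) q * cor (y N b) q ^ 2) := by
      intro b q
      rw [div_pow, Real.sq_sqrt hN0.le]
      field_simp
    rw [sum_congr rfl fun b _ => sum_congr rfl fun q _ => e b q]
    simp only [← mul_sum]
    field_simp
  have hboth := ((Complex.continuous_ofReal.tendsto _).comp hprod2).mul hph
  have hval : (((Real.exp (pf (fun b q => gg (cor (a b) q)) a) * ∏ b : Fin c,
      (Real.exp (-(∑ q, gg (cor (a b) q)) / 2) * Real.exp (-(Real.pi / 2 *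
        ∑ q, Real.cos (Real.pi * cor (a b) q) / Real.sin (Real.pi * cor (a b) q) *
          cor (u b) q ^ 2))) : ℝ) : ℂ)) *
      Complex.exp (((∑ b, ∑ q, Real.pi / 2 * ep (σ b) q * cor (u b) q ^ 2 : ℝ) : ℂ) *
        Complex.I) = (k4 a : ℂ) * Complex.exp ((-(ga a u) : ℝ) +
        (∑ b, ∑ q, Real.pi / 2 * ep (σ b) q * cor (u b) q ^ 2 : ℝ) * Complex.I) := by
    rw [prod_mul_distrib, ← Real.exp_sum, Complex.exp_add, ← Complex.ofReal_exp]
    have e : ∑ b : Fin c, -(Real.pi / 2 *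
        ∑ q, Real.cos (Real.pi * cor (a b) q) / Real.sin (Real.pi * cor (a b) q) *
          cor (u b) q ^ 2) = -(ga a u) := by
      rw [ga, sum_neg_distrib, mul_sum]
    rw [← Real.exp_sum (s := univ) (f := fun b : Fin c => -(Real.pi / 2 *
        ∑ q, Real.cos (Real.pi * cor (a b) q) / Real.sin (Real.pi * cor (a b) q) *
          cor (u b) q ^ 2)), e, k4, Real.exp_sum]
    push_cast
    ring
  rw [hval] at hboth
  refine hboth.congr' ?_
  filter_upwards [eventually_ge_atTop 1] with N hN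
  have hN0 : (0 : ℝ) < N := by exact_mod_cast hN
  rw [t4_val h N (v N) (hv N) (y N) (hy N) (hyL N), Function.comp_apply]
  have hP : P4 σ a N ≠ 0 := cs_ne _ _
  have e1 : √(N : ℝ) ^ (4 * c) = ∏ _b : Fin c, (N : ℝ) ^ 2 := by
    rw [prod_const, card_univ, Fintype.card_fin, pow_mul]
    congr 1
    have : √(N : ℝ) ^ 4 = (√(N : ℝ) ^ 2) ^ 2 := by ring
    rw [this, Real.sq_sqrt hN0.le]
  have e2 : Real.exp (N * Vp a) = ∏ b, Real.exp (N * ∑ q, LL (cor (a b) q)) := by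
    rw [← Real.exp_sum, Vp, mul_sum]
  have e3 : ∏ b, (N : ℝ) ^ 2 * v4 N (cor (v N b)) * Real.exp (N * ∑ q, LL (cor (a b) q)) *
      Real.exp (∑ q, gg (cor (a b) q) * (((cor (v N b) q : ℤ) : ℝ) - N * cor (a b) q)) =
      √(N : ℝ) ^ (4 * c) * Real.exp (N * Vp a) * (∏ b, v4 N (cor (v N b))) *
        Real.exp (-pf (fun b q => gg (cor (a b) q)) a) := by
    rw [e1, e2, ← prod_mul_distrib, ← prod_mul_distrib]
    have h2 := pf_val h _ h.c1 (y N) (hyL N)
    rw [pf_apply] at h2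
    rw [← h2, Real.exp_sum, ← prod_mul_distrib]
    refine prod_congr rfl fun b _ => ?_
    simp only [hcy]
    ring
  rw [e3, Real.exp_neg]
  have hne := (Real.exp_pos (pf (fun b q => gg (cor (a b) q)) a)).ne'
  have e4 : Real.exp (pf (fun b q => gg (cor (a b) q)) a) *
      (√(N : ℝ) ^ (4 * c) * Real.exp (N * Vp a) * (∏ b, v4 N (cor (v N b))) *
        (Real.exp (pf (fun b q => gg (cor (a b) q)) a))⁻¹) =
      √(N : ℝ) ^ (4 * c) * Real.exp (N * Vp a) * (∏ b, v4 N (cor (v N b))) := by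
    field_simp
  rw [e4]
  push_cast
  field_simp

end Pool.Agent.H760.TC
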