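import Pool.Agent.H760.TC.N4

/-!
# A state sum with four corners at every vertex: asymptotics, part 2
-/

set_option autoImplicit false

namespace Pool.Agent.H760.TC

open Finset Filter Topology MeasureTheory
open Pool.Agent.W719.BS (LL D)
open Pool.Agent.W358.BSTay (gg)
open Pool.Agent.Q191.TW (cs cs_norm cs_add cs_zero cs_ne)
open Pool.Agent.Q99.FAL
open Pool.Agent.Q299.FAL
open Pool.Agent.H760.TT (sum_ZF dv)

variable {c : ℕ}

/-- the cotangent of a corner -/
noncomputable def ct (x : ℝ) : ℝ := Real.cos (Real.pi * x) / Real.sin (Real.pi * x)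

/-- the form of four corners is a sum of squares -/
lemma form4 (a : Fin 4 → ℝ) (ha : ∀ q, 0 < a q) (hs : a 0 + a 1 + a 2 + a 3 = 1) :
    0 < ct (a 0) + ct (a 1) ∧ 0 < ct (a 2) + ct (a 3) ∧ ∀ u : Fin 4 → ℝ,
      u 0 + u 1 + u 2 + u 3 = 0 →
      ∑ q, ct (a q) * u q ^ 2 =
      1 / (ct (a 0) + ct (a 1)) * (ct (a 0) * u 0 - ct (a 1) * u 1) ^ 2 +
      1 / (ct (a 0) + ct (a 1)) * (u 0 + u 1) ^ 2 +
      1 / (ct (a 2) + ct (a 3)) * (ct (a 2) * u 2 - ct (a 3) * u 3) ^ 2 +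
      1 / (ct (a 2) + ct (a 3)) * (u 2 + u 3) ^ 2 := by
  have hpi := Real.pi_pos
  have a0 := ha 0
  have a1 := ha 1
  have a2 := ha 2
  have a3 := ha 3
  have sn : ∀ x : ℝ, 0 < x → x < 1 → 0 < Real.sin (Real.pi * x) := fun x h0 h1 =>
    Real.sin_pos_of_pos_of_lt_pi (by positivity) (by nlinarith)
  have s0 := sn _ a0 (by linarith)
  have s1 := sn _ a1 (by linarith)
  have s2 := sn _ a2 (by linarith)
  have s3 := sn _ a3 (by linarith)
  have s01 := sn (a 0 + a 1) (by linarith) (by linarith)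
  have s23 := sn (a 2 + a 3) (by linarith) (by linarith)
  have e1 : Real.sin (Real.pi * (a 0 + a 1)) = Real.sin (Real.pi * a 0) * Real.cos (Real.pi * a 1) +
      Real.cos (Real.pi * a 0) * Real.sin (Real.pi * a 1) := by rw [mul_add, Real.sin_add]
  have e2 : Real.sin (Real.pi * (a 2 + a 3)) = Real.sin (Real.pi * a 2) * Real.cos (Real.pi * a 3) +
      Real.cos (Real.pi * a 2) * Real.sin (Real.pi * a 3) := by rw [mul_add, Real.sin_add]
  have e3 : Real.cos (Real.pi * (a 0 + a 1)) = Real.cos (Real.pi * a 0) * Real.cos (Real.pi * a 1) -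
      Real.sin (Real.pi * a 0) * Real.sin (Real.pi * a 1) := by rw [mul_add, Real.cos_add]
  have e4 : Real.cos (Real.pi * (a 2 + a 3)) = Real.cos (Real.pi * a 2) * Real.cos (Real.pi * a 3) -
      Real.sin (Real.pi * a 2) * Real.sin (Real.pi * a 3) := by rw [mul_add, Real.cos_add]
  have e5 : Real.pi * (a 2 + a 3) = Real.pi - Real.pi * (a 0 + a 1) := by
    have : a 2 + a 3 = 1 - (a 0 + a 1) := by linarith
    rw [this]
    ring
  have e6 : Real.sin (Real.pi * (a 2 + a 3)) = Real.sin (Real.pi * (a 0 + a 1)) := by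
    rw [e5, Real.sin_pi_sub]
  have e7 : Real.cos (Real.pi * (a 2 + a 3)) = -Real.cos (Real.pi * (a 0 + a 1)) := by
    rw [e5, Real.cos_pi_sub]
  have p01 : ct (a 0) + ct (a 1) = Real.sin (Real.pi * (a 0 + a 1)) /
      (Real.sin (Real.pi * a 0) * Real.sin (Real.pi * a 1)) := by
    rw [ct, ct, e1]
    field_simp
    ring
  have p23 : ct (a 2) + ct (a 3) = Real.sin (Real.pi * (a 2 + a 3)) /
      (Real.sin (Real.pi * a 2) * Real.sin (Real.pi * a 3)) := by
    rw [ct, ct, e2]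
    field_simp
    ring
  have q01 : 1 - ct (a 0) * ct (a 1) = -Real.cos (Real.pi * (a 0 + a 1)) /
      (Real.sin (Real.pi * a 0) * Real.sin (Real.pi * a 1)) := by
    rw [ct, ct, e3]
    field_simp
    ring
  have q23 : 1 - ct (a 2) * ct (a 3) = -Real.cos (Real.pi * (a 2 + a 3)) /
      (Real.sin (Real.pi * a 2) * Real.sin (Real.pi * a 3)) := by
    rw [ct, ct, e4]
    field_simp
    ring
  have h01 : 0 < ct (a 0) + ct (a 1) := by rw [p01]; positivity
  have h23 : 0 < ct (a 2) + ct (a 3) := by rw [p23]; positivity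
  refine ⟨h01, h23, fun u hu => ?_⟩
  have r01 : (1 - ct (a 0) * ct (a 1)) / (ct (a 0) + ct (a 1)) =
      -Real.cos (Real.pi * (a 0 + a 1)) / Real.sin (Real.pi * (a 0 + a 1)) := by
    rw [p01, q01]
    field_simp
  have r23 : (1 - ct (a 2) * ct (a 3)) / (ct (a 2) + ct (a 3)) =
      Real.cos (Real.pi * (a 0 + a 1)) / Real.sin (Real.pi * (a 0 + a 1)) := by
    rw [p23, q23, e7, e6]
    field_simp
  have t01 : 1 / (ct (a 0) + ct (a 1)) * (ct (a 0) * u 0 - ct (a 1) * u 1) ^ 2 +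
      1 / (ct (a 0) + ct (a 1)) * (u 0 + u 1) ^ 2 = ct (a 0) * u 0 ^ 2 + ct (a 1) * u 1 ^ 2 +
      (1 - ct (a 0) * ct (a 1)) / (ct (a 0) + ct (a 1)) * (u 0 + u 1) ^ 2 := by
    have := h01.ne'
    field_simp
    ring
  have t23 : 1 / (ct (a 2) + ct (a 3)) * (ct (a 2) * u 2 - ct (a 3) * u 3) ^ 2 +
      1 / (ct (a 2) + ct (a 3)) * (u 2 + u 3) ^ 2 = ct (a 2) * u 2 ^ 2 + ct (a 3) * u 3 ^ 2 +
      (1 - ct (a 2) * ct (a 3)) / (ct (a 2) + ct (a 3)) * (u 2 + u 3) ^ 2 := by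
    have := h23.ne'
    field_simp
    ring
  rw [t01, add_assoc, t23, r01, r23, Fin.sum_univ_four]
  have e8 : u 2 + u 3 = -(u 0 + u 1) := by linarith
  rw [e8]
  ring

/-- the positive forms of a vertex -/
noncomputable def lf (a : Fin c → Fin 6 → ℝ) (b : Fin c) : Fin 4 → (Fin c → Fin 6 → ℝ) →ₗ[ℝ] ℝ :=
  ![ct (cor (a b) 0) • cl b 0 - ct (cor (a b) 1) • cl b 1, cl b 0 + cl b 1,
    ct (cor (a b) 2) • cl b 2 - ct (cor (a b) 3) • cl b 3, cl b 2 + cl b 3]

/-- their coefficients -/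
noncomputable def cf4 (a : Fin c → Fin 6 → ℝ) (b : Fin c) : Fin 4 → ℝ :=
  ![Real.pi / 2 * (1 / (ct (cor (a b) 0) + ct (cor (a b) 1))),
    Real.pi / 2 * (1 / (ct (cor (a b) 0) + ct (cor (a b) 1))),
    Real.pi / 2 * (1 / (ct (cor (a b) 2) + ct (cor (a b) 3))),
    Real.pi / 2 * (1 / (ct (cor (a b) 2) + ct (cor (a b) 3)))]

lemma gau_ne4 {d : ℕ} {X : Net c} {σ : Fin c → Bool} {a : Fin c → Fin 6 → ℝ}
    (h : Crit X σ a) (E : Fin d → Fin c → Fin 6 → ℤ)
    (h1 : ∀ t : Fin d → ℤ, (∑ j, t j • E j) ∈ X.L)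
    (h3 : ∀ τ : Fin d → ℝ, (∑ j, τ j • toR (E j)) = 0 → τ = 0)
    (f g : (Fin c → Fin 6 → ℝ) →ₗ[ℝ] ℝ) :
    ∫ τ : Fin d → ℝ, Complex.exp ((-(ga a (XL E τ)) : ℝ) +
        (∑ b, ∑ q, Real.pi / 2 * ep (σ b) q * cor (XL E τ b) q ^ 2 : ℝ) * Complex.I) *
      Complex.exp ((2 * Real.pi * (f (XL E τ) * g (XL E τ)) : ℝ) * Complex.I) ≠ 0 := by
  classical
  have hpi := Real.pi_pos
  have hEL : ∀ j, E j ∈ X.L := by
    intro j
    have := h1 (Pi.single j 1)
    rwa [sum_eq_single j (fun i _ hi => by rw [Pi.single_eq_of_ne hi, zero_smul])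
      (fun h => absurd (mem_univ _) h), Pi.single_eq_same, one_smul] at this
  have hXL : ∀ τ, XL E τ ∈ X.LR := by
    intro τ
    rw [XL_apply]
    exact X.LR.sum_mem fun j _ => X.LR.smul_mem _ (Submodule.subset_span ⟨_, hEL j, rfl⟩)
  have hfm := fun b => form4 (cor (a b)) (h.pos b) (a_z h b).2.2
  have hsum0 : ∀ τ b, cor (XL E τ b) 0 + cor (XL E τ b) 1 + cor (XL E τ b) 2 +
      cor (XL E τ b) 3 = 0 := by
    intro τ b
    rw [cor_sum]
    exact (LR_z h _ (hXL τ) b).2.2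
  have hinj : ∀ τ : Fin d → ℝ, (∀ j : Fin c × Fin 4, (lf a j.1 j.2 ∘ₗ XL E) τ = 0) → τ = 0 := by
    intro τ hτ
    apply h3
    rw [← XL_apply]
    obtain ⟨x, hx⟩ : ∃ x, x = XL E τ := ⟨_, rfl⟩
    have hxm : x ∈ X.LR := by rw [hx]; exact hXL τ
    rw [← hx]
    have g0 : ∀ b, ct (cor (a b) 0) * cor (x b) 0 - ct (cor (a b) 1) * cor (x b) 1 = 0 := by
      intro b
      rw [hx]
      exact hτ (b, 0)
    have g1 : ∀ b, cor (x b) 0 + cor (x b) 1 = 0 := by
      intro b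
      rw [hx]
      exact hτ (b, 1)
    have g2 : ∀ b, ct (cor (a b) 2) * cor (x b) 2 - ct (cor (a b) 3) * cor (x b) 3 = 0 := by
      intro b
      rw [hx]
      exact hτ (b, 2)
    have g3 : ∀ b, cor (x b) 2 + cor (x b) 3 = 0 := by
      intro b
      rw [hx]
      exact hτ (b, 3)
    funext b i
    obtain ⟨z4, z5, -⟩ := LR_z h x hxm b
    obtain ⟨p1, p2, -⟩ := hfm b
    have u0 : cor (x b) 0 = 0 := by
      have e : cor (x b) 1 = -cor (x b) 0 := by linarith [g1 b]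
      have := g0 b
      rw [e] at this
      have h5 : (ct (cor (a b) 0) + ct (cor (a b) 1)) * cor (x b) 0 = 0 := by linarith
      rcases mul_eq_zero.1 h5 with h6 | h6
      · exact absurd h6 p1.ne'
      · exact h6
    have u2 : cor (x b) 2 = 0 := by
      have e : cor (x b) 3 = -cor (x b) 2 := by linarith [g3 b]
      have := g2 b
      rw [e] at this
      have h5 : (ct (cor (a b) 2) + ct (cor (a b) 3)) * cor (x b) 2 = 0 := by linarith
      rcases mul_eq_zero.1 h5 with h6 | h6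
      · exact absurd h6 p2.ne'
      · exact h6
    have u1 : cor (x b) 1 = 0 := by linarith [g1 b]
    have u3 : cor (x b) 3 = 0 := by linarith [g3 b]
    simp only [cor, Matrix.cons_val] at u0 u1 u2 u3
    rw [Pi.zero_apply, Pi.zero_apply]
    fin_cases i <;> simp only [Fin.zero_eta, Fin.mk_one, Fin.reduceFinMk] <;> linarith
  have hg := GI_gen task_GI
    (fun j : Fin c × Fin 4 => lf a j.1 j.2 ∘ₗ XL E)
    (Sum.elim (fun j : Fin c × Fin 4 => cl j.1 j.2 ∘ₗ XL E) (Sum.elim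
      (fun _ : Unit => (f + g) ∘ₗ XL E) (fun _ : Unit => (f - g) ∘ₗ XL E)))
    (fun j => cf4 a j.1 j.2)
    (Sum.elim (fun j : Fin c × Fin 4 => Real.pi / 2 * ep (σ j.1) j.2)
      (Sum.elim (fun _ : Unit => Real.pi / 2) (fun _ : Unit => -(Real.pi / 2))))
    (by
      rintro ⟨b, q⟩
      obtain ⟨p1, p2, -⟩ := hfm b
      have h5 : 0 < Real.pi / 2 * (1 / (ct (cor (a b) 0) + ct (cor (a b) 1))) := by positivity
      have h6 : 0 < Real.pi / 2 * (1 / (ct (cor (a b) 2) + ct (cor (a b) 3))) := by positivity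
      fin_cases q
      · exact h5
      · exact h5
      · exact h6
      · exact h6) hinj
  intro h0
  apply hg
  rw [← h0]
  congr 1
  funext τ
  rw [← Complex.exp_add, add_assoc, ← add_mul, ← Complex.ofReal_add]
  congr 1
  congr 1
  swap
  · congr 2
    rw [Fintype.sum_sum_type, Fintype.sum_sum_type]
    simp only [Sum.elim_inl, Sum.elim_inr, univ_unique, sum_singleton, LinearMap.comp_apply,
      LinearMap.add_apply, LinearMap.sub_apply]
    rw [Fintype.sum_prod_type]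
    have e : ∀ b q, (cl b q) (XL E τ) = cor (XL E τ b) q := fun _ _ => rfl
    simp only [e]
    ring
  · congr 1
    rw [Fintype.sum_prod_type]
    unfold ga
    rw [mul_sum]
    congr 1
    refine sum_congr rfl fun b _ => ?_
    obtain ⟨-, -, p3⟩ := hfm b
    have h5 := p3 (cor (XL E τ b)) (hsum0 τ b)
    have e6 : ∑ q, Real.cos (Real.pi * cor (a b) q) / Real.sin (Real.pi * cor (a b) q) *
        cor (XL E τ b) q ^ 2 = ∑ q, ct (cor (a b) q) * cor (XL E τ b) q ^ 2 := rfl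
    rw [e6, h5, Fin.sum_univ_four]
    show Real.pi / 2 * (1 / (ct (cor (a b) 0) + ct (cor (a b) 1))) *
        (ct (cor (a b) 0) * cor (XL E τ b) 0 - ct (cor (a b) 1) * cor (XL E τ b) 1) ^ 2 +
      Real.pi / 2 * (1 / (ct (cor (a b) 0) + ct (cor (a b) 1))) *
        (cor (XL E τ b) 0 + cor (XL E τ b) 1) ^ 2 +
      Real.pi / 2 * (1 / (ct (cor (a b) 2) + ct (cor (a b) 3))) *
        (ct (cor (a b) 2) * cor (XL E τ b) 2 - ct (cor (a b) 3) * cor (XL E τ b) 3) ^ 2 +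
      Real.pi / 2 * (1 / (ct (cor (a b) 2) + ct (cor (a b) 3))) *
        (cor (XL E τ b) 2 + cor (XL E τ b) 3) ^ 2 = _
    ring

lemma t4_zero {σ : Fin c → Bool} {N : ℕ} (v : Fin c → Fin 6 → ℤ) (b : Fin c) (i : Fin 6)
    (h : ¬ (0 ≤ v b i ∧ v b i < (N : ℤ))) : t4 σ N v = 0 := by
  unfold t4
  refine prod_eq_zero (mem_univ b) ?_
  by_cases hz : v b 4 = 0 ∧ v b 5 = 0
  swap
  · rw [if_neg hz]
  rw [if_pos hz]
  unfold w4
  have : v4 N (cor (v b)) = 0 := by
    unfold v4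
    refine if_neg fun hok => h ?_
    obtain ⟨h1, h2⟩ := hok
    have a0 := h1 0
    have a1 := h1 1
    have a2 := h1 2
    have a3 := h1 3
    simp only [cor, Matrix.cons_val, hz.1, hz.2, add_zero] at a0 a1 a2 a3 h2
    obtain ⟨z4, z5⟩ := hz
    fin_cases i <;> simp only [Fin.zero_eta, Fin.mk_one, Fin.reduceFinMk] <;> omega
  rw [this, Complex.ofReal_zero, mul_zero]

open Classical in
/-- **asymptotics of a state sum with four corners at every vertex** -/
theorem netq4 (X : Net c) (σ : Fin c → Bool) (a : Fin c → Fin 6 → ℝ) (h : Crit X σ a)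
    (f g : (Fin c → Fin 6 → ℝ) →ₗ[ℝ] ℝ) (jj ll : ℝ) : ∃ z : ℂ, z ≠ 0 ∧
    Tendsto (fun N : ℕ => ((√N ^ (4 * c) / √N ^ Module.finrank ℤ X.L *
      Real.exp (N * Vp a) : ℝ) : ℂ) * (P4 σ a N)⁻¹ * ∑ v : Fin c → Fin 6 → Fin N,
        if (fun b => zz (v b)) - ((N : ℤ) - 1) • X.a0 ∈ X.L then t4 σ N (fun b => zz (v b)) *
          cs N (2 * ((f (dv N a fun b => zz (v b)) - jj) * (g (dv N a fun b => zz (v b)) - ll)))
          else 0)
      atTop (𝓝 z) := by
  obtain ⟨E, h1, h2, h3, h4⟩ := task_LB c X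
  obtain ⟨τ, hτ⟩ := h4 _ h.mem
  obtain ⟨C0, κ0, hC0, hκ0, hNB'⟩ := t4_bound h
  obtain ⟨K, hK, hlow⟩ := lower E h3
  obtain ⟨M, hM⟩ : ∃ M : ℝ, M = ∑ b, ∑ i, ((X.a0 b i : ℤ) : ℝ) ^ 2 := ⟨_, rfl⟩
  have hM0 : 0 ≤ M := by
    rw [hM]
    exact sum_nonneg fun b _ => sum_nonneg fun i _ => sq_nonneg _
  have hab : ∀ b i, a b i = X.a0 b i + XL E τ b i := by
    intro b i
    have h5 := congrFun (congrFun hτ b) i
    rw [← XL_apply] at h5
    have h6 : a b i - X.a0 b i = XL E τ b i := h5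
    linarith
  have hEL : ∀ j, E j ∈ X.L := by
    intro j
    have := h1 (Pi.single j 1)
    rwa [sum_eq_single j (fun i _ hi => by rw [Pi.single_eq_of_ne hi, zero_smul])
      (fun h => absurd (mem_univ _) h), Pi.single_eq_same, one_smul] at this
  have hXL : ∀ τ, XL E τ ∈ X.LR := by
    intro τ
    rw [XL_apply]
    exact X.LR.sum_mem fun j _ => X.LR.smul_mem _ (Submodule.subset_span ⟨_, hEL j, rfl⟩)
  have hvc : ∀ (N : ℕ) (t : Fin (Module.finrank ℤ X.L) → ℤ) (b : Fin c) (i : Fin 6),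
      ((vc X E N t b i : ℤ) : ℝ) - N * a b i =
        XL E (fun j => (t j : ℝ) - N * τ j) b i - X.a0 b i := by
    intro N t b i
    rw [hab]
    have e1 : ((vc X E N t b i : ℤ) : ℝ) = ((N : ℝ) - 1) * X.a0 b i + ∑ j, (t j : ℝ) * (E j b i : ℝ) := by
      unfold Pool.Agent.Q299.FAL.vc
      simp only [Pi.add_apply, Pi.smul_apply, Finset.sum_apply, smul_eq_mul]
      push_cast
      rfl
    have e2 : ∀ y : Fin (Module.finrank ℤ X.L) → ℝ, XL E y b i = ∑ j, y j * (E j b i : ℝ) := by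
      intro y
      rw [XL_apply]
      simp only [Finset.sum_apply, Pi.smul_apply, smul_eq_mul, toR]
    rw [e1, e2, e2]
    simp only [sub_mul, sum_sub_distrib]
    rw [mul_add, mul_sum]
    have e3 : ∀ j, (N : ℝ) * (τ j * (E j b i : ℝ)) = N * τ j * (E j b i : ℝ) := fun j => by ring
    simp only [e3]
    ring
  have hLmem : ∀ (N : ℕ) (t : Fin (Module.finrank ℤ X.L) → ℤ),
      vc X E N t - ((N : ℤ) - 1) • X.a0 ∈ X.L := by
    intro N t
    unfold Pool.Agent.Q299.FAL.vc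
    rw [add_sub_cancel_left]
    exact h1 t
  have hz : ∀ (N : ℕ) (t : Fin (Module.finrank ℤ X.L) → ℤ) (b : Fin c),
      vc X E N t b 4 = 0 ∧ vc X E N t b 5 = 0 := by
    intro N t b
    obtain ⟨e1, e2⟩ := h.z _ (hLmem N t) b
    obtain ⟨z1, z2⟩ := h.z0 b
    simp only [Pi.sub_apply, Pi.smul_apply, smul_eq_mul, z1, z2, mul_zero, sub_zero] at e1 e2
    exact ⟨e1, e2⟩
  have hn : ∀ (N : ℕ) (t : Fin (Module.finrank ℤ X.L) → ℤ) (b : Fin c),
      n1 (vc X E N t b) + n2 (vc X E N t b) = (N : ℤ) - 1 := by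
    intro N t b
    have e1 := h.s _ (hLmem N t) b
    have e2 := h.s0 b
    simp only [n1, n2, Pi.sub_apply, Pi.smul_apply, smul_eq_mul] at e1 e2 ⊢
    linear_combination e1 + ((N : ℤ) - 1) * e2
  -- the deviation
  have hyd : ∀ (N : ℕ) (t : Fin (Module.finrank ℤ X.L) → ℤ), ∃ y : Fin c → Fin 6 → ℝ,
      (∀ b i, y b i = ((vc X E N t b i : ℤ) : ℝ) - N * a b i) ∧ y + toR X.a0 ∈ X.LR := by
    intro N t
    refine ⟨fun b i => ((vc X E N t b i : ℤ) : ℝ) - N * a b i, fun b i => rfl, ?_⟩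
    have : (fun (b : Fin c) (i : Fin 6) => ((vc X E N t b i : ℤ) : ℝ) - N * a b i) + toR X.a0 =
        XL E (fun j => (t j : ℝ) - N * τ j) := by
      funext b i
      show ((vc X E N t b i : ℤ) : ℝ) - N * a b i + (X.a0 b i : ℝ) = _
      rw [hvc]
      ring
    rw [this]
    exact hXL _
  choose Y hY1 hY2 using hyd
  have hriem := Pool.Agent.Q99.FW.riemann (d := Module.finrank ℤ X.L) τ
    (κ := κ0 / (2 * K)) (C := |C0| * Real.exp (κ0 * M)) (by positivity)
    (fun N t => ((√N ^ (4 * c) * Real.exp (N * Vp a) : ℝ) : ℂ) * (P4 σ a N)⁻¹ *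
      t4 σ N (vc X E N t) *
      cs N (2 * ((f (dv N a (vc X E N t)) - jj) * (g (dv N a (vc X E N t)) - ll))))
    (fun u => (k4 a : ℂ) * Complex.exp ((-(ga a (XL E u)) : ℝ) +
        (∑ b, ∑ q, Real.pi / 2 * ep (σ b) q * cor (XL E u b) q ^ 2 : ℝ) * Complex.I) *
      Complex.exp ((2 * Real.pi * (f (XL E u) * g (XL E u)) : ℝ) * Complex.I)) ?_ ?_
  · refine ⟨_, ?_, (hriem.congr ?_)⟩
    · simp only [mul_assoc]
      rw [integral_const_mul]
      have hk4 : k4 a ≠ 0 := by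
        unfold k4
        exact mul_ne_zero (Real.exp_pos _).ne' (prod_ne_zero_iff.2 fun b _ => (Real.exp_pos _).ne')
      refine mul_ne_zero (by exact_mod_cast hk4) ?_
      have := gau_ne4 h E h1 h3 f g
      simpa only [mul_assoc] using this
    · intro N
      have hs := sum_ZF X E h1 h2 N (fun v => ((√N ^ (4 * c) * Real.exp (N * Vp a) : ℝ) : ℂ) *
        (P4 σ a N)⁻¹ * t4 σ N v * cs N (2 * ((f (dv N a v) - jj) * (g (dv N a v) - ll))))
        (fun v b i h => by rw [t4_zero v b i h, mul_zero, zero_mul])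
      rw [hs, mul_sum, mul_sum]
      refine sum_congr rfl fun v _ => ?_
      split_ifs
      · rw [div_eq_mul_inv]
        push_cast
        ring
      · rw [mul_zero, mul_zero]
  · filter_upwards [eventually_ge_atTop 1] with N hN t
    have hN0 : (0 : ℝ) < N := by exact_mod_cast hN
    have hN1 : (1 : ℝ) ≤ N := by exact_mod_cast hN
    have h5 := hNB' N hN (vc X E N t) (Y N t) (hz N t) (hY1 N t) (hY2 N t)
    rw [norm_mul, cs_norm, mul_one, norm_mul, norm_mul, norm_inv, P4, cs_norm, inv_one, mul_one,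
      Complex.norm_real, Real.norm_of_nonneg (by positivity)]
    refine h5.trans ?_
    have h6 : ∑ j, ((t j : ℝ) - N * τ j) ^ 2 ≤ K * (2 * (∑ b, ∑ i, (Y N t b i) ^ 2 + M)) := by
      refine (hlow _).trans (mul_le_mul_of_nonneg_left ?_ hK.le)
      rw [hM, ← sum_add_distrib, mul_sum]
      refine sum_le_sum fun b _ => ?_
      rw [← sum_add_distrib, mul_sum]
      refine sum_le_sum fun i _ => ?_
      rw [hY1, hvc]
      nlinarith [sq_nonneg (XL E (fun j => (t j : ℝ) - N * τ j) b i - 2 * X.a0 b i)]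
    have h7 : -κ0 * ((∑ b, ∑ i, (Y N t b i) ^ 2) / N) ≤
        κ0 * M + -(κ0 / (2 * K)) * ((∑ j, ((t j : ℝ) - N * τ j) ^ 2) / N) := by
      have h8 : (∑ j, ((t j : ℝ) - N * τ j) ^ 2) / (2 * K) - M ≤
          ∑ b, ∑ i, (Y N t b i) ^ 2 := by
        rw [sub_le_iff_le_add, div_le_iff₀ (by positivity)]
        linarith
      have h9 : (∑ j, ((t j : ℝ) - N * τ j) ^ 2) / (2 * K) / N - M ≤
          (∑ b, ∑ i, (Y N t b i) ^ 2) / N := by
        rw [le_div_iff₀ hN0, sub_mul, div_mul_cancel₀ _ hN0.ne']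
        nlinarith
      have h10 := mul_le_mul_of_nonneg_left h9 hκ0.le
      have e : -(κ0 / (2 * K)) * ((∑ j, ((t j : ℝ) - N * τ j) ^ 2) / N) =
          -(κ0 * ((∑ j, ((t j : ℝ) - N * τ j) ^ 2) / (2 * K) / N)) := by
        field_simp
      rw [e]
      linarith
    calc C0 * Real.exp (-κ0 * ((∑ b, ∑ i, (Y N t b i) ^ 2) / N))
        ≤ |C0| * Real.exp (-κ0 * ((∑ b, ∑ i, (Y N t b i) ^ 2) / N)) :=
          mul_le_mul_of_nonneg_right (le_abs_self _) (Real.exp_pos _).le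
      _ ≤ |C0| * Real.exp (κ0 * M + -(κ0 / (2 * K)) * ((∑ j, ((t j : ℝ) - N * τ j) ^ 2) / N)) :=
          mul_le_mul_of_nonneg_left (Real.exp_le_exp.2 h7) (abs_nonneg _)
      _ = _ := by rw [Real.exp_add, mul_assoc]
  · intro u x hx
    have hcoord : ∀ b i, Tendsto (fun N : ℕ => Y N (x N) b i / √N)
        atTop (𝓝 (XL E u b i)) := by
      intro b i
      have e2 : ∀ y : Fin (Module.finrank ℤ X.L) → ℝ, XL E y b i = ∑ j, y j * (E j b i : ℝ) := by
        intro y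
        rw [XL_apply]
        simp only [Finset.sum_apply, Pi.smul_apply, smul_eq_mul, toR]
      have h5 : ∀ N : ℕ, Y N (x N) b i / √N =
          ∑ j, ((x N j : ℝ) - N * τ j) / √N * (E j b i : ℝ) - (X.a0 b i : ℝ) / √N := by
        intro N
        rw [hY1, hvc, e2, sub_div, sum_div]
        congr 1
        exact sum_congr rfl fun j _ => by ring
      have h6 : Tendsto (fun N : ℕ => ∑ j, ((x N j : ℝ) - N * τ j) / √N * (E j b i : ℝ) -
          (X.a0 b i : ℝ) / √N) atTop (𝓝 (∑ j, u j * (E j b i : ℝ) - 0)) := by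
        refine Tendsto.sub (tendsto_finsetSum _ fun j _ => (hx j).mul_const _) ?_
        have hsq : Tendsto (fun N : ℕ => √(N : ℝ)) atTop atTop :=
          Real.tendsto_sqrt_atTop.comp tendsto_natCast_atTop_atTop
        exact hsq.const_div_atTop _
      rw [sub_zero, ← e2] at h6
      exact h6.congr fun N => (h5 N).symm
    refine Tendsto.mul (t4_lim h (fun N => vc X E N (x N)) (fun N => Y N (x N)) (XL E u)
      (fun N b => hz N (x N) b) (fun N b => hn N (x N) b) (fun N b i => hY1 N (x N) b i)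
      (fun N => hY2 N (x N)) hcoord) ?_
    have hsq : Tendsto (fun N : ℕ => √(N : ℝ)) atTop atTop :=
      Real.tendsto_sqrt_atTop.comp tendsto_natCast_atTop_atTop
    have hdv : Tendsto (fun N : ℕ => (√(N : ℝ))⁻¹ • dv N a (vc X E N (x N))) atTop
        (𝓝 (XL E u)) := by
      rw [tendsto_pi_nhds]
      intro b
      rw [tendsto_pi_nhds]
      intro i
      have h7 : Tendsto (fun N : ℕ => Y N (x N) b i / √N +
          a b i / √N) atTop (𝓝 (XL E u b i + 0)) :=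
        (hcoord b i).add (hsq.const_div_atTop _)
      rw [add_zero] at h7
      refine h7.congr fun N => ?_
      rw [Pi.smul_apply, Pi.smul_apply, smul_eq_mul, dv, hY1]
      ring
    have hlin : ∀ (q : (Fin c → Fin 6 → ℝ) →ₗ[ℝ] ℝ) (rr : ℝ), Tendsto (fun N : ℕ =>
        (√(N : ℝ))⁻¹ * (q (dv N a (vc X E N (x N))) - rr)) atTop (𝓝 (q (XL E u))) := by
      intro q rr
      have hc : Continuous q := q.continuous_of_finiteDimensional
      have h8 := ((hc.tendsto _).comp hdv).sub (hsq.const_div_atTop rr)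
      rw [sub_zero] at h8
      refine h8.congr fun N => ?_
      rw [Function.comp_apply, map_smul, smul_eq_mul]
      ring
    have hfg := ((hlin f jj).mul (hlin g ll)).const_mul (2 * Real.pi)
    have hexp : Continuous fun s : ℝ => Complex.exp ((s : ℂ) * Complex.I) := by fun_prop
    refine ((hexp.tendsto _).comp hfg).congr' ?_
    filter_upwards [eventually_ge_atTop 1] with N hN
    have hN0 : (0 : ℝ) < N := by exact_mod_cast hN
    have hsN : √(N : ℝ) ≠ 0 := (Real.sqrt_pos.2 hN0).ne'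
    rw [Function.comp_apply, cs]
    congr 3
    have e : (√(N : ℝ))⁻¹ * (√(N : ℝ))⁻¹ = (N : ℝ)⁻¹ := by
      rw [← mul_inv, Real.mul_self_sqrt hN0.le]
    have e2 : ∀ F G : ℝ, 2 * Real.pi * ((√(N : ℝ))⁻¹ * F * ((√(N : ℝ))⁻¹ * G)) =
        Real.pi * (2 * (F * G)) / N := by
      intro F G
      have : 2 * Real.pi * ((√(N : ℝ))⁻¹ * F * ((√(N : ℝ))⁻¹ * G)) =
        2 * Real.pi * F * G * ((√(N : ℝ))⁻¹ * (√(N : ℝ))⁻¹) := by ring
      rw [this, e]
      ring
    exact e2 _ _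

end Pool.Agent.H760.TC
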