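import Pool.Agent.H760.TT.St
import Pool.Graph.R_pool_sql_team_seeded_3997aac3.Q299.HU.JGP

/-!
# Links in the thickened torus with arbitrary regions: the trace as a state sum

An adaptation of `TT/Ops.lean`, `TT/Raw.lean`, `TT/Tr.lean`, `TT/St.lean`: the operator of the region
of a piece `P` is given by `ρ P`.
-/

set_option autoImplicit false

namespace Pool.Agent.H760.TC

open Matrix Finset
open Pool.Agent.W715.VC (rt rt_ne)
open Pool.Agent.W709.QAT (Piece run)
open Pool.Agent.Q191.TW (cs cs_add cs_zero cs_ne cs_neg cs_norm cs_period cs_period' rt_cs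
  kl kx wl dl EL)
open Pool.Agent.Q191.LB (sg)
open Pool.Agent.Q191.TB (Gd Gd_id HatG trace_hatG mg)
open Pool.Agent.Q224.FAL (lab lab_length str_append)
open Pool.Agent.Q98.FAL (uu_app nu_ne nu_add nu_norm sum_cs)
open Pool.Agent.Q99.FW (shQ shQ_run Gd_shQ Gd_app)
open Pool.Agent.Q99.FAL
open Pool.Agent.Q99.FP2 (nu_cs)
open Pool.Agent.Q99.KN (Rgn elg)
open Pool.Agent.Q299.HU (tg tg_all tg_K phs_tg)
open Pool.Agent.H760.TT

variable {N : ℕ}

/-- the elementary parts of a piece -/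
noncomputable def pel (ρ : Pc → Rgn N) (P : Pc) : List Piece := elg ⟨P.ty, P.p, ρ P⟩

lemma Gd_pel (ρ : Pc → Rgn N) (hρ : ∀ P, (ρ P).Ok) (P : Pc) (n : ℕ) (h : P.p + wd P.ty ≤ n) :
    Gd (N := N) (up P.ty n) n (run N (rt N) (pel ρ P)) :=
  Pool.Agent.Q239.KN.Gd_elg ⟨P.ty, P.p, ρ P⟩ (hρ P) n h

/-! ### diagrams -/

/-- the word of a diagram with `n` strands below -/
noncomputable def wdsG (ρ : Pc → Rgn N) : List Vx → ℕ → List Piece
  | [], _ => []
  | V :: D, n => (List.replicate V.r (rwd V.b n)).flatten ++ ((pel ρ V.P).map shQ ++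
      wdsG ρ D (up V.P.ty n))

/-- the operator of a diagram on the vectors killed by `E` -/
noncomputable def FDG (ρ : Pc → Rgn N) : List Vx → (List (Fin N) → ℂ) → List (Fin N) → ℂ
  | [], f => f
  | V :: D, f => FDG ρ D (run N (rt N) (pel ρ V.P) ((RF V.b)^[V.r] f))

lemma wdsG_all (ρ : Pc → Rgn N) (hρ : ∀ P, (ρ P).Ok) : ∀ (D : List Vx) (n n' : ℕ), Val D n n' →
    Gd (N := N) (n' + 1) (n + 1) (run N (rt N) (wdsG ρ D n)) ∧ Lc (N := N) n' n (FDG ρ D) ∧
    HatF (N := N) n' n (run N (rt N) (wdsG ρ D n)) (FDG ρ D)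
  | [], n, n', h => by
    have h' : n = n' := h
    subst h'
    exact ⟨Gd_id _, Lc_id _, fun f _ z _ l _ => rfl⟩
  | V :: D, n, n', h => by
    obtain ⟨h1, h2, h3⟩ := wdsG_all ρ hρ D _ n' h.2
    have hw := wd_pos V.P.ty
    have hn := h.1
    obtain ⟨m, rfl⟩ : ∃ m, n = m + 1 := ⟨n - 1, by omega⟩
    have g := Gd_pel ρ hρ V.P (m + 1) h.1
    obtain ⟨r1, r2⟩ := rwds (N := N) V.b m V.r
    have r3 := Lc_RFs (N := N) V.b V.r m
    have g2 : HatF (N := N) (up V.P.ty (m + 1)) (m + 1) (run N (rt N) ((pel ρ V.P).map shQ))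
        (run N (rt N) (pel ρ V.P)) := fun f _ z _ l _ => shQ_run _ f z l
    refine ⟨Gd_app r1 (Gd_app (Gd_shQ g) h1), h2.comp ((gdlc g).comp r3), ?_⟩
    have k1 := g2.comp (gdlc g) r1 r2
    have k2 := h3.comp h2 ((Gd_shQ g).comp r1) k1
    refine k2.congr fun f l _ => ?_
    show run N (rt N) ((List.replicate V.r (rwd V.b (m + 1))).flatten ++ ((pel ρ V.P).map shQ ++
      wdsG ρ D (up V.P.ty (m + 1)))) f l = _
    rw [Pool.Agent.Q191.TB.run_app, Pool.Agent.Q191.TB.run_app]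

lemma trace_wdsG (ρ : Pc → Rgn N) (hρ : ∀ P, (ρ P).Ok) (hN : 0 < N) (D : List Vx) (n : ℕ) (h : Val D n n) :
    (mg (n + 1) (n + 1) (run N (rt N) (wdsG ρ D n))).trace =
      N * ∑ t : Fin n → Fin N, FDG ρ D (dl (List.ofFn t)) (List.ofFn t) := by
  obtain ⟨h1, h2, h3⟩ := wdsG_all ρ hρ D n n h
  have h4 : HatG n n (run N (rt N) (wdsG ρ D n)) (mg n n (FDG ρ D)) := by
    intro f hf z hz s
    rw [h3 f hf z hz _ (by simp)]
    exact h2.apply s (fun r => f (z :: r))
  rw [trace_hatG hN h1 h4]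
  rfl

/-! ### vertices -/

lemma US_vertG (ρ : Pc → Rgn N) (hρ : ∀ P, (ρ P).Ok) (hN : 0 < N) (P : Pc) (n : ℕ)
    (h : P.p + wd P.ty ≤ n)
    (s : ℤ) (G : List ℤ) (hG : G.length = n + 1) (hG0 : ∀ g ∈ G, 0 ≤ g) :
    ∃ ε : (Fin 6 → Fin N) → ℂ, (∀ x, (∀ c ∈ cls P.ty P.p (cor (zz x)) G, c = N - 1) → ε x = 1) ∧
    ∀ l : List (Fin N), l.length = up P.ty n →
      run N (rt N) (pel ρ P) (US N s G) l =
        tg N (ρ P).K P.ty P.p n * N ^ ex P.ty * ∑ x : Fin 6 → Fin N, if n1 (zz x) + n2 (zz x) = N - 1 ∧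
          (∀ c ∈ cls P.ty P.p (cor (zz x)) G, (N : ℤ) ∣ c + 1) then
            (ρ P).wt (zz x) * ε x * US N s (stp P.ty P.p (cor (zz x)) G) l else 0 := by
  obtain ⟨ε, h1, h2⟩ := tg_all P.ty N hN (ρ P) (hρ P) P.p n h s G hG hG0
  refine ⟨ε, h1, fun l hl => ?_⟩
  have g := Gd_pel ρ hρ P n h
  have h3 := g.loc (US N s G) (fun l' => (if kl l = kG N G then 1 else 0) * UU N (str s G) l') l hl
    fun l' _ hk => by
      unfold US
      rw [hk]
      split_ifs <;> simp
  have h2' : run N (rt N) (pel ρ P) (UU N (str s G)) l = _ := h2 l hl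
  rw [h3, g.smul _ _ l hl, h2', ← mul_assoc, mul_comm _ (tg N (ρ P).K P.ty P.p n * N ^ ex P.ty), mul_assoc]
  congr 1
  rw [Finset.mul_sum]
  refine Finset.sum_congr rfl fun x _ => ?_
  by_cases hx : n1 (zz x) + n2 (zz x) = N - 1 ∧ ∀ c ∈ cls P.ty P.p (cor (zz x)) G, (N : ℤ) ∣ c + 1
  · rw [if_pos hx, if_pos hx]
    unfold US
    rw [kG_stp hN P.ty P.p n (zz x) G h hG hx.1 hx.2]
    split_ifs <;> simp
  · rw [if_neg hx, if_neg hx, mul_zero]

lemma US_stepG (ρ : Pc → Rgn N) (hρ : ∀ P, (ρ P).Ok) (hN : 0 < N) (V : Vx) (n : ℕ) (hV : V.P.p + wd V.P.ty ≤ n) (s : ℤ) (G : List ℤ)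
    (hG : G.length = n + 1) (hG0 : ∀ g ∈ G, 0 ≤ g) :
    ∃ ε : (Fin 6 → Fin N) → ℂ, (∀ x, (∀ c ∈ vcl V (zz x) (s, G), c = N - 1) → ε x = 1) ∧
    ∀ l : List (Fin N), l.length = up V.P.ty n →
      run N (rt N) (pel ρ V.P) ((RF V.b)^[V.r] (US N s G)) l =
        rc N V.b n G.sum ^ V.r * tg N (ρ V.P).K V.P.ty V.P.p n * N ^ ex V.P.ty *
          ∑ x : Fin 6 → Fin N, if n1 (zz x) + n2 (zz x) = N - 1 ∧
          (∀ c ∈ vcl V (zz x) (s, G), (N : ℤ) ∣ c + 1) then
            (ρ V.P).wt (zz x) * ε x *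
              US N (vst V (zz x) (s, G)).1 (vst V (zz x) (s, G)).2 l else 0 := by
  have := wd_pos V.P.ty
  obtain ⟨m, rfl⟩ : ∃ k, n = k + 1 := ⟨n - 1, by omega⟩
  obtain ⟨ε, h1, h2⟩ := US_vertG ρ hρ hN V.P (m + 1) hV ((rot V.b)^[V.r] (s, G)).1
    ((rot V.b)^[V.r] (s, G)).2 (rots_len V.b V.r (s, G) m hG) (rots_nn V.b V.r (s, G) m hG hG0)
  refine ⟨ε, h1, fun l hl => ?_⟩
  have g := Gd_pel ρ hρ V.P (m + 1) hV
  have h3 := g.loc ((RF V.b)^[V.r] (US N s G)) (fun l' => rc N V.b (m + 1) G.sum ^ V.r *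
    US N ((rot V.b)^[V.r] (s, G)).1 ((rot V.b)^[V.r] (s, G)).2 l') l hl
    fun l' hl' _ => US_rots hN V.b m (s, G) hG V.r l' hl'
  rw [h3, g.smul _ _ l hl]
  have h4 := h2 l hl
  rw [h4]
  simp only [vcl, vst]
  ring


lemma tg_norm (hN : 0 < N) (K : ℂ) (hK : ‖K‖ = 1) (T : Ty) (p n : ℕ) (h : p + wd T ≤ n) :
    ‖tg N K T p n‖ = 1 := by
  obtain ⟨β, γ, hb⟩ := phs_tg T p n h
  have h1 : tg N 1 T p n = _ := hb N hN
  rw [tg_K, h1, norm_mul, cs_norm, hK, one_mul]

lemma tg_ne (hN : 0 < N) (K : ℂ) (hK : ‖K‖ = 1) (T : Ty) (p n : ℕ) (h : p + wd T ≤ n) :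
    tg N K T p n ≠ 0 := by
  intro h0
  have := tg_norm hN K hK T p n h
  rw [h0, norm_zero] at this
  exact zero_ne_one this

/-- the constants of the diagram -/
noncomputable def TDG (ρ : Pc → Rgn N) : List Vx → ℕ → ℤ → ℂ
  | [], _, _ => 1
  | V :: D, n, S => TT.rc N V.b n S ^ V.r * tg N (ρ V.P).K V.P.ty V.P.p n *
      TDG ρ D (up V.P.ty n) (S + ((N : ℤ) - 1) * (1 - ncl V.P.ty))

lemma rc_norm (b : Bool) (n : ℕ) (S : ℤ) : ‖TT.rc N b n S‖ = 1 := by
  have h : ‖cR N n * nu N S‖ = 1 := by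
    rw [norm_mul, nu_norm, cR, cs_norm, mul_one]
  unfold TT.rc
  split_ifs
  · exact h
  · rw [norm_inv, h, inv_one]

lemma TDG_norm (ρ : Pc → Rgn N) (hρ : ∀ P, (ρ P).Ok) (hN : 0 < N) : ∀ (D : List Vx) (n n' : ℕ) (S : ℤ), Val D n n' →
    ‖TDG ρ D n S‖ = 1
  | [], _, _, _, _ => norm_one
  | V :: D, n, n', S, h => by
    rw [TDG, norm_mul, norm_mul, norm_pow, rc_norm, one_pow, one_mul,
      tg_norm hN _ (hρ V.P).norm _ _ _ h.1, one_mul, TDG_norm ρ hρ hN D _ n' _ h.2]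

lemma TDG_ne (ρ : Pc → Rgn N) (hρ : ∀ P, (ρ P).Ok) (hN : 0 < N) (D : List Vx) (n n' : ℕ) (S : ℤ) (h : Val D n n') :
    TDG ρ D n S ≠ 0 := by
  intro h0
  have := TDG_norm ρ hρ hN D n n' S h
  rw [h0, norm_zero] at this
  exact zero_ne_one this

/-- the product of the weights -/
noncomputable def wtG (ρ : Pc → Rgn N) (D : List Vx) (a : Fin D.length → Fin 6 → ℤ) : ℂ :=
  ∏ k : Fin D.length, (ρ (D.get k).P).wt (a k)

open Classical in
/-- **the operator of a diagram.** -/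
theorem rawG (ρ : Pc → Rgn N) (hρ : ∀ P, (ρ P).Ok) (hN : 0 < N) : ∀ (D : List Vx) (n n' : ℕ), Val D n n' → ∀ (s : ℤ) (G : List ℤ),
    G.length = n + 1 → (∀ g ∈ G, 0 ≤ g) →
    ∃ E : (Fin D.length → Fin 6 → Fin N) → ℂ,
      (∀ a, (∀ c ∈ clo D (fun k => zz (a k)) (s, G), c = N - 1) →
        (∀ k, n1 (zz (a k)) + n2 (zz (a k)) = N - 1) → E a = 1) ∧
      ∀ l : List (Fin N), l.length = n' → FDG ρ D (US N s G) l =
        TDG ρ D n G.sum * N ^ exD D * ∑ a : Fin D.length → Fin 6 → Fin N,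
          if Cnd N D (fun k => zz (a k)) (s, G) then wtG ρ D (fun k => zz (a k)) * E a *
            US N (fin D (fun k => zz (a k)) (s, G)).1 (fin D (fun k => zz (a k)) (s, G)).2 l else 0
  | [], n, n', h, s, G, hG, hG0 => by
    refine ⟨fun _ => 1, fun _ _ _ => rfl, fun l hl => ?_⟩
    have h0 : (Finset.univ : Finset (Fin ([] : List Vx).length → Fin 6 → Fin N)) =
        {fun k => k.elim0} := by
      ext a
      simp only [Finset.mem_univ, Finset.mem_singleton, true_iff]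
      funext k
      exact k.elim0
    rw [h0, Finset.sum_singleton, if_pos ⟨fun k => k.elim0, by intro c hc; simp [TT.clo] at hc⟩]
    have e1 : wtG ρ [] (fun k : Fin ([] : List Vx).length => zz ((fun k => k.elim0 :
      Fin ([] : List Vx).length → Fin 6 → Fin N) k)) = 1 :=
      Finset.prod_eq_one fun k _ => k.elim0
    rw [e1]
    simp [FDG, TDG, exD, fin]
  | V :: D, n, n', h, s, G, hG, hG0 => by
    obtain ⟨ε, hε1, hε2⟩ := US_stepG ρ hρ hN V n h.1 s G hG hG0
    have IH := fun x : Fin 6 → Fin N => rawG ρ hρ hN D (up V.P.ty n) n' h.2 (vst V (zz x) (s, G)).1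
      (vst V (zz x) (s, G)).2 (vst_len V (zz x) (s, G) n h.1 hG)
      (vst_nn V (zz x) (zz_nn x) (s, G) n h.1 hG hG0).1
    choose E' hE1 hE2 using IH
    obtain ⟨S1, hS1⟩ : ∃ t : ℤ, t = G.sum + ((N : ℤ) - 1) * (1 - ncl V.P.ty) := ⟨_, rfl⟩
    have hTD := TDG_ne ρ hρ hN D (up V.P.ty n) n' S1 h.2
    refine ⟨fun a => ε (a 0) * E' (a 0) (fun k => a k.succ) *
      (TDG ρ D (up V.P.ty n) (vst V (zz (a 0)) (s, G)).2.sum / TDG ρ D (up V.P.ty n) S1), ?_, ?_⟩
    · intro a ha hb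
      have hc : ∀ c ∈ vcl V (zz (a 0)) (s, G), c = N - 1 := fun c hc =>
        ha c (List.mem_append.2 (Or.inl hc))
      have hd : ∀ c ∈ clo D (fun k => zz (a k.succ)) (vst V (zz (a 0)) (s, G)), c = N - 1 :=
        fun c hc => ha c (List.mem_append.2 (Or.inr hc))
      have h1 := vst_sum V (zz (a 0)) (s, G) n h.1 hG
      have h2 := Pool.Agent.Q99.FAL.GG.sum_eq' hc
      rw [vcl_len V (zz (a 0)) (s, G) n h.1 hG] at h2
      have h3 := hb 0
      have e : (vst V (zz (a 0)) (s, G)).2.sum = S1 := by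
        rw [hS1]
        linear_combination h1 - h2 + h3
      show ε (a 0) * E' (a 0) (fun k => a k.succ) * _ = 1
      rw [e, div_self hTD, hε1 _ hc, hE1 (a 0) (fun k => a k.succ) hd fun k => hb k.succ]
      norm_num
    · intro l hl
      obtain ⟨w1, w2, w3⟩ := wdsG_all ρ hρ D _ n' h.2
      show FDG ρ D (run N (rt N) (pel ρ V.P) ((RF V.b)^[V.r] (US N s G))) l = _
      rw [w2.loc _ _ l hl fun l' hl' _ => hε2 l' hl', w2.smul _ _ l hl, w2.sum _ _ l hl]
      have hL : (Fin (V :: D).length → Fin 6 → Fin N) = (Fin (D.length + 1) → Fin 6 → Fin N) := rfl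
      have hR : ∑ a : Fin (V :: D).length → Fin 6 → Fin N,
          (if Cnd N (V :: D) (fun k => zz (a k)) (s, G) then wtG ρ (V :: D) (fun k => zz (a k)) *
            (ε (a 0) * E' (a 0) (fun k => a k.succ) *
      (TDG ρ D (up V.P.ty n) (vst V (zz (a 0)) (s, G)).2.sum / TDG ρ D (up V.P.ty n) S1)) *
            US N (fin (V :: D) (fun k => zz (a k)) (s, G)).1
              (fin (V :: D) (fun k => zz (a k)) (s, G)).2 l else 0) =
          ∑ x : Fin 6 → Fin N, ∑ a : Fin D.length → Fin 6 → Fin N,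
            (if (n1 (zz x) + n2 (zz x) = N - 1 ∧ ∀ c ∈ vcl V (zz x) (s, G), (N : ℤ) ∣ c + 1) ∧
              Cnd N D (fun k => zz (a k)) (vst V (zz x) (s, G)) then
              ((ρ V.P).wt (zz x) * wtG ρ D (fun k => zz (a k))) *
            (ε x * E' x a *
      (TDG ρ D (up V.P.ty n) (vst V (zz x) (s, G)).2.sum / TDG ρ D (up V.P.ty n) S1)) *
            US N (fin D (fun k => zz (a k)) (vst V (zz x) (s, G))).1
              (fin D (fun k => zz (a k)) (vst V (zz x) (s, G))).2 l else 0) := by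
        refine Eq.trans ((Fin.consEquiv (fun _ : Fin (D.length + 1) =>
          Fin 6 → Fin N)).sum_comp _).symm ?_
        rw [Fintype.sum_prod_type]
        refine Finset.sum_congr rfl fun x _ => Finset.sum_congr rfl fun a _ => ?_
        have hcnd : Cnd N (V :: D) (fun k => zz ((Fin.consEquiv (fun _ : Fin (D.length + 1) =>
            Fin 6 → Fin N)) (x, a) k)) (s, G) ↔
            (n1 (zz x) + n2 (zz x) = N - 1 ∧ ∀ c ∈ vcl V (zz x) (s, G), (N : ℤ) ∣ c + 1) ∧
              Cnd N D (fun k => zz (a k)) (vst V (zz x) (s, G)) := by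
          constructor
          · rintro ⟨c1, c2⟩
            exact ⟨⟨c1 0, fun c hc => c2 c (List.mem_append.2 (Or.inl hc))⟩,
              fun k => c1 k.succ, fun c hc => c2 c (List.mem_append.2 (Or.inr hc))⟩
          · rintro ⟨⟨c1, c2⟩, c3, c4⟩
            refine ⟨fun k => ?_, fun c hc => ?_⟩
            · refine Fin.cases c1 (fun j => ?_) k
              exact c3 j
            · rcases List.mem_append.1 (show c ∈ vcl V (zz x) (s, G) ++
                clo D (fun k => zz (a k)) (vst V (zz x) (s, G)) from hc) with hc | hc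
              · exact c2 c hc
              · exact c4 c hc
        have hw : wtG ρ (V :: D) (fun k => zz ((Fin.consEquiv (fun _ : Fin (D.length + 1) =>
            Fin 6 → Fin N)) (x, a) k)) = (ρ V.P).wt (zz x) *
              wtG ρ D (fun k => zz (a k)) :=
          Fin.prod_univ_succ (fun k : Fin (D.length + 1) => (ρ ((V :: D).get k).P).wt (zz ((Fin.consEquiv (fun _ : Fin (D.length + 1) =>
            Fin 6 → Fin N)) (x, a) k)))
        rw [hw]
        by_cases hh : Cnd N (V :: D) (fun k => zz ((Fin.consEquiv (fun _ : Fin (D.length + 1) =>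
            Fin 6 → Fin N)) (x, a) k)) (s, G)
        · rw [if_pos hh, if_pos (hcnd.1 hh)]
          rfl
        · rw [if_neg hh, if_neg fun h' => hh (hcnd.2 h')]
      rw [hR]
      have hex : exD (V :: D) = ex V.P.ty + exD D := by simp [exD]
      rw [hex, pow_add]
      have key : ∀ x : Fin 6 → Fin N, FDG ρ D (fun l' => if n1 (zz x) + n2 (zz x) = N - 1 ∧
          (∀ c ∈ vcl V (zz x) (s, G), (N : ℤ) ∣ c + 1) then
            (ρ V.P).wt (zz x) * ε x *
              US N (vst V (zz x) (s, G)).1 (vst V (zz x) (s, G)).2 l' else 0) l =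
          TDG ρ D (up V.P.ty n) S1 * N ^ exD D * ∑ a : Fin D.length → Fin 6 → Fin N,
            (if (n1 (zz x) + n2 (zz x) = N - 1 ∧ ∀ c ∈ vcl V (zz x) (s, G), (N : ℤ) ∣ c + 1) ∧
              Cnd N D (fun k => zz (a k)) (vst V (zz x) (s, G)) then
              ((ρ V.P).wt (zz x) * wtG ρ D (fun k => zz (a k))) *
            (ε x * E' x a *
      (TDG ρ D (up V.P.ty n) (vst V (zz x) (s, G)).2.sum / TDG ρ D (up V.P.ty n) S1)) *
            US N (fin D (fun k => zz (a k)) (vst V (zz x) (s, G))).1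
              (fin D (fun k => zz (a k)) (vst V (zz x) (s, G))).2 l else 0) := by
        intro x
        rw [w2.ite _ _ _ l hl]
        by_cases hx : n1 (zz x) + n2 (zz x) = (N : ℤ) - 1 ∧
          (∀ c ∈ vcl V (zz x) (s, G), (N : ℤ) ∣ c + 1)
        · rw [if_pos hx, hE2 x l hl, Finset.mul_sum, Finset.mul_sum, Finset.mul_sum]
          refine Finset.sum_congr rfl fun a _ => ?_
          by_cases hc : Cnd N D (fun k => zz (a k)) (vst V (zz x) (s, G))
          · have hc' : Cnd N D (fun k => zz (a k)) ((vst V (zz x) (s, G)).1,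
              (vst V (zz x) (s, G)).2) := hc
            rw [if_pos hc', if_pos ⟨hx, hc⟩]
            field_simp
          · have hc' : ¬ Cnd N D (fun k => zz (a k)) ((vst V (zz x) (s, G)).1,
              (vst V (zz x) (s, G)).2) := hc
            rw [if_neg hc', if_neg fun h' => hc h'.2]
            simp
        · rw [if_neg hx]
          symm
          rw [Finset.sum_eq_zero fun a _ => if_neg fun h' => hx h'.1, mul_zero]
      rw [Finset.sum_congr rfl fun x _ => key x, ← Finset.mul_sum]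
      show _ = TT.rc N V.b n G.sum ^ V.r * tg N (ρ V.P).K V.P.ty V.P.p n *
        TDG ρ D (up V.P.ty n) (G.sum + ((N : ℤ) - 1) * (1 - ncl V.P.ty)) * _ * _
      rw [← hS1]
      ring

open Classical in
/-- **the trace as a state sum** -/
theorem trace_stateG (ρ : Pc → Rgn N) (hρ : ∀ P, (ρ P).Ok) (hN : 0 < N) (D : List Vx) (m : ℕ) (h : Val D (m + 1) (m + 1)) :
    ∑ t : Fin (m + 1) → Fin N, FDG ρ D (dl (List.ofFn t)) (List.ofFn t) =
      (N : ℂ) ^ exD D * sL m (fun M : List (Fin N) => ∑ y : Fin N,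
        TDG ρ D (m + 1) (Gp M y).sum * ∑ a : Fin D.length → Fin 6 → Fin N,
          if Exa N D (fun k => zz (a k)) (Gp M y) then wtG ρ D (fun k => zz (a k)) *
            (nu N ((m + 1) * Kf D (fun k => zz (a k)) (Gp M y)) *
              cs N (2 * (Kf D (fun k => zz (a k)) (Gp M y)) * ((Gp M y).sum + (m + 1)))) else 0) := by
  obtain ⟨-, hF, -⟩ := wdsG_all ρ hρ D (m + 1) (m + 1) h
  rw [trace_four hN m hF, ← sL_mul, ← sL_mul]
  refine sL_congr _ _ _ fun M hM => ?_
  rw [Finset.mul_sum, Finset.mul_sum]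
  refine Finset.sum_congr rfl fun y _ => ?_
  have hGl : (Gp M y).length = m + 1 + 1 := by rw [Gp_len, hM]
  obtain ⟨E, hE1, hE2⟩ := rawG ρ hρ hN D (m + 1) (m + 1) h 0 (Gp M y) hGl (Gp_nn M y)
  have hNm : (N : ℂ) ^ m ≠ 0 := pow_ne_zero _ (by exact_mod_cast hN.ne')
  have h1 : ∀ t : List (Fin N), t.length = m + 1 → (if kl t = kG N (Gp M y) then
      (UU N (str 0 (Gp M y)) t)⁻¹ * FDG ρ D (US N 0 (Gp M y)) t else 0) =
      TDG ρ D (m + 1) (Gp M y).sum * N ^ exD D * ∑ a : Fin D.length → Fin 6 → Fin N,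
        (if Cnd N D (fun k => zz (a k)) (0, Gp M y) then wtG ρ D (fun k => zz (a k)) * E a else 0) *
          (if kl t = kG N (Gp M y) then (UU N (str 0 (Gp M y)) t)⁻¹ *
            US N (fin D (fun k => zz (a k)) (0, Gp M y)).1
              (fin D (fun k => zz (a k)) (0, Gp M y)).2 t else 0) := by
    intro t ht
    by_cases hk : kl t = kG N (Gp M y)
    · simp only [if_pos hk]
      rw [hE2 t ht, Finset.mul_sum, Finset.mul_sum, Finset.mul_sum]
      refine Finset.sum_congr rfl fun a _ => ?_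
      split_ifs <;> ring
    · simp only [if_neg hk, mul_zero, Finset.sum_const_zero]
  rw [sL_congr _ _ _ h1, sL_mul, sL_sum]
  have h2 : ∀ a : Fin D.length → Fin 6 → Fin N, sL (m + 1) (fun t : List (Fin N) =>
      (if Cnd N D (fun k => zz (a k)) (0, Gp M y) then wtG ρ D (fun k => zz (a k)) * E a else 0) *
          (if kl t = kG N (Gp M y) then (UU N (str 0 (Gp M y)) t)⁻¹ *
            US N (fin D (fun k => zz (a k)) (0, Gp M y)).1
              (fin D (fun k => zz (a k)) (0, Gp M y)).2 t else 0)) =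
      (N : ℂ) ^ m * (if Exa N D (fun k => zz (a k)) (Gp M y) then wtG ρ D (fun k => zz (a k)) *
            (nu N ((m + 1) * Kf D (fun k => zz (a k)) (Gp M y)) *
              cs N (2 * (Kf D (fun k => zz (a k)) (Gp M y)) * ((Gp M y).sum + (m + 1)))) else 0) := by
    intro a
    rw [sL_mul]
    by_cases hc : Cnd N D (fun k => zz (a k)) (0, Gp M y)
    swap
    · rw [if_neg hc, zero_mul, if_neg, mul_zero]
      intro hx
      apply hc
      refine ⟨hx.1, fun c hcm => ?_⟩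
      rw [hx.2.1 c hcm]
      simp
    rw [if_pos hc]
    have hfl := fin_len D (m + 1) (m + 1) h (fun k => zz (a k)) (0, Gp M y) hGl
    obtain ⟨x', M', y', he, hM'⟩ := exists_ends hfl
    have hkG := kG_fin hN D (m + 1) h (fun k => zz (a k)) (0, Gp M y) hGl hc
    rw [he] at hkG ⊢
    have hb := base hN M y (fin D (fun k => zz (a k)) (0, Gp M y)).1 x' y' M'
      (by rw [hM', hM]) hkG
    rw [hM] at hb
    rw [hb]
    have hM1 : Val D (M.length + 1) (M.length + 1) := by rw [hM]; exact h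
    have hK : Kf D (fun k => zz (a k)) (Gp M y) =
        (fin D (fun k => zz (a k)) (0, Gp M y)).1 - x' := by
      unfold Kf
      rw [he]
      rfl
    by_cases hcg : Cg N M' (io M)
    · obtain ⟨e1, e2⟩ := exa_of hN D M y hM1 (fun k => zz (a k)) (fun k i => zz_nn _ i) hc x' y' M' he
        hcg
      rw [if_pos hcg, if_pos e1, hE1 a e1.2.1 e1.1, hK]
      have hs : (str (fin D (fun k => zz (a k)) (0, Gp M y)).1 (x' :: (M' ++ [y']))).sum -
          (str 0 (Gp M y)).sum = (m + 1) * ((fin D (fun k => zz (a k)) (0, Gp M y)).1 - x') := by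
        rw [str_ends, str_Gp, e2, List.sum_cons, List.sum_cons]
        have := lab_sum ((fin D (fun k => zz (a k)) (0, Gp M y)).1 - x') (io M) 0
        rw [zero_add] at this
        rw [this]
        have hio : (io M).length = m := by simp [io, hM]
        rw [hio]
        ring
      rw [hs]
      push_cast
      ring
    · rw [if_neg hcg, mul_zero, if_neg, mul_zero]
      intro hx
      apply hcg
      have h3 := hx.2.2
      unfold turn at h3
      rw [he, nrm_eq] at h3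
      unfold Gp at h3
      have h4 := (List.cons.inj h3).2
      have h5 := List.append_inj_left' h4 rfl
      rw [h5]
      exact List.forall₂_same.2 fun x _ => by simp
  rw [Finset.sum_congr rfl fun a _ => h2 a, ← Finset.mul_sum]
  exact alg _ _ _ _ hNm

lemma TDG_add (ρ : Pc → Rgn N) : ∀ (D : List Vx) (n : ℕ) (S d : ℤ),
    TDG ρ D n (S + d) = TDG ρ D n S * nu N (wr D * d)
  | [], n, S, d => by simp [TDG, wr, nu]
  | V :: D, n, S, d => by
    rw [TDG, TDG, rc_add, mul_pow, nu_pow]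
    have e : S + d + ((N : ℤ) - 1) * (1 - ncl V.P.ty) =
      S + ((N : ℤ) - 1) * (1 - ncl V.P.ty) + d := by ring
    rw [e, TDG_add ρ D]
    have e2 : wr (V :: D) * d = (V.r : ℤ) * (if V.b then d else -d) + wr D * d := by
      rw [wr]
      split_ifs <;> ring
    rw [e2, nu_add]
    ring

/-- the phases of a term -/
lemma phaseG (ρ : Pc → Rgn N) (hN : 0 < N) (D : List Vx) (n : ℕ) (S K : ℤ) :
    TDG ρ D n S * (nu N (n * K) * cs N (2 * K * (S + n))) =
      TDG ρ D n 0 * cs N (n * wr D * ((N : ℝ) - 1) ^ 2 / 2) *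
        cs N (2 * ((S : ℝ) - n * ((N : ℝ) - 1) / 2) * ((K : ℝ) + wr D * ((N : ℝ) - 1) / 2)) := by
  have h1 := TDG_add ρ D n 0 S
  rw [zero_add] at h1
  rw [h1, nu_cs hN, nu_cs hN]
  have e : cs N (N * ((wr D * S : ℤ) : ℝ) - ((wr D * S : ℤ) : ℝ)) *
      (cs N (N * ((n * K : ℤ) : ℝ) - ((n * K : ℤ) : ℝ)) * cs N (2 * K * (S + n))) =
      cs N (n * wr D * ((N : ℝ) - 1) ^ 2 / 2) *
        cs N (2 * ((S : ℝ) - n * ((N : ℝ) - 1) / 2) * ((K : ℝ) + wr D * ((N : ℝ) - 1) / 2)) := by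
    rw [← cs_add, ← cs_add, ← cs_add]
    refine cs_period' hN ((n : ℤ) * K) ?_
    push_cast
    ring
  rw [mul_assoc, e, ← mul_assoc]

end Pool.Agent.H760.TC
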