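import Pool.Agent.H760.TC.Asy
import Pool.Agent.H760.TT.Ph
import Pool.Graph.R_pool_sql_team_seeded_3997aac3.Q299.HU.JGP

/-!
# Alternating links in the thickened torus: the phase of the trace
-/

set_option autoImplicit false

namespace Pool.Agent.H760.TC

open Finset Filter Topology
open Pool.Agent.W715.VC (rt)
open Pool.Agent.W719.BS (LL)
open Pool.Agent.Q191.TW (cs cs_add cs_zero cs_ne cs_neg cs_norm dl)
open Pool.Agent.Q99.FP2 (Phs Fh)
open Pool.Agent.Q99.FAL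
open Pool.Agent.Q99.KN (Rgn)
open Pool.Agent.Q299.HU (tg_K phs_tg)
open Pool.Agent.H760.TT

/-- the phase of the constants of the diagram -/
lemma phs_T4 : ∀ (D : List Vx) (n n' : ℕ) (s : ℤ), Val D n n' →
    Phs (fun N => TDG (rgc N) D n (((N : ℤ) - 1) * s)) ((Fh n' - Fh n) + al D s)
  | [], n, n', s, h => by
    have h' : n = n' := h
    subst h'
    have e : (Fh n - Fh n) + ((al [] s : ℤ) : ℝ) = 0 := by
      simp [al]
    rw [e]
    exact Phs.one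
  | V :: D, n, n', s, h => by
    have h1 := ((phs_rc V.b n s).pow V.r).mul (phs_tg V.P.ty V.P.p n h.1)
    have h2 := h1.mul (phs_T4 D _ n' (s + (1 - ncl V.P.ty)) h.2)
    have e : (Fh n' - Fh n) + ((al (V :: D) s : ℤ) : ℝ) =
        (V.r : ℝ) * ((if V.b then s else -s : ℤ) : ℝ) +
        (Fh (up V.P.ty n) - Fh n) +
        ((Fh n' - Fh (up V.P.ty n)) + ((al D (s + (1 - ncl V.P.ty)) : ℤ) : ℝ)) := by
      rw [al]
      push_cast
      ring
    rw [e]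
    have e2 : (fun N : ℕ => TDG (rgc N) (V :: D) n (((N : ℤ) - 1) * s)) = fun N : ℕ =>
        TT.rc N V.b n (((N : ℤ) - 1) * s) ^ V.r * Pool.Agent.Q299.HU.tg N 1 V.P.ty V.P.p n *
        TDG (rgc N) D (up V.P.ty n) (((N : ℤ) - 1) * (s + (1 - ncl V.P.ty))) := by
      funext N
      rw [TDG, mul_add ((N : ℤ) - 1) s]
      rfl
    rw [e2]
    exact h2

variable {D : List Vx} {k m : ℕ}

/-- the integer of the phase -/
def qC (D : List Vx) (m : ℕ) (j l : ℤ) : ℤ :=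
  2 * al D 0 + (m + 1) * wr D + 2 * (j * wr D - l * (m + 1))

lemma qC_par (D : List Vx) (m : ℕ) (j l : ℤ) : (2 : ℤ) ∣ qC D m j l - (m + 1) * wr D :=
  ⟨al D 0 + (j * wr D - l * (m + 1)), by unfold qC; ring⟩

/-- the phase of the trace -/
lemma phs_ph4 (h : Val D (m + 1) (m + 1)) (a : Fin D.length → Fin 6 → ℝ) (j l : ℤ) :
    Phs (fun N => ph4 D m a j l N) ((Aq (sgD D) a - wS (sgD D)) / 2 + (qC D m j l : ℝ) / 2) := by
  have h1 := phs_T4 D (m + 1) (m + 1) 0 h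
  have e1 : (fun N : ℕ => TDG (rgc N) D (m + 1) (((N : ℤ) - 1) * 0)) =
      fun N : ℕ => TDG (rgc N) D (m + 1) 0 := by
    funext N
    rw [mul_zero]
  rw [e1] at h1
  have h2 : Phs (fun N => cs N (((m + 1 : ℕ) : ℝ) * wr D * ((N : ℝ) - 1) ^ 2 / 2))
      (((m + 1 : ℕ) : ℝ) * wr D / 2) := by
    refine ⟨-(((m + 1 : ℕ) : ℝ) * wr D), ((m + 1 : ℕ) : ℝ) * wr D / 2, fun N _ => ?_⟩
    show cs N _ = _
    congr 1
    ring
  have h3 : Phs (fun N => cs N (N * ((N : ℝ) - 1) * (j * wr D - l * ((m + 1 : ℕ) : ℤ))))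
      (j * wr D - l * ((m + 1 : ℕ) : ℤ)) := by
    refine ⟨-(j * wr D - l * ((m + 1 : ℕ) : ℤ)), 0, fun N _ => ?_⟩
    show cs N _ = _
    congr 1
    ring
  have h4 : Phs (fun N => P4 (sgD D) a N) ((Aq (sgD D) a - wS (sgD D)) / 2) := by
    refine ⟨-Aq (sgD D) a, wS (sgD D) / 2, fun N _ => ?_⟩
    show cs N _ = _
    congr 1
    ring
  have h5 := ((h1.mul h2).mul h3).mul h4
  have e2 : (Fh (m + 1) - Fh (m + 1)) + ((al D 0 : ℤ) : ℝ) +
      ((m + 1 : ℕ) : ℝ) * wr D / 2 + (j * wr D - l * ((m + 1 : ℕ) : ℤ)) +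
      (Aq (sgD D) a - wS (sgD D)) / 2 =
      (Aq (sgD D) a - wS (sgD D)) / 2 + (qC D m j l : ℝ) / 2 := by
    unfold qC
    push_cast
    ring
  rw [e2] at h5
  exact h5

/-- **asymptotics of the trace with its phase** for a semi-regular alternating diagram -/
theorem asymPS {X : Type} [Inhabited X] (h : Val D (m + 1) (m + 1)) (hC : Cell D m k)
    (lab : Fin D.length → Fin 4 → X) (fa : X → ℝ) (fb : X → Bool)
    (hpos : ∀ b q, 0 < fa (lab b q)) (hle : ∀ b q, fa (lab b q) ≤ 1 / 2)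
    (hty : ∀ b q, fb (lab b q) = typ (D.get b).P.σ q)
    (hTS : TS k m D (fun b => x6 fun q => fa (lab b q)) 1)
    (c : List X) (hcl : c.length = m + 1 + 1) (hP : PerX c) (hLK : LK D lab c c) :
    ∃ q : ℤ, (2 : ℤ) ∣ q - (m + 1) * wr D ∧ ∃ z : ℂ, z ≠ 0 ∧ Tendsto (fun N : ℕ =>
      rt N ^ (-((m + 1 + 1 : ℕ) : ℤ) * ((N : ℤ) - 1)) *
      (N * ∑ t : Fin (m + 1) → Fin N, FDG (rgc N) D (dl (List.ofFn t)) (List.ofFn t)) /
      (N * √N * Complex.exp (N * ((-∑ b, ∑ q, LL (fa (lab b q)) : ℝ) +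
        Real.pi * ((Aq (sgD D) (fun b => x6 fun q => fa (lab b q)) - wS (sgD D)) / 2 + q / 2 : ℝ) *
          Complex.I)))) atTop (𝓝 z) := by
  obtain ⟨j, l, z, hz, hlim⟩ := asymS h hC lab fa fb hpos hle hty hTS c hcl hP hLK
  obtain ⟨A, hA⟩ : ∃ A, A = Aq (sgD D) (fun b => x6 fun q => fa (lab b q)) - wS (sgD D) := ⟨_, rfl⟩
  obtain ⟨V, hV⟩ : ∃ V, V = ∑ b, ∑ q, LL (fa (lab b q)) := ⟨_, rfl⟩
  rw [← hA, ← hV]
  rw [← hV] at hlim
  have hph := phs_ph4 h (fun b => x6 fun q => fa (lab b q)) j l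
  rw [← hA] at hph
  have h0 : Phs (fun N => rt N ^ (-((m + 1 + 1 : ℕ) : ℤ) * ((N : ℤ) - 1))) 0 := by
    refine ⟨-((m + 1 + 1 : ℕ) : ℝ), ((m + 1 + 1 : ℕ) : ℝ), fun N _ => ?_⟩
    show rt N ^ _ = _
    rw [Pool.Agent.Q191.TW.rt_cs]
    congr 1
    push_cast
    ring
  have h1 := h0.mul hph
  rw [zero_add] at h1
  obtain ⟨z', hz', hlim'⟩ := h1.lim
  refine ⟨qC D m j l, qC_par D m j l, z' * z, mul_ne_zero hz' hz, (hlim'.mul hlim).congr' ?_⟩
  filter_upwards [eventually_gt_atTop 0] with N hN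
  have hNr : (0 : ℝ) < N := by exact_mod_cast hN
  have hs : (0 : ℝ) < √N := Real.sqrt_pos.mpr hNr
  have hNc : (N : ℂ) ≠ 0 := by exact_mod_cast hN.ne'
  have hsc : ((√N : ℝ) : ℂ) ≠ 0 := by exact_mod_cast hs.ne'
  have hphn : ph4 D m (fun b => x6 fun q => fa (lab b q)) j l N ≠ 0 := by
    have := ph4_norm hN h (fun b => x6 fun q => fa (lab b q)) j l
    intro hh
    rw [hh, norm_zero] at this
    exact one_ne_zero this.symm
  have e : Complex.exp (N * ((-V : ℝ) +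
        Real.pi * (A / 2 + (qC D m j l : ℝ) / 2 : ℝ) * Complex.I)) =
      Complex.exp (N * (-V : ℝ)) *
        Complex.exp (N * (Real.pi * (A / 2 + (qC D m j l : ℝ) / 2 : ℝ) * Complex.I)) := by
    rw [← Complex.exp_add]
    congr 1
    ring
  have e3 : ((Real.exp (-(N * V)) : ℝ) : ℂ) = Complex.exp (N * (-V : ℝ)) := by
    rw [Complex.ofReal_exp]
    congr 1
    push_cast
    ring
  rw [e, Complex.exp_neg, Complex.ofReal_mul, e3]
  have e1 := Complex.exp_ne_zero (N * (Real.pi * (A / 2 + (qC D m j l : ℝ) / 2 : ℝ) * Complex.I))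
  have e2 := Complex.exp_ne_zero (N * (-V : ℝ))
  obtain ⟨E1, hE1⟩ : ∃ E, E = Complex.exp (N * (-V : ℝ)) := ⟨_, rfl⟩
  rw [← hE1] at e2 ⊢
  push_cast at e1 e2 ⊢
  field_simp

end Pool.Agent.H760.TC
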