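import Pool.Agent.H760.TC.Ops
import Pool.Graph.R_pool_sql_team_seeded_3997aac3.Q99.UB.ST

/-!
# The weight of a crossing with its phase
-/

set_option autoImplicit false

namespace Pool.Agent.H760.TC

open Finset
open Pool.Agent.W715.VC (rt rt_ne)
open Pool.Agent.W719.BS (D D_pos D_refl)
open Pool.Agent.Q191.TW (cs cs_add cs_zero cs_ne cs_neg cs_norm cs_period cs_period' rt_cs)
open Pool.Agent.Q99.FAL
open Pool.Agent.Q99.FP2 (nu_cs)
open Pool.Agent.Q99.UB (Po kp Wc)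

variable {N : ℕ}

lemma one_sub_cs (x : ℝ) : (1 : ℂ) - cs N (2 * x) =
    cs N (x - N / 2) * (2 * Real.sin (Real.pi * x / N) : ℝ) ∨ N = 0 := by
  by_cases hN : N = 0
  · exact Or.inr hN
  refine Or.inl ?_
  have h0 : (N : ℝ) ≠ 0 := by exact_mod_cast hN
  unfold cs
  have e1 : (Real.pi * (2 * x) / N : ℝ) = 2 * (Real.pi * x / N) := by ring
  have e2 : (Real.pi * (x - N / 2) / N : ℝ) = Real.pi * x / N - Real.pi / 2 := by
    field_simp
  rw [e1, e2]
  obtain ⟨t, ht⟩ : ∃ t, t = Real.pi * x / N := ⟨_, rfl⟩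
  rw [← ht]
  apply Complex.ext
  · rw [Complex.sub_re, Complex.mul_re, Complex.exp_ofReal_mul_I_re, Complex.exp_ofReal_mul_I_re,
      Complex.ofReal_re, Complex.ofReal_im, Real.cos_sub_pi_div_two, Real.cos_two_mul,
      Complex.one_re]
    have := Real.sin_sq_add_cos_sq t
    linear_combination (-2 : ℝ) * this
  · rw [Complex.sub_im, Complex.mul_im, Complex.exp_ofReal_mul_I_im, Complex.exp_ofReal_mul_I_im,
      Complex.ofReal_re, Complex.ofReal_im, Real.sin_sub_pi_div_two, Real.sin_two_mul,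
      Complex.one_im]
    ring

lemma Po_cs (hN : 0 < N) (m : ℕ) : Po (rt N ^ 2) m =
    cs N ((m : ℝ) * (m + 1) / 2 - N * m / 2) * (D N m : ℝ) := by
  induction m with
  | zero => simp [Po, D, cs_zero]
  | succ m ih =>
    have h1 : Po (rt N ^ 2) (m + 1) = Po (rt N ^ 2) m * (1 - (rt N ^ 2) ^ (m + 1)) := by
      unfold Po
      rw [prod_range_succ]
    have h2 : D N (m + 1) = D N m * (2 * Real.sin (Real.pi * ((m : ℝ) + 1) / N)) := by
      unfold D
      rw [prod_range_succ]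
    have h3 : (rt N ^ 2) ^ (m + 1) = cs N (2 * ((m : ℝ) + 1)) := by
      rw [← pow_mul, ← zpow_natCast, rt_cs]
      congr 1
      push_cast
      ring
    have h4 := (one_sub_cs (N := N) ((m : ℝ) + 1)).resolve_right hN.ne'
    rw [h1, ih, h3, h4, h2]
    have e : cs N (((m + 1 : ℕ) : ℝ) * (((m + 1 : ℕ) : ℝ) + 1) / 2 - N * ((m + 1 : ℕ) : ℝ) / 2) =
        cs N ((m : ℝ) * (m + 1) / 2 - N * m / 2) * cs N ((m : ℝ) + 1 - N / 2) := by
      rw [← cs_add]
      congr 1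
      push_cast
      ring
    rw [e]
    push_cast
    ring

lemma cs_conj (x : ℝ) : (starRingEnd ℂ) (cs N x) = cs N (-x) := by
  unfold cs
  rw [← Complex.exp_conj, map_mul, Complex.conj_I, Complex.conj_ofReal]
  congr 1
  push_cast
  ring

lemma Poi_cs (hN : 0 < N) (m : ℕ) : Po (rt N ^ 2)⁻¹ m =
    cs N (-((m : ℝ) * (m + 1) / 2 - N * m / 2)) * (D N m : ℝ) := by
  have h := congrArg (starRingEnd ℂ) (Po_cs hN m)
  rw [map_mul, cs_conj, Complex.conj_ofReal] at h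
  rw [← h]
  unfold Po
  rw [map_prod]
  refine prod_congr rfl fun t _ => ?_
  rw [map_sub, map_one, map_pow]
  have e : (starRingEnd ℂ) (rt N ^ 2) = (rt N ^ 2)⁻¹ := by
    have h1 : rt N ^ 2 = cs N 2 := by
      have := rt_cs N 2
      push_cast at this
      rw [← this]
      norm_cast
    rw [h1, cs_conj]
    have h2 := cs_add N (-2) 2
    have h3 : (-2 : ℝ) + 2 = 0 := by norm_num
    rw [h3, cs_zero] at h2
    exact eq_inv_of_mul_eq_one_left h2.symm
  rw [e]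

lemma cs_inv' (x : ℝ) : (cs N x)⁻¹ = cs N (-x) := by
  have h2 := cs_add N (-x) x
  rw [neg_add_cancel, cs_zero] at h2
  exact (eq_inv_of_mul_eq_one_left h2.symm).symm

/-- **the weight of a crossing.** -/
theorem Wc_val (hN : 0 < N) (σ : Bool) (A β C γ : ℕ) (h : A + β + C + γ + 1 = N) :
    Wc N σ A β C γ = cs N ((if σ then 1 else -1) *
      (((A : ℝ) ^ 2 + (C : ℝ) ^ 2 - (β : ℝ) ^ 2 - (γ : ℝ) ^ 2) / 2 - ((N : ℝ) ^ 2 - 1) / 2)) *
      ((D N A * D N β * D N C * D N γ : ℝ) : ℂ)⁻¹ := by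
  have hNr : (N : ℝ) ≠ 0 := by exact_mod_cast hN.ne'
  have hNc : (N : ℂ) ≠ 0 := by exact_mod_cast hN.ne'
  have p1 := D_pos N A (by omega)
  have p2 := D_pos N β (by omega)
  have p3 := D_pos N C (by omega)
  have p4 := D_pos N γ (by omega)
  have hsum : (N : ℝ) = A + β + C + γ + 1 := by exact_mod_cast h.symm
  cases σ
  · unfold Wc kp
    simp only [Bool.false_eq_true, if_false]
    have hs : β + C - C = β := by omega
    rw [hs, Poi_cs hN, Poi_cs hN, Po_cs hN, Po_cs hN, nu_cs hN]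
    have p5 := D_pos N (A + (β + C)) (by omega)
    have r := D_refl N (A + (β + C)) γ (by omega)
    have h1 : rt N ^ ((N : ℤ) - 1) = cs N ((N : ℝ) - 1) := by
      rw [rt_cs]
      push_cast
      rfl
    have h2 : (rt N ^ 2) ^ (((β + C : ℕ) : ℤ) ^ 2 + ((β + C : ℕ) : ℤ) * A +
        (1 - ((β + C : ℕ) : ℤ)) * C + (C.choose 2 : ℕ)) =
        cs N (2 * (((β : ℝ) + C) ^ 2 + ((β : ℝ) + C) * A + (1 - ((β : ℝ) + C)) * C +
          (C : ℝ) * (C - 1) / 2)) := by
      rw [← zpow_natCast (rt N) 2, ← zpow_mul, rt_cs]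
      congr 1
      push_cast [Nat.cast_choose_two]
      ring
    have h3 : ((-1 : ℂ)) ^ C = cs N (N * C) := by
      have h4 : cs N (N * (1 : ℕ)) = -1 := by
        unfold cs
        have : (Real.pi * (N * (1 : ℕ)) / N : ℝ) = Real.pi := by
          field_simp
          simp
        rw [this, Complex.exp_pi_mul_I]
      have h5 : ∀ C : ℕ, (-1 : ℂ) ^ C = cs N (N * C) := by
        intro C
        induction C with
        | zero => simp [cs_zero]
        | succ C ih =>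
          rw [pow_succ, ih, ← h4, ← cs_add]
          congr 1
          push_cast
          ring
      exact h5 C
    rw [h1, h2, h3]
    have e : cs N (-(((A + (β + C) : ℕ) : ℝ) * (((A + (β + C) : ℕ) : ℝ) + 1) / 2 -
        N * ((A + (β + C) : ℕ) : ℝ) / 2)) * (cs N (-((A : ℝ) * (A + 1) / 2 - N * A / 2)))⁻¹ *
        (cs N ((C : ℝ) * (C + 1) / 2 - N * C / 2))⁻¹ *
        (cs N ((β : ℝ) * (β + 1) / 2 - N * β / 2))⁻¹ *
        cs N (N * C) * cs N (2 * (((β : ℝ) + C) ^ 2 + ((β : ℝ) + C) * A +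
          (1 - ((β : ℝ) + C)) * C + (C : ℝ) * (C - 1) / 2)) * cs N ((N : ℝ) - 1) *
        cs N (N * (((γ : ℤ) - β : ℤ) : ℝ) - (((γ : ℤ) - β : ℤ) : ℝ)) =
        cs N (-1 * (((A : ℝ) ^ 2 + (C : ℝ) ^ 2 - (β : ℝ) ^ 2 - (γ : ℝ) ^ 2) / 2 -
          ((N : ℝ) ^ 2 - 1) / 2)) := by
      rw [cs_inv', cs_inv', cs_inv']
      simp only [← cs_add]
      refine cs_period' hN ((C : ℤ)) ?_
      push_cast
      rw [hsum]
      ring
    rw [← e]
    have hr : ((D N (A + (β + C)) : ℝ) : ℂ) * (D N γ : ℝ) = N := by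
      rw [← Complex.ofReal_mul, r]
      norm_cast
    have q1 : ((D N A : ℝ) : ℂ) ≠ 0 := by exact_mod_cast p1.ne'
    have q2 : ((D N β : ℝ) : ℂ) ≠ 0 := by exact_mod_cast p2.ne'
    have q3 : ((D N C : ℝ) : ℂ) ≠ 0 := by exact_mod_cast p3.ne'
    have q4 : ((D N γ : ℝ) : ℂ) ≠ 0 := by exact_mod_cast p4.ne'
    have q5 := cs_ne N (-((A : ℝ) * (A + 1) / 2 - N * A / 2))
    have q6 := cs_ne N ((C : ℝ) * (C + 1) / 2 - N * C / 2)
    have q7 := cs_ne N ((β : ℝ) * (β + 1) / 2 - N * β / 2)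
    rw [← hr]
    have q8 : ((D N (A + (β + C)) : ℝ) : ℂ) ≠ 0 := by exact_mod_cast p5.ne'
    push_cast
    field_simp
  · unfold Wc kp
    simp only [if_true]
    have hs : N - 1 - A - β = γ + C := by omega
    have hs2 : γ + C - C = γ := by omega
    rw [hs, hs2, inv_inv, Po_cs hN, Po_cs hN, Poi_cs hN, Poi_cs hN, nu_cs hN]
    have p5 := D_pos N (A + (γ + C)) (by omega)
    have r := D_refl N (A + (γ + C)) β (by omega)
    have h1 : rt N ^ (-((N : ℤ) - 1)) = cs N (-((N : ℝ) - 1)) := by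
      rw [rt_cs]
      push_cast
      rfl
    have h2 : (rt N ^ 2)⁻¹ ^ (((γ + C : ℕ) : ℤ) ^ 2 + ((γ + C : ℕ) : ℤ) * A +
        (1 - ((γ + C : ℕ) : ℤ)) * C + (C.choose 2 : ℕ)) =
        cs N (-(2 * (((γ : ℝ) + C) ^ 2 + ((γ : ℝ) + C) * A + (1 - ((γ : ℝ) + C)) * C +
          (C : ℝ) * (C - 1) / 2))) := by
      rw [inv_zpow, ← zpow_neg, ← zpow_natCast (rt N) 2, ← zpow_mul, rt_cs]
      congr 1
      push_cast [Nat.cast_choose_two]
      ring
    have h3 : ((-1 : ℂ)) ^ C = cs N (N * C) := by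
      have h4 : cs N (N * (1 : ℕ)) = -1 := by
        unfold cs
        have : (Real.pi * (N * (1 : ℕ)) / N : ℝ) = Real.pi := by
          field_simp
          simp
        rw [this, Complex.exp_pi_mul_I]
      have h5 : ∀ C : ℕ, (-1 : ℂ) ^ C = cs N (N * C) := by
        intro C
        induction C with
        | zero => simp [cs_zero]
        | succ C ih =>
          rw [pow_succ, ih, ← h4, ← cs_add]
          congr 1
          push_cast
          ring
      exact h5 C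
    rw [h1, h2, h3]
    have e : cs N (((A + (γ + C) : ℕ) : ℝ) * (((A + (γ + C) : ℕ) : ℝ) + 1) / 2 -
        N * ((A + (γ + C) : ℕ) : ℝ) / 2) * (cs N ((A : ℝ) * (A + 1) / 2 - N * A / 2))⁻¹ *
        (cs N (-((C : ℝ) * (C + 1) / 2 - N * C / 2)))⁻¹ *
        (cs N (-((γ : ℝ) * (γ + 1) / 2 - N * γ / 2)))⁻¹ *
        cs N (N * C) * cs N (-(2 * (((γ : ℝ) + C) ^ 2 + ((γ : ℝ) + C) * A +
          (1 - ((γ : ℝ) + C)) * C + (C : ℝ) * (C - 1) / 2))) * cs N (-((N : ℝ) - 1)) *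
        cs N (N * (((γ : ℤ) - β : ℤ) : ℝ) - (((γ : ℤ) - β : ℤ) : ℝ)) =
        cs N (1 * (((A : ℝ) ^ 2 + (C : ℝ) ^ 2 - (β : ℝ) ^ 2 - (γ : ℝ) ^ 2) / 2 -
          ((N : ℝ) ^ 2 - 1) / 2)) := by
      rw [cs_inv', cs_inv', cs_inv']
      simp only [← cs_add]
      refine cs_period' hN 0 ?_
      push_cast
      rw [hsum]
      ring
    rw [← e]
    have hr : ((D N (A + (γ + C)) : ℝ) : ℂ) * (D N β : ℝ) = N := by
      rw [← Complex.ofReal_mul, r]
      norm_cast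
    have q1 : ((D N A : ℝ) : ℂ) ≠ 0 := by exact_mod_cast p1.ne'
    have q2 : ((D N β : ℝ) : ℂ) ≠ 0 := by exact_mod_cast p2.ne'
    have q3 : ((D N C : ℝ) : ℂ) ≠ 0 := by exact_mod_cast p3.ne'
    have q4 : ((D N γ : ℝ) : ℂ) ≠ 0 := by exact_mod_cast p4.ne'
    have q5 := cs_ne N ((A : ℝ) * (A + 1) / 2 - N * A / 2)
    have q6 := cs_ne N (-((C : ℝ) * (C + 1) / 2 - N * C / 2))
    have q7 := cs_ne N (-((γ : ℝ) * (γ + 1) / 2 - N * γ / 2))
    rw [← hr]
    have q8 : ((D N (A + (γ + C)) : ℝ) : ℂ) ≠ 0 := by exact_mod_cast p5.ne'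
    push_cast
    field_simp

end Pool.Agent.H760.TC
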