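import Pool.Agent.H760.TC.An
import Pool.Agent.H760.TC.Wc

/-!
# The weight of a crossing: Gaussian bound and limit
-/

set_option autoImplicit false

namespace Pool.Agent.H760.TC

open Finset Filter Topology
open Pool.Agent.W719.BS (D LL er PP PP_mid PP_unif D_pos er_tendsto LL_exp LL_cont)
open Pool.Agent.W358.BSTay (gg gg_deriv)
open Pool.Agent.Q191.TW (cs cs_add cs_zero cs_ne cs_neg cs_norm)
open Pool.Agent.Q99.FAL.T12 (sq_half)

/-- the sign of a corner: `1` below and above, `-1` on the sides -/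
def ep (σ : Bool) (q : Fin 4) : ℝ := (if σ then 1 else -1) * ![1, -1, 1, -1] q

/-- the condition on the corners -/
def ok4 (N : ℕ) (X : Fin 4 → ℤ) : Prop := (∀ q, 0 ≤ X q) ∧ X 0 + X 1 + X 2 + X 3 = (N : ℤ) - 1

open Classical in
/-- the absolute value of the weight of a crossing -/
noncomputable def v4 (N : ℕ) (X : Fin 4 → ℤ) : ℝ :=
  if ok4 N X then (∏ q, D N (X q).toNat)⁻¹ else 0

lemma D_exp {N n : ℕ} (h : n < N) :
    D N n = Real.exp (N * LL ((n + 1 / 2) / N) + Real.log N / 2 + er N n) := by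
  have h1 := D_pos N n h
  rw [← Real.exp_log h1]
  congr 1
  unfold er
  ring

lemma ok4_lt {N : ℕ} {X : Fin 4 → ℤ} (h : ok4 N X) (q : Fin 4) : (X q).toNat < N := by
  obtain ⟨h1, h2⟩ := h
  have a0 := h1 0
  have a1 := h1 1
  have a2 := h1 2
  have a3 := h1 3
  fin_cases q <;> simp only [Fin.zero_eta, Fin.mk_one, Fin.reduceFinMk] <;> omega

lemma v4_exp {N : ℕ} (hN : 0 < N) {X : Fin 4 → ℤ} (h : ok4 N X) :
    (N : ℝ) ^ 2 * v4 N X = Real.exp (-(N * ∑ q, LL (((X q : ℝ) + 1 / 2) / N)) -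
      ∑ q, er N (X q).toNat) := by
  have hN0 : (0 : ℝ) < N := by exact_mod_cast hN
  unfold v4
  rw [if_pos h]
  have h1 : ∀ q, D N (X q).toNat = Real.exp (N * LL (((X q : ℝ) + 1 / 2) / N) +
      Real.log N / 2 + er N (X q).toNat) := by
    intro q
    rw [D_exp (ok4_lt h q)]
    have : (((X q).toNat : ℕ) : ℝ) = (X q : ℝ) := by
      have : (((X q).toNat : ℤ) : ℝ) = (X q : ℝ) := by rw [Int.toNat_of_nonneg (h.1 q)]
      rwa [Int.cast_natCast] at this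
    rw [this]
  rw [prod_congr rfl fun q _ => h1 q, ← Real.exp_sum, ← Real.exp_neg]
  have h2 : (N : ℝ) ^ 2 = Real.exp (2 * Real.log N) := by
    rw [two_mul, Real.exp_add, Real.exp_log hN0, sq]
  rw [h2, ← Real.exp_add]
  congr 1
  simp only [Fin.sum_univ_four]
  ring

/-- **the Gaussian bound** -/
theorem v4_bound (a : Fin 4 → ℝ) (ha : ∀ q, 0 < a q) (hs : a 0 + a 1 + a 2 + a 3 = 1) :
    ∃ C κ : ℝ, 0 ≤ C ∧ 0 < κ ∧ ∀ N : ℕ, 1 ≤ N → ∀ X : Fin 4 → ℤ,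
      (N : ℝ) ^ 2 * v4 N X * Real.exp (N * ∑ q, LL (a q)) ≤ C * Real.exp
        (-(∑ q, gg (a q) * ((X q : ℝ) - N * a q)) - κ * ((∑ q, ((X q : ℝ) - N * a q) ^ 2) / N)) := by
  obtain ⟨C₀, hC₀⟩ := Pool.Agent.W51.BS.task_stir.1
  obtain ⟨κ, hκ, hglob⟩ := glob4 a ha hs
  have a0 := ha 0
  have a1 := ha 1
  have a2 := ha 2
  have a3 := ha 3
  obtain ⟨K2, hK2⟩ := pp_bound' (a := a 2) (half_pos hκ) a2 (by linarith)
  obtain ⟨K3, hK3⟩ := pp_bound' (a := a 3) (half_pos hκ) a3 (by linarith)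
  refine ⟨Real.exp (K2 + K3 + 4 * C₀ - (gg (a 0) + gg (a 1)) / 2 + κ / 2), κ / 2,
    (Real.exp_pos _).le, by positivity, ?_⟩
  intro N hN1' X
  have hN1 : (1 : ℝ) ≤ N := by exact_mod_cast hN1'
  have hN : (0 : ℝ) < N := by linarith
  by_cases h : ok4 N X
  swap
  · have : v4 N X = 0 := if_neg h
    rw [this]
    have := Real.exp_pos (K2 + K3 + 4 * C₀ - (gg (a 0) + gg (a 1)) / 2 + κ / 2)
    have := Real.exp_pos (-(∑ q, gg (a q) * ((X q : ℝ) - N * a q)) -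
      κ / 2 * ((∑ q, ((X q : ℝ) - N * a q) ^ 2) / N))
    nlinarith
  rw [v4_exp (by omega) h, ← Real.exp_add, ← Real.exp_add]
  apply Real.exp_le_exp.2
  have hx : ∀ q, (0 : ℝ) ≤ X q := fun q => by exact_mod_cast h.1 q
  have hsum : (X 0 : ℝ) + X 1 + X 2 + X 3 = N - 1 := by exact_mod_cast h.2
  have hc : ∀ q, (((X q).toNat : ℕ) : ℝ) = (X q : ℝ) := by
    intro q
    have : (((X q).toNat : ℤ) : ℝ) = (X q : ℝ) := by rw [Int.toNat_of_nonneg (h.1 q)]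
    rwa [Int.cast_natCast] at this
  have e : ∀ q, -C₀ ≤ er N (X q).toNat := fun q => (abs_le.1 (hC₀ N _ (ok4_lt h q))).1
  have hg := hglob ![((X 0 : ℝ) + 1 / 2) / N, ((X 1 : ℝ) + 1 / 2) / N, (X 2 : ℝ) / N,
    (X 3 : ℝ) / N] (by
      intro i
      have := hx i
      fin_cases i <;> simp at this ⊢ <;> positivity) (by
      show ((X 0 : ℝ) + 1 / 2) / N + ((X 1 : ℝ) + 1 / 2) / N + (X 2 : ℝ) / N + (X 3 : ℝ) / N = 1
      field_simp
      linarith)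
  have hg2 := mul_le_mul_of_nonneg_left hg hN.le
  simp only [Fin.sum_univ_four] at hg2 ⊢
  have t0 : (![((X 0 : ℝ) + 1 / 2) / N, ((X 1 : ℝ) + 1 / 2) / N, (X 2 : ℝ) / N,
    (X 3 : ℝ) / N] : Fin 4 → ℝ) 0 = ((X 0 : ℝ) + 1 / 2) / N := rfl
  have t1 : (![((X 0 : ℝ) + 1 / 2) / N, ((X 1 : ℝ) + 1 / 2) / N, (X 2 : ℝ) / N,
    (X 3 : ℝ) / N] : Fin 4 → ℝ) 1 = ((X 1 : ℝ) + 1 / 2) / N := rfl
  have t2 : (![((X 0 : ℝ) + 1 / 2) / N, ((X 1 : ℝ) + 1 / 2) / N, (X 2 : ℝ) / N,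
    (X 3 : ℝ) / N] : Fin 4 → ℝ) 2 = (X 2 : ℝ) / N := rfl
  have t3 : (![((X 0 : ℝ) + 1 / 2) / N, ((X 1 : ℝ) + 1 / 2) / N, (X 2 : ℝ) / N,
    (X 3 : ℝ) / N] : Fin 4 → ℝ) 3 = (X 3 : ℝ) / N := rfl
  rw [t0, t1, t2, t3] at hg2
  have hp2 := hK2 N (X 2).toNat (ok4_lt h 2)
  have hp3 := hK3 N (X 3).toNat (ok4_lt h 3)
  have hpp : ∀ z : ℕ, PP N z = N * (LL (z / N) - LL ((z + 1 / 2) / N)) := fun z => rfl
  rw [hpp, hc] at hp2 hp3
  have e0 := e 0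
  have e1 := e 1
  have e2 := e 2
  have e3 := e 3
  have s0 := sq_half ((X 0 : ℝ) - N * a 0) hN1
  have s1 := sq_half ((X 1 : ℝ) - N * a 1) hN1
  have q0 : (N : ℝ) * (((X 0 : ℝ) + 1 / 2) / N - a 0) ^ 2 = (X 0 - N * a 0 + 1 / 2) ^ 2 / N := by
    field_simp
    ring
  have q1 : (N : ℝ) * (((X 1 : ℝ) + 1 / 2) / N - a 1) ^ 2 = (X 1 - N * a 1 + 1 / 2) ^ 2 / N := by
    field_simp
    ring
  have q2 : (N : ℝ) * ((X 2 : ℝ) / N - a 2) ^ 2 = (X 2 - N * a 2) ^ 2 / N := by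
    field_simp
  have q3 : (N : ℝ) * ((X 3 : ℝ) / N - a 3) ^ 2 = (X 3 - N * a 3) ^ 2 / N := by
    field_simp
  have r0 : (N : ℝ) * (((X 0 : ℝ) + 1 / 2) / N - a 0) = X 0 - N * a 0 + 1 / 2 := by
    field_simp
    ring
  have r1 : (N : ℝ) * (((X 1 : ℝ) + 1 / 2) / N - a 1) = X 1 - N * a 1 + 1 / 2 := by
    field_simp
    ring
  have r2 : (N : ℝ) * ((X 2 : ℝ) / N - a 2) = X 2 - N * a 2 := by
    field_simp
  have r3 : (N : ℝ) * ((X 3 : ℝ) / N - a 3) = X 3 - N * a 3 := by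
    field_simp
  rw [q2] at hp2
  rw [q3] at hp3
  have key : (N : ℝ) * (LL (a 0) + LL (a 1) + LL (a 2) + LL (a 3) +
      (gg (a 0) * (((X 0 : ℝ) + 1 / 2) / N - a 0) + gg (a 1) * (((X 1 : ℝ) + 1 / 2) / N - a 1) +
        gg (a 2) * ((X 2 : ℝ) / N - a 2) + gg (a 3) * ((X 3 : ℝ) / N - a 3)) +
      κ * ((((X 0 : ℝ) + 1 / 2) / N - a 0) ^ 2 + (((X 1 : ℝ) + 1 / 2) / N - a 1) ^ 2 +
        ((X 2 : ℝ) / N - a 2) ^ 2 + ((X 3 : ℝ) / N - a 3) ^ 2)) =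
      N * (LL (a 0) + LL (a 1) + LL (a 2) + LL (a 3)) +
      (gg (a 0) * (X 0 - N * a 0 + 1 / 2) + gg (a 1) * (X 1 - N * a 1 + 1 / 2) +
        gg (a 2) * (X 2 - N * a 2) + gg (a 3) * (X 3 - N * a 3)) +
      κ * ((X 0 - N * a 0 + 1 / 2) ^ 2 / N + (X 1 - N * a 1 + 1 / 2) ^ 2 / N +
        (X 2 - N * a 2) ^ 2 / N + (X 3 - N * a 3) ^ 2 / N) := by
    rw [← q0, ← q1, ← q2, ← q3, ← r0, ← r1, ← r2, ← r3]
    ring
  rw [key] at hg2
  have s0' := mul_le_mul_of_nonneg_left s0 hκ.le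
  have s1' := mul_le_mul_of_nonneg_left s1 hκ.le
  have w : ((X 0 - N * a 0 : ℝ) ^ 2 + (X 1 - N * a 1) ^ 2 + (X 2 - N * a 2) ^ 2 +
      (X 3 - N * a 3) ^ 2) / N = (X 0 - N * a 0 : ℝ) ^ 2 / N + (X 1 - N * a 1) ^ 2 / N +
      (X 2 - N * a 2) ^ 2 / N + (X 3 - N * a 3) ^ 2 / N := by ring
  rw [w]
  nlinarith

/-- **the limit** -/
theorem v4_lim (a : Fin 4 → ℝ) (ha : ∀ q, 0 < a q) (hs : a 0 + a 1 + a 2 + a 3 = 1)
    (X : ℕ → Fin 4 → ℤ) (u : Fin 4 → ℝ)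
    (hX : ∀ q, Tendsto (fun N : ℕ => ((X N q : ℝ) - N * a q) / √N) atTop (𝓝 (u q)))
    (hsum : ∀ N, X N 0 + X N 1 + X N 2 + X N 3 = (N : ℤ) - 1) :
    Tendsto (fun N : ℕ => (N : ℝ) ^ 2 * v4 N (X N) * Real.exp (N * ∑ q, LL (a q)) *
      Real.exp (∑ q, gg (a q) * ((X N q : ℝ) - N * a q))) atTop
      (𝓝 (Real.exp (-(∑ q, gg (a q)) / 2) * Real.exp (-(Real.pi / 2 *
        ∑ q, Real.cos (Real.pi * a q) / Real.sin (Real.pi * a q) * u q ^ 2)))) := by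
  have hST := Pool.Agent.W51.BS.task_stir
  have hTAY := Pool.Agent.W358.BSTay.tay
  have hlt : ∀ q, a q < 1 := by
    intro q
    have a0 := ha 0
    have a1 := ha 1
    have a2 := ha 2
    have a3 := ha 3
    fin_cases q <;> simp only [Fin.zero_eta, Fin.mk_one, Fin.reduceFinMk] <;> linarith
  have hX' : ∀ q, Tendsto (fun N : ℕ => ((X N q : ℝ) - a q * N) / √N) atTop (𝓝 (u q)) := by
    intro q
    refine (hX q).congr fun N => ?_
    rw [mul_comm]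
  have h1 := fun q => Pool.Agent.W719.BS.toNat_tendsto (fun N => X N q) (a q) (u q) (ha q) (hX' q)
  have hpos : ∀ᶠ N : ℕ in atTop, ∀ q, 0 ≤ X N q := by
    rw [eventually_all]
    exact fun q => (h1 q).1
  have E := fun q => er_tendsto hST (fun N => (X N q).toNat) (a q) (ha q) (hlt q)
    (Pool.Agent.W719.BS.ratio_of_sq _ _ _ (h1 q).2)
  have T := fun q => LL_exp hTAY (a q) (ha q) (hlt q) (fun N => (X N q : ℝ)) (u q) (hX' q)
  have hF : Tendsto (fun N : ℕ => -(∑ q, ((N : ℝ) * (LL (((X N q : ℝ) + 1 / 2) / N) - LL (a q)) -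
      Real.log (2 * Real.sin (Real.pi * a q)) * ((X N q : ℝ) + 1 / 2 - a q * N))) -
      ∑ q, er N (X N q).toNat) atTop (𝓝 (-(∑ q, Real.pi * Real.cos (Real.pi * a q) /
        (2 * Real.sin (Real.pi * a q)) * u q ^ 2) - ∑ q : Fin 4, 0)) :=
    ((tendsto_finsetSum _ fun q _ => T q).neg).sub (tendsto_finsetSum _ fun q _ => E q)
  have hG := (hF.sub_const ((∑ q, gg (a q)) / 2)).rexp
  have hlim : Real.exp (-(∑ q, Real.pi * Real.cos (Real.pi * a q) /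
        (2 * Real.sin (Real.pi * a q)) * u q ^ 2) - ∑ q : Fin 4, 0 - (∑ q, gg (a q)) / 2) =
      Real.exp (-(∑ q, gg (a q)) / 2) * Real.exp (-(Real.pi / 2 *
        ∑ q, Real.cos (Real.pi * a q) / Real.sin (Real.pi * a q) * u q ^ 2)) := by
    rw [← Real.exp_add]
    congr 1
    rw [sum_const_zero, mul_sum]
    have : ∀ q : Fin 4, Real.pi * Real.cos (Real.pi * a q) /
        (2 * Real.sin (Real.pi * a q)) * u q ^ 2 = Real.pi / 2 * (Real.cos (Real.pi * a q) /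
        Real.sin (Real.pi * a q) * u q ^ 2) := fun q => by ring
    rw [sum_congr rfl fun q _ => this q]
    ring
  rw [hlim] at hG
  refine hG.congr' ?_
  filter_upwards [hpos, eventually_ge_atTop 1] with N hp hN
  have hok : ok4 N (X N) := ⟨hp, hsum N⟩
  rw [v4_exp (by omega) hok, ← Real.exp_add, ← Real.exp_add]
  congr 1
  have hgg : ∀ q, Real.log (2 * Real.sin (Real.pi * a q)) = gg (a q) := fun q => rfl
  simp only [hgg, Fin.sum_univ_four]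
  ring

end Pool.Agent.H760.TC
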