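import Pool.Agent.H760.TC.Xl
import Pool.Agent.H760.TC.N5
import Pool.Agent.H760.TX.Lx

/-!
# Laplace's method to all orders for products of values of the quantum dilogarithm
-/

set_option autoImplicit false

namespace Pool.Agent.H760.TC

open Finset Filter Topology MeasureTheory
open Pool.Agent.W719.BS (LL D D_pos D_refl)
open Pool.Agent.W358.BSTay (gg)
open Pool.Agent.Q99.KN (LC bb Gm St ct S_LC S_GAM)
open Pool.Agent.Q99.HX (Xp UA S_UA S_GX Sd)
open Pool.Agent.Q176.HX (LC_an St_open)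
open Pool.Agent.H811.VX

/-- **the products are values of the quantum dilogarithm** -/
lemma D_Gm (hLC : S_LC) (hGAM : S_GAM) {N : ℕ} (hN : 1 ≤ N) (y : ℕ) (hy : y < N) :
    ((D N y : ℝ) : ℂ) = ((√N : ℝ) : ℂ) * Gm N (((y : ℝ) / N + 1 / (2 * N) : ℝ) : ℂ) := by
  obtain ⟨-, g2, -, g4⟩ := hGAM hLC
  have hNr : (0 : ℝ) < N := by exact_mod_cast hN
  have hsm : ∀ y : ℕ, 2 * y + 1 ≤ N →
      ((D N y : ℝ) : ℂ) = ((√N : ℝ) : ℂ) * Gm N (((y : ℝ) / N + 1 / (2 * N) : ℝ) : ℂ) := by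
    intro y hy
    have hD := Pool.Agent.Q210.KN.D_sq hN g4 g2 y hy
    have hx : (y : ℝ) / N + 1 / (2 * N) < 1 := by
      have : (y : ℝ) / N + 1 / (2 * N) = (2 * y + 1) / (2 * N) := by field_simp
      rw [this, div_lt_one (by positivity)]
      have h5 : (2 * (y : ℝ) + 1) ≤ N := by exact_mod_cast hy
      linarith
    obtain ⟨r, hr, hGr⟩ := Pool.Agent.Q24.HT.Gm_real hLC N (x := (y : ℝ) / N + 1 / (2 * N))
      (by positivity) hx
    have hcast : (((y : ℝ) / N + 1 / (2 * N) : ℝ) : ℂ) = (y : ℂ) / N + 1 / (2 * N) := by push_cast; ring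
    rw [hGr]
    rw [← hcast, hGr] at hD
    have hDr : D N y = √N * r := by
      have h6 : D N y ^ 2 = (√N * r) ^ 2 := by
        rw [mul_pow, Real.sq_sqrt hNr.le]
        exact_mod_cast hD
      have h7 : 0 < D N y := D_pos N y (by omega)
      exact (pow_left_inj₀ h7.le (by positivity) two_ne_zero).1 h6
    rw [hDr]
    push_cast
    ring
  rcases le_or_gt (2 * y + 1) N with h | h
  · exact hsm y h
  have h1 := hsm (N - 1 - y) (by omega)
  have h2 := D_refl N y (N - 1 - y) (by omega)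
  have hx : (((N - 1 - y : ℕ) : ℝ) / N + 1 / (2 * N) : ℝ) = 1 - ((y : ℝ) / N + 1 / (2 * N)) := by
    rw [Nat.cast_sub (by omega), Nat.cast_sub (by omega)]
    push_cast
    field_simp
    ring
  have hy' : (y : ℝ) + 1 ≤ N := by exact_mod_cast hy
  have hlt : (y : ℝ) / N + 1 / (2 * N) < 1 := by
    have : (y : ℝ) / N + 1 / (2 * N) = (2 * y + 1) / (2 * N) := by field_simp
    rw [this, div_lt_one (by positivity)]
    linarith
  have hxS : (((y : ℝ) / N + 1 / (2 * N) : ℝ) : ℂ) ∈ St := by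
    constructor
    · rw [Complex.ofReal_re]; positivity
    · rw [Complex.ofReal_re]; exact hlt
  have h3 := g4 N _ hxS
  rw [hx] at h1
  have h4 : ((D N y : ℝ) : ℂ) * ((D N (N - 1 - y) : ℝ) : ℂ) = N := by
    rw [← Complex.ofReal_mul, h2]
    simp
  have hs : ((√(N:ℝ) : ℝ) : ℂ) ^ 2 = N := by
    have := Real.sq_sqrt hNr.le
    exact_mod_cast this
  have hs0 : ((√(N:ℝ) : ℝ) : ℂ) ≠ 0 := by
    exact_mod_cast (Real.sqrt_pos.2 hNr).ne'
  rw [h1] at h4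
  obtain ⟨G, hG⟩ : ∃ G, G = Gm N (((y : ℝ) / N + 1 / (2 * N) : ℝ) : ℂ) := ⟨_, rfl⟩
  obtain ⟨G', hG'⟩ : ∃ G', G' = Gm N (((1 - ((y : ℝ) / N + 1 / (2 * N)) : ℝ) : ℂ)) := ⟨_, rfl⟩
  have e : ((1 - ((y : ℝ) / N + 1 / (2 * N)) : ℝ) : ℂ) =
      1 - (((y : ℝ) / N + 1 / (2 * N) : ℝ) : ℂ) := by push_cast; ring
  rw [← e, ← hG, ← hG'] at h3
  rw [← hG'] at h4
  rw [← hG]
  have h5 : ((√(N:ℝ) : ℝ) : ℂ) * ((D N y : ℝ) : ℂ) = ((√(N:ℝ) : ℝ) : ℂ) * (((√(N:ℝ) : ℝ) : ℂ) * G) := by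
    linear_combination G * h4 - ((√(N:ℝ) : ℝ) : ℂ) * ((D N y : ℝ) : ℂ) * h3 - G * hs
  exact mul_left_cancel₀ hs0 h5

variable {d : ℕ} {K : Type} [Fintype K]

/-- a linear form of `w / 2` -/
noncomputable def ln (A : Fin d → ℝ) : (Fin d → ℂ) →L[ℂ] ℂ :=
  ∑ j, ((A j / 2 : ℝ) : ℂ) • ContinuousLinearMap.proj (R := ℂ) (φ := fun _ : Fin d => ℂ) j

/-- its real version -/
noncomputable def lr (A : Fin d → ℝ) (w : Fin d → ℝ) : ℝ := ∑ j, A j / 2 * w j

lemma ln_apply (A : Fin d → ℝ) (w : Fin d → ℂ) : ln A w = ∑ j, ((A j / 2 : ℝ) : ℂ) * w j := by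
  unfold ln
  simp

lemma ln_real (A : Fin d → ℝ) (w : Fin d → ℝ) : ln A (fun i => (w i : ℂ)) = ((lr A w : ℝ) : ℂ) := by
  rw [ln_apply, lr]
  push_cast
  rfl

lemma ln_bound (A : Fin d → ℝ) (w : Fin d → ℂ) : ‖ln A w‖ ≤ (∑ j, |A j|) * ‖w‖ := by
  rw [ln_apply, sum_mul]
  refine (norm_sum_le _ _).trans (sum_le_sum fun j _ => ?_)
  rw [norm_mul, Complex.norm_real, Real.norm_eq_abs, abs_div, abs_two]
  have h1 := norm_le_pi_norm w j
  have h2 := abs_nonneg (A j)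
  have h3 := norm_nonneg (w j)
  calc |A j| / 2 * ‖w j‖ ≤ |A j| * ‖w j‖ := mul_le_mul_of_nonneg_right (by linarith) h3
    _ ≤ _ := mul_le_mul_of_nonneg_left h1 h2

lemma ln_an (A : Fin d → ℝ) (w : Fin d → ℂ) : AnalyticAt ℂ (fun w => ln A w) w :=
  (ln A).analyticAt w

/-- the exponent -/
noncomputable def qq (V : ℝ) (α : K → ℝ) (A : K → Fin d → ℝ) (e : K → ℝ) (f g : Fin d → ℝ)
    (w : Fin d → ℂ) : ℂ :=
  V - ∑ k, LC (α k + ln (A k) w) + Complex.I * (Real.pi / 2) * ∑ k, e k * ln (A k) w ^ 2 +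
    2 * Real.pi * Complex.I * (ln f w * ln g w)

/-- the amplitude -/
noncomputable def HH4 (α : K → ℝ) (A : K → Fin d → ℝ) (f g : Fin d → ℝ) (jj ll : ℝ) (N : ℕ)
    (w : Fin d → ℂ) : ℂ :=
  (∏ k, Gm N ((1 - (α k + ln (A k) w)) + ((α k - 1 / 2 : ℝ) : ℂ) / N) *
    Complex.exp (-(N * LC (1 - (α k + ln (A k) w))))) *
    Complex.exp (-(2 * Real.pi * Complex.I * (jj * ln g w + ll * ln f w)))

lemma exists_dl (α : K → ℝ) (h : ∀ k, 0 < α k ∧ α k < 1) :
    ∃ δ : ℝ, 0 < δ ∧ δ ≤ 1 / 4 ∧ ∀ k, 3 * δ ≤ α k ∧ α k ≤ 1 - 3 * δ := by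
  classical
  obtain ⟨k, hk, hkb⟩ := exists_min (fun i => min (α i) (1 - α i))
    fun i => lt_min (h i).1 (by linarith [(h i).2])
  refine ⟨min (1 / 4) (k / 3), by positivity, min_le_left _ _, fun i => ?_⟩
  have h1 := hkb i
  have h2 : min (1 / 4 : ℝ) (k / 3) ≤ k / 3 := min_le_right _ _
  have h3 := min_le_left (α i) (1 - α i)
  have h4 := min_le_right (α i) (1 - α i)
  constructor <;> linarith

/-- a radius -/
lemma exists_rad (A : K → Fin d → ℝ) {δ : ℝ} (hδ : 0 < δ) :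
    ∃ R : ℝ, 0 < R ∧ ∀ w ∈ Metric.ball (0 : Fin d → ℂ) R, ∀ k, ‖ln (A k) w‖ < δ := by
  refine ⟨δ / (1 + ∑ k, ∑ j, |A k j|), by positivity, fun w hw k => ?_⟩
  rw [mem_ball_zero_iff, lt_div_iff₀ (by positivity)] at hw
  refine (ln_bound (A k) w).trans_lt (lt_of_le_of_lt ?_ hw)
  rw [mul_comm]
  refine mul_le_mul_of_nonneg_left ?_ (norm_nonneg _)
  have := single_le_sum (f := fun k => ∑ j, |A k j|) (fun k _ => sum_nonneg fun j _ => abs_nonneg _)
    (mem_univ k)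
  linarith

section pts
variable {α : K → ℝ} {A : K → Fin d → ℝ} {δ R : ℝ}

lemma pt_re (hα : ∀ k, 3 * δ ≤ α k ∧ α k ≤ 1 - 3 * δ) {w : Fin d → ℂ}
    (hw : ∀ k, ‖ln (A k) w‖ < δ) (k : K) :
    2 * δ < ((α k : ℂ) + ln (A k) w).re ∧ ((α k : ℂ) + ln (A k) w).re < 1 - 2 * δ ∧
      |((α k : ℂ) + ln (A k) w).im| < δ := by
  have h1 := (abs_lt.1 ((Complex.abs_re_le_norm (ln (A k) w)).trans_lt (hw k)))
  have h2 := ((Complex.abs_im_le_norm (ln (A k) w)).trans_lt (hw k))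
  rw [Complex.add_re, Complex.add_im, Complex.ofReal_re, Complex.ofReal_im, zero_add]
  exact ⟨by linarith [(hα k).1], by linarith [(hα k).2], h2⟩

lemma pt_St (hδ : 0 < δ) (hα : ∀ k, 3 * δ ≤ α k ∧ α k ≤ 1 - 3 * δ) {w : Fin d → ℂ}
    (hw : ∀ k, ‖ln (A k) w‖ < δ) (k : K) : (α k : ℂ) + ln (A k) w ∈ St := by
  obtain ⟨h1, h2, -⟩ := pt_re hα hw k
  exact ⟨by linarith, by linarith⟩

lemma pt_Sd (hδ : 0 < δ) (hδ1 : δ ≤ 1 / 4) (hα : ∀ k, 3 * δ ≤ α k ∧ α k ≤ 1 - 3 * δ)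
    {w : Fin d → ℂ} (hw : ∀ k, ‖ln (A k) w‖ < δ) (k : K) :
    1 - ((α k : ℂ) + ln (A k) w) ∈ Sd δ := by
  obtain ⟨h1, h2, h3⟩ := pt_re hα hw k
  refine ⟨?_, ?_, ?_⟩
  · rw [Complex.sub_re, Complex.one_re]
    linarith
  · rw [Complex.sub_re, Complex.one_re]
    linarith
  · rw [Complex.sub_im, Complex.one_im, zero_sub, abs_neg]
    linarith

theorem qq_an (hLC : S_LC) (hδ : 0 < δ) (hα : ∀ k, 3 * δ ≤ α k ∧ α k ≤ 1 - 3 * δ)
    (hR : ∀ w ∈ Metric.ball (0 : Fin d → ℂ) R, ∀ k, ‖ln (A k) w‖ < δ) (V : ℝ) (e : K → ℝ)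
    (f g : Fin d → ℝ) : AnalyticOnNhd ℂ (qq V α A e f g) (Metric.ball 0 R) := by
  intro w hw
  unfold qq
  have h1 : AnalyticAt ℂ (fun w : Fin d → ℂ => ∑ k, LC (α k + ln (A k) w)) w := by
    refine Finset.analyticAt_fun_sum _ fun k _ => ?_
    exact AnalyticAt.comp' (g := LC) (f := fun w => (α k : ℂ) + ln (A k) w)
      (LC_an hLC (pt_St hδ hα (hR w hw) k)) (analyticAt_const.add (ln_an _ _))
  have h2 : AnalyticAt ℂ (fun w : Fin d → ℂ => ∑ k, (e k : ℂ) * ln (A k) w ^ 2) w :=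
    Finset.analyticAt_fun_sum _ fun k _ => analyticAt_const.mul ((ln_an _ _).pow 2)
  exact ((analyticAt_const.sub h1).add (analyticAt_const.mul h2)).add
    (analyticAt_const.mul ((ln_an _ _).mul (ln_an _ _)))

theorem qq_zero (hLC : S_LC) (h01 : ∀ k, 0 < α k ∧ α k < 1) {V : ℝ} (hV : V = ∑ k, LL (α k))
    (e : K → ℝ) (f g : Fin d → ℝ) : qq V α A e f g 0 = 0 := by
  unfold qq
  have h1 : ∀ k, LC (α k : ℂ) = ((LL (α k) : ℝ) : ℂ) := by
    intro k
    rw [hLC.2.2.1 _ (h01 k).1 (h01 k).2]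
  simp only [map_zero, add_zero, h1, hV]
  push_cast
  simp

theorem qq_fderiv (hLC : S_LC) (h01 : ∀ k, 0 < α k ∧ α k < 1) (V : ℝ) (e : K → ℝ)
    (f g : Fin d → ℝ) (hc : ∀ j, ∑ k, gg (α k) * A k j = 0) :
    fderiv ℂ (qq V α A e f g) 0 = 0 := by
  have hSt : ∀ k, (α k : ℂ) ∈ St := fun k => by
    constructor
    · rw [Complex.ofReal_re]; exact (h01 k).1
    · rw [Complex.ofReal_re]; exact (h01 k).2
  have hL : ∀ k, HasFDerivAt (fun w : Fin d → ℂ => LC (α k + ln (A k) w))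
      ((gg (α k) : ℂ) • ln (A k)) 0 := by
    intro k
    have h1 : HasDerivAt LC (bb (α k)) ((α k : ℂ) + ln (A k) 0) := by
      rw [map_zero, add_zero]
      exact hLC.1 _ (hSt k)
    have h2 : HasFDerivAt (fun w : Fin d → ℂ => (α k : ℂ) + ln (A k) w) (ln (A k)) 0 :=
      (ln (A k)).hasFDerivAt.const_add _
    have h3 := h1.comp_hasFDerivAt (0 : Fin d → ℂ) h2
    rw [Pool.Agent.Q176.HT.bb_real (h01 k).1 (h01 k).2] at h3
    exact h3
  have hS : ∀ A : Fin d → ℝ, HasFDerivAt (fun w : Fin d → ℂ => ln A w ^ 2) (0 : (Fin d → ℂ) →L[ℂ] ℂ) 0 := by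
    intro A
    have h1 := ((ln A).hasFDerivAt (x := 0)).pow 2
    refine h1.congr_fderiv ?_
    ext w
    show ((2 : ℕ) • (ln A 0) ^ (2 - 1)) * ln A w = 0
    rw [map_zero]
    simp
  have hP : HasFDerivAt (fun w : Fin d → ℂ => ln f w * ln g w) (0 : (Fin d → ℂ) →L[ℂ] ℂ) 0 := by
    have h1 := ((ln f).hasFDerivAt (x := 0)).mul ((ln g).hasFDerivAt (x := 0))
    refine h1.congr_fderiv ?_
    ext w
    show ln f 0 * ln g w + ln g 0 * ln f w = 0
    rw [map_zero, map_zero]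
    simp
  have h1 : HasFDerivAt (fun w : Fin d → ℂ => ∑ k, LC (α k + ln (A k) w))
      (∑ k, (gg (α k) : ℂ) • ln (A k)) 0 := HasFDerivAt.fun_sum fun k _ => hL k
  have h2 : HasFDerivAt (fun w : Fin d → ℂ => ∑ k, (e k : ℂ) * ln (A k) w ^ 2)
      (∑ k, (e k : ℂ) • (0 : (Fin d → ℂ) →L[ℂ] ℂ)) 0 :=
    HasFDerivAt.fun_sum fun k _ => (hS (A k)).const_mul _
  have h0 : ∀ w : Fin d → ℂ, ∑ k, (gg (α k) : ℂ) * ln (A k) w = 0 := by
    intro w
    simp only [ln_apply, mul_sum]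
    rw [sum_comm]
    refine sum_eq_zero fun j _ => ?_
    have h3 : ∀ k, (gg (α k) : ℂ) * (((A k j / 2 : ℝ) : ℂ) * w j) =
        ((gg (α k) * A k j : ℝ) : ℂ) * (w j / 2) := by
      intro k
      push_cast
      ring
    simp only [h3]
    rw [← sum_mul, ← Complex.ofReal_sum, hc j]
    simp
  have h3 := ((((hasFDerivAt_const (V : ℂ) (0 : Fin d → ℂ)).sub h1).add
    (h2.const_mul (Complex.I * (Real.pi / 2)))).add (hP.const_mul (2 * Real.pi * Complex.I)))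
  have h4 : HasFDerivAt (qq V α A e f g) (0 : (Fin d → ℂ) →L[ℂ] ℂ) 0 := by
    refine h3.congr_fderiv ?_
    ext w
    have h5 := h0 w
    simp only [ContinuousLinearMap.add_apply, ContinuousLinearMap.sub_apply,
      ContinuousLinearMap.smul_apply, ContinuousLinearMap.zero_apply, smul_zero, sum_const_zero,
      ContinuousLinearMap.coe_sum', Finset.sum_apply, smul_eq_mul, ContinuousLinearMap.coe_smul',
      Pi.smul_apply, h5]
    simp
  exact h4.fderiv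

lemma diff_prod {E ι : Type} [NormedAddCommGroup E] [NormedSpace ℂ E] (s : Finset ι)
    (f : ι → E → ℂ) (U : Set E) (h : ∀ i ∈ s, DifferentiableOn ℂ (f i) U) :
    DifferentiableOn ℂ (fun x => ∏ i ∈ s, f i x) U := by
  classical
  induction s using Finset.induction_on with
  | empty => simpa using differentiableOn_const (1 : ℂ)
  | insert b s hb ih =>
    simp only [prod_insert hb]
    exact (h b (mem_insert_self _ _)).mul (ih fun i hi => h i (mem_insert_of_mem hi))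

theorem HH4_diff (hGAM : S_GAM) (hLC : S_LC) (hδ : 0 < δ)
    (hα : ∀ k, 3 * δ ≤ α k ∧ α k ≤ 1 - 3 * δ)
    (hR : ∀ w ∈ Metric.ball (0 : Fin d → ℂ) R, ∀ k, ‖ln (A k) w‖ < δ) (f g : Fin d → ℝ)
    (jj ll : ℝ) : ∀ᶠ N : ℕ in atTop,
    DifferentiableOn ℂ (HH4 α A f g jj ll N) (Metric.ball 0 R) := by
  have h3N : Tendsto (fun N : ℕ => 1 / (N:ℝ)) atTop (𝓝 0) := tendsto_const_div_atTop_nhds_zero_nat 1
  filter_upwards [eventually_ge_atTop 1, h3N.eventually_le_const hδ] with N hN hN2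
  have hNr : (0 : ℝ) < N := by exact_mod_cast hN
  have hl : ∀ A : Fin d → ℝ, DifferentiableOn ℂ (fun w : Fin d → ℂ => ln A w) (Metric.ball 0 R) :=
    fun A w _ => (ln_an A w).differentiableAt.differentiableWithinAt
  have hG : DifferentiableOn ℂ (Gm N) St := (hGAM hLC).1 N hN
  have hLd : DifferentiableOn ℂ LC St := fun y hy =>
    (hLC.1 y hy).differentiableAt.differentiableWithinAt
  unfold HH4
  refine DifferentiableOn.mul (diff_prod univ _ _ fun k _ => ?_)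
    (DifferentiableOn.cexp ?_)
  · refine DifferentiableOn.mul (hG.comp (((hl (A k)).const_add _).const_sub _ |>.add_const _) ?_)
      (DifferentiableOn.cexp (((hLd.comp (((hl (A k)).const_add _).const_sub _) ?_).const_mul _).neg))
    · intro w hw
      obtain ⟨h1, h2, -⟩ := pt_re hα (hR w hw) k
      have e : (1 - ((α k : ℂ) + ln (A k) w) + ((α k - 1 / 2 : ℝ) : ℂ) / N).re =
          1 - ((α k : ℂ) + ln (A k) w).re + (α k - 1 / 2) / N := by
        rw [Complex.add_re, Complex.sub_re, Complex.one_re]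
        congr 1
        rw [← Complex.ofReal_natCast, ← Complex.ofReal_div, Complex.ofReal_re]
      have h3 : |(α k - 1 / 2) / (N : ℝ)| ≤ δ := by
        rw [abs_div, abs_of_pos hNr]
        refine le_trans (div_le_div_of_nonneg_right ?_ hNr.le) hN2
        rw [abs_le]
        constructor <;> linarith [(hα k).1, (hα k).2]
      rw [abs_le] at h3
      show _ ∈ St
      constructor
      · rw [e]; linarith
      · rw [e]; linarith
    · intro w hw
      obtain ⟨h1, h2, -⟩ := pt_re hα (hR w hw) k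
      constructor
      · rw [Complex.sub_re, Complex.one_re]; linarith
      · rw [Complex.sub_re, Complex.one_re]; linarith
  · exact ((((hl g).const_mul _).add ((hl f).const_mul _)).const_mul _).neg

theorem HH4_UA (hGAM : S_GAM) (hLC : S_LC) (hGX : S_GX) (hUA : S_UA) (hδ : 0 < δ)
    (hδ1 : δ ≤ 1 / 4) (hα : ∀ k, 3 * δ ≤ α k ∧ α k ≤ 1 - 3 * δ)
    (hR : ∀ w ∈ Metric.ball (0 : Fin d → ℂ) R, ∀ k, ‖ln (A k) w‖ < δ) (f g : Fin d → ℝ)
    (jj ll : ℝ) : UA (HH4 α A f g jj ll) (Metric.ball 0 R) := by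
  have hpr : UA (fun N (w : Fin d → ℂ) => ∏ k ∈ (univ : Finset K),
      (Gm N ((1 - (α k + ln (A k) w)) + ((α k - 1 / 2 : ℝ) : ℂ) / N) *
        Complex.exp (-(N * LC (1 - (α k + ln (A k) w)))))) (Metric.ball 0 R) := by
    refine hUA.2.2.2.2 (Fin d → ℂ) K univ _ _ fun k _ => ?_
    have h1 := hGX hLC hGAM δ hδ (α k - 1 / 2)
    have h2 := hUA.2.1 (Fin d → ℂ) ℂ _ (fun w : Fin d → ℂ => 1 - ((α k : ℂ) + ln (A k) w))
      (Metric.ball 0 R) _ h1
      (fun w _ => analyticAt_const.sub (analyticAt_const.add (ln_an _ _)))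
      (fun w hw => pt_Sd hδ hδ1 hα (hR w hw) k)
    exact h2
  have hex : ∃ B : ℝ, ∀ w ∈ Metric.ball (0 : Fin d → ℂ) R,
      ‖Complex.exp (-(2 * Real.pi * Complex.I * (jj * ln g w + ll * ln f w)))‖ ≤ B := by
    have hc : Continuous fun w : Fin d → ℂ =>
        Complex.exp (-(2 * Real.pi * Complex.I * (jj * ln g w + ll * ln f w))) := by
      have h1 := (ln g).continuous
      have h2 := (ln f).continuous
      fun_prop
    obtain ⟨B, hB⟩ := (isCompact_closedBall (0 : Fin d → ℂ) R).exists_bound_of_continuousOn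
      hc.continuousOn
    exact ⟨B, fun v hv => hB v (Metric.ball_subset_closedBall hv)⟩
  obtain ⟨B, hB⟩ := hex
  have h3 := hUA.2.2.1 (Fin d → ℂ) (fun w : Fin d → ℂ =>
    Complex.exp (-(2 * Real.pi * Complex.I * (jj * ln g w + ll * ln f w)))) (Metric.ball 0 R) B
    (fun w _ => AnalyticAt.cexp' ((analyticAt_const.mul ((analyticAt_const.mul (ln_an _ _)).add
      (analyticAt_const.mul (ln_an _ _)))).neg)) hB
  exact hUA.1 (Fin d → ℂ) _ _ _ hpr h3

end pts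

end Pool.Agent.H760.TC
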