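import Pool.Agent.H760.TC.Xa

/-!
# A state sum with four corners at every vertex, to all orders
-/

set_option autoImplicit false

namespace Pool.Agent.H760.TC

open Finset Filter Topology MeasureTheory
open Pool.Agent.W719.BS (LL D D_pos D_refl)
open Pool.Agent.W358.BSTay (gg)
open Pool.Agent.Q191.TW (cs cs_norm cs_add cs_zero cs_ne)
open Pool.Agent.Q99.FAL
open Pool.Agent.Q299.FAL
open Pool.Agent.H760.TT (sum_ZF dv)
open Pool.Agent.Q99.KN (LC bb Gm St ct S_LC S_GAM)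
open Pool.Agent.Q99.HX (Xp UA S_UA S_GX Sd)
open Pool.Agent.H811.VX

variable {c : ℕ}

/-- the centres of the corners -/
def al4 (a : Fin c → Fin 6 → ℝ) (k : Fin c × Fin 4) : ℝ := cor (a k.1) k.2

/-- the constant phase -/
noncomputable def e4 (σ : Fin c → Bool) (a : Fin c → Fin 6 → ℝ) (jj ll : ℝ) (N : ℕ) : ℂ :=
  Complex.exp ((Complex.I * Real.pi * (Aq σ a / 2) + 2 * Real.pi * Complex.I * (jj * ll)) / N)

lemma e4_ne (σ : Fin c → Bool) (a : Fin c → Fin 6 → ℝ) (jj ll : ℝ) (N : ℕ) :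
    e4 σ a jj ll N ≠ 0 := Complex.exp_ne_zero _

lemma e4_norm (σ : Fin c → Bool) (a : Fin c → Fin 6 → ℝ) (jj ll : ℝ) (N : ℕ) :
    ‖e4 σ a jj ll N‖ = 1 := by
  unfold e4
  have e : (Complex.I * Real.pi * (Aq σ a / 2) + 2 * Real.pi * Complex.I * (jj * ll)) / N =
      (((Real.pi * (Aq σ a / 2) + 2 * Real.pi * (jj * ll)) / N : ℝ) : ℂ) * Complex.I := by
    push_cast
    ring
  rw [e]
  exact Complex.norm_exp_ofReal_mul_I _

/-- the value of the function at complex arguments -/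
lemma prod_fin4 {R : Type} [CommMonoid R] (F : Fin c × Fin 4 → R) :
    ∏ k, F k = ∏ b, ∏ q, F (b, q) := Fintype.prod_prod_type F

/-- **the value of a term** -/
lemma val4 (hLC : S_LC) (hGAM : S_GAM) {X : Net c} {σ : Fin c → Bool} {a : Fin c → Fin 6 → ℝ}
    (h : Crit X σ a) {N : ℕ} (hN : 1 ≤ N) (v : Fin c → Fin 6 → ℤ)
    (hv : ∀ b, v b 4 = 0 ∧ v b 5 = 0) (hsum : ∀ b, n1 (v b) + n2 (v b) = (N : ℤ) - 1)
    (hpos : ∀ b q, 0 ≤ cor (v b) q) (u : Fin c → Fin 6 → ℝ) (hu : u ∈ X.LR)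
    (hvu : ∀ b i, (v b i : ℝ) = ((N : ℝ) - 1) * a b i + N * u b i)
    (hξ : ∀ b q, 0 < cor (a b) q + cor (u b) q ∧ cor (a b) q + cor (u b) q < 1)
    (f g : (Fin c → Fin 6 → ℝ) →ₗ[ℝ] ℝ) (jj ll : ℝ) :
    ((√N ^ (4 * c) * Real.exp (N * Vp a) : ℝ) : ℂ) * (P4 σ a N)⁻¹ * t4 σ N v *
      cs N (2 * ((f (dv N a v) - jj) * (g (dv N a v) - ll))) =
    Complex.exp (N * (Vp a - ∑ k : Fin c × Fin 4, LC (al4 a k + al4 u k) +
      Complex.I * (Real.pi / 2) * ∑ k : Fin c × Fin 4, (ep (σ k.1) k.2 : ℂ) * (al4 u k : ℂ) ^ 2 +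
      2 * Real.pi * Complex.I * ((f u : ℂ) * (g u : ℂ)))) *
    ((∏ k : Fin c × Fin 4, Gm N ((1 - (al4 a k + al4 u k)) +
        ((al4 a k - 1 / 2 : ℝ) : ℂ) / N) *
        Complex.exp (-(N * LC (1 - (al4 a k + al4 u k))))) *
      Complex.exp (-(2 * Real.pi * Complex.I * (jj * (g u : ℂ) + ll * (f u : ℂ))))) *
    e4 σ a jj ll N := by
  obtain ⟨-, g2, -, g4⟩ := id (hGAM hLC)
  have hNr : (0 : ℝ) < N := by exact_mod_cast hN
  have hNc : (N : ℂ) ≠ 0 := by exact_mod_cast hNr.ne'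
  -- the deviations
  set y : Fin c → Fin 6 → ℝ := fun b i => (v b i : ℝ) - N * a b i with hy
  have hyu : ∀ b i, y b i = N * u b i - a b i := by
    intro b i
    rw [hy]
    simp only
    rw [hvu]
    ring
  have hcy : ∀ b q, cor (y b) q = N * cor (u b) q - cor (a b) q := by
    intro b q
    have := hyu b
    fin_cases q <;> simp only [cor, this, Fin.zero_eta, Fin.mk_one, Fin.reduceFinMk,
      Matrix.cons_val] <;> ring
  have hcv : ∀ b q, ((cor (v b) q : ℤ) : ℝ) = ((N : ℝ) - 1) * cor (a b) q + N * cor (u b) q := by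
    intro b q
    rw [cor_cast]
    have := hvu b
    fin_cases q <;> simp only [cor, this, Fin.zero_eta, Fin.mk_one, Fin.reduceFinMk,
      Matrix.cons_val] <;> ring
  have hdv : dv N a v = (N : ℝ) • u := by
    funext b i
    show (v b i : ℝ) - ((N : ℝ) - 1) * a b i = N * u b i
    rw [hvu]
    ring
  have hyL : y + toR X.a0 ∈ X.LR := by
    have e : y + toR X.a0 = (N : ℝ) • u - (a - toR X.a0) := by
      funext b i
      show y b i + (X.a0 b i : ℝ) = N * u b i - (a b i - (X.a0 b i : ℝ))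
      rw [hyu]
      ring
    rw [e]
    exact X.LR.sub_mem (X.LR.smul_mem _ hu) h.mem
  have hok : ∀ b, ok4 N (cor (v b)) := by
    intro b
    refine ⟨hpos b, ?_⟩
    rw [cor_sum, hsum]
  -- the phases
  have hph1 : cs N ((∑ b, ∑ q, ep (σ b) q * cor (y b) q ^ 2) / 2) =
      Complex.exp (N * (Complex.I * (Real.pi / 2) *
        ∑ k : Fin c × Fin 4, (ep (σ k.1) k.2 : ℂ) * (al4 u k : ℂ) ^ 2)) *
      Complex.exp ((Complex.I * Real.pi * (Aq σ a / 2)) / N) := by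
    have h2 := h.c2 u hu
    rw [pf_apply] at h2
    have e1 : ∑ b, ∑ q, ep (σ b) q * cor (y b) q ^ 2 =
        (N : ℝ) ^ 2 * (∑ b, ∑ q, ep (σ b) q * cor (u b) q ^ 2) + Aq σ a := by
      have e2 : ∀ b q, ep (σ b) q * cor (y b) q ^ 2 = (N : ℝ) ^ 2 * (ep (σ b) q * cor (u b) q ^ 2) -
          2 * N * (ep (σ b) q * cor (a b) q * cor (u b) q) + ep (σ b) q * cor (a b) q ^ 2 := by
        intro b q
        rw [hcy]
        ring
      simp only [e2, sum_add_distrib, sum_sub_distrib, ← mul_sum]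
      rw [h2]
      unfold Aq
      ring
    rw [e1]
    unfold cs
    rw [← Complex.exp_add]
    congr 1
    rw [Fintype.sum_prod_type]
    simp only [al4]
    push_cast
    field_simp
  have hph2 : cs N (2 * ((f (dv N a v) - jj) * (g (dv N a v) - ll))) =
      Complex.exp (N * (2 * Real.pi * Complex.I * ((f u : ℂ) * (g u : ℂ)))) *
      Complex.exp (-(2 * Real.pi * Complex.I * (jj * (g u : ℂ) + ll * (f u : ℂ)))) *
      Complex.exp ((2 * Real.pi * Complex.I * (jj * ll)) / N) := by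
    rw [hdv, map_smul, map_smul, smul_eq_mul, smul_eq_mul]
    unfold cs
    rw [← Complex.exp_add, ← Complex.exp_add]
    congr 1
    push_cast
    field_simp
    ring
  -- the moduli
  have hD : ∀ k : Fin c × Fin 4, ((√N : ℝ) : ℂ) * (((D N (cor (v k.1) k.2).toNat : ℝ) : ℂ))⁻¹ =
      Complex.exp (-(N * LC (al4 a k + al4 u k))) *
      (Gm N ((1 - (al4 a k + al4 u k)) + ((al4 a k - 1 / 2 : ℝ) : ℂ) / N) *
        Complex.exp (-(N * LC (1 - (al4 a k + al4 u k))))) := by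
    rintro ⟨b, q⟩
    simp only [al4]
    have hlt := ok4_lt (hok b) q
    have hD := D_Gm hLC hGAM hN _ hlt
    have hcast : ((((cor (v b) q).toNat : ℕ)) : ℝ) = ((N : ℝ) - 1) * cor (a b) q + N * cor (u b) q := by
      rw [← hcv]
      have : (((cor (v b) q).toNat : ℤ)) = cor (v b) q := Int.toNat_of_nonneg (hpos b q)
      exact_mod_cast this
    set x : ℝ := (((cor (v b) q).toNat : ℕ) : ℝ) / N + 1 / (2 * N) with hx
    have hx0 : 0 < x := by positivity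
    have hx1 : x < 1 := by
      have : x = (2 * ((cor (v b) q).toNat : ℝ) + 1) / (2 * N) := by rw [hx]; field_simp
      rw [this, div_lt_one (by positivity)]
      have h5 : (((cor (v b) q).toNat : ℕ) : ℝ) + 1 ≤ N := by exact_mod_cast hlt
      linarith
    have hxS : ((x : ℝ) : ℂ) ∈ St := by
      constructor
      · rw [Complex.ofReal_re]; exact hx0
      · rw [Complex.ofReal_re]; exact hx1
    have hξS : (((cor (a b) q + cor (u b) q : ℝ)) : ℂ) ∈ St := by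
      constructor
      · rw [Complex.ofReal_re]; exact (hξ b q).1
      · rw [Complex.ofReal_re]; exact (hξ b q).2
    have h5 := g4 N _ hxS
    have h6 := hLC.2.1 _ hξS
    have e1 : (1 : ℂ) - ((x : ℝ) : ℂ) = (1 - (((cor (a b) q : ℝ) : ℂ) + ((cor (u b) q : ℝ) : ℂ))) +
        ((cor (a b) q - 1 / 2 : ℝ) : ℂ) / N := by
      rw [hx, hcast]
      push_cast
      field_simp
      ring
    have e2 : (((cor (a b) q + cor (u b) q : ℝ)) : ℂ) = ((cor (a b) q : ℝ) : ℂ) +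
        ((cor (u b) q : ℝ) : ℂ) := by
      push_cast
      rfl
    rw [e2] at h6
    rw [e1] at h5
    rw [hD, h6, mul_comm (Gm N _) (Complex.exp _), ← mul_assoc, ← Complex.exp_add]
    have e3 : -((N : ℂ) * LC (((cor (a b) q : ℝ) : ℂ) + ((cor (u b) q : ℝ) : ℂ))) +
        -((N : ℂ) * -LC (((cor (a b) q : ℝ) : ℂ) + ((cor (u b) q : ℝ) : ℂ))) = 0 := by ring
    rw [e3, Complex.exp_zero, one_mul]
    have hs0 : ((√(N:ℝ) : ℝ) : ℂ) ≠ 0 := by
      exact_mod_cast (Real.sqrt_pos.2 hNr).ne'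
    have hG0 : Gm N ((x : ℝ) : ℂ) ≠ 0 := by
      intro h0
      rw [h0, zero_mul] at h5
      exact zero_ne_one h5
    rw [mul_inv, ← mul_assoc, mul_inv_cancel₀ hs0, one_mul]
    exact inv_eq_of_mul_eq_one_right h5
  have hprod : ((√N ^ (4 * c) : ℝ) : ℂ) * ((∏ b, v4 N (cor (v b)) : ℝ) : ℂ) =
      Complex.exp (-(N * ∑ k : Fin c × Fin 4, LC (al4 a k + al4 u k))) *
      ∏ k : Fin c × Fin 4, (Gm N ((1 - (al4 a k + al4 u k)) +
        ((al4 a k - 1 / 2 : ℝ) : ℂ) / N) *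
        Complex.exp (-(N * LC (1 - (al4 a k + al4 u k))))) := by
    have e1 : ((√N ^ (4 * c) : ℝ) : ℂ) = ∏ _k : Fin c × Fin 4, ((√N : ℝ) : ℂ) := by
      rw [prod_const, card_univ, Fintype.card_prod, Fintype.card_fin, Fintype.card_fin, mul_comm]
      push_cast
      rfl
    have e2 : ((∏ b, v4 N (cor (v b)) : ℝ) : ℂ) =
        ∏ k : Fin c × Fin 4, (((D N (cor (v k.1) k.2).toNat : ℝ) : ℂ))⁻¹ := by
      rw [prod_fin4, Complex.ofReal_prod]
      refine prod_congr rfl fun b _ => ?_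
      unfold v4
      rw [if_pos (hok b), Complex.ofReal_inv, Complex.ofReal_prod, prod_inv_distrib]
    rw [e1, e2, ← prod_mul_distrib, prod_congr rfl fun k _ => hD k, prod_mul_distrib,
      ← Complex.exp_sum, mul_sum, sum_neg_distrib]
  have hP : P4 σ a N ≠ 0 := cs_ne _ _
  rw [t4_val h N v hv y (fun b i => rfl) hyL, hph1, hph2, e4]
  have e5 : (Complex.I * Real.pi * (Aq σ a / 2) + 2 * Real.pi * Complex.I * (jj * ll)) / N =
      (Complex.I * Real.pi * (Aq σ a / 2)) / N + (2 * Real.pi * Complex.I * (jj * ll)) / N := by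
    ring
  rw [e5, Complex.exp_add]
  have e6 : (N : ℂ) * (Vp a - ∑ k : Fin c × Fin 4, LC (al4 a k + al4 u k) +
      Complex.I * (Real.pi / 2) * ∑ k : Fin c × Fin 4, (ep (σ k.1) k.2 : ℂ) * (al4 u k : ℂ) ^ 2 +
      2 * Real.pi * Complex.I * ((f u : ℂ) * (g u : ℂ))) =
      N * Vp a + -(N * ∑ k : Fin c × Fin 4, LC (al4 a k + al4 u k)) +
      N * (Complex.I * (Real.pi / 2) * ∑ k : Fin c × Fin 4, (ep (σ k.1) k.2 : ℂ) * (al4 u k : ℂ) ^ 2) +
      N * (2 * Real.pi * Complex.I * ((f u : ℂ) * (g u : ℂ))) := by ring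
  rw [e6, Complex.exp_add, Complex.exp_add, Complex.exp_add]
  have e7 : ((√N ^ (4 * c) * Real.exp (N * Vp a) : ℝ) : ℂ) =
      ((√N ^ (4 * c) : ℝ) : ℂ) * Complex.exp (N * Vp a) := by
    rw [Complex.ofReal_mul, Complex.ofReal_exp]
    push_cast
    rfl
  rw [e7]
  obtain ⟨EV, hEV⟩ : ∃ E, E = Complex.exp ((N : ℂ) * Vp a) := ⟨_, rfl⟩
  obtain ⟨E1, hE1⟩ : ∃ E, E = Complex.exp (N * (Complex.I * (Real.pi / 2) *
        ∑ k : Fin c × Fin 4, (ep (σ k.1) k.2 : ℂ) * (al4 u k : ℂ) ^ 2)) := ⟨_, rfl⟩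
  obtain ⟨E2, hE2⟩ : ∃ E, E = Complex.exp (N * (2 * Real.pi * Complex.I * ((f u : ℂ) * (g u : ℂ)))) :=
    ⟨_, rfl⟩
  obtain ⟨PR, hPR⟩ : ∃ E, E = ∏ k : Fin c × Fin 4, (Gm N ((1 - (al4 a k + al4 u k)) +
        ((al4 a k - 1 / 2 : ℝ) : ℂ) / N) *
        Complex.exp (-(N * LC (1 - (al4 a k + al4 u k))))) := ⟨_, rfl⟩
  obtain ⟨EL, hEL⟩ : ∃ E, E = Complex.exp (-(N * ∑ k : Fin c × Fin 4,
    LC (al4 a k + al4 u k))) := ⟨_, rfl⟩
  rw [← hPR, ← hEL] at hprod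
  rw [← hEV, ← hE1, ← hE2, ← hPR, ← hEL]
  obtain ⟨S, hS⟩ : ∃ S, S = ((√N ^ (4 * c) : ℝ) : ℂ) := ⟨_, rfl⟩
  obtain ⟨T, hT⟩ : ∃ T, T = ((∏ b, v4 N (cor (v b)) : ℝ) : ℂ) := ⟨_, rfl⟩
  rw [← hS, ← hT] at hprod
  rw [← hS, ← hT]
  obtain ⟨P, hPd⟩ : ∃ P, P = P4 σ a N := ⟨_, rfl⟩
  rw [← hPd] at hP ⊢
  have hPP : P⁻¹ * P = 1 := inv_mul_cancel₀ hP
  generalize Complex.exp ((Complex.I * Real.pi * (Aq σ a / 2)) / N) = W1
  generalize Complex.exp (-(2 * Real.pi * Complex.I * (jj * (g u : ℂ) + ll * (f u : ℂ)))) = W2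
  generalize Complex.exp ((2 * Real.pi * Complex.I * (jj * ll)) / N) = W3
  calc S * EV * P⁻¹ * (P * (E1 * W1) * T) * (E2 * W2 * W3) =
      (P⁻¹ * P) * (S * T) * EV * E1 * W1 * E2 * W2 * W3 := by ring
    _ = _ := by rw [hPP, hprod]; ring

end Pool.Agent.H760.TC
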