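import Pool.Agent.H760.TC.Xb
import Pool.Graph.R_pool_sql_team_seeded_3997aac3.Q176.HX.ASX

/-!
# A state sum with four corners at every vertex, to all orders, part 2
-/

set_option autoImplicit false

namespace Pool.Agent.H760.TC

open Finset Filter Topology MeasureTheory
open Pool.Agent.W719.BS (LL D D_pos D_refl)
open Pool.Agent.W358.BSTay (gg)
open Pool.Agent.Q191.TW (cs cs_norm cs_add cs_zero cs_ne)
open Pool.Agent.Q99.FAL
open Pool.Agent.Q299.FAL
open Pool.Agent.H760.TT (sum_ZF dv)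
open Pool.Agent.Q99.KN (LC bb Gm St ct S_LC S_GAM)
open Pool.Agent.Q99.HX (Xp UA S_UA S_GX Sd)
open Pool.Agent.H811.VX
open Pool.Agent.H760.MX (stN)

section lattice
variable {d : ℕ}

/-- the shift of the lattice -/
noncomputable def mS (τ : Fin d → ℝ) (N : ℕ) (j : Fin d) : ℤ :=
  ⌊((N : ℝ) - 1) * (1 - 2 * τ j) / 2⌋

/-- its fractional part -/
noncomputable def sS (τ : Fin d → ℝ) (N : ℕ) (j : Fin d) : ℝ :=
  ((N : ℝ) - 1) * (1 - 2 * τ j) - 2 * mS τ N j

/-- the point of the lattice -/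
noncomputable def tS (τ : Fin d → ℝ) (N : ℕ) (u : Fin d → ℝ) (j : Fin d) : ℤ :=
  ⌊(N : ℝ) * (u j + 1) / 2⌋ - mS τ N j

lemma sS_bd (τ : Fin d → ℝ) (N : ℕ) (j : Fin d) : |sS τ N j| ≤ 2 := by
  unfold sS mS
  have h1 := Int.floor_le (((N : ℝ) - 1) * (1 - 2 * τ j) / 2)
  have h2 := Int.lt_floor_add_one (((N : ℝ) - 1) * (1 - 2 * τ j) / 2)
  rw [abs_le]
  constructor <;> linarith

lemma st_tS (τ : Fin d → ℝ) {N : ℕ} (hN : 1 ≤ N) (u : Fin d → ℝ) (j : Fin d) :
    st univ N u j + sS τ N j / N = 2 * (((tS τ N u j : ℤ) : ℝ) - ((N : ℝ) - 1) * τ j) / N := by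
  have hN0 : (0 : ℝ) < N := by exact_mod_cast hN
  unfold st sS tS
  rw [if_pos (mem_univ j)]
  unfold stN
  push_cast
  field_simp
  ring

lemma tS_meas (τ : Fin d → ℝ) (N : ℕ) : Measurable (tS τ N) := by
  refine measurable_pi_lambda _ fun j => ?_
  unfold tS
  have h1 : Measurable fun u : Fin d → ℝ => ⌊(N : ℝ) * (u j + 1) / 2⌋ :=
    Int.measurable_floor.comp ((((measurable_pi_apply j).add_const _).const_mul _).div_const _)
  exact h1.sub_const _

lemma tS_near (τ : Fin d → ℝ) {N : ℕ} (u : Fin d → ℝ) (j : Fin d) :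
    N / 8 * u j ^ 2 - (2 + |τ j|) ^ 2 ≤ (((tS τ N u j : ℤ) : ℝ) - N * τ j) ^ 2 / 1 * (1 / N) ∨ N = 0 := by
  rcases Nat.eq_zero_or_pos N with h | h
  · exact Or.inr h
  left
  have hN0 : (0 : ℝ) < N := by exact_mod_cast h
  have hN1 : (1 : ℝ) ≤ N := by exact_mod_cast h
  set x : ℝ := ((tS τ N u j : ℤ) : ℝ) - N * τ j with hx
  have h1 := Int.floor_le (((N : ℝ) - 1) * (1 - 2 * τ j) / 2)
  have h2 := Int.lt_floor_add_one (((N : ℝ) - 1) * (1 - 2 * τ j) / 2)
  have h3 := Int.floor_le ((N : ℝ) * (u j + 1) / 2)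
  have h4 := Int.lt_floor_add_one ((N : ℝ) * (u j + 1) / 2)
  have hxe : x = (⌊(N : ℝ) * (u j + 1) / 2⌋ : ℝ) - (⌊((N : ℝ) - 1) * (1 - 2 * τ j) / 2⌋ : ℝ) -
      N * τ j := by
    rw [hx]
    unfold tS mS
    push_cast
    ring
  have hb : |x - N * u j / 2| ≤ 2 + |τ j| := by
    have h5 := le_abs_self (τ j)
    have h6 := neg_abs_le (τ j)
    rw [abs_le, hxe]
    constructor <;> linarith
  have h7 : (N * u j / 2) ^ 2 / 2 - (2 + |τ j|) ^ 2 ≤ x ^ 2 := by
    have h8 : (x - N * u j / 2) ^ 2 ≤ (2 + |τ j|) ^ 2 := by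
      rw [← sq_abs (x - N * u j / 2)]
      exact pow_le_pow_left₀ (abs_nonneg _) hb 2
    nlinarith [sq_nonneg (2 * x - N * u j / 2)]
  rw [div_one, mul_one_div, le_div_iff₀ hN0]
  have h9 : (2 + |τ j|) ^ 2 ≤ (2 + |τ j|) ^ 2 * N := le_mul_of_one_le_right (sq_nonneg _) hN1
  nlinarith

/-- **the sum over the lattice as an integral** -/
lemma sum_int (a : (Fin d → ℤ) → ℂ) {N : ℕ} (hN : 1 ≤ N) (τ : Fin d → ℝ)
    (hI : Integrable (fun u : Fin d → ℝ => a (tS τ N u)) volume) :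
    ∫ u : Fin d → ℝ, a (tS τ N u) = (((2 / N : ℝ) ^ d : ℝ) : ℂ) * ∑' x, a x := by
  have hN0 : (0 : ℝ) < N := by exact_mod_cast hN
  have hN2 : (0 : ℝ) < N / 2 := by positivity
  set b : (Fin d → ℤ) → ℂ := fun z => a fun j => z j - mS τ N j with hb
  set G : (Fin d → ℝ) → ℂ := fun w => b fun j => ⌊w j⌋ with hG
  set c' : Fin d → ℝ := fun _ => (N : ℝ) / 2 with hc'
  have hFG : (fun u : Fin d → ℝ => a (tS τ N u)) =
      fun u => (fun w => G (w + c')) (((N : ℝ) / 2) • u) := by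
    funext u
    simp only [hG, hb, hc', Pi.add_apply, Pi.smul_apply, smul_eq_mul]
    congr 1
    funext j
    unfold tS
    congr 2
    ring
  have hG1 : Integrable (fun w => G (w + c')) := by
    rw [hFG] at hI
    exact (integrable_comp_smul_iff volume _ hN2.ne').1 hI
  have hG2 : Integrable G := by
    have := hG1.comp_sub_right c'
    simpa using this
  rw [hFG, Measure.integral_comp_smul volume (fun w => G (w + c')) ((N : ℝ) / 2),
    integral_add_right_eq_self G c', Module.finrank_fin_fun, abs_of_pos (by positivity), hG,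
    Pool.Agent.Q191.TW.floor_integral b hG2, Complex.real_smul]
  have e1 : (((N : ℝ) / 2) ^ d)⁻¹ = (2 / N : ℝ) ^ d := by
    rw [← inv_pow, inv_div]
  rw [e1]
  congr 1
  exact (Equiv.subRight (mS τ N)).tsum_eq a

end lattice

variable {c : ℕ}

lemma lr_XL {d : ℕ} (E : Fin d → Fin c → Fin 6 → ℤ) (φ : (Fin c → Fin 6 → ℝ) →ₗ[ℝ] ℝ)
    (w : Fin d → ℝ) : lr (fun j => φ (toR (E j))) w = φ (XL E fun j => w j / 2) := by
  rw [XL_apply, map_sum, lr]
  refine sum_congr rfl fun j _ => ?_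
  rw [map_smul, smul_eq_mul]
  ring

lemma al4_XL {d : ℕ} (E : Fin d → Fin c → Fin 6 → ℤ) (w : Fin d → ℝ) (k : Fin c × Fin 4) :
    lr (fun j => al4 (toR (E j)) k) w = al4 (XL E fun j => w j / 2) k :=
  lr_XL E (cl k.1 k.2) w

lemma qq_real (hLC : S_LC) {d : ℕ} {K : Type} [Fintype K] {α : K → ℝ} {A : K → Fin d → ℝ}
    (V : ℝ) (e : K → ℝ) (f g : Fin d → ℝ) (x : Fin d → ℝ)
    (h : ∀ k, 0 < α k + lr (A k) x ∧ α k + lr (A k) x < 1) :
    qq V α A e f g (fun i => (x i : ℂ)) = ((V - ∑ k, LL (α k + lr (A k) x) : ℝ) : ℂ) +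
      Complex.I * ((Real.pi / 2 * ∑ k, e k * lr (A k) x ^ 2 +
        2 * Real.pi * (lr f x * lr g x) : ℝ) : ℂ) := by
  unfold qq
  have h1 : ∀ k, LC ((α k : ℂ) + ln (A k) (fun i => (x i : ℂ))) = ((LL (α k + lr (A k) x) : ℝ) : ℂ) := by
    intro k
    rw [ln_real, ← Complex.ofReal_add, hLC.2.2.1 _ (h k).1 (h k).2]
  simp only [h1]
  simp only [ln_real]
  push_cast
  ring

/-- the strict inequality of the real parts -/
lemma re4 {d : ℕ} {X : Net c} {σ : Fin c → Bool} {a : Fin c → Fin 6 → ℝ} (h : Crit X σ a)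
    (E : Fin d → Fin c → Fin 6 → ℤ) (h1 : ∀ t : Fin d → ℤ, (∑ j, t j • E j) ∈ X.L)
    (h3 : ∀ τ : Fin d → ℝ, (∑ j, τ j • toR (E j)) = 0 → τ = 0) :
    ∃ κ : ℝ, 0 < κ ∧ ∀ x : Fin d → ℝ,
      (∀ k, 0 ≤ al4 a k + lr (fun j => al4 (toR (E j)) k) x) →
      Vp a + κ * ∑ i, x i ^ 2 ≤ ∑ k : Fin c × Fin 4, LL (al4 a k + lr (fun j => al4 (toR (E j)) k) x) := by
  have hg := fun b => glob4 (cor (a b)) (h.pos b) (a_z h b).2.2
  choose κ hκ hG using hg
  obtain ⟨k, hk, hkb⟩ := exists_min κ hκ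
  obtain ⟨K, hK, hlow⟩ := lower E h3
  have hEL : ∀ j, E j ∈ X.L := by
    intro j
    have := h1 (Pi.single j 1)
    rwa [sum_eq_single j (fun i _ hi => by rw [Pi.single_eq_of_ne hi, zero_smul])
      (fun h => absurd (mem_univ _) h), Pi.single_eq_same, one_smul] at this
  have hXL : ∀ τ, XL E τ ∈ X.LR := by
    intro τ
    rw [XL_apply]
    exact X.LR.sum_mem fun j _ => X.LR.smul_mem _ (Submodule.subset_span ⟨_, hEL j, rfl⟩)
  refine ⟨k / (4 * K), by positivity, fun x hx => ?_⟩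
  set u : Fin c → Fin 6 → ℝ := XL E fun j => x j / 2 with hu
  have huL : u ∈ X.LR := hXL _
  have hlr : ∀ k, lr (fun j => al4 (toR (E j)) k) x = al4 u k := fun k => al4_XL E x k
  simp only [hlr] at hx ⊢
  have hcr := h.c1 u huL
  rw [pf_apply] at hcr
  have hb : ∀ b, ∑ q, LL (cor (a b) q) + ∑ q, gg (cor (a b) q) * cor (u b) q +
      k * ∑ i, u b i ^ 2 ≤ ∑ q, LL (cor (a b) q + cor (u b) q) := by
    intro b
    have hz := LR_z h u huL b
    have ha := (a_z h b).2.2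
    have hs := cor_sum (u b)
    rw [hz.2.2] at hs
    have h5 := hG b (fun q => cor (a b) q + cor (u b) q) (fun q => hx (b, q)) (by linarith)
    simp only [add_sub_cancel_left] at h5
    rw [six_four (u b) hz.1 hz.2.1] at h5
    have h6 : 0 ≤ ∑ i, u b i ^ 2 := sum_nonneg fun i _ => sq_nonneg _
    have h7 := mul_le_mul_of_nonneg_right (hkb b) h6
    linarith
  have hS := sum_le_sum fun b (_ : b ∈ (univ : Finset (Fin c))) => hb b
  rw [sum_add_distrib, sum_add_distrib, hcr, add_zero, ← mul_sum] at hS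
  have h8 := hlow fun j => x j / 2
  rw [← hu] at h8
  have e1 : ∑ j, (x j / 2) ^ 2 = (∑ j, x j ^ 2) / 4 := by
    rw [sum_div]
    exact sum_congr rfl fun j _ => by ring
  rw [e1] at h8
  have h9 : k / (4 * K) * ∑ i, x i ^ 2 ≤ k * ∑ b, ∑ i, u b i ^ 2 := by
    have : k / (4 * K) * ∑ i, x i ^ 2 = k / K * ((∑ i, x i ^ 2) / 4) := by
      field_simp
    rw [this]
    calc k / K * ((∑ i, x i ^ 2) / 4) ≤ k / K * (K * ∑ b, ∑ i, u b i ^ 2) :=
          mul_le_mul_of_nonneg_left h8 (by positivity)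
      _ = _ := by field_simp
  rw [Fintype.sum_prod_type]
  have e2 : ∑ b, ∑ q, LL (cor (a b) q) = Vp a := rfl
  rw [e2] at hS
  show Vp a + k / (4 * K) * ∑ i, x i ^ 2 ≤ ∑ b, ∑ q, LL (cor (a b) q + cor (u b) q)
  linarith

open Classical in
/-- **a state sum with four corners at every vertex, to all orders** -/
theorem netx4 (hLC : S_LC) (hGAM : S_GAM) (hGX : S_GX) (hUA : S_UA) (X : Net c)
    (σ : Fin c → Bool) (a : Fin c → Fin 6 → ℝ) (h : Crit X σ a)
    (f g : (Fin c → Fin 6 → ℝ) →ₗ[ℝ] ℝ) (jj ll : ℝ) : ∃ y : ℕ → ℂ, y 0 ≠ 0 ∧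
    Xp (fun N : ℕ => ((√N ^ (4 * c) / √N ^ Module.finrank ℤ X.L *
      Real.exp (N * Vp a) : ℝ) : ℂ) * (P4 σ a N)⁻¹ * ∑ v : Fin c → Fin 6 → Fin N,
        if (fun b => zz (v b)) - ((N : ℤ) - 1) • X.a0 ∈ X.L then t4 σ N (fun b => zz (v b)) *
          cs N (2 * ((f (dv N a fun b => zz (v b)) - jj) * (g (dv N a fun b => zz (v b)) - ll)))
          else 0) y := by
  suffices hmain : ∃ y : ℕ → ℂ, Xp (fun N : ℕ => ((√N ^ (4 * c) / √N ^ Module.finrank ℤ X.L *
      Real.exp (N * Vp a) : ℝ) : ℂ) * (P4 σ a N)⁻¹ * ∑ v : Fin c → Fin 6 → Fin N,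
        if (fun b => zz (v b)) - ((N : ℤ) - 1) • X.a0 ∈ X.L then t4 σ N (fun b => zz (v b)) *
          cs N (2 * ((f (dv N a fun b => zz (v b)) - jj) * (g (dv N a fun b => zz (v b)) - ll)))
          else 0) y by
    obtain ⟨y, hy⟩ := hmain
    obtain ⟨z, hz, hlim⟩ := netq4 X σ a h f g jj ll
    refine ⟨y, ?_, hy⟩
    have h1 := Pool.Agent.Q176.HX.Xp.tendsto hy
    rw [tendsto_nhds_unique h1 hlim]
    exact hz
  obtain ⟨E, h1, h2, h3, h4⟩ := task_LB c X
  obtain ⟨τ, hτ⟩ := h4 _ h.mem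
  obtain ⟨C0, κ0, hC0, hκ0, hNB'⟩ := t4_bound h
  obtain ⟨K, hK, hlow⟩ := lower E h3
  obtain ⟨M, hM⟩ : ∃ M : ℝ, M = ∑ b, ∑ i, ((X.a0 b i : ℤ) : ℝ) ^ 2 := ⟨_, rfl⟩
  have hM0 : 0 ≤ M := by
    rw [hM]
    exact sum_nonneg fun b _ => sum_nonneg fun i _ => sq_nonneg _
  have hab : ∀ b i, a b i = X.a0 b i + XL E τ b i := by
    intro b i
    have h5 := congrFun (congrFun hτ b) i
    rw [← XL_apply] at h5
    have h6 : a b i - X.a0 b i = XL E τ b i := h5
    linarith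
  have hEL : ∀ j, E j ∈ X.L := by
    intro j
    have := h1 (Pi.single j 1)
    rwa [sum_eq_single j (fun i _ hi => by rw [Pi.single_eq_of_ne hi, zero_smul])
      (fun h => absurd (mem_univ _) h), Pi.single_eq_same, one_smul] at this
  have hXL : ∀ τ, XL E τ ∈ X.LR := by
    intro τ
    rw [XL_apply]
    exact X.LR.sum_mem fun j _ => X.LR.smul_mem _ (Submodule.subset_span ⟨_, hEL j, rfl⟩)
  have hvc : ∀ (N : ℕ) (t : Fin (Module.finrank ℤ X.L) → ℤ) (b : Fin c) (i : Fin 6),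
      ((vc X E N t b i : ℤ) : ℝ) - N * a b i =
        XL E (fun j => (t j : ℝ) - N * τ j) b i - X.a0 b i := by
    intro N t b i
    rw [hab]
    have e1 : ((vc X E N t b i : ℤ) : ℝ) = ((N : ℝ) - 1) * X.a0 b i + ∑ j, (t j : ℝ) * (E j b i : ℝ) := by
      unfold Pool.Agent.Q299.FAL.vc
      simp only [Pi.add_apply, Pi.smul_apply, Finset.sum_apply, smul_eq_mul]
      push_cast
      rfl
    have e2 : ∀ y : Fin (Module.finrank ℤ X.L) → ℝ, XL E y b i = ∑ j, y j * (E j b i : ℝ) := by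
      intro y
      rw [XL_apply]
      simp only [Finset.sum_apply, Pi.smul_apply, smul_eq_mul, toR]
    rw [e1, e2, e2]
    simp only [sub_mul, sum_sub_distrib]
    rw [mul_add, mul_sum]
    have e3 : ∀ j, (N : ℝ) * (τ j * (E j b i : ℝ)) = N * τ j * (E j b i : ℝ) := fun j => by ring
    simp only [e3]
    ring
  have hLmem : ∀ (N : ℕ) (t : Fin (Module.finrank ℤ X.L) → ℤ),
      vc X E N t - ((N : ℤ) - 1) • X.a0 ∈ X.L := by
    intro N t
    unfold Pool.Agent.Q299.FAL.vc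
    rw [add_sub_cancel_left]
    exact h1 t
  have hz : ∀ (N : ℕ) (t : Fin (Module.finrank ℤ X.L) → ℤ) (b : Fin c),
      vc X E N t b 4 = 0 ∧ vc X E N t b 5 = 0 := by
    intro N t b
    obtain ⟨e1, e2⟩ := h.z _ (hLmem N t) b
    obtain ⟨z1, z2⟩ := h.z0 b
    simp only [Pi.sub_apply, Pi.smul_apply, smul_eq_mul, z1, z2, mul_zero, sub_zero] at e1 e2
    exact ⟨e1, e2⟩
  have hn : ∀ (N : ℕ) (t : Fin (Module.finrank ℤ X.L) → ℤ) (b : Fin c),
      n1 (vc X E N t b) + n2 (vc X E N t b) = (N : ℤ) - 1 := by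
    intro N t b
    have e1 := h.s _ (hLmem N t) b
    have e2 := h.s0 b
    simp only [n1, n2, Pi.sub_apply, Pi.smul_apply, smul_eq_mul] at e1 e2 ⊢
    linear_combination e1 + ((N : ℤ) - 1) * e2
  -- the deviation
  have hyd : ∀ (N : ℕ) (t : Fin (Module.finrank ℤ X.L) → ℤ), ∃ y : Fin c → Fin 6 → ℝ,
      (∀ b i, y b i = ((vc X E N t b i : ℤ) : ℝ) - N * a b i) ∧ y + toR X.a0 ∈ X.LR := by
    intro N t
    refine ⟨fun b i => ((vc X E N t b i : ℤ) : ℝ) - N * a b i, fun b i => rfl, ?_⟩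
    have : (fun (b : Fin c) (i : Fin 6) => ((vc X E N t b i : ℤ) : ℝ) - N * a b i) + toR X.a0 =
        XL E (fun j => (t j : ℝ) - N * τ j) := by
      funext b i
      show ((vc X E N t b i : ℤ) : ℝ) - N * a b i + (X.a0 b i : ℝ) = _
      rw [hvc]
      ring
    rw [this]
    exact hXL _
  choose Y hY1 hY2 using hyd
  obtain ⟨d, hd⟩ : ∃ d, d = Module.finrank ℤ X.L := ⟨_, rfl⟩
  -- the terms
  set aN : ℕ → (Fin (Module.finrank ℤ X.L) → ℤ) → ℂ := fun N t =>
    ((√N ^ (4 * c) * Real.exp (N * Vp a) : ℝ) : ℂ) * (P4 σ a N)⁻¹ *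
      t4 σ N (vc X E N t) *
      cs N (2 * ((f (dv N a (vc X E N t)) - jj) * (g (dv N a (vc X E N t)) - ll))) with haN
  have hbd : ∀ N : ℕ, 1 ≤ N → ∀ t, ‖aN N t‖ ≤ C0 * Real.exp (κ0 * M) *
      Real.exp (-(κ0 / (2 * K)) * ((∑ j, ((t j : ℝ) - N * τ j) ^ 2) / N)) := by
    intro N hN t
    have hN0 : (0 : ℝ) < N := by exact_mod_cast hN
    have hN1 : (1 : ℝ) ≤ N := by exact_mod_cast hN
    have h5 := hNB' N hN (vc X E N t) (Y N t) (hz N t) (hY1 N t) (hY2 N t)
    rw [haN]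
    simp only
    rw [norm_mul, cs_norm, mul_one, norm_mul, norm_mul, norm_inv, P4, cs_norm, inv_one, mul_one,
      Complex.norm_real, Real.norm_of_nonneg (by positivity)]
    refine h5.trans ?_
    have h6 : ∑ j, ((t j : ℝ) - N * τ j) ^ 2 ≤ K * (2 * (∑ b, ∑ i, (Y N t b i) ^ 2 + M)) := by
      refine (hlow _).trans (mul_le_mul_of_nonneg_left ?_ hK.le)
      rw [hM, ← sum_add_distrib, mul_sum]
      refine sum_le_sum fun b _ => ?_
      rw [← sum_add_distrib, mul_sum]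
      refine sum_le_sum fun i _ => ?_
      rw [hY1, hvc]
      nlinarith [sq_nonneg (XL E (fun j => (t j : ℝ) - N * τ j) b i - 2 * X.a0 b i)]
    have h7 : -κ0 * ((∑ b, ∑ i, (Y N t b i) ^ 2) / N) ≤
        κ0 * M + -(κ0 / (2 * K)) * ((∑ j, ((t j : ℝ) - N * τ j) ^ 2) / N) := by
      have h8 : (∑ j, ((t j : ℝ) - N * τ j) ^ 2) / (2 * K) - M ≤
          ∑ b, ∑ i, (Y N t b i) ^ 2 := by
        rw [sub_le_iff_le_add, div_le_iff₀ (by positivity)]
        linarith
      have h9 : (∑ j, ((t j : ℝ) - N * τ j) ^ 2) / (2 * K) / N - M ≤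
          (∑ b, ∑ i, (Y N t b i) ^ 2) / N := by
        rw [le_div_iff₀ hN0, sub_mul, div_mul_cancel₀ _ hN0.ne']
        nlinarith
      have h10 := mul_le_mul_of_nonneg_left h9 hκ0.le
      have e : -(κ0 / (2 * K)) * ((∑ j, ((t j : ℝ) - N * τ j) ^ 2) / N) =
          -(κ0 * ((∑ j, ((t j : ℝ) - N * τ j) ^ 2) / (2 * K) / N)) := by
        field_simp
      rw [e]
      linarith
    calc C0 * Real.exp (-κ0 * ((∑ b, ∑ i, (Y N t b i) ^ 2) / N))
        ≤ C0 * Real.exp (κ0 * M + -(κ0 / (2 * K)) * ((∑ j, ((t j : ℝ) - N * τ j) ^ 2) / N)) :=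
          mul_le_mul_of_nonneg_left (Real.exp_le_exp.2 h7) hC0
      _ = _ := by rw [Real.exp_add, mul_assoc]
  -- the function of the integral
  set F : ℕ → (Fin (Module.finrank ℤ X.L) → ℝ) → ℂ := fun N u =>
    aN N (tS τ N u) * (e4 σ a jj ll N)⁻¹ with hF
  set κ2 : ℝ := κ0 / (2 * K) with hκ2
  have hκ2p : 0 < κ2 := by positivity
  set B : ℝ := C0 * Real.exp (κ0 * M) * Real.exp (κ2 * ∑ j, (2 + |τ j|) ^ 2) with hB
  have hB0 : 0 ≤ B := by positivity
  have hFb : ∀ᶠ N : ℕ in atTop, ∀ u, ‖F N u‖ ≤ B * Real.exp (-(κ2 / 8 * N * ∑ i, u i ^ 2)) := by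
    filter_upwards [eventually_ge_atTop 1] with N hN u
    have hN0 : (0 : ℝ) < N := by exact_mod_cast hN
    rw [hF]
    simp only
    rw [norm_mul, norm_inv, e4_norm, inv_one, mul_one]
    refine (hbd N hN _).trans ?_
    rw [hB, mul_assoc _ (Real.exp (κ2 * _)), ← Real.exp_add]
    refine mul_le_mul_of_nonneg_left (Real.exp_le_exp.2 ?_) (by positivity)
    have h5 : N / 8 * ∑ i, u i ^ 2 - ∑ j, (2 + |τ j|) ^ 2 ≤
        (∑ j, (((tS τ N u j : ℤ) : ℝ) - N * τ j) ^ 2) / N := by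
      rw [mul_sum, ← sum_sub_distrib, sum_div]
      refine sum_le_sum fun j _ => ?_
      rcases tS_near τ (N := N) u j with h6 | h6
      · rw [div_one, mul_one_div] at h6
        exact h6
      · omega
    have h6 := mul_le_mul_of_nonneg_left h5 hκ2p.le
    linarith
  have hFm : ∀ N : ℕ, AEStronglyMeasurable (F N) volume := by
    intro N
    have h5 : Measurable (fun z : Fin (Module.finrank ℤ X.L) → ℤ => aN N z) :=
      measurable_of_countable _
    exact ((h5.comp (tS_meas τ N)).mul_const _).aestronglyMeasurable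
  -- the critical point
  set A : Fin c × Fin 4 → Fin (Module.finrank ℤ X.L) → ℝ := fun k j => al4 (toR (E j)) k with hA
  set f' : Fin (Module.finrank ℤ X.L) → ℝ := fun j => f (toR (E j)) with hf'
  set g' : Fin (Module.finrank ℤ X.L) → ℝ := fun j => g (toR (E j)) with hg'
  have h01 : ∀ k, 0 < al4 a k ∧ al4 a k < 1 := by
    rintro ⟨b, q⟩
    have h5 := h.pos b
    have h6 := (a_z h b).2.2
    refine ⟨h5 q, ?_⟩
    show cor (a b) q < 1
    have p0 := h5 0
    have p1 := h5 1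
    have p2 := h5 2
    have p3 := h5 3
    fin_cases q <;> simp only [Fin.zero_eta, Fin.mk_one, Fin.reduceFinMk] <;> linarith
  obtain ⟨δ, hδ, hδ1, hδα⟩ := exists_dl (al4 a) h01
  obtain ⟨R, hR, hRd⟩ := exists_rad A hδ
  obtain ⟨κ', hκ', hre⟩ := re4 h E h1 h3
  have hpi := Real.pi_pos
  have hreal : ∀ x : Fin (Module.finrank ℤ X.L) → ℝ, (∀ i, |x i| < R) → ∀ k,
      |lr (A k) x| < δ := by
    intro x hx k
    have h5 := hRd (fun i => (x i : ℂ)) (by
      rw [mem_ball_zero_iff, pi_norm_lt_iff hR]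
      intro i
      rw [Complex.norm_real, Real.norm_eq_abs]
      exact hx i) k
    rwa [ln_real, Complex.norm_real, Real.norm_eq_abs] at h5
  have hpt : ∀ x : Fin (Module.finrank ℤ X.L) → ℝ, (∀ i, |x i| < R) → ∀ k,
      0 < al4 a k + lr (A k) x ∧ al4 a k + lr (A k) x < 1 := by
    intro x hx k
    have h5 := abs_lt.1 (hreal x hx k)
    have h6 := hδα k
    constructor <;> linarith
  have hc : ∀ j, ∑ k, gg (al4 a k) * A k j = 0 := by
    intro j
    have h5 := h.c1 (toR (E j)) (Submodule.subset_span ⟨_, hEL j, rfl⟩)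
    rw [pf_apply] at h5
    rw [Fintype.sum_prod_type]
    exact h5
  obtain ⟨y, hy⟩ := lapxs (ι := Fin (Module.finrank ℤ X.L)) (R := R) (κ' := κ') (κ := κ2 / 8)
    (B := B) (η1 := R / 2) (S := 2) hR hκ' (by positivity) hB0 (half_pos hR) (by norm_num)
    (qq (Vp a) (al4 a) A (fun k => ep (σ k.1) k.2) f' g') (HH4 (al4 a) A f' g' jj ll)
    (qq_an hLC hδ hδα hRd _ _ _ _)
    (qq_zero hLC h01 (by rw [Fintype.sum_prod_type]; rfl) _ _ _)
    (qq_fderiv hLC h01 _ _ _ _ hc)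
    (by
      intro x hx
      rw [qq_real hLC _ _ _ _ _ (hpt x hx)]
      have h5 := hre x fun k => (hpt x hx k).1.le
      have e1 : (((Vp a - ∑ k, LL (al4 a k + lr (A k) x) : ℝ) : ℂ) +
          Complex.I * ((Real.pi / 2 * ∑ k : Fin c × Fin 4, ep (σ k.1) k.2 * lr (A k) x ^ 2 +
          2 * Real.pi * (lr f' x * lr g' x) : ℝ) : ℂ)).re =
          Vp a - ∑ k, LL (al4 a k + lr (A k) x) := by
        rw [Complex.add_re, Complex.ofReal_re, Complex.mul_re, Complex.I_re, Complex.I_im,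
          Complex.ofReal_im]
        ring
      rw [e1]
      linarith)
    (HH4_diff hGAM hLC hδ hδα hRd _ _ _ _)
    (HH4_UA hGAM hLC hGX hUA hδ hδ1 hδα hRd _ _ _ _)
    (fun N i => sS τ N i) (fun N i => sS_bd τ N i) F hFb (Eventually.of_forall hFm)
    (by
      have h3N : Tendsto (fun N : ℕ => 3 / (N:ℝ)) atTop (𝓝 0) :=
        tendsto_const_div_atTop_nhds_zero_nat 3
      filter_upwards [eventually_ge_atTop 1, h3N.eventually_le_const
        (by linarith : (0:ℝ) < R / 4), (tendsto_natCast_atTop_atTop (R := ℝ)).eventually_ge_atTop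
          (1 / δ)] with N hN hN3 hNδ u hu
      have hN0 : (0 : ℝ) < N := by exact_mod_cast hN
      set w : Fin (Module.finrank ℤ X.L) → ℝ := fun i => st univ N u i + sS τ N i / N with hw
      have hwt : ∀ i, w i = 2 * (((tS τ N u i : ℤ) : ℝ) - ((N : ℝ) - 1) * τ i) / N :=
        fun i => st_tS τ hN u i
      have hwR : ∀ i, |w i| < R := by
        intro i
        have h5 := st_near univ hN u i
        have h6 := sS_bd τ N i
        have h7 : |sS τ N i / N| ≤ 2 / N := by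
          rw [abs_div, abs_of_pos hN0]
          exact div_le_div_of_nonneg_right h6 hN0.le
        have h8 : (1 : ℝ) / N + 2 / N = 3 / N := by ring
        have h9 := hu i
        have e : w i = (st univ N u i - u i) + u i + sS τ N i / N := by rw [hw]; ring
        rw [e]
        have := abs_add_le (st univ N u i - u i + u i) (sS τ N i / N)
        have := abs_add_le (st univ N u i - u i) (u i)
        linarith
      have hU : ∀ φ : (Fin c → Fin 6 → ℝ) →ₗ[ℝ] ℝ, lr (fun j => φ (toR (E j))) w =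
          φ (XL E fun j => w j / 2) := fun φ => lr_XL E φ w
      set U : Fin c → Fin 6 → ℝ := XL E fun j => w j / 2 with hUd
      have hlr : ∀ k, lr (A k) w = al4 U k := fun k => al4_XL E w k
      have hvu : ∀ b i, ((vc X E N (tS τ N u) b i : ℤ) : ℝ) = ((N : ℝ) - 1) * a b i + N * U b i := by
        intro b i
        have h5 := hvc N (tS τ N u) b i
        have e1 : XL E (fun j => ((tS τ N u j : ℤ) : ℝ) - N * τ j) = (N : ℝ) • U - XL E τ := by
          rw [hUd, ← map_smul, ← map_sub]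
          congr 1
          funext j
          show ((tS τ N u j : ℤ) : ℝ) - N * τ j = N * (w j / 2) - τ j
          rw [hwt j]
          field_simp
          ring
        rw [e1] at h5
        have e2 : ((N : ℝ) • U - XL E τ) b i = N * U b i - XL E τ b i := rfl
        rw [e2] at h5
        have h6 := hab b i
        linarith
      have hpt' := hpt w hwR
      have hcpos : ∀ b q, 0 ≤ cor (vc X E N (tS τ N u) b) q := by
        intro b q
        have h5 : ((cor (vc X E N (tS τ N u) b) q : ℤ) : ℝ) =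
            ((N : ℝ) - 1) * cor (a b) q + N * cor (U b) q := by
          rw [cor_cast]
          have := hvu b
          fin_cases q <;> simp only [cor, this, Fin.zero_eta, Fin.mk_one, Fin.reduceFinMk,
            Matrix.cons_val] <;> ring
        have h6 := abs_lt.1 (hreal w hwR (b, q))
        rw [hlr] at h6
        have h7 : -δ < cor (U b) q := h6.1
        have h8 : 3 * δ ≤ cor (a b) q := (hδα (b, q)).1
        have h9 : cor (a b) q < 1 := (h01 (b, q)).2
        have h10 : 1 ≤ N * δ := by rwa [div_le_iff₀ hδ] at hNδ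
        have h11 : (0 : ℝ) < ((cor (vc X E N (tS τ N u) b) q : ℤ) : ℝ) := by
          rw [h5]
          nlinarith
        exact_mod_cast h11.le
      have hξ : ∀ b q, 0 < cor (a b) q + cor (U b) q ∧ cor (a b) q + cor (U b) q < 1 := by
        intro b q
        have := hpt' (b, q)
        rw [hlr] at this
        exact this
      have hv4 := val4 hLC hGAM h hN (vc X E N (tS τ N u)) (hz N _) (hn N _) hcpos U (hXL _) hvu hξ
        f g jj ll
      have e0 : F N u = aN N (tS τ N u) * (e4 σ a jj ll N)⁻¹ := rfl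
      have e0' : aN N (tS τ N u) = ((√N ^ (4 * c) * Real.exp (N * Vp a) : ℝ) : ℂ) * (P4 σ a N)⁻¹ *
        t4 σ N (vc X E N (tS τ N u)) * cs N (2 * ((f (dv N a (vc X E N (tS τ N u))) - jj) *
          (g (dv N a (vc X E N (tS τ N u))) - ll))) := rfl
      rw [e0, e0', hv4, mul_assoc _ (e4 σ a jj ll N), mul_inv_cancel₀ (e4_ne σ a jj ll N), mul_one]
      show _ = Complex.exp (N * qq (Vp a) (al4 a) A (fun k => ep (σ k.1) k.2) f' g'
        (fun i => ((w i : ℝ) : ℂ))) * HH4 (al4 a) A f' g' jj ll N (fun i => ((w i : ℝ) : ℂ))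
      unfold qq HH4
      have e3 : ∀ k, ln (A k) (fun i => ((w i : ℝ) : ℂ)) = ((al4 U k : ℝ) : ℂ) := by
        intro k
        rw [ln_real, hlr]
      have e4' : ln f' (fun i => ((w i : ℝ) : ℂ)) = ((f U : ℝ) : ℂ) := by
        rw [ln_real, hf', hU]
      have e5 : ln g' (fun i => ((w i : ℝ) : ℂ)) = ((g U : ℝ) : ℂ) := by
        rw [ln_real, hg', hU]
      simp only [e3, e4', e5])
  -- the conclusion
  obtain ⟨ue, -, hue⟩ := Pool.Agent.Q99.HX.Xp.inv
    (Complex.I * Real.pi * (Aq σ a / 2) + 2 * Real.pi * Complex.I * (jj * ll))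
  obtain ⟨ye, -, hye⟩ := (Pool.Agent.Q99.HX.Xp.const
    ((1 / 2 : ℂ) ^ Module.finrank ℤ X.L)).mul hue
  obtain ⟨y', -, hy'⟩ := hye.mul hy
  refine ⟨y', hy'.congr' ?_⟩
  filter_upwards [eventually_ge_atTop 1, hFb] with N hN hFbN
  have hN0 : (0 : ℝ) < N := by exact_mod_cast hN
  have hs := sum_ZF X E h1 h2 N (fun v => ((√N ^ (4 * c) * Real.exp (N * Vp a) : ℝ) : ℂ) *
    (P4 σ a N)⁻¹ * t4 σ N v * cs N (2 * ((f (dv N a v) - jj) * (g (dv N a v) - ll))))
    (fun v b i h => by rw [t4_zero v b i h, mul_zero, zero_mul])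
  have hFi : Integrable (F N) volume := by
    refine Integrable.mono' ((Pool.Agent.Q176.HX.gauss_int
      (ι := Fin (Module.finrank ℤ X.L)) (b := κ2 / 8 * N) (by positivity)).const_mul B) (hFm N)
      (Eventually.of_forall hFbN)
  have hne := e4_ne σ a jj ll N
  have hI : Integrable (fun u => aN N (tS τ N u)) volume := by
    have h5 := hFi.mul_const (e4 σ a jj ll N)
    refine h5.congr (Eventually.of_forall fun u => ?_)
    rw [hF]
    simp only
    rw [mul_assoc, inv_mul_cancel₀ hne, mul_one]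
  have h6 := sum_int (aN N) hN τ hI
  have h7 : ∫ x, F N x = (∫ u, aN N (tS τ N u)) * (e4 σ a jj ll N)⁻¹ := by
    rw [hF]
    exact integral_mul_const _ _
  rw [h7, h6]
  have e6 : Complex.exp ((Complex.I * Real.pi * (Aq σ a / 2) + 2 * Real.pi * Complex.I *
      (jj * ll)) / N) = e4 σ a jj ll N := rfl
  rw [e6, Fintype.card_fin]
  have e7 : ∑' x, aN N x = _ := hs
  rw [e7]
  have hsq : ((√(N:ℝ) : ℝ) : ℂ) ^ 2 = N := by
    have := Real.sq_sqrt hN0.le
    exact_mod_cast this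
  have hs0 : ((√(N:ℝ) : ℝ) : ℂ) ≠ 0 := by
    exact_mod_cast (Real.sqrt_pos.2 hN0).ne'
  have hNc : (N : ℂ) ≠ 0 := by exact_mod_cast hN0.ne'
  obtain ⟨n, hnn⟩ : ∃ n, n = Module.finrank ℤ X.L := ⟨_, rfl⟩
  obtain ⟨T, hT⟩ : ∃ T : ℂ, T = ((Real.exp (N * Vp a) : ℝ) : ℂ) * (P4 σ a N)⁻¹ := ⟨_, rfl⟩
  have key : ∀ (S : ℂ), (1 / 2 : ℂ) ^ Module.finrank ℤ X.L * e4 σ a jj ll N *
      (((√(N:ℝ) : ℝ) : ℂ) ^ Module.finrank ℤ X.L *
      ((((2 / N : ℝ) ^ Module.finrank ℤ X.L : ℝ) : ℂ) * S * (e4 σ a jj ll N)⁻¹)) =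
      (((√(N:ℝ) : ℝ) : ℂ) ^ Module.finrank ℤ X.L)⁻¹ * S := by
    intro S
    have e8 : (1 / 2 : ℂ) ^ Module.finrank ℤ X.L * (((√(N:ℝ) : ℝ) : ℂ) ^ Module.finrank ℤ X.L *
        (((2 / N : ℝ) ^ Module.finrank ℤ X.L : ℝ) : ℂ)) =
        (((√(N:ℝ) : ℝ) : ℂ) ^ Module.finrank ℤ X.L)⁻¹ := by
      rw [Complex.ofReal_pow, ← mul_pow, ← mul_pow, ← inv_pow]
      congr 1
      push_cast
      rw [← hsq]
      field_simp
    rw [← e8]
    field_simp
  rw [key, mul_sum, mul_sum]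
  refine sum_congr rfl fun v _ => ?_
  split_ifs
  · rw [div_eq_mul_inv]
    push_cast
    ring
  · rw [mul_zero, mul_zero]

end Pool.Agent.H760.TC
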