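import Pool.Agent.H760.TC.Xc
import Pool.Agent.H760.TC.Phc
import Pool.Agent.H760.TX.Fx
import Pool.Graph.R_pool_sql_team_seeded_3997aac3.Q202.HX2.PX

/-!
# Alternating links in the thickened torus: the trace to all orders
-/

set_option autoImplicit false

namespace Pool.Agent.H760.TC

open Finset Filter Topology
open Pool.Agent.W715.VC (rt)
open Pool.Agent.W719.BS (LL)
open Pool.Agent.W358.BSTay (gg)
open Pool.Agent.Q191.TW (cs cs_add cs_zero cs_ne cs_neg cs_norm dl)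
open Pool.Agent.Q99.FP2 (Phs Fh)
open Pool.Agent.Q99.FAL
open Pool.Agent.Q99.KN (Rgn)
open Pool.Agent.Q99.UB (sw sw_ok sw_ne Wc)
open Pool.Agent.Q99.HX (Xp)
open Pool.Agent.H760.TT

variable {N : ℕ} {D : List Vx} {k m : ℕ}

/-- **the trace to all orders** -/
theorem asymX4 (h : Val D (m + 1) (m + 1)) (hC : Cell D m k) (a : Fin D.length → Fin 6 → ℝ)
    (ha : CritD k m D a) (j l : ℤ) (hfl : Flat k m D a j l) : ∃ y : ℕ → ℂ, y 0 ≠ 0 ∧
    Xp (fun N : ℕ => (ph4 D m a j l N)⁻¹ *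
      (∑ t : Fin (m + 1) → Fin N, FDG (rgc N) D (dl (List.ofFn t)) (List.ofFn t)) /
      ((√N * Real.exp (-(N * Vp a)) : ℝ) : ℂ)) y := by
  classical
  have hnn : ∀ b i, 0 ≤ a b i := by
    intro b i
    have h1 := fun q => (ha.pos b q).le
    obtain ⟨z4, z5⟩ := ha.z b
    have p0 := h1 0
    have p1 := h1 1
    have p2 := h1 2
    have p3 := h1 3
    simp only [cor, Matrix.cons_val, z4, z5, add_zero] at p0 p1 p2 p3
    fin_cases i <;> simp only [Fin.zero_eta, Fin.mk_one, Fin.reduceFinMk] <;> linarith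
  obtain ⟨a0, -, h0⟩ := exists_a0 h hC a hnn ha.ts
  obtain ⟨z, hz, hlim⟩ := netx4 Pool.Agent.Q99.HT.t_LC Pool.Agent.Q99.HT.t_GAM
    Pool.Agent.Q162.HX.task_GX Pool.Agent.Q202.HX2.task_UA
    (X4 k m D a0) (sgD D) a (ha.crit a0 h0) (lw (gS k m D)) (lw (gK k m D)) j l
  refine ⟨z, hz, Pool.Agent.Q99.HX.Xp.congr' hlim ?_⟩
  have hfr : Module.finrank ℤ (X4 k m D a0).L = 2 * D.length + 1 := rank_L4 h hC a ha.ts
  filter_upwards [eventually_ge_atTop 1] with N hN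
  have hN0 : (N : ℂ) ≠ 0 := by exact_mod_cast (by omega : N ≠ 0)
  have hNr : (0 : ℝ) < N := by exact_mod_cast hN
  rw [trace_net4 hN h hC a0 h0 a j l hfl, hfr]
  have hX : TDG (rgc N) D (m + 1) 0 * cs N (((m + 1 : ℕ) : ℝ) * wr D * ((N : ℝ) - 1) ^ 2 / 2) *
      cs N (N * ((N : ℝ) - 1) * (j * wr D - l * ((m + 1 : ℕ) : ℤ))) ≠ 0 :=
    mul_ne_zero (mul_ne_zero (TDG_ne (rgc N) (fun P => sw_ok hN P.σ) hN D _ _ 0 h) (cs_ne _ _))
      (cs_ne _ _)
  have hP : P4 (sgD D) a N ≠ 0 := cs_ne _ _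
  unfold ph4
  obtain ⟨X, hXd⟩ : ∃ X, X = TDG (rgc N) D (m + 1) 0 *
    cs N (((m + 1 : ℕ) : ℝ) * wr D * ((N : ℝ) - 1) ^ 2 / 2) *
      cs N (N * ((N : ℝ) - 1) * (j * wr D - l * ((m + 1 : ℕ) : ℤ))) := ⟨_, rfl⟩
  rw [← hXd] at hX ⊢
  have hs : 0 < √(N : ℝ) := Real.sqrt_pos.2 hNr
  have hsq : (N : ℝ) = √(N : ℝ) ^ 2 := (Real.sq_sqrt hNr.le).symm
  have e1 : √(N : ℝ) ^ (4 * D.length) / √(N : ℝ) ^ (2 * D.length + 1) * Real.exp (N * Vp a) =
      (N : ℝ) ^ D.length * (√(N : ℝ) * Real.exp (-(N * Vp a)))⁻¹ := by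
    have e2 : (N : ℝ) ^ D.length = √(N : ℝ) ^ (2 * D.length) := by
      rw [pow_mul, ← hsq]
    rw [e2, Real.exp_neg, mul_inv, inv_inv]
    have e3 : 4 * D.length = 2 * D.length + 2 * D.length := by ring
    rw [e3, pow_add, pow_succ]
    have hsn := hs.ne'
    field_simp
  rw [e1]
  push_cast
  have gen : ∀ A B S : ℂ, X ≠ 0 → P4 (sgD D) a N ≠ 0 → A * B⁻¹ * (P4 (sgD D) a N)⁻¹ * S =
      (X * P4 (sgD D) a N)⁻¹ * (A * X * S) / B := by
    intro A B S hX hP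
    field_simp
  exact gen _ _ _ hX hP

/-- **the trace of a semi-regular alternating diagram, to all orders** -/
theorem asymXS {X : Type} [Inhabited X] (h : Val D (m + 1) (m + 1)) (hC : Cell D m k)
    (lab : Fin D.length → Fin 4 → X) (fa : X → ℝ) (fb : X → Bool)
    (hpos : ∀ b q, 0 < fa (lab b q)) (hle : ∀ b q, fa (lab b q) ≤ 1 / 2)
    (hty : ∀ b q, fb (lab b q) = typ (D.get b).P.σ q)
    (hTS : TS k m D (fun b => x6 fun q => fa (lab b q)) 1)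
    (c : List X) (hcl : c.length = m + 1 + 1) (hP : PerX c) (hLK : LK D lab c c) :
    ∃ (j l : ℤ) (y : ℕ → ℂ), y 0 ≠ 0 ∧
    Xp (fun N : ℕ => (ph4 D m (fun b => x6 fun q => fa (lab b q)) j l N)⁻¹ *
      (∑ t : Fin (m + 1) → Fin N, FDG (rgc N) D (dl (List.ofFn t)) (List.ofFn t)) /
      ((√N * Real.exp (-(N * ∑ b, ∑ q, LL (fa (lab b q)))) : ℝ) : ℂ)) y := by
  have hck := fun F : X → ℝ => LK_map F D _ c c hLK
  have hlF : ∀ F : X → ℝ, (c.map F).length = m + 1 + 1 := fun F => by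
    rw [List.length_map, hcl]
  have hcor : ∀ b, cor (x6 fun q => fa (lab b q)) = fun q => fa (lab b q) := fun b => cor_x6 _
  have hcrit : CritD k m D (fun b => x6 fun q => fa (lab b q)) := by
    refine ⟨hTS, fun b => ⟨rfl, rfl⟩, fun b q => ?_, fun x hx => ?_, fun x hx => ?_⟩
    · rw [hcor]
      exact hpos b q
    · have := pf_zero h hC _ _ (hlF fun y => gg (fa y)) (hP.map _) (hck fun y => gg (fa y)) x hx
      simp only [hcor]
      exact this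
    · have := pf_zero h hC _ _ (hlF fun y => (if fb y then (1 : ℝ) else -1) * fa y) (hP.map _)
        (hck fun y => (if fb y then (1 : ℝ) else -1) * fa y) x hx
      simp only [hty, typ_ep] at this
      simp only [hcor]
      exact this
  have hG4 : ∀ b, G4 (x6 fun q => fa (lab b q)) (fun q => ct (fa (lab b q))) := by
    intro b
    refine ⟨fun q => ?_, hTS.1 b, fun q => ?_, fun q => ?_⟩
    · rw [hcor]; exact hpos b q
    · rw [hcor]; exact hle b q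
    · rw [hcor]
  obtain ⟨j, l, hfl⟩ := flat4 h hC (fun b => x6 fun q => fa (lab b q)) hTS
    (fun b q => ct (fa (lab b q))) (c.map fun y => ct (fa y)) (hlF _) (hP.map _)
    (hck fun y => ct (fa y)) hG4
  obtain ⟨z, hz, hlim⟩ := asymX4 h hC _ hcrit j l hfl
  refine ⟨j, l, z, hz, ?_⟩
  have hV : Vp (fun b => x6 fun q => fa (lab b q)) = ∑ b, ∑ q, LL (fa (lab b q)) := by
    unfold Vp
    simp only [hcor]
  rw [hV] at hlim
  exact hlim

/-- **the trace with its phase, to all orders** -/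
theorem asymPX {X : Type} [Inhabited X] (h : Val D (m + 1) (m + 1)) (hC : Cell D m k)
    (lab : Fin D.length → Fin 4 → X) (fa : X → ℝ) (fb : X → Bool)
    (hpos : ∀ b q, 0 < fa (lab b q)) (hle : ∀ b q, fa (lab b q) ≤ 1 / 2)
    (hty : ∀ b q, fb (lab b q) = typ (D.get b).P.σ q)
    (hTS : TS k m D (fun b => x6 fun q => fa (lab b q)) 1)
    (c : List X) (hcl : c.length = m + 1 + 1) (hP : PerX c) (hLK : LK D lab c c) :
    ∃ q : ℤ, (2 : ℤ) ∣ q - (m + 1) * wr D ∧ ∃ u : ℕ → ℂ, u 0 ≠ 0 ∧ Xp (fun N : ℕ =>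
      rt N ^ (-((m + 1 + 1 : ℕ) : ℤ) * ((N : ℤ) - 1)) *
      (N * ∑ t : Fin (m + 1) → Fin N, FDG (rgc N) D (dl (List.ofFn t)) (List.ofFn t)) /
      (N * √N * Complex.exp (N * ((-∑ b, ∑ q, LL (fa (lab b q)) : ℝ) +
        Real.pi * ((Aq (sgD D) (fun b => x6 fun q => fa (lab b q)) - wS (sgD D)) / 2 + q / 2 : ℝ) *
          Complex.I)))) u := by
  obtain ⟨j, l, z, hz, hlim⟩ := asymXS h hC lab fa fb hpos hle hty hTS c hcl hP hLK
  obtain ⟨A, hA⟩ : ∃ A, A = Aq (sgD D) (fun b => x6 fun q => fa (lab b q)) - wS (sgD D) := ⟨_, rfl⟩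
  obtain ⟨V, hV⟩ : ∃ V, V = ∑ b, ∑ q, LL (fa (lab b q)) := ⟨_, rfl⟩
  rw [← hA, ← hV]
  rw [← hV] at hlim
  have hph := phs_ph4 h (fun b => x6 fun q => fa (lab b q)) j l
  rw [← hA] at hph
  have h0 : Phs (fun N => rt N ^ (-((m + 1 + 1 : ℕ) : ℤ) * ((N : ℤ) - 1))) 0 := by
    refine ⟨-((m + 1 + 1 : ℕ) : ℝ), ((m + 1 + 1 : ℕ) : ℝ), fun N _ => ?_⟩
    show rt N ^ _ = _
    rw [Pool.Agent.Q191.TW.rt_cs]
    congr 1
    push_cast
    ring
  have h1 := h0.mul hph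
  rw [zero_add] at h1
  obtain ⟨y1, hy1, hlim'⟩ := Pool.Agent.H760.TX.phs_xp h1
  obtain ⟨y2, e2', g2⟩ := hlim'.mul hlim
  refine ⟨qC D m j l, qC_par D m j l, y2, ?_, Pool.Agent.Q99.HX.Xp.congr' g2 ?_⟩
  · rw [e2']
    exact mul_ne_zero hy1 hz
  filter_upwards [eventually_gt_atTop 0] with N hN
  have hNr : (0 : ℝ) < N := by exact_mod_cast hN
  have hs : (0 : ℝ) < √N := Real.sqrt_pos.mpr hNr
  have hNc : (N : ℂ) ≠ 0 := by exact_mod_cast hN.ne'
  have hsc : ((√N : ℝ) : ℂ) ≠ 0 := by exact_mod_cast hs.ne'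
  have hphn : ph4 D m (fun b => x6 fun q => fa (lab b q)) j l N ≠ 0 := by
    have := ph4_norm hN h (fun b => x6 fun q => fa (lab b q)) j l
    intro hh
    rw [hh, norm_zero] at this
    exact one_ne_zero this.symm
  have e : Complex.exp (N * ((-V : ℝ) +
        Real.pi * (A / 2 + (qC D m j l : ℝ) / 2 : ℝ) * Complex.I)) =
      Complex.exp (N * (-V : ℝ)) *
        Complex.exp (N * (Real.pi * (A / 2 + (qC D m j l : ℝ) / 2 : ℝ) * Complex.I)) := by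
    rw [← Complex.exp_add]
    congr 1
    ring
  have e3 : ((Real.exp (-(N * V)) : ℝ) : ℂ) = Complex.exp (N * (-V : ℝ)) := by
    rw [Complex.ofReal_exp]
    congr 1
    push_cast
    ring
  rw [e, Complex.exp_neg, Complex.ofReal_mul, e3]
  have e1 := Complex.exp_ne_zero (N * (Real.pi * (A / 2 + (qC D m j l : ℝ) / 2 : ℝ) * Complex.I))
  have e2 := Complex.exp_ne_zero (N * (-V : ℝ))
  obtain ⟨E1, hE1⟩ : ∃ E, E = Complex.exp (N * (-V : ℝ)) := ⟨_, rfl⟩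
  rw [← hE1] at e2 ⊢
  push_cast at e1 e2 ⊢
  field_simp

end Pool.Agent.H760.TC
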