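import Pool.Agent.H760.TC.Xd
import Pool.Agent.Results.MP_f66dee_gt.SemiRegularPhases

/-!
# Semi-regular alternating links in the thickened torus: the Kashaev invariant to all orders
-/

set_option autoImplicit false

namespace Pool.Agent.H760.TC

open Finset Filter Topology
open Pool.Agent.Results.MP_bdeb5b_gt.SemiRegularLinks
open Pool.Agent.Results.MP_f66dee_gt.SemiRegularPhases

/-- **the Kashaev invariant to all orders** -/
theorem kashaev_xp (D : List Vertex) (m : ℕ) (s : Fin D.length → Fin 4 → ℕ)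
    (h1 : IsDiagram D (m + 1) (m + 1)) (h2 : Cellular D (m + 1)) (h3 : Alternating D (m + 1))
    (h4 : SemiRegular D (m + 1) s) :
    ∃ q : ℤ, (2 : ℤ) ∣ q - (((m + 1 : ℕ) : ℤ) * rotations D + D.length) ∧
      ∃ u : ℕ → ℂ, u 0 ≠ 0 ∧ Pool.Agent.Q99.HX.Xp (fun N : ℕ => kashaev (m + 1) (pieces D) N /
        (N * √N * Complex.exp (N * ((vol s + (cs D s + q * Real.pi ^ 2) * Complex.I) /
          (2 * Real.pi))))) u := by
  obtain ⟨k, hC⟩ := cell_eq D m h2
  have hV := val_eq D _ _ h1
  obtain ⟨⟨⟨ls, hls, hPs, hLs⟩, G, hG, hlap, hsums⟩, hge, hvx⟩ := h4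
  obtain ⟨cc, hcc, hPc, hLc⟩ := h3
  have hpos : ∀ k q, (0 : ℝ) < s k q := fun k q => by
    have := hge k q
    exact_mod_cast (by omega : 0 < s k q)
  have hTS := ts_eq D m k h1 hC (fun k q => 1 / (s k q : ℝ)) G hG hlap hsums hvx
  have hzip := Pool.Agent.H760.TC.LK_zip (D.map toV) _ _ ls ls cc cc (labels_eq D _ ls ls hLs)
    (labels_eq D _ cc cc hLc) (hls.trans hcc.symm)
  obtain ⟨q, hq, c, hc, h⟩ := Pool.Agent.H760.TC.asymPX hV hC (fun b q =>
      (s (b.cast (List.length_map _)) q, colour (D.get (b.cast (List.length_map _))).sign q))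
    (fun y : ℕ × Bool => 1 / (y.1 : ℝ)) (fun y => y.2) (fun b q => by
      have := hpos (b.cast (List.length_map _)) q
      show (0 : ℝ) < 1 / (s (b.cast (List.length_map _)) q : ℝ)
      positivity)
    (fun b q => by
      show 1 / (s (b.cast (List.length_map _)) q : ℝ) ≤ 1 / 2
      have h5 : (2 : ℝ) ≤ s (b.cast (List.length_map _)) q := by exact_mod_cast hge _ q
      exact one_div_le_one_div_of_le (by norm_num) h5)
    (fun b q => by
      have e : (D.map toV).get b = toV (D.get (b.cast (List.length_map _))) := by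
        rw [List.get_eq_getElem, List.getElem_map]
        rfl
      rw [e]
      rfl) hTS _ (by rw [List.length_zip, hls, hcc, min_self])
    (Pool.Agent.H760.TC.PerX.zip hPs hPc (hls.trans hcc.symm)) hzip
  have hsum : ∑ b : Fin (D.map toV).length, ∑ q, Pool.Agent.W719.BS.LL
      (1 / (s (b.cast (List.length_map _)) q : ℝ)) =
      ∑ k, ∑ q, Pool.Agent.W719.BS.LL (1 / (s k q : ℝ)) :=
    (finCongr (List.length_map (as := D) toV)).sum_comp
      fun k => ∑ q, Pool.Agent.W719.BS.LL (1 / (s k q : ℝ))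
  have hex : (((-∑ b : Fin (D.map toV).length, ∑ q, Pool.Agent.W719.BS.LL
        (1 / (s (b.cast (List.length_map _)) q : ℝ)) : ℝ) : ℂ) +
        Real.pi * ((Pool.Agent.H760.TC.Aq (Pool.Agent.H760.TC.sgD (D.map toV))
          (fun b => Pool.Agent.H760.TC.x6 fun q => 1 / (s (b.cast (List.length_map _)) q : ℝ)) -
          Pool.Agent.H760.TC.wS (Pool.Agent.H760.TC.sgD (D.map toV))) / 2 + q / 2 : ℝ) *
          Complex.I) =
      (vol s + (cs D s + ((q - writhe D : ℤ) : ℂ) * Real.pi ^ 2) * Complex.I) /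
        (2 * Real.pi) := by
    have hpi : (Real.pi : ℂ) ≠ 0 := by exact_mod_cast Real.pi_pos.ne'
    rw [writhe_eq, ← quad_eq, hsum, vol_eq]
    rw [eq_div_iff (mul_ne_zero two_ne_zero hpi)]
    push_cast
    ring
  refine ⟨q - writhe D, ?_, c, hc, ?_⟩
  · rw [rotations_eq] at hq
    obtain ⟨x, hx⟩ := hq
    obtain ⟨y, hy⟩ := writhe_par D
    refine ⟨x - y, ?_⟩
    push_cast
    linarith
  · rw [← hex]
    refine Pool.Agent.Q99.HX.Xp.congr' h ?_
    filter_upwards [eventually_ge_atTop 1] with N hN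
    rw [kashaev_eq D m h1 N hN]

end Pool.Agent.H760.TC
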