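import Pool.Agent.H811.VX.Lapx

/-!
# Laplace's method to all orders for sums over shifted lattices

Adapted from `H811/VX/Lapx.lean`.
-/

set_option autoImplicit false

namespace Pool.Agent.H760.TC

open Finset Filter Topology MeasureTheory
open Pool.Agent.H760.MX (stN aS stN_sum stN_near stN_meas)
open Pool.Agent.Q99.HX (Xp UA)
open Pool.Agent.Q176.HX (pow_of_exp gauss_int xp_add_small)
open Pool.Agent.H811.VX

/-- **Laplace's method to all orders**, with step functions and a bounded shift of the lattice -/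
theorem lapxs {ι : Type} [Fintype ι] [DecidableEq ι] {R κ' κ B η1 S : ℝ} (hR : 0 < R)
    (hκ' : 0 < κ') (hκ : 0 < κ) (hB : 0 ≤ B) (hη1 : 0 < η1) (hS : 0 ≤ S) (q : (ι → ℂ) → ℂ)
    (H : ℕ → (ι → ℂ) → ℂ) (hq : AnalyticOnNhd ℂ q (Metric.ball 0 R)) (hq0 : q 0 = 0)
    (hqd : fderiv ℂ q 0 = 0)
    (hre : ∀ x : ι → ℝ, (∀ i, |x i| < R) → (q fun i => x i).re ≤ -κ' * ∑ i, x i ^ 2)
    (hH : ∀ᶠ N : ℕ in atTop, DifferentiableOn ℂ (H N) (Metric.ball 0 R))
    (hUA : UA H (Metric.ball 0 R)) (s : ℕ → ι → ℝ) (hs : ∀ N i, |s N i| ≤ S)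
    (F : ℕ → (ι → ℝ) → ℂ)
    (hFb : ∀ᶠ N : ℕ in atTop, ∀ u, ‖F N u‖ ≤ B * Real.exp (-(κ * N * ∑ i, u i ^ 2)))
    (hFm : ∀ᶠ N : ℕ in atTop, AEStronglyMeasurable (F N) volume)
    (hFe : ∀ᶠ N : ℕ in atTop, ∀ u : ι → ℝ, (∀ i, |u i| ≤ η1) →
      F N u = Complex.exp (N * q fun i => ((st univ N u i + s N i / N : ℝ) : ℂ)) *
        H N fun i => ((st univ N u i + s N i / N : ℝ) : ℂ)) :
    ∃ y : ℕ → ℂ, Xp (fun N : ℕ => ((√N : ℝ) : ℂ) ^ Fintype.card ι * ∫ x, F N x) y := by
  obtain ⟨R', K, hR', hR'R, hK, hqb⟩ := re_bound hR hκ' q hq hqd hre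
  have hsub : Metric.ball (0 : ι → ℂ) R' ⊆ Metric.ball 0 R := Metric.ball_subset_ball hR'R
  have hqdo : DifferentiableOn ℂ q (Metric.ball 0 R) :=
    fun u hu => (hq u hu).differentiableAt.differentiableWithinAt
  -- the bound of the amplitude
  obtain ⟨B0, hB0, hHB⟩ : ∃ B0 : ℝ, 0 ≤ B0 ∧ ∀ᶠ N : ℕ in atTop,
      ∀ u ∈ Metric.ball (0 : ι → ℂ) R, ‖H N u‖ ≤ B0 := by
    obtain ⟨h, h1, -⟩ := hUA
    obtain ⟨C, hC⟩ := h1 0
    refine ⟨|C|, abs_nonneg _, ?_⟩
    filter_upwards [hC] with N hN u hu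
    have h2 := hN u hu
    rw [range_zero, sum_empty, sub_zero, pow_zero, div_one] at h2
    exact h2.trans (le_abs_self _)
  -- the potential is Lipschitz
  obtain ⟨Lq, hLq, hLip⟩ : ∃ Lq : ℝ, 0 ≤ Lq ∧ ∀ u ∈ Metric.ball (0 : ι → ℂ) (R' / 2),
      ∀ v ∈ Metric.ball (0 : ι → ℂ) (R' / 2), ‖q v - q u‖ ≤ Lq * ‖v - u‖ := by
    have hcl : Metric.closedBall (0 : ι → ℂ) (R' / 2) ⊆ Metric.ball 0 R :=
      Metric.closedBall_subset_ball (by linarith)
    have hcont : ContinuousOn (fderiv ℂ q) (Metric.closedBall (0 : ι → ℂ) (R' / 2)) :=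
      fun u hu => (hq u (hcl hu)).fderiv.continuousAt.continuousWithinAt
    obtain ⟨C, hC⟩ := (isCompact_closedBall (0 : ι → ℂ) (R' / 2)).exists_bound_of_continuousOn hcont
    refine ⟨|C|, abs_nonneg _, fun u hu v hv => ?_⟩
    exact (convex_ball (0 : ι → ℂ) (R' / 2)).norm_image_sub_le_of_norm_fderiv_le (𝕜 := ℂ)
      (fun w hw => (hq w (hcl (Metric.ball_subset_closedBall hw))).differentiableAt)
      (fun w hw => (hC w (Metric.ball_subset_closedBall hw)).trans (le_abs_self _)) hu hv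
  set R2 : ℝ := R' / 4 with hR2
  have hR2p : 0 < R2 := by positivity
  -- Laplace's method
  obtain ⟨η0, hη0, hη0R, hfl⟩ := Pool.Agent.Q162.HX.task_FLAP ι R κ' hR hκ' q H hq hq0 hqd hre
    (hH.mono fun N hN => hN.continuousOn) hUA
  set η : ℝ := min (min (η0 / 2) (R2 / 4)) (min η1 (1 / 2)) with hη
  have hηp : 0 < η := lt_min (lt_min (by positivity) (by positivity)) (lt_min hη1 (by norm_num))
  have e1 : 2 * η ≤ η0 := by
    have : η ≤ η0 / 2 := (min_le_left _ _).trans (min_le_left _ _)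
    linarith
  have e2 : η ≤ R2 / 4 := (min_le_left _ _).trans (min_le_right _ _)
  have e3 : η ≤ η1 := (min_le_right _ _).trans (min_le_left _ _)
  have e4 : η < 1 := ((min_le_right _ _).trans (min_le_right _ _)).trans_lt (by norm_num)
  obtain ⟨y, hy⟩ := hfl (2 * η) (by positivity) e1
  refine ⟨y, xp_add_small hy fun k => ?_⟩
  -- the shifted amplitude
  set dl : ℕ → ι → ℂ := fun N i => ((s N i / N : ℝ) : ℂ) with hdl
  set H' : ℕ → (ι → ℂ) → ℂ := fun N u => Complex.exp (N * (q (u + dl N) - q u)) * H N (u + dl N)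
    with hH'
  have hdln : ∀ N : ℕ, 1 ≤ N → ‖dl N‖ ≤ S / N := by
    intro N hN
    have hN0 : (0 : ℝ) < N := by exact_mod_cast hN
    refine (pi_norm_le_iff_of_nonneg (by positivity)).2 fun i => ?_
    rw [hdl]
    simp only
    rw [Complex.norm_real, Real.norm_eq_abs, abs_div, abs_of_pos hN0]
    exact div_le_div_of_nonneg_right (hs N i) hN0.le
  have hsmall : ∀ᶠ N : ℕ in atTop, 1 ≤ N ∧ ‖dl N‖ ≤ R2 ∧ S / N ≤ η / 4 := by
    filter_upwards [eventually_ge_atTop 1,
      (tendsto_natCast_atTop_atTop (R := ℝ)).eventually_ge_atTop (S / R2),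
      (tendsto_natCast_atTop_atTop (R := ℝ)).eventually_ge_atTop (4 * S / η)] with N h1 h2 h3
    have hN0 : (0 : ℝ) < N := by exact_mod_cast h1
    refine ⟨h1, (hdln N h1).trans ?_, ?_⟩
    · rw [div_le_iff₀ hN0]
      rw [div_le_iff₀ hR2p] at h2
      linarith
    · rw [div_le_iff₀ hN0]
      rw [div_le_iff₀ hηp] at h3
      linarith
  have hmem : ∀ N : ℕ, ‖dl N‖ ≤ R2 → ∀ u ∈ Metric.ball (0 : ι → ℂ) R2,
      u ∈ Metric.ball (0 : ι → ℂ) (R' / 2) ∧ u + dl N ∈ Metric.ball (0 : ι → ℂ) (R' / 2) := by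
    intro N hN u hu
    rw [mem_ball_zero_iff] at hu
    constructor
    · rw [mem_ball_zero_iff]
      linarith
    · rw [mem_ball_zero_iff]
      have := norm_add_le u (dl N)
      linarith
  have hb2 : Metric.ball (0 : ι → ℂ) (R' / 2) ⊆ Metric.ball 0 R :=
    Metric.ball_subset_ball (by linarith)
  obtain ⟨c0, C0, hc0, hdfl⟩ := dfl univ (R := R2) (κ := κ' / 2) (K := K)
    (B := Real.exp (Lq * S) * B0) hR2p (half_pos hκ') hK (by positivity) q H'
    (hqdo.mono fun u hu => by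
      rw [mem_ball_zero_iff] at hu ⊢
      linarith)
    (fun u hu => hqb u (by
      rw [mem_ball_zero_iff] at hu ⊢
      linarith))
    (by
      filter_upwards [hH, hsmall] with N h1 h2
      obtain ⟨h2, h3, -⟩ := h2
      have hadd : DifferentiableOn ℂ (fun u : ι → ℂ => u + dl N) (Metric.ball 0 R2) :=
        (differentiableOn_id).add_const _
      have hmaps : Set.MapsTo (fun u : ι → ℂ => u + dl N) (Metric.ball 0 R2) (Metric.ball 0 R) :=
        fun u hu => hb2 (hmem N h3 u hu).2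
      have g1 : DifferentiableOn ℂ (fun u => q (u + dl N)) (Metric.ball 0 R2) :=
        hqdo.comp hadd hmaps
      have g2 : DifferentiableOn ℂ (fun u => H N (u + dl N)) (Metric.ball 0 R2) :=
        h1.comp hadd hmaps
      have g3 : DifferentiableOn ℂ q (Metric.ball 0 R2) :=
        hqdo.mono fun u hu => hb2 (hmem N h3 u hu).1
      exact (((g1.sub g3).const_mul (N : ℂ)).cexp).mul g2)
    (by
      filter_upwards [hHB, hsmall] with N h1 h2 u hu
      obtain ⟨h2, h3, -⟩ := h2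
      have hN0 : (0 : ℝ) < N := by exact_mod_cast h2
      obtain ⟨m1, m2⟩ := hmem N h3 u hu
      rw [hH']
      simp only
      rw [norm_mul]
      refine mul_le_mul ?_ (h1 _ (hb2 m2)) (norm_nonneg _) (Real.exp_pos _).le
      refine (Complex.norm_exp_le_exp_norm _).trans (Real.exp_le_exp.2 ?_)
      rw [norm_mul, Complex.norm_natCast]
      have h4 := hLip u m1 _ m2
      rw [add_sub_cancel_left] at h4
      have h5 : Lq * ‖dl N‖ ≤ Lq * (S / N) := mul_le_mul_of_nonneg_left (hdln N h2) hLq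
      calc (N : ℝ) * ‖q (u + dl N) - q u‖ ≤ N * (Lq * (S / N)) :=
            mul_le_mul_of_nonneg_left (h4.trans h5) hN0.le
        _ = Lq * S := by field_simp)
    hηp e2 e4
  set Bo : Set (ι → ℝ) := {x | ∀ i, |x i| ≤ 2 * η} with hBo
  have hBopi : Bo = Set.univ.pi fun _ => Set.Icc (-(2 * η)) (2 * η) := by
    ext x
    simp only [hBo, Set.mem_ofPred_eq, Set.mem_univ_pi, Set.mem_Icc, abs_le]
  have hBom : MeasurableSet Bo := by
    rw [hBopi]
    exact MeasurableSet.univ_pi fun _ => measurableSet_Icc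
  have hBov : (volume : Measure (ι → ℝ)) Bo ≠ ⊤ := by
    rw [hBopi, volume_pi_pi]
    exact (ENNReal.prod_lt_top fun i _ => by rw [Real.volume_Icc]; exact ENNReal.ofReal_lt_top).ne
  set I0 : ℝ := ∫ x : ι → ℝ, Real.exp (-(κ / 2 * ∑ i, x i ^ 2)) with hI0
  have hI00 : 0 ≤ I0 := integral_nonneg fun x => (Real.exp_pos _).le
  set c1 : ℝ := min c0 (min (κ * η ^ 2 / 8) (κ' * η ^ 2 / 16)) with hc1
  have hc1p : 0 < c1 := lt_min hc0 (lt_min (by positivity) (by positivity))
  set C1 : ℝ := B * I0 + |C0| + B0 * (volume : Measure (ι → ℝ)).real Bo with hC1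
  refine ⟨1, ?_⟩
  have hsm := pow_of_exp (m := Fintype.card ι) (a := c1) (A := C1) hc1p k
  filter_upwards [hsm, hFb, hFm, hFe, hdfl, hHB, hH, hsmall,
    (tendsto_natCast_atTop_atTop (R := ℝ)).eventually_ge_atTop (4 / η)] with
    N h1 h2 h3 h4 h5 h6 h7 hsm2 hNη
  obtain ⟨hN1, hdlR, hSη⟩ := hsm2
  have hN0 : (0 : ℝ) < N := by exact_mod_cast hN1
  have hN1r : (1 : ℝ) ≤ N := by exact_mod_cast hN1
  obtain ⟨m1, m2, m3⟩ := mN_spec hηp e4 hN1 hNη
  set m : ℕ := mN η N with hm
  have hsy : aS N m = -aS N (N - m) := by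
    rw [aS_symm hN1 (by omega), neg_neg]
  set g : (ι → ℂ) → ℂ := fun u => Complex.exp (N * q u) * H N u with hg
  set δ : ι → ℝ := fun i => s N i / N with hδ
  have hδi : ∀ i, |δ i| ≤ η / 4 := by
    intro i
    rw [hδ]
    simp only
    rw [abs_div, abs_of_pos hN0]
    exact (div_le_div_of_nonneg_right (hs N i) hN0.le).trans hSη
  have hBB : ∀ x ∈ Bn ι N m, ∀ i, |x i| ≤ η := by
    intro x hx i
    have := hx i (Set.mem_univ i)
    rw [hsy] at this
    exact abs_le.2 ⟨by linarith [this.1], by linarith [this.2]⟩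
  have hBnm : MeasurableSet (Bn ι N m) := Bn_meas N m
  have hout0 : ∀ x : ι → ℝ, x ∉ Bn ι N m → ∃ i, η / 2 ≤ |x i| := by
    intro x hx
    have : ∃ i, x i ∉ Set.Icc (aS N m) (aS N (N - m)) := by
      by_contra hc
      push Not at hc
      exact hx fun i _ => hc i
    obtain ⟨i, hi⟩ := this
    refine ⟨i, ?_⟩
    by_contra hc
    rw [not_le, abs_lt] at hc
    refine hi ⟨?_, ?_⟩
    · rw [hsy]
      linarith
    · linarith
  have hout : ∀ x : ι → ℝ, x ∉ Bn ι N m → (η / 2) ^ 2 ≤ ∑ i, x i ^ 2 := by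
    intro x hx
    obtain ⟨i, h8⟩ := hout0 x hx
    have h9 : (η / 2) ^ 2 ≤ x i ^ 2 := by
      rw [← sq_abs (x i)]
      exact pow_le_pow_left₀ (by positivity) h8 2
    exact h9.trans (single_le_sum (f := fun i => x i ^ 2) (fun i _ => sq_nonneg _) (mem_univ i))
  -- the shifted box
  set Bs : Set (ι → ℝ) := {x | x - δ ∈ Bn ι N m} with hBs
  have hBsm : MeasurableSet Bs := by
    have : Measurable fun x : ι → ℝ => x - δ := measurable_id.sub_const δ
    exact this hBnm
  have hBsB : Bs ⊆ Bo := by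
    intro x hx i
    have h8 := hBB _ hx i
    have h9 := hδi i
    rw [Pi.sub_apply] at h8
    have h10 := abs_add_le (x i - δ i) (δ i)
    rw [sub_add_cancel] at h10
    linarith
  have hsout : ∀ x : ι → ℝ, x ∉ Bs → (η / 4) ^ 2 ≤ ∑ i, x i ^ 2 := by
    intro x hx
    obtain ⟨i, h8⟩ := hout0 (x - δ) hx
    rw [Pi.sub_apply] at h8
    have h9 := hδi i
    have h10 := abs_sub (x i) (δ i)
    have h11 : η / 4 ≤ |x i| := by linarith
    have h12 : (η / 4) ^ 2 ≤ x i ^ 2 := by
      rw [← sq_abs (x i)]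
      exact pow_le_pow_left₀ (by positivity) h11 2
    exact h12.trans (single_le_sum (f := fun i => x i ^ 2) (fun i _ => sq_nonneg _) (mem_univ i))
  have hFi : Integrable (F N) volume := by
    refine Integrable.mono' ((gauss_int (ι := ι) (b := κ * N) (by positivity)).const_mul B) h3
      (Eventually.of_forall h2)
  have hsplit : ∫ x, F N x = (∫ x in Bn ι N m, F N x) + ∫ x in (Bn ι N m)ᶜ, F N x :=
    (integral_add_compl hBnm hFi).symm
  have hgg : ∀ u : ι → ℂ, Complex.exp (N * q u) * H' N u = g (u + dl N) := by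
    intro u
    rw [hH', hg]
    simp only
    rw [← mul_assoc, ← Complex.exp_add]
    congr 2
    ring
  have hin : ∫ x in Bn ι N m, F N x = ∫ x in Bn ι N m,
      Complex.exp (N * q fun i => (st univ N x i : ℂ)) * H' N fun i => (st univ N x i : ℂ) := by
    refine setIntegral_congr_fun hBnm fun x hx => ?_
    have h8 := h4 x fun i => (hBB x hx i).trans e3
    rw [h8, hgg]
    have e : ((fun i => (st univ N x i : ℂ)) + dl N : ι → ℂ) =
        fun i => ((st univ N x i + s N i / N : ℝ) : ℂ) := by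
      funext i
      rw [hdl, Pi.add_apply]
      push_cast
      rfl
    rw [e]
  have hsh : (∫ x in Bn ι N m, Complex.exp (N * q fun i => (x i : ℂ)) *
      H' N fun i => (x i : ℂ)) = ∫ x in Bs, g fun i => (x i : ℂ) := by
    have htr := integral_add_right_eq_self (μ := (volume : Measure (ι → ℝ)))
      (Bs.indicator fun x : ι → ℝ => g fun i => (x i : ℂ)) δ
    rw [← integral_indicator hBnm, ← integral_indicator hBsm, ← htr]
    congr 1
    funext x
    have hiff : x + δ ∈ Bs ↔ x ∈ Bn ι N m := by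
      show x + δ - δ ∈ Bn ι N m ↔ _
      rw [add_sub_cancel_right]
    by_cases hx : x ∈ Bn ι N m
    · rw [Set.indicator_of_mem hx, Set.indicator_of_mem (hiff.2 hx), hgg]
      congr 1
      funext i
      show (x i : ℂ) + ((s N i / N : ℝ) : ℂ) = ((x i + s N i / N : ℝ) : ℂ)
      rw [Complex.ofReal_add]
    · rw [Set.indicator_of_notMem hx, Set.indicator_of_notMem (fun h => hx (hiff.1 h))]
  have ho : ‖∫ x in (Bn ι N m)ᶜ, F N x‖ ≤ B * Real.exp (-(c1 * N)) * I0 := by
    have hgi : Integrable (fun x : ι → ℝ => B * Real.exp (-(c1 * N)) *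
        Real.exp (-(κ / 2 * ∑ i, x i ^ 2))) volume :=
      (gauss_int (ι := ι) (b := κ / 2) (by positivity)).const_mul _
    have f1 : ‖∫ x in (Bn ι N m)ᶜ, F N x‖ ≤ ∫ x in (Bn ι N m)ᶜ, B * Real.exp (-(c1 * N)) *
        Real.exp (-(κ / 2 * ∑ i, x i ^ 2)) := by
      refine norm_integral_le_of_norm_le hgi.integrableOn ?_
      rw [ae_restrict_iff' hBnm.compl]
      refine Eventually.of_forall fun x hx => (h2 x).trans ?_
      rw [mul_assoc B (Real.exp _) (Real.exp _), ← Real.exp_add]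
      refine mul_le_mul_of_nonneg_left (Real.exp_le_exp.2 ?_) hB
      have hx2 := hout x hx
      set Q : ℝ := ∑ i, x i ^ 2
      have hQ : 0 ≤ Q := (sq_nonneg _).trans hx2
      have a1 : κ / 2 * N * (η / 2) ^ 2 ≤ κ / 2 * N * Q := by gcongr
      have a2 : κ / 2 * Q * 1 ≤ κ / 2 * Q * N := by gcongr
      have a3 : c1 ≤ κ * η ^ 2 / 8 := (min_le_right _ _).trans (min_le_left _ _)
      have a4 := mul_le_mul_of_nonneg_right a3 hN0.le
      linarith
    refine f1.trans ?_
    refine (setIntegral_le_integral hgi (Eventually.of_forall fun x => by positivity)).trans ?_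
    rw [integral_const_mul]
  -- the difference of the boxes
  have hgc : ContinuousOn (fun x : ι → ℝ => g fun i => (x i : ℂ)) Bo := by
    have hmaps : Set.MapsTo (fun x : ι → ℝ => (fun i => (x i : ℂ))) Bo (Metric.ball (0 : ι → ℂ) R) := by
      intro x hx
      rw [mem_ball_zero_iff, pi_norm_lt_iff hR]
      intro i
      rw [Complex.norm_real, Real.norm_eq_abs]
      have := hx i
      linarith
    have h8 : ContinuousOn g (Metric.ball 0 R) :=
      ((hqdo.const_mul (N : ℂ)).cexp.continuousOn).mul h7.continuousOn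
    exact h8.comp (Continuous.continuousOn (by fun_prop)) hmaps
  have hgR : ∀ x ∈ Bo, ‖g fun i => (x i : ℂ)‖ ≤ B0 * Real.exp (-(κ' * N * ∑ i, x i ^ 2)) := by
    intro x hx
    have hxR : ∀ i, |x i| < R := by
      intro i
      have := hx i
      linarith
    have h8 := hre x hxR
    have h9 : (fun i => (x i : ℂ)) ∈ Metric.ball (0 : ι → ℂ) R := by
      rw [mem_ball_zero_iff, pi_norm_lt_iff hR]
      intro i
      rw [Complex.norm_real, Real.norm_eq_abs]
      exact hxR i
    rw [hg]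
    simp only
    rw [norm_mul, Complex.norm_exp, mul_comm]
    refine mul_le_mul (h6 _ h9) (Real.exp_le_exp.2 ?_) (Real.exp_nonneg _) hB0
    have e : ((N : ℂ) * q fun i => (x i : ℂ)).re = N * (q fun i => (x i : ℂ)).re := by simp
    rw [e]
    calc (N : ℝ) * (q fun i => (x i : ℂ)).re ≤ N * (-κ' * ∑ i, x i ^ 2) :=
          mul_le_mul_of_nonneg_left h8 hN0.le
      _ = _ := by ring
  have hBoc : IsCompact Bo := by
    rw [hBopi]
    exact isCompact_univ_pi fun _ => isCompact_Icc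
  have hgi : IntegrableOn (fun x : ι → ℝ => g fun i => (x i : ℂ)) Bo :=
    hgc.integrableOn_compact hBoc
  have hdif : ‖(∫ x in Bs, g fun i => (x i : ℂ)) - ∫ x in Bo, g fun i => (x i : ℂ)‖ ≤
      B0 * Real.exp (-(c1 * N)) * (volume : Measure (ι → ℝ)).real Bo := by
    have f1 : (∫ x in Bo, g fun i => (x i : ℂ)) = (∫ x in Bs, g fun i => (x i : ℂ)) +
        ∫ x in Bo \ Bs, g fun i => (x i : ℂ) := by
      rw [← setIntegral_union Set.disjoint_sdiff_right (hBom.diff hBsm) (hgi.mono_set hBsB)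
        (hgi.mono_set Set.sdiff_subset), Set.union_sdiff_cancel hBsB]
    rw [f1, sub_add_cancel_left, norm_neg]
    have f2 : ‖∫ x in Bo \ Bs, g fun i => (x i : ℂ)‖ ≤ B0 * Real.exp (-(c1 * N)) *
        (volume : Measure (ι → ℝ)).real (Bo \ Bs) := by
      refine norm_setIntegral_le_of_norm_le_const
        ((measure_mono Set.sdiff_subset).trans_lt hBov.lt_top) fun x hx => ?_
      refine (hgR x hx.1).trans (mul_le_mul_of_nonneg_left (Real.exp_le_exp.2 ?_) hB0)
      have hx2 := hsout x hx.2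
      have a1 : κ' * N * (η / 4) ^ 2 ≤ κ' * N * ∑ i, x i ^ 2 := by gcongr
      have a3 : c1 ≤ κ' * η ^ 2 / 16 := (min_le_right _ _).trans (min_le_right _ _)
      have a4 := mul_le_mul_of_nonneg_right a3 hN0.le
      linarith
    refine f2.trans (mul_le_mul_of_nonneg_left ?_ (by positivity))
    exact measureReal_mono Set.sdiff_subset hBov
  -- the conclusion
  have hall : ‖(∫ x, F N x) - ∫ x in Bo, g fun i => (x i : ℂ)‖ ≤ C1 * Real.exp (-(c1 * N)) := by
    rw [hsh] at h5
    rw [hsplit, hin]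
    have f1 : ∀ a b c d : ℂ, a + b - d = b + (a - c) + (c - d) := fun a b c d => by ring
    rw [f1 _ _ (∫ x in Bs, g fun i => (x i : ℂ)) _]
    have f2 : ‖(∫ x in Bn ι N m, Complex.exp (N * q fun i => (st univ N x i : ℂ)) *
        H' N fun i => (st univ N x i : ℂ)) -
        ∫ x in Bs, g fun i => (x i : ℂ)‖ ≤ |C0| * Real.exp (-(c1 * N)) := by
      refine h5.trans ?_
      refine (mul_le_mul_of_nonneg_right (le_abs_self _) (Real.exp_pos _).le).trans ?_
      refine mul_le_mul_of_nonneg_left (Real.exp_le_exp.2 ?_) (abs_nonneg _)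
      have a3 : c1 ≤ c0 := min_le_left _ _
      have a4 := mul_le_mul_of_nonneg_right a3 hN0.le
      linarith
    refine (norm_add_le _ _).trans ((add_le_add ((norm_add_le _ _).trans (add_le_add ho f2))
      hdif).trans (le_of_eq ?_))
    rw [hC1]
    ring
  rw [← mul_sub, norm_mul, norm_pow, Complex.norm_real, Real.norm_of_nonneg (Real.sqrt_nonneg _)]
  have hs : √(N:ℝ) ≤ N := by
    rw [Real.sqrt_le_left (by linarith)]
    nlinarith
  refine le_trans ?_ h1
  calc √(N:ℝ) ^ Fintype.card ι * ‖(∫ x, F N x) - ∫ x in Bo, g fun i => (x i : ℂ)‖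
      ≤ (N:ℝ) ^ Fintype.card ι * (C1 * Real.exp (-(c1 * N))) :=
        mul_le_mul (pow_le_pow_left₀ (Real.sqrt_nonneg _) hs _) hall (norm_nonneg _) (by positivity)
    _ = _ := by ring

end Pool.Agent.H760.TC
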